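import Pool.Agent.Lib_helper98.LM.Defs

set_option autoImplicit false

/-!
# Weights of endomorphisms

`ι : k → ℂ` is an embedding. An endomorphism has weight `c` if all complex roots `z` of its
characteristic polynomial satisfy `‖z‖² = c`.
-/

namespace Pool.Agent.LM

open Polynomial Module

section

variable {k : Type*} [Field k] {E : Type*} [AddCommGroup E] [Module k E] [FiniteDimensional k E]

/-- the complex roots of the characteristic polynomial are roots of every polynomial that kills
the endomorphism -/
theorem root_of_aeval (ι : k →+* ℂ) (f : Module.End k E) (P : k[X]) (hP : aeval f P = 0) (z : ℂ)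
    (hz : (f.charpoly.map ι).IsRoot z) : (P.map ι).IsRoot z := by
  classical
  let b := Module.finBasis k E
  set A := LinearMap.toMatrix b b f with hA
  have h1 : f.charpoly = A.charpoly := (LinearMap.charpoly_toMatrix f b).symm
  have h2 : (A.map ι).charpoly = A.charpoly.map ι := Matrix.charpoly_map A ι
  rw [h1, ← h2, ← Matrix.mem_spectrum_iff_isRoot_charpoly] at hz
  have h3 : aeval A P = 0 := by
    have h4 : aeval (LinearMap.toMatrixAlgEquiv b f) P = LinearMap.toMatrixAlgEquiv b (aeval f P) :=
      aeval_algHom_apply (LinearMap.toMatrixAlgEquiv b).toAlgHom f P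
    rw [hP, map_zero] at h4
    exact h4
  have h5 : aeval (A.map ι) (P.map ι) = 0 := by
    have h6 := congrArg (fun M : Matrix _ _ k => M.map ι) h3
    simp only [Matrix.map_zero _ (map_zero ι)] at h6
    rw [← h6]
    rw [aeval_def, aeval_def, eval₂_map]
    have h7 := Polynomial.hom_eval₂ P (algebraMap k (Matrix (Fin (finrank k E)) (Fin (finrank k E)) k))
      (ι.mapMatrix) A
    rw [RingHom.mapMatrix_apply, RingHom.mapMatrix_apply] at h7
    rw [h7]
    congr 1
    ext x i j
    simp [Matrix.algebraMap_matrix_apply]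
    split_ifs <;> simp
  have h8 : eval z (P.map ι) ∈ spectrum ℂ (aeval (A.map ι) (P.map ι)) :=
    spectrum.subset_polynomial_aeval (A.map ι) (P.map ι) ⟨z, hz, rfl⟩
  rw [h5] at h8
  by_contra h9
  have h10 : (Nontrivial (Matrix (Fin (finrank k E)) (Fin (finrank k E)) ℂ)) := by
    by_contra h11
    rw [not_nontrivial_iff_subsingleton] at h11
    have h12 : spectrum ℂ (A.map ι) = ∅ := spectrum.of_subsingleton _
    rw [h12] at hz
    exact hz
  rw [spectrum.zero_eq] at h8
  exact h9 h8

theorem abs_det (ι : k →+* ℂ) (f : Module.End k E) (c : ℝ) (h : RootsAbs ι f.charpoly c) :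
    ‖ι (LinearMap.det f)‖ ^ 2 = c ^ finrank k E := by
  classical
  rw [LinearMap.det_eq_sign_charpoly_coeff]
  have h1 : ι (f.charpoly.coeff 0) = (f.charpoly.map ι).coeff 0 := by rw [coeff_map]
  have h2 : (f.charpoly.map ι).Splits := IsAlgClosed.splits _
  have h3 : (f.charpoly.map ι).Monic := f.charpoly_monic.map ι
  have h4 : (f.charpoly.map ι).natDegree = finrank k E := by
    rw [natDegree_map, LinearMap.charpoly_natDegree]
  have h5 : Multiset.card (f.charpoly.map ι).roots = finrank k E := by
    rw [← h4]; exact h2.natDegree_eq_card_roots.symm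
  have h6 : (f.charpoly.map ι).coeff 0 =
      (-1) ^ finrank k E * (f.charpoly.map ι).roots.prod := by
    rw [h2.coeff_zero_eq_leadingCoeff_mul_prod_roots, h3.leadingCoeff, h4, mul_one]
  rw [map_mul, h1, h6, map_pow, map_neg, map_one, norm_mul, norm_mul, norm_pow, norm_neg, norm_one,
    one_pow, one_mul, one_mul]
  have h7 : ∀ s : Multiset ℂ, (∀ z ∈ s, ‖z‖ ^ 2 = c) → ‖s.prod‖ ^ 2 = c ^ Multiset.card s := by
    intro s
    induction s using Multiset.induction_on with
    | empty => intro _; simp
    | cons a s ih =>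
      intro hs
      rw [Multiset.prod_cons, norm_mul, mul_pow, ih fun z hz => hs z (Multiset.mem_cons_of_mem hz),
        hs a (Multiset.mem_cons_self a s), Multiset.card_cons, pow_succ, mul_comm]
  rw [h7 _ fun z hz => h z (isRoot_of_mem_roots hz), h5]

/-- the complex roots of the characteristic polynomial of a power -/
theorem root_pow (ι : k →+* ℂ) (f : Module.End k E) (j : ℕ) (hj : 0 < j) (z : ℂ)
    (hz : ((f ^ j).charpoly.map ι).IsRoot z) : ∃ y : ℂ, (f.charpoly.map ι).IsRoot y ∧ y ^ j = z := by
  classical
  let b := Module.finBasis k E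
  set A := LinearMap.toMatrix b b f with hA
  have h0 : LinearMap.toMatrix b b (f ^ j) = A ^ j := by
    rw [hA]; exact (LinearMap.toMatrix_pow b f j).symm
  have h1 : f.charpoly = A.charpoly := (LinearMap.charpoly_toMatrix f b).symm
  have h1' : (f ^ j).charpoly = (A ^ j).charpoly := by
    rw [← h0]; exact (LinearMap.charpoly_toMatrix (f ^ j) b).symm
  have h2 : (A.map ι).charpoly = A.charpoly.map ι := Matrix.charpoly_map A ι
  have h2' : ((A ^ j).map ι).charpoly = (A ^ j).charpoly.map ι := Matrix.charpoly_map (A ^ j) ι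
  rw [h1', ← h2', ← Matrix.mem_spectrum_iff_isRoot_charpoly] at hz
  have h3 : (A ^ j).map ι = (A.map ι) ^ j := by
    have := map_pow (ι.mapMatrix) A j
    simpa using this
  rw [h3, spectrum.map_pow_of_pos _ hj] at hz
  obtain ⟨y, hy, hyz⟩ := hz
  refine ⟨y, ?_, hyz⟩
  rw [h1, ← h2, ← Matrix.mem_spectrum_iff_isRoot_charpoly]
  exact hy

end

end Pool.Agent.LM
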