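import Pool.Agent.Lib_helper98.LM.A1

set_option autoImplicit false

/-!
# Weight spaces
-/

namespace Pool.Agent.LM

open Polynomial Module

section

variable {k : Type*} [Field k] {E : Type*} [AddCommGroup E] [Module k E]

theorem mem_ws {ι : k →+* ℂ} {f : Module.End k E} {c : ℝ} {x : E} :
    x ∈ ws ι f c ↔ ∃ P : k[X], P ≠ 0 ∧ RootsAbs ι P c ∧ aeval f P x = 0 := Iff.rfl

theorem coprime_of_rootsAbs {ι : k →+* ℂ} {P Q : k[X]} {c d : ℝ} (hcd : c ≠ d)
    (hP : RootsAbs ι P c) (hQ : RootsAbs ι Q d) : IsCoprime P Q := by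
  let _ := ι.toAlgebra
  rw [Polynomial.isCoprime_iff_aeval_ne_zero_of_isAlgClosed k ℂ]
  intro a
  by_contra h
  push Not at h
  apply hcd
  have h1 := hP a (by rw [IsRoot, eval_map]; exact h.1)
  have h2 := hQ a (by rw [IsRoot, eval_map]; exact h.2)
  rw [← h1, ← h2]

/-- the components of a vector of a stable subspace -/
theorem comp_mem {κ : Type*} [DecidableEq κ] (ι : k →+* ℂ) (f : Module.End k E) (c : κ → ℝ)
    (hc : Function.Injective c) (s : Finset κ) (y : κ → E) (hy : ∀ i ∈ s, y i ∈ ws ι f (c i))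
    (W : Submodule k E) (hW : ∀ x ∈ W, f x ∈ W) (h : ∑ i ∈ s, y i ∈ W) : ∀ i ∈ s, y i ∈ W := by
  intro i hi
  have h1 : ∀ j, ∃ P : k[X], P ≠ 0 ∧ (j ∈ s → RootsAbs ι P (c j) ∧ aeval f P (y j) = 0) := by
    intro j
    by_cases hj : j ∈ s
    · obtain ⟨P, h0, h1, h2⟩ := hy j hj
      exact ⟨P, h0, fun _ => ⟨h1, h2⟩⟩
    · exact ⟨1, one_ne_zero, fun h => absurd h hj⟩
  choose P hP0 hP using h1
  have h2 : IsCoprime (P i) (∏ j ∈ s.erase i, P j) := by
    refine IsCoprime.prod_right fun j hj => ?_
    rw [Finset.mem_erase] at hj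
    exact coprime_of_rootsAbs (fun h => hj.1 (hc h).symm) (hP i hi).1 (hP j hj.2).1
  obtain ⟨a, b, hab⟩ := h2
  have hWp : ∀ (p : k[X]), ∀ x ∈ W, aeval f p x ∈ W := by
    intro p x hx
    induction p using Polynomial.induction_on' with
    | add p q hp hq => rw [map_add, LinearMap.add_apply]; exact W.add_mem hp hq
    | monomial n a =>
      rw [aeval_monomial, Module.End.mul_apply, Module.algebraMap_end_apply]
      refine W.smul_mem _ ?_
      induction n with
      | zero => simpa using hx
      | succ n ih => rw [pow_succ', Module.End.mul_apply]; exact hW _ ih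
  have h3 : aeval f (b * ∏ j ∈ s.erase i, P j) (∑ j ∈ s, y j) = y i := by
    rw [map_sum, Finset.sum_eq_single i]
    · have h4 := congrArg (fun p => aeval f p (y i)) hab
      simp only [map_add, LinearMap.add_apply, map_one, Module.End.one_apply] at h4
      rw [map_mul (aeval f) a, Module.End.mul_apply, (hP i hi).2, map_zero, zero_add] at h4
      exact h4
    · intro j hj hji
      rw [map_mul, Module.End.mul_apply, ← Finset.mul_prod_erase (s.erase i) P
        (Finset.mem_erase.2 ⟨hji, hj⟩), mul_comm, map_mul, Module.End.mul_apply, (hP j hj).2,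
        map_zero, map_zero]
    · intro h; exact absurd hi h
  rw [← h3]
  exact hWp _ _ h

theorem ws_indep {κ : Type*} [DecidableEq κ] (ι : k →+* ℂ) (f : Module.End k E) (c : κ → ℝ)
    (hc : Function.Injective c) : iSupIndep fun i => ws ι f (c i) := by
  rw [iSupIndep_iff_finsetSum_eq_zero_imp_eq_zero]
  intro s y hy h
  have h1 := comp_mem ι f c hc s (fun i => y i) (fun i hi => hy i hi) ⊥ (by simp) (by simpa using h)
  intro i hi
  simpa using h1 i hi

theorem ws_stable (ι : k →+* ℂ) (f : Module.End k E) (c : ℝ) : ∀ x ∈ ws ι f c, f x ∈ ws ι f c := by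
  rintro x ⟨P, h0, h1, h2⟩
  refine ⟨P, h0, h1, ?_⟩
  have h3 : (aeval f P * f) x = (f * aeval f P) x := by
    have h4 : aeval f P * f = f * aeval f P := by
      have h5 := (Polynomial.aeval_algHom_apply (AlgHom.id k _) f P)
      have h6 : aeval f (P * X) = aeval f (X * P) := by rw [mul_comm]
      rw [map_mul, map_mul, aeval_X] at h6
      exact h6
    rw [h4]
  rw [Module.End.mul_apply, Module.End.mul_apply, h2, map_zero] at h3
  exact h3

end

end Pool.Agent.LM
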