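import Pool.Agent.Lib_helper98.LM.A2

set_option autoImplicit false

/-!
# Dimensions and determinants
-/

namespace Pool.Agent.LM

open Polynomial Module

theorem det_block {κ R : Type*} [CommRing R] [Fintype κ] [LinearOrder κ] {m : κ → Type*}
    [∀ i, Fintype (m i)] [∀ i, DecidableEq (m i)] (M : ∀ i, Matrix (m i) (m i) R) :
    (Matrix.blockDiagonal' M).det = ∏ i, (M i).det := by
  rw [(Matrix.blockTriangular_blockDiagonal' M).det_fintype]
  refine Finset.prod_congr rfl fun i _ => ?_
  let e : m i ≃ {a : Σ i, m i // a.1 = i} :=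
    { toFun := fun x => ⟨⟨i, x⟩, rfl⟩
      invFun := fun a => a.2 ▸ a.1.2
      left_inv := fun x => rfl
      right_inv := by rintro ⟨⟨j, x⟩, rfl⟩; rfl }
  rw [← Matrix.det_submatrix_equiv_self e]
  congr 1
  ext x y
  simp [Matrix.toSquareBlock, Matrix.toSquareBlockProp, e, Matrix.blockDiagonal'_apply]

section

variable {k : Type*} [Field k] {E : Type*} [AddCommGroup E] [Module k E]

theorem coe_restrict_pow (f : Module.End k E) (W : Submodule k E) (h : ∀ x ∈ W, f x ∈ W) (n : ℕ)
    (x : W) : (((f.restrict h) ^ n) x : E) = (f ^ n) x := by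
  induction n with
  | zero => simp
  | succ n ih => rw [pow_succ', pow_succ', Module.End.mul_apply, Module.End.mul_apply, ← ih]; rfl

theorem coe_aeval_restrict (f : Module.End k E) (W : Submodule k E) (h : ∀ x ∈ W, f x ∈ W)
    (p : k[X]) (x : W) : ((aeval (f.restrict h) p) x : E) = aeval f p x := by
  induction p using Polynomial.induction_on' with
  | add p q hp hq =>
    rw [map_add, map_add, LinearMap.add_apply, LinearMap.add_apply, Submodule.coe_add, hp, hq]
  | monomial n a =>
    rw [aeval_monomial, aeval_monomial, Module.End.mul_apply, Module.End.mul_apply,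
      Module.algebraMap_end_apply, Module.algebraMap_end_apply, Submodule.coe_smul,
      coe_restrict_pow]

variable [FiniteDimensional k E]

theorem exists_poly (ι : k →+* ℂ) (f : Module.End k E) (c : ℝ) (U : Submodule k E)
    (hU : U ≤ ws ι f c) : ∃ P : k[X], P ≠ 0 ∧ RootsAbs ι P c ∧ ∀ x ∈ U, aeval f P x = 0 := by
  classical
  let b := Module.finBasis k U
  have h1 : ∀ i, ∃ P : k[X], P ≠ 0 ∧ RootsAbs ι P c ∧ aeval f P (b i : E) = 0 :=
    fun i => hU (b i).2
  choose P h0 hP h2 using h1
  refine ⟨∏ i, P i, Finset.prod_ne_zero_iff.2 fun i _ => h0 i, ?_, ?_⟩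
  · refine Finset.prod_induction P (fun Q => RootsAbs ι Q c) (fun _ _ => RootsAbs.mul) ?_
      fun i _ => hP i
    intro z hz
    simp [IsRoot] at hz
  · intro x hx
    have h3 : (aeval f (∏ i, P i)) ∘ₗ U.subtype = 0 := by
      refine b.ext fun i => ?_
      rw [LinearMap.comp_apply, Submodule.subtype_apply, LinearMap.zero_apply,
        ← Finset.mul_prod_erase Finset.univ P (Finset.mem_univ i), mul_comm, map_mul,
        Module.End.mul_apply, h2, map_zero]
    exact LinearMap.congr_fun h3 ⟨x, hx⟩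

theorem rootsAbs_restrict (ι : k →+* ℂ) (f : Module.End k E) (c : ℝ) (U : Submodule k E)
    (hU : U ≤ ws ι f c) (h : ∀ x ∈ U, f x ∈ U) : RootsAbs ι (f.restrict h).charpoly c := by
  obtain ⟨P, _, hP, h1⟩ := exists_poly ι f c U hU
  intro z hz
  refine hP z (root_of_aeval ι (f.restrict h) P ?_ z hz)
  ext x
  rw [coe_aeval_restrict, h1 _ x.2]
  rfl

section

variable {κ : Type*} [LinearOrder κ] [Fintype κ] (ι : k →+* ℂ) (f : Module.End k E) (c : κ → ℝ)

theorem finrank_sum (hc : Function.Injective c) (htop : ⨆ i, ws ι f (c i) = ⊤) :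
    finrank k E = ∑ i, finrank k (ws ι f (c i)) := by
  have h := DirectSum.isInternal_submodule_of_iSupIndep_of_iSup_eq_top (ws_indep ι f c hc) htop
  let b : (i : κ) → Basis _ k (ws ι f (c i)) := fun i => Module.finBasis k (ws ι f (c i))
  rw [Module.finrank_eq_card_basis (h.collectedBasis b), Fintype.card_sigma]
  exact Finset.sum_congr rfl fun i _ => Fintype.card_fin _

theorem abs_det_prod (hc : Function.Injective c) (htop : ⨆ i, ws ι f (c i) = ⊤) :
    ‖ι (LinearMap.det f)‖ ^ 2 = ∏ i, (c i) ^ finrank k (ws ι f (c i)) := by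
  have h := DirectSum.isInternal_submodule_of_iSupIndep_of_iSup_eq_top (ws_indep ι f c hc) htop
  let b : (i : κ) → Basis _ k (ws ι f (c i)) := fun i => Module.finBasis k (ws ι f (c i))
  have hf : ∀ i, Set.MapsTo f (ws ι f (c i)) (ws ι f (c i)) := fun i => ws_stable ι f (c i)
  have h1 : LinearMap.det f = ∏ i, LinearMap.det (f.restrict (hf i)) := by
    rw [← LinearMap.det_toMatrix (h.collectedBasis b),
      LinearMap.toMatrix_directSum_collectedBasis_eq_blockDiagonal' h h b b hf,
      det_block]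
    exact Finset.prod_congr rfl fun i _ => LinearMap.det_toMatrix _ _
  rw [h1, map_prod, norm_prod, ← Finset.prod_pow]
  refine Finset.prod_congr rfl fun i _ => ?_
  exact abs_det ι _ (c i) (rootsAbs_restrict ι f (c i) (ws ι f (c i)) le_rfl (ws_stable ι f (c i)))

end

/-- weight spaces of powers -/
theorem ws_pow (ι : k →+* ℂ) (f : Module.End k E) (c : ℝ) (j : ℕ) (hj : 0 < j) :
    ws ι f c ≤ ws ι (f ^ j) (c ^ j) := by
  intro x hx
  have hst : ∀ x ∈ ws ι f c, f x ∈ ws ι f c := ws_stable ι f c
  have hst' : ∀ x ∈ ws ι f c, (f ^ j) x ∈ ws ι f c := by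
    intro x hx
    have := (((f.restrict hst) ^ j) ⟨x, hx⟩).2
    rwa [coe_restrict_pow] at this
  refine ⟨((f ^ j).restrict hst').charpoly, (LinearMap.charpoly_monic _).ne_zero, ?_, ?_⟩
  · intro z hz
    have h1 : (f ^ j).restrict hst' = (f.restrict hst) ^ j := by
      ext y
      rw [coe_restrict_pow]
      rfl
    rw [h1] at hz
    obtain ⟨y, hy, rfl⟩ := root_pow ι (f.restrict hst) j hj z hz
    have h2 := rootsAbs_restrict ι f c (ws ι f c) le_rfl hst y hy
    rw [norm_pow, ← pow_mul, mul_comm, pow_mul, h2]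
  · have h1 := coe_aeval_restrict (f ^ j) (ws ι f c) hst' ((f ^ j).restrict hst').charpoly ⟨x, hx⟩
    rw [LinearMap.aeval_self_charpoly] at h1
    rw [← h1]
    rfl

end

end Pool.Agent.LM
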