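import Pool.Agent.Lib_helper98.LM.A3

set_option autoImplicit false

/-!
# Weight and monodromy
-/

namespace Pool.Agent.LM

open Polynomial Module

section

variable {k : Type*} [Field k] {E : Type*} [AddCommGroup E] [Module k E]

/-- the first half of weight-monodromy: `N ^ i` is injective on the vectors of weight `w + i` -/
structure WI (ι : k →+* ℂ) (q : ℕ) (w : ℤ) (F N : Module.End k E) : Prop where
  rel : N * F = (q : k) • (F * N)
  top : ⨆ i : ℤ, ws ι F ((q : ℝ) ^ (w + i)) = ⊤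
  inj : ∀ i : ℕ, ∀ x ∈ ws ι F ((q : ℝ) ^ (w + i)), (N ^ i) x = 0 → x = 0

theorem WM.toWI {ι : k →+* ℂ} {q : ℕ} {w : ℤ} {F N : Module.End k E} (h : WM ι q w F N) :
    WI ι q w F N :=
  ⟨h.rel, h.top, fun i x hx hx0 => (h.bij i).injOn hx (Submodule.zero_mem _) (by
    rw [hx0, map_zero])⟩

theorem aeval_smul_mul {F N : Module.End k E} (q : k) (rel : N * F = q • (F * N)) (P : k[X]) :
    aeval (q • F) P * N = N * aeval F P := by
  induction P using Polynomial.induction_on' with
  | add p r hp hr => rw [map_add, map_add, add_mul, mul_add, hp, hr]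
  | monomial n a =>
    have h2 : ∀ n : ℕ, (q • F) ^ n * N = N * F ^ n := by
      intro n
      induction n with
      | zero => simp
      | succ n ih =>
        rw [pow_succ', mul_assoc, ih, ← mul_assoc, smul_mul_assoc, ← rel, mul_assoc, ← pow_succ']
    rw [aeval_monomial, aeval_monomial, mul_assoc, h2, ← mul_assoc, Algebra.commutes, mul_assoc]

theorem ws_shift (ι : k →+* ℂ) {q : ℕ} (hq : 0 < q) (w : ℤ) {F N : Module.End k E}
    (rel : N * F = (q : k) • (F * N)) (i : ℤ) : ∀ x ∈ ws ι F ((q : ℝ) ^ (w + i)),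
    N x ∈ ws ι F ((q : ℝ) ^ (w + (i - 2))) := by
  rintro x ⟨P, h0, hP, hx⟩
  have hqk : (q : k) ≠ 0 := by
    intro h
    have h1 := congrArg ι h
    rw [map_natCast, map_zero] at h1
    exact hq.ne' (by exact_mod_cast h1)
  have hqr : (q : ℝ) ≠ 0 := by exact_mod_cast hq.ne'
  have hlin : (C (q : k) * X : k[X]).natDegree ≠ 0 := by
    rw [natDegree_C_mul_X _ hqk]; exact one_ne_zero
  refine ⟨P.comp (C (q : k) * X), ?_, ?_, ?_⟩
  · intro h
    rcases comp_eq_zero_iff.1 h with h1 | h1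
    · exact h0 h1
    · apply hlin
      rw [h1.2]
      exact natDegree_C _
  · intro z hz
    rw [IsRoot, Polynomial.map_comp, eval_comp, Polynomial.map_mul, map_C, map_X, eval_mul, eval_C,
      eval_X, map_natCast] at hz
    have h1 := hP _ hz
    rw [norm_mul, mul_pow, Complex.norm_natCast] at h1
    have h2 : (q : ℝ) ^ (w + i) = (q : ℝ) ^ 2 * (q : ℝ) ^ (w + (i - 2)) := by
      rw [← zpow_natCast, ← zpow_add₀ hqr]; congr 1; push_cast; ring
    rw [h2] at h1
    exact mul_left_cancel₀ (pow_ne_zero 2 hqr) h1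
  · have h3 : aeval F (P.comp (C (q : k) * X)) * N = N * aeval F P := by
      rw [aeval_comp]
      have h4 : aeval F (C (q : k) * X) = (q : k) • F := by
        rw [map_mul, aeval_C, aeval_X, Algebra.smul_def]
      rw [h4]
      exact aeval_smul_mul _ rel P
    have h5 := LinearMap.congr_fun h3 x
    rw [Module.End.mul_apply, Module.End.mul_apply, hx, map_zero] at h5
    exact h5

theorem ws_shift_pow (ι : k →+* ℂ) {q : ℕ} (hq : 0 < q) (w : ℤ) {F N : Module.End k E}
    (rel : N * F = (q : k) • (F * N)) (j : ℕ) (i : ℤ) : ∀ x ∈ ws ι F ((q : ℝ) ^ (w + i)),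
    (N ^ j) x ∈ ws ι F ((q : ℝ) ^ (w + (i - 2 * j))) := by
  induction j with
  | zero => intro x hx; simpa using hx
  | succ j ih =>
    intro x hx
    rw [pow_succ', Module.End.mul_apply]
    have h1 := ws_shift ι hq w rel _ _ (ih x hx)
    have h2 : i - 2 * ((j + 1 : ℕ) : ℤ) = i - 2 * j - 2 := by push_cast; ring
    rw [h2]
    exact h1

/-- restriction to a stable subspace -/
theorem ws_restrict (ι : k →+* ℂ) (f : Module.End k E) (W : Submodule k E)
    (h : ∀ x ∈ W, f x ∈ W) (c : ℝ) (x : W) : x ∈ ws ι (f.restrict h) c ↔ (x : E) ∈ ws ι f c := by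
  constructor
  · rintro ⟨P, h0, hP, hx⟩
    exact ⟨P, h0, hP, by rw [← coe_aeval_restrict f W h, hx]; rfl⟩
  · rintro ⟨P, h0, hP, hx⟩
    exact ⟨P, h0, hP, by
      apply Subtype.ext
      rw [coe_aeval_restrict, hx]; rfl⟩

theorem wts_injective {q : ℕ} (hq : 1 < q) (w : ℤ) :
    Function.Injective fun i : ℤ => (q : ℝ) ^ (w + i) := by
  intro i j hij
  have h1 : (1 : ℝ) < q := by exact_mod_cast hq
  have h2 := (zpow_right_injective₀ (lt_trans one_pos h1) h1.ne') hij
  simpa using h2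

/-- every vector is a finite sum of vectors of weights -/
theorem exists_sum {ι : k →+* ℂ} {q : ℕ} {w : ℤ} {F : Module.End k E}
    (top : ⨆ i : ℤ, ws ι F ((q : ℝ) ^ (w + i)) = ⊤) (x : E) :
    ∃ (s : Finset ℤ) (y : ℤ → E), (∀ i, y i ∈ ws ι F ((q : ℝ) ^ (w + i))) ∧ x = ∑ i ∈ s, y i := by
  have hx : x ∈ ⨆ i : ℤ, ws ι F ((q : ℝ) ^ (w + i)) := by rw [top]; trivial
  rw [Submodule.mem_iSup_iff_exists_finsupp] at hx
  obtain ⟨y, hy, h⟩ := hx
  exact ⟨y.support, y, hy, h.symm⟩

theorem WI.restrict {ι : k →+* ℂ} {q : ℕ} (hq : 1 < q) {w : ℤ} {F N : Module.End k E}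
    (h : WI ι q w F N) (W : Submodule k E) (hF : ∀ x ∈ W, F x ∈ W) (hN : ∀ x ∈ W, N x ∈ W) :
    WI ι q w (F.restrict hF) (N.restrict hN) where
  rel := by
    ext x
    have := LinearMap.congr_fun h.rel x
    exact this
  top := by
    rw [eq_top_iff]
    rintro x -
    obtain ⟨s, y, hy, hx⟩ := exists_sum h.top (x : E)
    have h1 := comp_mem ι F _ (wts_injective hq w) s y (fun i _ => hy i) W hF (hx ▸ x.2)
    have h2 : x = ∑ i ∈ s.attach, ⟨y i, h1 i i.2⟩ := by
      apply Subtype.ext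
      rw [hx, AddSubmonoidClass.coe_finsetSum, ← Finset.sum_attach]
    rw [h2]
    refine Submodule.sum_mem _ fun i _ => ?_
    refine Submodule.mem_iSup_of_mem (i : ℤ) ?_
    rw [ws_restrict]
    exact hy i
  inj := by
    intro i x hx hx0
    rw [ws_restrict] at hx
    apply Subtype.ext
    refine h.inj i x hx ?_
    rw [← coe_restrict_pow N W hN, hx0]
    rfl

end

end Pool.Agent.LM
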