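import Pool.Agent.Lib_helper98.LM.A4

set_option autoImplicit false

/-!
# Purity of the determinant gives the second half of weight-monodromy
-/

namespace Pool.Agent.LM

open Polynomial Module

section

variable {k : Type*} [Field k] {E : Type*} [AddCommGroup E] [Module k E]

/-- the dimension of the part of weight `w + i` -/
noncomputable def D (ι : k →+* ℂ) (q : ℕ) (w : ℤ) (F : Module.End k E) (i : ℤ) : ℕ :=
  finrank k (ws ι F ((q : ℝ) ^ (w + i)))

theorem sum_Icc_split (g : ℤ → ℤ) (m : ℕ) : ∑ i ∈ Finset.Icc (-m : ℤ) m, g i =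
    g 0 + ∑ i ∈ Finset.range m, (g (i + 1) + g (-(i + 1))) := by
  induction m with
  | zero => simp
  | succ m ih =>
    have h1 : Finset.Icc (-((m + 1 : ℕ) : ℤ)) ((m + 1 : ℕ) : ℤ) =
        insert ((m : ℤ) + 1) (insert (-((m : ℤ) + 1)) (Finset.Icc (-(m : ℤ)) m)) := by
      ext x
      simp only [Finset.mem_Icc, Finset.mem_insert]
      omega
    rw [h1, Finset.sum_insert (by simp only [Finset.mem_insert, Finset.mem_Icc]; omega),
      Finset.sum_insert (by simp only [Finset.mem_Icc]; omega), ih, Finset.sum_range_succ]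
    ring

variable [FiniteDimensional k E]

theorem exists_bound (ι : k →+* ℂ) {q : ℕ} (hq : 1 < q) (w : ℤ) (F : Module.End k E) :
    ∃ m : ℕ, ∀ i : ℤ, (m : ℤ) < |i| → ws ι F ((q : ℝ) ^ (w + i)) = ⊥ := by
  have h1 : {i : ℤ | ws ι F ((q : ℝ) ^ (w + i)) ≠ ⊥}.Finite :=
    WellFoundedGT.finite_ne_bot_of_iSupIndep (ws_indep ι F _ (wts_injective hq w))
  refine ⟨h1.toFinset.sup fun i => i.natAbs, fun i hi => ?_⟩
  by_contra h
  have h2 : i.natAbs ≤ h1.toFinset.sup fun i => i.natAbs :=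
    Finset.le_sup (f := fun i : ℤ => i.natAbs) (h1.mem_toFinset.2 h)
  rw [Int.abs_eq_natAbs] at hi
  omega

omit [FiniteDimensional k E] in
theorem top_Icc {ι : k →+* ℂ} {q : ℕ} {w : ℤ} {F : Module.End k E}
    (top : ⨆ i : ℤ, ws ι F ((q : ℝ) ^ (w + i)) = ⊤) (m : ℕ)
    (hm : ∀ i : ℤ, (m : ℤ) < |i| → ws ι F ((q : ℝ) ^ (w + i)) = ⊥) :
    ⨆ i : ↥(Finset.Icc (-m : ℤ) m), ws ι F ((q : ℝ) ^ (w + (i : ℤ))) = ⊤ := by
  rw [eq_top_iff, ← top]
  refine iSup_le fun i => ?_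
  by_cases hi : (m : ℤ) < |i|
  · rw [hm i hi]; exact bot_le
  · have h1 : i ∈ Finset.Icc (-m : ℤ) m := by
      rw [Finset.mem_Icc]
      exact abs_le.1 (not_lt.1 hi)
    exact le_iSup (fun i : ↥(Finset.Icc (-m : ℤ) m) => ws ι F ((q : ℝ) ^ (w + (i : ℤ)))) ⟨i, h1⟩

theorem finrank_Icc {ι : k →+* ℂ} {q : ℕ} (hq : 1 < q) {w : ℤ} {F : Module.End k E}
    (top : ⨆ i : ℤ, ws ι F ((q : ℝ) ^ (w + i)) = ⊤) (m : ℕ)
    (hm : ∀ i : ℤ, (m : ℤ) < |i| → ws ι F ((q : ℝ) ^ (w + i)) = ⊥) :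
    finrank k E = ∑ i ∈ Finset.Icc (-m : ℤ) m, D ι q w F i := by
  rw [← Finset.sum_coe_sort]
  exact finrank_sum ι F (fun i : ↥(Finset.Icc (-m : ℤ) m) => (q : ℝ) ^ (w + (i : ℤ)))
    (fun i j hij => Subtype.ext (wts_injective hq w hij)) (top_Icc top m hm)

theorem det_Icc {ι : k →+* ℂ} {q : ℕ} (hq : 1 < q) {w : ℤ} {F : Module.End k E}
    (top : ⨆ i : ℤ, ws ι F ((q : ℝ) ^ (w + i)) = ⊤) (m : ℕ)
    (hm : ∀ i : ℤ, (m : ℤ) < |i| → ws ι F ((q : ℝ) ^ (w + i)) = ⊥) :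
    ‖ι (LinearMap.det F)‖ ^ 2 =
      (q : ℝ) ^ (∑ i ∈ Finset.Icc (-m : ℤ) m, (w + i) * (D ι q w F i : ℤ)) := by
  have hq0 : (q : ℝ) ≠ 0 := by exact_mod_cast (zero_lt_one.trans hq).ne'
  rw [abs_det_prod ι F (fun i : ↥(Finset.Icc (-m : ℤ) m) => (q : ℝ) ^ (w + (i : ℤ)))
    (fun i j hij => Subtype.ext (wts_injective hq w hij)) (top_Icc top m hm)]
  have h1 : ∀ s : Finset ℤ, (q : ℝ) ^ (∑ i ∈ s, (w + i) * (D ι q w F i : ℤ)) =
      ∏ i ∈ s, ((q : ℝ) ^ (w + i)) ^ D ι q w F i := by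
    intro s
    induction s using Finset.induction_on with
    | empty => simp
    | insert a s ha ih =>
      rw [Finset.sum_insert ha, Finset.prod_insert ha, zpow_add₀ hq0, ih, zpow_mul, zpow_natCast]
  rw [h1]
  exact Finset.prod_coe_sort (Finset.Icc (-m : ℤ) m)
    (fun i => ((q : ℝ) ^ (w + i)) ^ D ι q w F i)

/-- `N ^ i` is injective on the part of weight `w + i` -/
theorem WI.D_le {ι : k →+* ℂ} {q : ℕ} (hq : 1 < q) {w : ℤ} {F N : Module.End k E}
    (h : WI ι q w F N) (i : ℕ) : D ι q w F i ≤ D ι q w F (-i) := by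
  have h1 : ∀ x ∈ ws ι F ((q : ℝ) ^ (w + (i : ℤ))), (N ^ i) x ∈ ws ι F ((q : ℝ) ^ (w + (-i : ℤ))) := by
    intro x hx
    have := ws_shift_pow ι (zero_lt_one.trans hq) w h.rel i i x hx
    have h2 : (i : ℤ) - 2 * i = -i := by ring
    rwa [h2] at this
  refine LinearMap.finrank_le_finrank_of_injective (f := (N ^ i).restrict h1) ?_
  rw [← LinearMap.ker_eq_bot, LinearMap.ker_eq_bot']
  intro x hx
  apply Subtype.ext
  exact h.inj i x x.2 (congrArg Subtype.val hx)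

omit [FiniteDimensional k E] in
theorem D_eq_zero {ι : k →+* ℂ} {q : ℕ} {w : ℤ} {F : Module.End k E} {i : ℤ}
    (h : ws ι F ((q : ℝ) ^ (w + i)) = ⊥) : D ι q w F i = 0 := by
  rw [D, h, finrank_bot]

theorem WI.D_eq {ι : k →+* ℂ} {q : ℕ} (hq : 1 < q) {w : ℤ} {F N : Module.End k E}
    (h : WI ι q w F N) (hdet : ‖ι (LinearMap.det F)‖ ^ 2 = (q : ℝ) ^ (w * (finrank k E : ℤ)))
    (i : ℕ) : D ι q w F i = D ι q w F (-i) := by
  obtain ⟨m, hm⟩ := exists_bound ι hq w F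
  have hq1 : (1 : ℝ) < q := by exact_mod_cast hq
  rw [det_Icc hq h.top m hm] at hdet
  have h1 := (zpow_right_injective₀ (lt_trans one_pos hq1) hq1.ne') hdet
  rw [finrank_Icc hq h.top m hm] at h1
  have h2 : ∑ i ∈ Finset.Icc (-m : ℤ) m, i * (D ι q w F i : ℤ) = 0 := by
    have h3 : ∑ i ∈ Finset.Icc (-m : ℤ) m, (w + i) * (D ι q w F i : ℤ) =
        w * ∑ i ∈ Finset.Icc (-m : ℤ) m, (D ι q w F i : ℤ) +
        ∑ i ∈ Finset.Icc (-m : ℤ) m, i * (D ι q w F i : ℤ) := by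
      rw [Finset.mul_sum, ← Finset.sum_add_distrib]
      exact Finset.sum_congr rfl fun i _ => by ring
    push_cast at h1
    rw [h3] at h1
    linarith
  rw [sum_Icc_split (fun i => i * (D ι q w F i : ℤ))] at h2
  simp only [zero_mul, zero_add] at h2
  have h4 : ∀ i ∈ Finset.range m, ((i : ℤ) + 1) * (D ι q w F (i + 1) : ℤ) +
      (-((i : ℤ) + 1)) * (D ι q w F (-(i + 1)) : ℤ) ≤ 0 := by
    intro i _
    have h5 : D ι q w F ((i + 1 : ℕ) : ℤ) ≤ D ι q w F (-((i + 1 : ℕ) : ℤ)) := h.D_le hq (i + 1)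
    push_cast at h5
    have h6 : (D ι q w F (i + 1) : ℤ) ≤ D ι q w F (-(i + 1)) := by exact_mod_cast h5
    nlinarith
  have h7 := (Finset.sum_eq_zero_iff_of_nonpos h4).1 h2
  rcases i with _ | i
  · simp
  · by_cases hi : i < m
    · have h8 := h7 i (Finset.mem_range.2 hi)
      have h9 : ((i : ℤ) + 1) * ((D ι q w F (i + 1) : ℤ) - (D ι q w F (-(i + 1)) : ℤ)) = 0 := by
        linarith
      rcases mul_eq_zero.1 h9 with h10 | h10
      · omega
      · push_cast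
        omega
    · rw [D_eq_zero (hm _ (by rw [abs_of_nonneg (by positivity)]; push_cast; omega)),
        D_eq_zero (hm _ (by rw [abs_neg, abs_of_nonneg (by positivity)]; push_cast; omega))]

theorem WI.toWM {ι : k →+* ℂ} {q : ℕ} (hq : 1 < q) {w : ℤ} {F N : Module.End k E}
    (h : WI ι q w F N) (hdet : ‖ι (LinearMap.det F)‖ ^ 2 = (q : ℝ) ^ (w * (finrank k E : ℤ))) :
    WM ι q w F N where
  rel := h.rel
  top := h.top
  bij := by
    intro i
    have h1 : ∀ x ∈ ws ι F ((q : ℝ) ^ (w + (i : ℤ))),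
        (N ^ i) x ∈ ws ι F ((q : ℝ) ^ (w - (i : ℤ))) := by
      intro x hx
      have := ws_shift_pow ι (zero_lt_one.trans hq) w h.rel i i x hx
      have h2 : w + ((i : ℤ) - 2 * i) = w - i := by ring
      rwa [h2] at this
    have h3 : Function.Injective ((N ^ i).restrict h1) := by
      rw [← LinearMap.ker_eq_bot, LinearMap.ker_eq_bot']
      intro x hx
      apply Subtype.ext
      exact h.inj i x x.2 (congrArg Subtype.val hx)
    have h4 : finrank k (ws ι F ((q : ℝ) ^ (w + (i : ℤ)))) =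
        finrank k (ws ι F ((q : ℝ) ^ (w - (i : ℤ)))) := by
      have := h.D_eq hq hdet i
      rw [D, D, ← sub_eq_add_neg] at this
      exact this
    have h5 : Function.Surjective ((N ^ i).restrict h1) :=
      (LinearMap.injective_iff_surjective_of_finrank_eq_finrank h4).1 h3
    refine ⟨h1, fun x hx y hy hxy => ?_, fun y hy => ?_⟩
    · exact congrArg Subtype.val (@h3 ⟨x, hx⟩ ⟨y, hy⟩ (Subtype.ext hxy))
    · obtain ⟨x, hx⟩ := h5 ⟨y, hy⟩
      exact ⟨x, x.2, congrArg Subtype.val hx⟩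

end

end Pool.Agent.LM
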