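import Pool.Agent.Lib_helper98.LM.A5

set_option autoImplicit false

/-!
# Jordan blocks
-/

namespace Pool.Agent.LM

open Polynomial Module

section

variable {k : Type*} [Field k] {E : Type*} [AddCommGroup E] [Module k E]

theorem top_restrict {ι : k →+* ℂ} {q : ℕ} (hq : 1 < q) {w : ℤ} {F : Module.End k E}
    (top : ⨆ i : ℤ, ws ι F ((q : ℝ) ^ (w + i)) = ⊤) (W : Submodule k E) (hF : ∀ x ∈ W, F x ∈ W) :
    ⨆ i : ℤ, ws ι (F.restrict hF) ((q : ℝ) ^ (w + i)) = ⊤ := by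
  rw [eq_top_iff]
  rintro x -
  obtain ⟨s, y, hy, hx⟩ := exists_sum top (x : E)
  have h1 := comp_mem ι F _ (wts_injective hq w) s y (fun i _ => hy i) W hF (hx ▸ x.2)
  have h2 : x = ∑ i ∈ s.attach, ⟨y i, h1 i i.2⟩ := by
    apply Subtype.ext
    rw [hx, AddSubmonoidClass.coe_finsetSum, ← Finset.sum_attach]
  rw [h2]
  refine Submodule.sum_mem _ fun i _ => ?_
  refine Submodule.mem_iSup_of_mem (i : ℤ) ?_
  rw [ws_restrict]
  exact hy i

theorem map_ws_restrict (ι : k →+* ℂ) (f : Module.End k E) (W : Submodule k E)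
    (h : ∀ x ∈ W, f x ∈ W) (c : ℝ) :
    (ws ι (f.restrict h) c).map W.subtype = ws ι f c ⊓ W := by
  ext x
  simp only [Submodule.mem_map, Submodule.subtype_apply, Submodule.mem_inf]
  constructor
  · rintro ⟨y, hy, rfl⟩
    exact ⟨(ws_restrict ι f W h c y).1 hy, y.2⟩
  · rintro ⟨h1, h2⟩
    exact ⟨⟨x, h2⟩, (ws_restrict ι f W h c ⟨x, h2⟩).2 h1, rfl⟩

theorem D_restrict (ι : k →+* ℂ) (q : ℕ) (w : ℤ) (f : Module.End k E) (W : Submodule k E)
    (h : ∀ x ∈ W, f x ∈ W) (i : ℤ) : D ι q w (f.restrict h) i =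
      finrank k (ws ι f ((q : ℝ) ^ (w + i)) ⊓ W : Submodule k E) := by
  rw [← map_ws_restrict ι f W h, Submodule.finrank_map_subtype_eq]
  rfl

theorem WM.surj {ι : k →+* ℂ} {q : ℕ} (hq : 1 < q) {w : ℤ} {F N : Module.End k E}
    (h : WM ι q w F N) (j : ℕ) (i : ℤ) (hij : i ≤ j) :
    ∀ y ∈ ws ι F ((q : ℝ) ^ (w + (i - 2 * j))), ∃ x ∈ ws ι F ((q : ℝ) ^ (w + i)),
      (N ^ j) x = y := by
  intro y hy
  obtain ⟨l, hl⟩ : ∃ l : ℕ, (l : ℤ) = j - i := ⟨((j : ℤ) - i).toNat, Int.toNat_of_nonneg (by omega)⟩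
  have h1 : w + (i - 2 * (j : ℤ)) = w - ((j + l : ℕ) : ℤ) := by push_cast; omega
  rw [h1] at hy
  obtain ⟨x, hx, rfl⟩ := (h.bij (j + l)).surjOn hy
  refine ⟨(N ^ l) x, ?_, ?_⟩
  · have h2 := ws_shift_pow ι (zero_lt_one.trans hq) w h.rel l _ x hx
    have h3 : ((j + l : ℕ) : ℤ) - 2 * (l : ℤ) = i := by push_cast; omega
    rwa [h3] at h2
  · rw [← Module.End.mul_apply, ← pow_add]

theorem WM.inj' {ι : k →+* ℂ} {q : ℕ} {w : ℤ} {F N : Module.End k E}
    (h : WM ι q w F N) (j : ℕ) (i : ℤ) (hij : (j : ℤ) ≤ i) :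
    ∀ x ∈ ws ι F ((q : ℝ) ^ (w + i)), (N ^ j) x = 0 → x = 0 := by
  intro x hx h0
  obtain ⟨l, rfl⟩ : ∃ l : ℕ, (l : ℤ) = i := ⟨i.toNat, Int.toNat_of_nonneg (by omega)⟩
  refine h.toWI.inj l x hx ?_
  obtain ⟨t, rfl⟩ : ∃ t, l = t + j := ⟨l - j, by omega⟩
  rw [pow_add, Module.End.mul_apply, h0, map_zero]

theorem ker_stable {q : k} {F N : Module.End k E} (rel : N * F = q • (F * N)) (j : ℕ) :
    ∀ x ∈ LinearMap.ker (N ^ j), F x ∈ LinearMap.ker (N ^ j) := by
  have h1 : ∀ j : ℕ, N ^ j * F = q ^ j • (F * N ^ j) := by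
    intro j
    induction j with
    | zero => simp
    | succ j ih =>
      rw [pow_succ', mul_assoc, ih, mul_smul_comm, ← mul_assoc, rel, smul_mul_assoc, smul_smul,
        ← pow_succ, mul_assoc, ← pow_succ']
  intro x hx
  rw [LinearMap.mem_ker] at hx ⊢
  have h2 := LinearMap.congr_fun (h1 j) x
  rw [Module.End.mul_apply, LinearMap.smul_apply, Module.End.mul_apply, hx, map_zero,
    smul_zero] at h2
  exact h2

variable [FiniteDimensional k E]

omit [FiniteDimensional k E] in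
theorem WM.D_eq {ι : k →+* ℂ} {q : ℕ} {w : ℤ} {F N : Module.End k E}
    (h : WM ι q w F N) (i : ℕ) : D ι q w F i = D ι q w F (-i) := by
  have h1 := h.bij i
  refine LinearEquiv.finrank_eq (LinearEquiv.ofBijective ((N ^ i).restrict (p := ws ι F ((q : ℝ) ^ (w + (i : ℤ)))) (q := ws ι F ((q : ℝ) ^ (w + -(i : ℤ)))) ?_) ?_)
  · intro x hx
    exact h1.mapsTo hx
  · constructor
    · intro x y hxy
      exact Subtype.ext (h1.injOn x.2 y.2 (congrArg Subtype.val hxy))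
    · intro y
      obtain ⟨x, hx, hxy⟩ := h1.surjOn y.2
      exact ⟨⟨x, hx⟩, Subtype.ext hxy⟩

/-- the dimension of the kernel of `N ^ j` on the part of weight `w + i` -/
theorem WM.ker_le {ι : k →+* ℂ} {q : ℕ} (hq : 1 < q) {w : ℤ} {F N : Module.End k E}
    (h : WM ι q w F N) (j : ℕ) (i : ℤ) (hij : i ≤ j) :
    finrank k (ws ι F ((q : ℝ) ^ (w + i)) ⊓ LinearMap.ker (N ^ j) : Submodule k E) +
      D ι q w F (i - 2 * j) = D ι q w F i := by
  have h0 : ∀ x ∈ ws ι F ((q : ℝ) ^ (w + i)), (N ^ j) x ∈ ws ι F ((q : ℝ) ^ (w + (i - 2 * j))) :=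
    ws_shift_pow ι (zero_lt_one.trans hq) w h.rel j i
  set g := (N ^ j).restrict h0 with hg
  have h1 : LinearMap.range g = ⊤ := by
    rw [LinearMap.range_eq_top]
    intro y
    obtain ⟨x, hx, hxy⟩ := h.surj hq j i hij y y.2
    exact ⟨⟨x, hx⟩, Subtype.ext hxy⟩
  have h2 := g.finrank_range_add_finrank_ker
  rw [h1, finrank_top] at h2
  have h3 : (LinearMap.ker g).map (ws ι F ((q : ℝ) ^ (w + i))).subtype =
      ws ι F ((q : ℝ) ^ (w + i)) ⊓ LinearMap.ker (N ^ j) := by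
    ext x
    simp only [Submodule.mem_map, Submodule.subtype_apply, Submodule.mem_inf]
    constructor
    · rintro ⟨y, hy, rfl⟩
      exact ⟨y.2, congrArg Subtype.val hy⟩
    · rintro ⟨h4, h5⟩
      exact ⟨⟨x, h4⟩, Subtype.ext h5, rfl⟩
  rw [← h3, Submodule.finrank_map_subtype_eq, add_comm]
  exact h2

omit [FiniteDimensional k E] in
theorem WM.ker_ge {ι : k →+* ℂ} {q : ℕ} {w : ℤ} {F N : Module.End k E}
    (h : WM ι q w F N) (j : ℕ) (i : ℤ) (hij : (j : ℤ) ≤ i) :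
    finrank k (ws ι F ((q : ℝ) ^ (w + i)) ⊓ LinearMap.ker (N ^ j) : Submodule k E) = 0 := by
  have h1 : (ws ι F ((q : ℝ) ^ (w + i)) ⊓ LinearMap.ker (N ^ j) : Submodule k E) = ⊥ := by
    rw [eq_bot_iff]
    rintro x ⟨hx, hx0⟩
    exact h.inj' j i hij x hx hx0
  rw [h1, finrank_bot]

theorem WM.finrank_ker {ι : k →+* ℂ} {q : ℕ} (hq : 1 < q) {w : ℤ} {F N : Module.End k E}
    (h : WM ι q w F N) (j : ℕ) : finrank k (LinearMap.ker (N ^ (j + 1))) =
      finrank k (LinearMap.ker (N ^ j)) + (D ι q w F j + D ι q w F (j + 1)) := by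
  obtain ⟨m₀, hm₀⟩ := exists_bound ι hq w F
  set m := m₀ + j + 1 with hm'
  have hm : ∀ i : ℤ, (m : ℤ) < |i| → ws ι F ((q : ℝ) ^ (w + i)) = ⊥ := fun i hi => hm₀ i (by
    rw [hm'] at hi; push_cast at hi; omega)
  have h1 : ∀ j : ℕ, finrank k (LinearMap.ker (N ^ j)) = ∑ i ∈ Finset.Icc (-m : ℤ) m,
      finrank k (ws ι F ((q : ℝ) ^ (w + i)) ⊓ LinearMap.ker (N ^ j) : Submodule k E) := by
    intro j
    have hst := ker_stable h.rel j
    rw [finrank_Icc hq (top_restrict hq h.top _ hst) m ?_]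
    · exact Finset.sum_congr rfl fun i _ => D_restrict ι q w F _ hst i
    · intro i hi
      rw [eq_bot_iff]
      intro x hx
      rw [ws_restrict, hm i hi, Submodule.mem_bot] at hx
      exact (Submodule.mem_bot k).2 (Subtype.ext hx)
  have h2 : ∀ i ∈ Finset.Icc (-m : ℤ) m,
      ((finrank k (ws ι F ((q : ℝ) ^ (w + i)) ⊓ LinearMap.ker (N ^ (j + 1)) : Submodule k E) : ℕ) : ℤ) =
      (finrank k (ws ι F ((q : ℝ) ^ (w + i)) ⊓ LinearMap.ker (N ^ j) : Submodule k E) : ℕ) +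
        (if i ≤ j then (D ι q w F (i - 2 * j) : ℤ) - D ι q w F (i - 2 * j - 2) else 0) := by
    intro i _
    by_cases hij : i ≤ j
    · rw [if_pos hij]
      have h3 := h.ker_le hq j i hij
      have h4 := h.ker_le hq (j + 1) i (by push_cast; omega)
      have h5 : i - 2 * ((j + 1 : ℕ) : ℤ) = i - 2 * j - 2 := by push_cast; ring
      rw [h5] at h4
      omega
    · rw [if_neg hij, h.ker_ge j i (by omega), h.ker_ge (j + 1) i (by push_cast; omega)]
      simp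
  have h3 : (finrank k (LinearMap.ker (N ^ (j + 1))) : ℤ) = finrank k (LinearMap.ker (N ^ j)) +
      ∑ i ∈ Finset.Icc (-m : ℤ) m,
        (if i ≤ j then (D ι q w F (i - 2 * j) : ℤ) - D ι q w F (i - 2 * j - 2) else 0) := by
    rw [h1 (j + 1), h1 j]
    push_cast
    rw [← Finset.sum_add_distrib]
    exact Finset.sum_congr rfl h2
  have h4 : ∑ i ∈ Finset.Icc (-m : ℤ) m,
        (if i ≤ j then (D ι q w F (i - 2 * j) : ℤ) - D ι q w F (i - 2 * j - 2) else 0) =
      ∑ t ∈ Finset.range (m + j + 1), ((D ι q w F (-j - t) : ℤ) - D ι q w F (-j - t - 2)) := by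
    rw [← Finset.sum_filter]
    refine Finset.sum_bij' (fun i _ => ((j : ℤ) - i).toNat) (fun t _ => (j : ℤ) - t) ?_ ?_ ?_ ?_ ?_
    · intro i hi
      simp only [Finset.mem_filter, Finset.mem_Icc] at hi
      rw [Finset.mem_range]
      omega
    · intro t ht
      rw [Finset.mem_range] at ht
      simp only [Finset.mem_filter, Finset.mem_Icc]
      omega
    · intro i hi
      simp only [Finset.mem_filter, Finset.mem_Icc] at hi
      omega
    · intro t ht
      omega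
    · intro i hi
      simp only [Finset.mem_filter, Finset.mem_Icc] at hi
      rw [Int.toNat_of_nonneg (by omega)]
      have h6 : -(j : ℤ) - (j - i) = i - 2 * j := by ring
      rw [h6]
  have h5 : ∑ t ∈ Finset.range (m + j + 1), ((D ι q w F (-j - t) : ℤ) - D ι q w F (-j - t - 2)) =
      (D ι q w F (-j) : ℤ) + D ι q w F (-j - 1) := by
    have h6 : ∀ t : ℕ, ((D ι q w F (-j - t) : ℤ) - D ι q w F (-j - t - 2)) =
        ((D ι q w F (-j - (t : ℕ)) : ℤ) + D ι q w F (-j - (t : ℕ) - 1)) -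
        ((D ι q w F (-j - ((t + 1 : ℕ) : ℤ)) : ℤ) + D ι q w F (-j - ((t + 1 : ℕ) : ℤ) - 1)) := by
      intro t
      have h7 : -(j : ℤ) - ((t + 1 : ℕ) : ℤ) = -j - t - 1 := by push_cast; ring
      rw [h7]
      have h8 : -(j : ℤ) - t - 1 - 1 = -j - t - 2 := by ring
      rw [h8]
      ring
    rw [Finset.sum_congr rfl fun t _ => h6 t,
      Finset.sum_range_sub' (fun t : ℕ => (D ι q w F (-j - (t : ℕ)) : ℤ) + D ι q w F (-j - (t : ℕ) - 1))]
    have h9 : D ι q w F (-j - ((m + j + 1 : ℕ) : ℤ)) = 0 := D_eq_zero (hm _ (by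
      rw [abs_of_nonpos (by push_cast; omega)]; push_cast; omega))
    have h10 : D ι q w F (-j - ((m + j + 1 : ℕ) : ℤ) - 1) = 0 := D_eq_zero (hm _ (by
      rw [abs_of_nonpos (by push_cast; omega)]; push_cast; omega))
    rw [h9, h10]
    simp
  rw [h4, h5] at h3
  have h11 := h.D_eq j
  have h12 := h.D_eq (j + 1)
  have h13 : -((j + 1 : ℕ) : ℤ) = -j - 1 := by push_cast; ring
  rw [h13] at h12
  push_cast at h12
  rw [← h11, ← h12] at h3
  exact_mod_cast h3

theorem WM.blocks_eq {ι : k →+* ℂ} {q : ℕ} (hq : 1 < q) {w : ℤ} {F N : Module.End k E}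
    (h : WM ι q w F N) (i : ℕ) : blocks N i + D ι q w F (i + 2) = D ι q w F i := by
  have h0 := h.finrank_ker hq i
  have h1 := h.finrank_ker hq (i + 1)
  have h2 := (N ^ i).finrank_range_add_finrank_ker
  have h3 := (N ^ (i + 1)).finrank_range_add_finrank_ker
  have h4 := (N ^ (i + 2)).finrank_range_add_finrank_ker
  have h5 := h.ker_le hq (i + 1) i (by push_cast; omega)
  have h6 := h.D_eq (i + 2)
  have h7 : (i : ℤ) - 2 * ((i + 1 : ℕ) : ℤ) = -((i + 2 : ℕ) : ℤ) := by push_cast; ring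
  rw [h7, ← h6] at h5
  push_cast at h5 h1
  have h8 : (i : ℤ) + 1 + 1 = i + 2 := by ring
  rw [h8] at h1
  rw [blocks]
  have h9 : i + 1 + 1 = i + 2 := rfl
  rw [h9] at h1
  omega

/-- the dimension is the sum of the sizes of all blocks -/
theorem WM.finrank_eq {ι : k →+* ℂ} {q : ℕ} (hq : 1 < q) {w : ℤ} {F N : Module.End k E}
    (h : WM ι q w F N) (m : ℕ) (hm : ∀ i : ℤ, (m : ℤ) < |i| → ws ι F ((q : ℝ) ^ (w + i)) = ⊥) :
    finrank k E = ∑ i ∈ Finset.range (m + 1), (i + 1) * blocks N i := by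
  have h1 := finrank_Icc hq h.top m hm
  have h2 : (finrank k E : ℤ) = ∑ i ∈ Finset.range (m + 1), ((i : ℤ) + 1) * (blocks N i : ℤ) := by
    rw [h1]
    push_cast
    rw [sum_Icc_split (fun i => (D ι q w F i : ℤ))]
    have h3 : ∀ i : ℕ, ((D ι q w F (i + 1) : ℤ) + D ι q w F (-(i + 1))) =
        2 * (D ι q w F ((i + 1 : ℕ) : ℤ) : ℤ) := by
      intro i
      have h4 := h.D_eq (i + 1)
      push_cast at h4 ⊢
      rw [← h4]
      ring
    rw [Finset.sum_congr rfl fun i _ => h3 i]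
    have h5 : ∀ i : ℕ, (blocks N i : ℤ) = (D ι q w F (i : ℕ) : ℤ) - D ι q w F ((i + 2 : ℕ) : ℤ) := by
      intro i
      have := h.blocks_eq hq i
      push_cast
      omega
    have h6 : ∀ n : ℕ, ∑ i ∈ Finset.range (n + 1), ((i : ℤ) + 1) * (blocks N i : ℤ) =
        D ι q w F 0 + ∑ i ∈ Finset.range n, 2 * (D ι q w F ((i + 1 : ℕ) : ℤ) : ℤ) -
        n * D ι q w F ((n + 1 : ℕ) : ℤ) - (n + 1) * D ι q w F ((n + 2 : ℕ) : ℤ) := by
      intro n
      induction n with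
      | zero => simp [h5]
      | succ n ih =>
        rw [Finset.sum_range_succ, ih, h5, Finset.sum_range_succ]
        push_cast
        ring_nf
    rw [h6 m, D_eq_zero (hm ((m + 1 : ℕ) : ℤ) (by rw [abs_of_nonneg (by positivity)]; push_cast; omega)),
      D_eq_zero (hm ((m + 2 : ℕ) : ℤ) (by rw [abs_of_nonneg (by positivity)]; push_cast; omega))]
    push_cast
    ring
  exact_mod_cast h2

end

end Pool.Agent.LM
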