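import Pool.Agent.Lib_helper98.LM.A6

set_option autoImplicit false

/-!
# Subspaces stable under Frobenius and monodromy
-/

namespace Pool.Agent.LM

open Polynomial Module

section

variable {k : Type*} [Field k] {E : Type*} [AddCommGroup E] [Module k E] [FiniteDimensional k E]

theorem WM.blocks_eq' {ι : k →+* ℂ} {q : ℕ} (hq : 1 < q) {w : ℤ} {F N : Module.End k E}
    (h : WM ι q w F N) (i : ℕ) : blocks N i =
      finrank k (ws ι F ((q : ℝ) ^ (w + i)) ⊓ LinearMap.ker (N ^ (i + 1)) : Submodule k E) := by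
  have h1 := h.blocks_eq hq i
  have h5 := h.ker_le hq (i + 1) i (by push_cast; omega)
  have h6 := h.D_eq (i + 2)
  have h7 : (i : ℤ) - 2 * ((i + 1 : ℕ) : ℤ) = -((i + 2 : ℕ) : ℤ) := by push_cast; ring
  rw [h7, ← h6] at h5
  push_cast at h5
  omega

/-- (A) the Jordan type of a stable subspace with pure determinant -/
theorem WM.split {ι : k →+* ℂ} {q : ℕ} (hq : 1 < q) {w : ℤ} {F N : Module.End k E}
    (h : WM ι q w F N) (W : Submodule k E) (hF : ∀ x ∈ W, F x ∈ W) (hN : ∀ x ∈ W, N x ∈ W)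
    (hdet : ‖ι (LinearMap.det (F.restrict hF))‖ ^ 2 = (q : ℝ) ^ (w * (finrank k W : ℤ))) :
    WM ι q w (F.restrict hF) (N.restrict hN) ∧ ∀ i, blocks (N.restrict hN) i ≤ blocks N i := by
  have h1 : WM ι q w (F.restrict hF) (N.restrict hN) := (h.toWI.restrict hq W hF hN).toWM hq hdet
  refine ⟨h1, fun i => ?_⟩
  rw [h.blocks_eq' hq, h1.blocks_eq' hq, ← Submodule.finrank_map_subtype_eq]
  refine Submodule.finrank_mono ?_
  rintro _ ⟨x, ⟨hx1, hx2⟩, rfl⟩
  refine ⟨(ws_restrict ι F W hF _ x).1 hx1, ?_⟩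
  rw [SetLike.mem_coe, LinearMap.mem_ker] at hx2
  rw [SetLike.mem_coe, LinearMap.mem_ker, Submodule.subtype_apply, ← coe_restrict_pow N W hN, hx2]
  rfl

theorem WM.blockSum {ι : k →+* ℂ} {q : ℕ} (hq : 1 < q) {w : ℤ} {F N : Module.End k E}
    (h : WM ι q w F N) (W : Submodule k E) (hF : ∀ x ∈ W, F x ∈ W) (hN : ∀ x ∈ W, N x ∈ W)
    (hdet : ‖ι (LinearMap.det (F.restrict hF))‖ ^ 2 = (q : ℝ) ^ (w * (finrank k W : ℤ))) :
    BlockSum N (finrank k W) := by
  obtain ⟨h1, h2⟩ := h.split hq W hF hN hdet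
  obtain ⟨m, hm⟩ := exists_bound ι hq w (F.restrict hF)
  refine ⟨Finsupp.onFinset (Finset.range (m + 1))
    (fun i => if i < m + 1 then blocks (N.restrict hN) i else 0) ?_, ?_, ?_⟩
  · intro i hi
    rw [Finset.mem_range]
    by_contra h3
    rw [if_neg h3] at hi
    exact hi rfl
  · intro i
    rw [Finsupp.onFinset_apply]
    split_ifs
    · exact h2 i
    · exact Nat.zero_le _
  · rw [h1.finrank_eq hq m hm, Finsupp.onFinset_sum _ (fun i => by simp)]
    refine Finset.sum_congr rfl fun i hi => ?_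
    rw [if_pos (Finset.mem_range.1 hi)]

theorem WM.pow {ι : k →+* ℂ} {q : ℕ} (hq : 1 < q) {w : ℤ} {F N : Module.End k E}
    (h : WM ι q w F N) (j : ℕ) (hj : 0 < j) : WM ι (q ^ j) w (F ^ j) N := by
  have hq' : 1 < q ^ j := Nat.one_lt_pow hj.ne' hq
  have hle : ∀ i : ℤ, ws ι F ((q : ℝ) ^ (w + i)) ≤
      ws ι (F ^ j) (((q ^ j : ℕ) : ℝ) ^ (w + i)) := by
    intro i
    have h1 := ws_pow ι F ((q : ℝ) ^ (w + i)) j hj
    have h2 : (((q ^ j : ℕ) : ℝ) ^ (w + i)) = ((q : ℝ) ^ (w + i)) ^ j := by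
      push_cast
      rw [← zpow_natCast, ← zpow_natCast, ← zpow_mul, ← zpow_mul, mul_comm]
    rw [h2]
    exact h1
  have hind := ws_indep ι (F ^ j) _ (wts_injective hq' w)
  have heq : ∀ i : ℤ, ws ι (F ^ j) (((q ^ j : ℕ) : ℝ) ^ (w + i)) =
      ws ι F ((q : ℝ) ^ (w + i)) := by
    intro i
    refine le_antisymm ?_ (hle i)
    intro x hx
    obtain ⟨s, y, hy, hxy⟩ := exists_sum h.top x
    classical
    rw [iSupIndep_iff_finsetSum_eq_zero_imp_eq_zero] at hind
    have h1 := hind (insert i s) (fun l => (if l ∈ s then y l else 0) - (if l = i then x else 0))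
      (fun l _ => by
        refine Submodule.sub_mem _ ?_ ?_
        · split_ifs
          · exact hle l (hy l)
          · exact Submodule.zero_mem _
        · split_ifs with hl
          · rw [hl]; exact hx
          · exact Submodule.zero_mem _) (by
        rw [Finset.sum_sub_distrib, Finset.sum_ite_eq' (insert i s) i, if_pos (Finset.mem_insert_self i s),
          ← Finset.sum_filter, Finset.filter_mem_eq_inter, Finset.inter_eq_right.2
            (Finset.subset_insert i s), ← hxy, sub_self]) i (Finset.mem_insert_self i s)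
    simp only [if_true] at h1
    rw [← sub_eq_zero.1 h1]
    split_ifs
    · exact hy i
    · exact Submodule.zero_mem _
  refine ⟨?_, ?_, ?_⟩
  · have h1 : ∀ j : ℕ, N * F ^ j = (q : k) ^ j • (F ^ j * N) := by
      intro j
      induction j with
      | zero => simp
      | succ j ih =>
        rw [pow_succ, ← mul_assoc, ih, smul_mul_assoc, mul_assoc, h.rel, mul_smul_comm, smul_smul,
          ← pow_succ, ← mul_assoc, ← pow_succ]
    rw [h1 j]
    push_cast
    rfl
  · rw [eq_top_iff, ← h.top]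
    exact iSup_mono hle
  · intro i
    have h1 := heq i
    have h2 := heq (-i)
    rw [← sub_eq_add_neg] at h2
    rw [h1, h2]
    exact h.bij i

end

/-! ### polynomials in an integer -/

section

variable {k : Type*} [Field k] [CharZero k] {E : Type*} [AddCommGroup E] [Module k E]

theorem poly_trick (W : Submodule k E) (v : ℕ → E) (K i₀ : ℕ) (hi₀ : 0 < i₀)
    (h : ∀ m : ℕ, ∑ i ∈ Finset.range K, ((i₀ * m : ℕ) : k) ^ i • v i ∈ W) :
    ∀ i < K, v i ∈ W := by
  intro i hi
  rw [← Submodule.Quotient.mk_eq_zero, ← Module.forall_dual_apply_eq_zero_iff k]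
  intro φ
  set P : k[X] := ∑ i ∈ Finset.range K, C (φ (W.mkQ (v i))) * X ^ i with hP
  have h1 : P = 0 := by
    refine Polynomial.eq_zero_of_infinite_isRoot P ?_
    refine Set.Infinite.mono (s := Set.range fun m : ℕ => ((i₀ * m : ℕ) : k)) ?_ ?_
    · rintro _ ⟨m, rfl⟩
      have h2 : φ (W.mkQ (∑ i ∈ Finset.range K, ((i₀ * m : ℕ) : k) ^ i • v i)) = 0 := by
        rw [Submodule.mkQ_apply, (Submodule.Quotient.mk_eq_zero W).2 (h m), map_zero]
      rw [map_sum, map_sum] at h2
      rw [Set.mem_ofPred_eq, IsRoot, hP, eval_finsetSum, ← h2]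
      refine Finset.sum_congr rfl fun i _ => ?_
      rw [map_smul, map_smul, eval_mul, eval_C, eval_pow, eval_X, smul_eq_mul, mul_comm]
    · refine Set.infinite_range_of_injective fun a b hab => ?_
      have h3 : i₀ * a = i₀ * b := by exact_mod_cast hab
      exact Nat.eq_of_mul_eq_mul_left hi₀ h3
  have h4 : P.coeff i = φ (W.mkQ (v i)) := by
    rw [hP, finsetSum_coeff, Finset.sum_eq_single i]
    · simp
    · intro j _ hj
      rw [coeff_C_mul, coeff_X_pow, if_neg (Ne.symm hj), mul_zero]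
    · intro h5; exact absurd (Finset.mem_range.2 hi) h5
  rw [h1, coeff_zero] at h4
  exact h4.symm

end

end Pool.Agent.LM
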