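import Pool.Agent.Lib_helper98.LM.Main
import Pool.Agent.Lib_helper98.LM.Stmt

set_option autoImplicit false

/-!
# The definitions of the statement and the definitions of the proof
-/

namespace Pool.Agent.LM

open Matrix Module

section lin

variable {k : Type} [Field k] {E : Type} [AddCommGroup E] [Module k E]

theorem wm_iff (ι : k →+* ℂ) (q : ℕ) (w : ℤ) (F N : Module.End k E) :
    LMS.WM ι q w F N ↔ WM ι q w F N := by
  constructor
  · intro h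
    exact ⟨h.rel, by rw [Submodule.iSup_eq_span]; exact h.top, h.bij⟩
  · intro h
    exact ⟨h.rel, by rw [← h.top, Submodule.iSup_eq_span]; rfl, h.bij⟩

end lin

section

variable {K : Type} [Field K] [Algebra K (AlgebraicClosure ℚ)] {ℓ : ℕ} [Fact ℓ.Prime] {n : ℕ}
  {ι : ℚ_[ℓ] →+* ℂ} {w : ℤ} {J : Matrix (Fin n) (Fin n) ℚ_[ℓ]}
  {V : GK K →* Matrix (Fin n) (Fin n) ℚ_[ℓ]}

theorem exp_eq {N : Matrix (Fin n) (Fin n) ℚ_[ℓ]} (hN : IsNilpotent N) :
    LMS.exp N = IsNilpotent.exp N := by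
  have hNn : N ^ (n + 1) = 0 := by rw [pow_succ, nilp_pow hN, zero_mul]
  have h1 := exp_pow_sum (k := ℚ_[ℓ]) hNn 1
  rw [pow_one] at h1
  rw [h1, Finset.sum_range_succ, nilp_pow hN, smul_zero, smul_zero, add_zero, LMS.exp]
  refine Finset.sum_congr rfl fun i _ => ?_
  rw [Nat.cast_one, one_pow, one_smul]

theorem isLog_iff {N : Matrix (Fin n) (Fin n) ℚ_[ℓ]} :
    LMS.IsLog ι LMS.IsFrob w V N ↔ IsLog ι w V N := by
  constructor
  · rintro ⟨hN, u, j, F, s, h1, h2, h3, h4, h5⟩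
    refine ⟨hN, u, j, F, s, h1, h2, by rw [← exp_eq hN]; exact h3, h4, ?_⟩
    exact h5.imp (fun h => (wm_iff ι (u ^ j) w _ _).1 h) id
  · rintro ⟨hN, u, j, F, s, h1, h2, h3, h4, h5⟩
    refine ⟨hN, u, j, F, s, h1, h2, by rw [exp_eq hN]; exact h3, h4, ?_⟩
    exact h5.imp (fun h => (wm_iff ι (u ^ j) w _ _).2 h) id

theorem geo_of (h : LMS.Geo ι LMS.IsFrob w J V) : Geo ι w J V :=
  ⟨h.cont, h.det, h.symm, h.sim, fun H W hH hW F hF u j hu hFr => h.pure H W hH hW F hF u j hu hFr⟩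

theorem rich_of (h : LMS.Rich ι LMS.IsFrob w J V) : Rich ι w J V := by
  rcases h with h | ⟨h1, ⟨N, hN, hN'⟩, h2⟩
  · exact Or.inl h
  · refine Or.inr ⟨h1, ⟨N, isLog_iff.1 hN, hN'⟩, ?_⟩
    rcases h2 with h | h | ⟨g, M, hM, hg, h3⟩
    · exact Or.inl h
    · exact Or.inr (Or.inl h)
    · exact Or.inr (Or.inr ⟨g, M, hM, by rw [hg, exp_eq hM], h3⟩)

theorem scalars_of (h : OnlyScalars V) : LMS.OnlyScalars (LMS.lin V) := by
  intro H hH A hA
  obtain ⟨B, rfl⟩ : ∃ B : Matrix (Fin n) (Fin n) ℚ_[ℓ], toLin' B = A :=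
    ⟨LinearMap.toMatrix' A, toLin'_toMatrix' A⟩
  obtain ⟨c, hc⟩ := h H hH B (by
    intro g hg
    apply (toLin' : Matrix (Fin n) (Fin n) ℚ_[ℓ] ≃ₗ[ℚ_[ℓ]] _).injective
    rw [toLin'_mul, toLin'_mul]
    exact hA g hg)
  refine ⟨c, ?_⟩
  rw [hc, map_smul, toLin'_one]
  rfl

end

section

variable {K : Type} [Field K] [Algebra K (AlgebraicClosure ℚ)] {ℓ : ℕ} [Fact ℓ.Prime]
  {I : Type} {n : I → ℕ} {J : (a : I) → Matrix (Fin (n a)) (Fin (n a)) ℚ_[ℓ]}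
  {V : (a : I) → GK K →* Matrix (Fin (n a)) (Fin (n a)) ℚ_[ℓ]} {H : Subgroup (GK K)}

theorem isPairing_iff {m : ℕ} {F : (Fin m → (a : I) → Fin (n a) → ℚ_[ℓ]) → ℚ_[ℓ]}
    (h : IsPairing J m F) : LMS.IsPairing J m F := by
  obtain ⟨p, π, c, hF⟩ := h
  let e : Fin p × Bool ≃ Fin p × Fin 2 := Equiv.prodCongr (Equiv.refl _) finTwoEquiv.symm
  refine ⟨p, e.trans π, c, fun v => ?_⟩
  rw [hF v]
  rfl

theorem onlyPairings_of (h : OnlyPairings J V H) : LMS.OnlyPairings J V H := by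
  rintro m f ⟨g, hg⟩ h1 h2
  obtain rfl : f = fun v => g v := funext fun v => (hg v).symm
  have h3 := h m g (fun a => ?_) (fun σ hσ => ?_)
  · exact Submodule.span_mono (fun F hF => isPairing_iff hF) h3
  · rcases h1 a with h | h | ⟨σ, hσ, h4, h5, h6, h7⟩
    · exact Or.inl h
    · exact Or.inr (Or.inl h)
    · refine Or.inr (Or.inr ⟨σ, hσ, ?_, h5, h6, fun b hb => ?_⟩)
      · ext v
        exact h4 v
      · obtain ⟨N, hN, hbN⟩ := h7 b hb
        exact ⟨N, hN, by rw [hbN, exp_eq hN]⟩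
  · obtain ⟨c, hc⟩ := h2 σ hσ
    refine ⟨c, ?_⟩
    ext v
    exact hc v

theorem semisimpleForms_of (h : SemisimpleForms V H) : LMS.SemisimpleForms (LMS.actLin V) H := h

theorem openImage_of (h : OpenImage J V H) : LMS.OpenImage J V H := h

end

end Pool.Agent.LM
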