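import Mathlib

set_option autoImplicit false

/-!
# Nodes and connectedness
-/

namespace Pool.Agent.LM

open Module

section

variable {k : Type*} [Field k] {E : Type*} [AddCommGroup E] [Module k E]
  {G : Type*} [Group G] [TopologicalSpace G]

/-- irreducible under all open subgroups -/
def LieIrr (ρ : G →* Module.End k E) : Prop :=
  ∀ (H : Subgroup G) (W : Submodule k E), IsOpen (H : Set G) → (∀ h ∈ H, ∀ x ∈ W, ρ h x ∈ W) →
    W = ⊥ ∨ W = ⊤

structure Setup (ρ : G →* Module.End k E) (B : E →ₗ[k] E →ₗ[k] k) (e : k) : Prop where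
  he : e * e = 1
  symm : ∀ x y, B x y = e * B y x
  nondeg : ∀ x, (∀ y, B x y = 0) → x = 0
  sim : ∀ g, ∃ c : k, c ≠ 0 ∧ ∀ x y, B (ρ g x) (ρ g y) = c * B x y
  cont : ∀ x y, IsOpen {g | B (ρ g x) y ≠ 0}
  irr : LieIrr ρ

/-- the direction of a reflection or transvection -/
def Node (ρ : G →* Module.End k E) (B : E →ₗ[k] E →ₗ[k] k) (γ : E) : Prop :=
  γ ≠ 0 ∧ ∃ (h : G) (a : k), a ≠ 0 ∧ (∀ x, ρ h x = x + (a * B γ x) • γ) ∧
    ∀ x y, B (ρ h x) (ρ h y) = B x y

variable {ρ : G →* Module.End k E} {B : E →ₗ[k] E →ₗ[k] k} {e : k}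

omit [TopologicalSpace G] in
theorem mul_inv_apply (ρ : G →* Module.End k E) (g : G) (x : E) : ρ g (ρ g⁻¹ x) = x := by
  rw [← Module.End.mul_apply, ← map_mul, mul_inv_cancel, map_one]; rfl

omit [TopologicalSpace G] in
theorem inv_mul_apply (ρ : G →* Module.End k E) (g : G) (x : E) : ρ g⁻¹ (ρ g x) = x := by
  rw [← Module.End.mul_apply, ← map_mul, inv_mul_cancel, map_one]; rfl

theorem Node.map (S : Setup ρ B e) {γ : E} (hγ : Node ρ B γ) (g : G) : Node ρ B (ρ g γ) := by
  obtain ⟨h0, h, a, ha, h1, h2⟩ := hγ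
  obtain ⟨c, hc, hc1⟩ := S.sim g
  refine ⟨fun h3 => h0 ?_, g * h * g⁻¹, a * c⁻¹, mul_ne_zero ha (inv_ne_zero hc), fun x => ?_,
    fun x y => ?_⟩
  · rw [← inv_mul_apply ρ g γ, h3, map_zero]
  · rw [map_mul, map_mul, Module.End.mul_apply, Module.End.mul_apply, h1, map_add, map_smul,
      mul_inv_apply]
    have h3 := hc1 γ (ρ g⁻¹ x)
    rw [mul_inv_apply] at h3
    rw [h3, mul_assoc a, inv_mul_cancel_left₀ hc]
  · rw [map_mul, map_mul, Module.End.mul_apply, Module.End.mul_apply, Module.End.mul_apply,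
      Module.End.mul_apply, hc1, h2, ← hc1, mul_inv_apply, mul_inv_apply]

theorem Setup.ne_zero_symm (S : Setup ρ B e) {x y : E} (h : B x y ≠ 0) : B y x ≠ 0 := by
  intro h1
  apply h
  rw [S.symm, h1, mul_zero]

theorem span_nodes (S : Setup ρ B e) {γ0 : E} (h0 : Node ρ B γ0) :
    Submodule.span k {γ | Node ρ B γ} = ⊤ := by
  have h1 := S.irr ⊤ (Submodule.span k {γ | Node ρ B γ}) (by rw [Subgroup.coe_top]; exact isOpen_univ)
    (fun g _ x hx => by
      induction hx using Submodule.span_induction with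
      | mem x hx => exact Submodule.subset_span (Node.map S hx g)
      | zero => rw [map_zero]; exact Submodule.zero_mem _
      | add x y _ _ hx hy => rw [map_add]; exact Submodule.add_mem _ hx hy
      | smul a x _ hx => rw [map_smul]; exact Submodule.smul_mem _ a hx)
  rcases h1 with h1 | h1
  · exfalso
    apply h0.1
    have h2 : γ0 ∈ Submodule.span k {γ | Node ρ B γ} := Submodule.subset_span h0
    rw [h1, Submodule.mem_bot] at h2
    exact h2
  · exact h1

theorem exists_ne_zero (S : Setup ρ B e) {γ0 : E} (h0 : Node ρ B γ0) {x : E} (hx : x ≠ 0) :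
    ∃ γ, Node ρ B γ ∧ B x γ ≠ 0 := by
  by_contra h
  push Not at h
  apply hx
  apply S.nondeg
  intro y
  have hy : y ∈ Submodule.span k {γ | Node ρ B γ} := by rw [span_nodes S h0]; trivial
  induction hy using Submodule.span_induction with
  | mem y hy => exact h y hy
  | zero => rw [map_zero]
  | add y z _ _ hy hz => rw [map_add, hy, hz, add_zero]
  | smul a y _ hy => rw [map_smul, hy, smul_zero]

/-- the graph of the nodes is connected -/
theorem connected [IsTopologicalGroup G] (S : Setup ρ B e) {γ0 : E} (h0 : Node ρ B γ0) (P : E → Prop) (hP0 : P γ0)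
    (hP : ∀ γ γ', Node ρ B γ → Node ρ B γ' → B γ γ' ≠ 0 → P γ → P γ') :
    ∀ γ, Node ρ B γ → P γ := by
  set adj : E → E → Prop := fun γ γ' => Node ρ B γ ∧ Node ρ B γ' ∧ B γ γ' ≠ 0 with hadj
  have hsymm : ∀ γ γ', adj γ γ' → adj γ' γ := fun γ γ' h => ⟨h.2.1, h.1, S.ne_zero_symm h.2.2⟩
  have hrs : ∀ {γ γ'}, Relation.ReflTransGen adj γ γ' → Relation.ReflTransGen adj γ' γ := by
    intro γ γ' h
    induction h with
    | refl => exact Relation.ReflTransGen.refl
    | tail _ h ih => exact Relation.ReflTransGen.head (hsymm _ _ h) ih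
  have hmap : ∀ (g : G) {γ γ' : E}, Relation.ReflTransGen adj γ γ' →
      Relation.ReflTransGen adj (ρ g γ) (ρ g γ') := by
    intro g γ γ' h
    obtain ⟨c, hc, hc1⟩ := S.sim g
    induction h with
    | refl => exact Relation.ReflTransGen.refl
    | tail _ h ih =>
      exact ih.tail ⟨h.1.map S g, h.2.1.map S g, by rw [hc1]; exact mul_ne_zero hc h.2.2⟩
  let H : Subgroup G :=
    { carrier := {g | Relation.ReflTransGen adj γ0 (ρ g γ0)}
      one_mem' := by rw [Set.mem_ofPred_eq, map_one]; exact Relation.ReflTransGen.refl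
      mul_mem' := by
        intro a b ha hb
        rw [Set.mem_ofPred_eq] at ha hb ⊢
        rw [map_mul, Module.End.mul_apply]
        exact ha.trans (hmap a hb)
      inv_mem' := by
        intro a ha
        rw [Set.mem_ofPred_eq] at ha ⊢
        have h1 := hmap a⁻¹ ha
        rw [inv_mul_apply] at h1
        exact hrs h1 }
  have hH : IsOpen (H : Set G) := by
    obtain ⟨γ1, h1, h2⟩ := exists_ne_zero S h0 h0.1
    refine Subgroup.isOpen_of_mem_nhds H (g := 1) ?_
    refine Filter.mem_of_superset ((S.cont γ0 γ1).mem_nhds ?_) ?_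
    · rw [Set.mem_ofPred_eq, map_one]; exact h2
    · intro g hg
      have h3 : adj γ0 γ1 := ⟨h0, h1, h2⟩
      have h4 : adj γ1 (ρ g γ0) := ⟨h1, h0.map S g, S.ne_zero_symm hg⟩
      exact (Relation.ReflTransGen.single h3).tail h4
  have hW := S.irr H (Submodule.span k {γ | Relation.ReflTransGen adj γ0 γ}) hH (by
    intro g hg x hx
    induction hx using Submodule.span_induction with
    | mem x hx => exact Submodule.subset_span (Relation.ReflTransGen.trans hg (hmap g hx))
    | zero => rw [map_zero]; exact Submodule.zero_mem _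
    | add x y _ _ hx hy => rw [map_add]; exact Submodule.add_mem _ hx hy
    | smul a x _ hx => rw [map_smul]; exact Submodule.smul_mem _ a hx)
  have hW' : Submodule.span k {γ | Relation.ReflTransGen adj γ0 γ} = ⊤ := by
    rcases hW with h1 | h1
    · exfalso
      apply h0.1
      have h2 : γ0 ∈ Submodule.span k {γ | Relation.ReflTransGen adj γ0 γ} :=
        Submodule.subset_span Relation.ReflTransGen.refl
      rw [h1, Submodule.mem_bot] at h2
      exact h2
    · exact h1
  have hnode : ∀ γ, Relation.ReflTransGen adj γ0 γ → Node ρ B γ := by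
    intro γ h
    induction h with
    | refl => exact h0
    | tail _ h _ => exact h.2.1
  have hall : ∀ γ, Node ρ B γ → Relation.ReflTransGen adj γ0 γ := by
    intro γ hγ
    by_contra h
    apply hγ.1
    apply S.nondeg
    intro y
    have hy : y ∈ Submodule.span k {γ | Relation.ReflTransGen adj γ0 γ} := by rw [hW']; trivial
    induction hy using Submodule.span_induction with
    | mem y hy =>
      by_contra h1
      exact h (Relation.ReflTransGen.tail hy ⟨hnode y hy, hγ, S.ne_zero_symm h1⟩)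
    | zero => rw [map_zero]
    | add y z _ _ hy hz => rw [map_add, hy, hz, add_zero]
    | smul a y _ hy => rw [map_smul, hy, smul_zero]
  intro γ hγ
  have h := hall γ hγ
  induction h with
  | refl => exact hP0
  | tail h1 h2 ih => exact hP _ _ h2.1 h2.2.1 h2.2.2 (ih h2.1)

end

end Pool.Agent.LM
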