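import Pool.Agent.Lib_helper98.LM.C1

set_option autoImplicit false

/-!
# The Lie algebra of the form
-/

namespace Pool.Agent.LM

open Module

section

variable {k : Type*} [Field k] {E : Type*} [AddCommGroup E] [Module k E]
  {G : Type*} [Group G] [TopologicalSpace G]
  {ρ : G →* Module.End k E} {B : E →ₗ[k] E →ₗ[k] k} {e : k}

/-- the Lie algebra of the form `B` -/
def LieCond (B : E →ₗ[k] E →ₗ[k] k) (A : Module.End k E) : Prop :=
  ∀ x y, B (A x) y + B x (A y) = 0

/-- `x ↦ B(v,x) u - e B(u,x) v` -/
def pr (B : E →ₗ[k] E →ₗ[k] k) (e : k) (u v : E) : Module.End k E :=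
  (B v).smulRight u - e • (B u).smulRight v

theorem pr_apply (u v x : E) : pr B e u v x = B v x • u - (e * B u x) • v := by
  rw [pr, LinearMap.sub_apply, LinearMap.smul_apply, LinearMap.smulRight_apply,
    LinearMap.smulRight_apply, smul_smul]

theorem pr_add_right (u v v' : E) : pr B e u (v + v') = pr B e u v + pr B e u v' := by
  ext x
  simp only [pr_apply, LinearMap.add_apply, map_add, add_smul, smul_add]
  abel

theorem pr_add_left (u u' v : E) : pr B e (u + u') v = pr B e u v + pr B e u' v := by
  ext x
  simp only [pr_apply, LinearMap.add_apply, map_add, add_smul, smul_add, mul_add]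
  abel

theorem pr_smul_right (a : k) (u v : E) : pr B e u (a • v) = a • pr B e u v := by
  ext x
  simp only [pr_apply, LinearMap.smul_apply, map_smul, smul_sub, smul_smul, smul_eq_mul]
  congr 2
  ring

theorem pr_smul_left (a : k) (u v : E) : pr B e (a • u) v = a • pr B e u v := by
  ext x
  simp only [pr_apply, LinearMap.smul_apply, map_smul, smul_sub, smul_smul, smul_eq_mul]
  congr 2
  · ring
  · ring

theorem pr_zero_right (u : E) : pr B e u 0 = 0 := by
  ext x
  simp [pr_apply]

theorem pr_zero_left (v : E) : pr B e 0 v = 0 := by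
  ext x
  simp [pr_apply]

theorem pr_swap (he : e * e = 1) (u v : E) : pr B e v u = (-e) • pr B e u v := by
  ext x
  rw [LinearMap.smul_apply, pr_apply, pr_apply, smul_sub, smul_smul, smul_smul]
  have h1 : -e * (e * B u x) = - B u x := by linear_combination (-(B u x)) * he
  rw [h1]
  module

theorem lieCond_pr (S : Setup ρ B e) (u v : E) : LieCond B (pr B e u v) := by
  intro x y
  simp only [pr_apply, map_sub, map_smul, LinearMap.sub_apply, LinearMap.smul_apply, smul_eq_mul]
  rw [S.symm x u, S.symm x v]
  linear_combination (-(B v x * B u y)) * S.he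

theorem conj_pr (S : Setup ρ B e) (g : G) (u v : E) : ∃ c : k, c ≠ 0 ∧
    ρ g * pr B e u v * ρ g⁻¹ = c • pr B e (ρ g u) (ρ g v) := by
  obtain ⟨c, hc, hc1⟩ := S.sim g
  refine ⟨c⁻¹, inv_ne_zero hc, ?_⟩
  ext x
  have h1 : ∀ w : E, B w (ρ g⁻¹ x) = c⁻¹ * B (ρ g w) x := by
    intro w
    have h2 := hc1 w (ρ g⁻¹ x)
    rw [mul_inv_apply] at h2
    rw [h2, inv_mul_cancel_left₀ hc]
  rw [Module.End.mul_apply, Module.End.mul_apply, pr_apply, LinearMap.smul_apply, pr_apply,
    map_sub, map_smul, map_smul, h1, h1, smul_sub, smul_smul, smul_smul]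
  congr 2
  ring

end

section

variable {k : Type*} [Field k] [CharZero k] {E : Type*} [AddCommGroup E] [Module k E]
  [FiniteDimensional k E] {G : Type*} [Group G] [TopologicalSpace G]
  {ρ : G →* Module.End k E} {B : E →ₗ[k] E →ₗ[k] k} {e : k}

/-- the elements `pr γ c` span the Lie algebra -/
theorem lie_le (S : Setup ρ B e) {γ0 : E} (h0 : Node ρ B γ0) (L : Submodule k (Module.End k E))
    (hL : ∀ γ, Node ρ B γ → ∀ c, pr B e γ c ∈ L) (A : Module.End k E) (hA : LieCond B A) :
    A ∈ L := by
  have h1 : ∀ u c, pr B e u c ∈ L := by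
    intro u c
    have hu : u ∈ Submodule.span k {γ | Node ρ B γ} := by rw [span_nodes S h0]; trivial
    induction hu using Submodule.span_induction with
    | mem u hu => exact hL u hu c
    | zero => rw [pr_zero_left]; exact L.zero_mem
    | add u v _ _ hu hv => rw [pr_add_left]; exact L.add_mem hu hv
    | smul a u _ hu => rw [pr_smul_left]; exact L.smul_mem a hu
  have hinj : Function.Injective B := by
    rw [← LinearMap.ker_eq_bot, LinearMap.ker_eq_bot']
    intro x hx
    exact S.nondeg x fun y => by rw [hx]; rfl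
  have hsurj : Function.Surjective B :=
    (LinearMap.injective_iff_surjective_of_finrank_eq_finrank
      (Subspace.dual_finrank_eq (K := k) (V := E)).symm).1 hinj
  let b := Module.finBasis k E
  choose d hd using fun i => hsurj (b.coord i)
  have h2 : ∀ x, ∑ i, B (d i) x • b i = x := by
    intro x
    simp only [hd]
    exact b.sum_repr x
  have h3 : ∀ y, ∑ i, B (b i) y • d i = e • y := by
    intro y
    rw [← sub_eq_zero]
    refine S.nondeg _ fun z => ?_
    rw [map_sub, map_smul, LinearMap.sub_apply, LinearMap.smul_apply, map_sum, LinearMap.sum_apply]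
    have h4 : ∑ i, (B (B (b i) y • d i)) z = B z y := by
      conv_rhs => rw [← h2 z]
      rw [map_sum, LinearMap.sum_apply]
      refine Finset.sum_congr rfl fun i _ => ?_
      rw [map_smul, map_smul, LinearMap.smul_apply, LinearMap.smul_apply, smul_eq_mul, smul_eq_mul,
        mul_comm]
    rw [h4, S.symm z y, smul_eq_mul, sub_self]
  have h4 : (2 : k) • A = ∑ i, pr B e (A (b i)) (d i) := by
    ext x
    rw [LinearMap.smul_apply, LinearMap.sum_apply]
    simp only [pr_apply, Finset.sum_sub_distrib]
    have h5 : ∑ i, B (d i) x • A (b i) = A x := by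
      conv_rhs => rw [← h2 x]
      rw [map_sum]
      exact Finset.sum_congr rfl fun i _ => (map_smul _ _ _).symm
    have h6 : ∑ i, (e * B (A (b i)) x) • d i = - A x := by
      have h7 : ∀ i, (e * B (A (b i)) x) • d i = (-e) • (B (b i) (A x) • d i) := by
        intro i
        rw [smul_smul]
        congr 1
        have := hA (b i) x
        linear_combination e * this
      rw [Finset.sum_congr rfl fun i _ => h7 i, ← Finset.smul_sum, h3, smul_smul, neg_mul, S.he,
        neg_smul, one_smul]
    rw [h5, h6, two_smul, sub_neg_eq_add]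
  have h5 : A = (2 : k)⁻¹ • ∑ i, pr B e (A (b i)) (d i) := by
    rw [← h4, smul_smul, inv_mul_cancel₀ two_ne_zero, one_smul]
  rw [h5]
  exact L.smul_mem _ (L.sum_mem fun i _ => h1 _ _)

end

end Pool.Agent.LM
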