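import Pool.Agent.Lib_helper98.LM.C2

set_option autoImplicit false

/-!
# The adjoint representation is irreducible
-/

namespace Pool.Agent.LM

open Module

section

variable {k : Type*} [Field k] [CharZero k] {E : Type*} [AddCommGroup E] [Module k E]
  {G : Type*} [Group G] [TopologicalSpace G]
  {ρ : G →* Module.End k E} {B : E →ₗ[k] E →ₗ[k] k} {e : k}

omit [CharZero k] [TopologicalSpace G] in
theorem node_inv {γ : E} {h : G} {a : k} (h1 : ∀ x, ρ h x = x + (a * B γ x) • γ)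
    (h2 : ∀ x y, B (ρ h x) (ρ h y) = B x y) (x : E) :
    ρ h⁻¹ x = x + (-(a * (1 + a * B γ γ)) * B γ x) • γ := by
  have h3 := h1 (ρ h⁻¹ x)
  rw [mul_inv_apply] at h3
  have h4 := h2 γ (ρ h⁻¹ x)
  rw [mul_inv_apply, h1 γ, map_add, map_smul, LinearMap.add_apply, LinearMap.smul_apply,
    smul_eq_mul] at h4
  rw [← h4] at h3
  nth_rewrite 2 [h3]
  rw [add_assoc, ← add_smul]
  have h5 : a * (B γ x + a * B γ γ * B γ x) + -(a * (1 + a * B γ γ)) * B γ x = 0 := by ring
  rw [h5, zero_smul, add_zero]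

omit [CharZero k] [TopologicalSpace G] in
theorem node_conj {γ : E} {h : G} {a b : k} (h1 : ∀ x, ρ h x = x + (a * B γ x) • γ)
    (h2 : ∀ x, ρ h⁻¹ x = x + (b * B γ x) • γ) (A : Module.End k E) (x : E) :
    (ρ h * A * ρ h⁻¹) x =
      A x + (b * B γ x) • A γ + (a * (B γ (A x) + b * B γ x * B γ (A γ))) • γ := by
  rw [Module.End.mul_apply, Module.End.mul_apply, h2, map_add, map_smul, h1, map_add, map_smul,
    smul_eq_mul]

omit [CharZero k] [TopologicalSpace G] in
theorem node_one (symm : ∀ x y, B x y = B y x) (nondeg : ∀ x, (∀ y, B x y = 0) → x = 0) {γ : E}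
    (h0 : γ ≠ 0) {h : G} {a : k} (ha : a ≠ 0) (h1 : ∀ x, ρ h x = x + (a * B γ x) • γ)
    (h2 : ∀ x y, B (ρ h x) (ρ h y) = B x y) : a * B γ γ = -2 := by
  obtain ⟨y, hy⟩ : ∃ y, B γ y ≠ 0 := by
    by_contra h3
    push Not at h3
    exact h0 (nondeg γ h3)
  have h3 := h2 y y
  rw [h1 y, map_add, map_smul] at h3
  simp only [LinearMap.add_apply, LinearMap.smul_apply, map_add, map_smul, smul_eq_mul] at h3
  rw [symm y γ] at h3
  have h4 : (a * B γ y * B γ y) * (a * B γ γ + 2) = 0 := by linear_combination h3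
  rcases mul_eq_zero.1 h4 with h5 | h5
  · exact absurd h5 (mul_ne_zero (mul_ne_zero ha hy) hy)
  · linear_combination h5

variable {L : Submodule k (Module.End k E)}

theorem mem_one (S : Setup ρ B 1) (hLG : ∀ g, ∀ A ∈ L, ρ g * A * ρ g⁻¹ ∈ L)
    (hLB : ∀ A ∈ L, LieCond B A) {γ : E} (hγ : Node ρ B γ) {A : Module.End k E} (hA : A ∈ L) :
    pr B 1 γ (A γ) ∈ L := by
  obtain ⟨h0, h, a, ha, h1, h2⟩ := hγ
  have symm : ∀ x y, B x y = B y x := fun x y => by rw [S.symm, one_mul]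
  have h3 := node_one symm S.nondeg h0 ha h1 h2
  have h4 : ∀ x, ρ h⁻¹ x = x + (a * B γ x) • γ := by
    intro x
    rw [node_inv h1 h2, h3]
    congr 2
    ring
  have h5 : B γ (A γ) = 0 := by
    have h6 := hLB A hA γ γ
    rw [symm (A γ) γ, ← two_mul] at h6
    exact (mul_eq_zero.1 h6).resolve_left two_ne_zero
  have h6 : ρ h * A * ρ h⁻¹ - A = (-a) • pr B 1 γ (A γ) := by
    ext x
    rw [LinearMap.sub_apply, node_conj h1 h4, h5, LinearMap.smul_apply, pr_apply]
    have h7 : B γ (A x) = - B (A γ) x := by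
      have := hLB A hA γ x
      linear_combination this
    rw [h7]
    module
  have h7 : (-a) • pr B 1 γ (A γ) ∈ L := by
    rw [← h6]
    exact L.sub_mem (hLG h A hA) hA
  have h8 := L.smul_mem (-a)⁻¹ h7
  rwa [smul_smul, inv_mul_cancel₀ (neg_ne_zero.2 ha), one_smul] at h8

theorem mem_neg (S : Setup ρ B (-1)) (hLG : ∀ g, ∀ A ∈ L, ρ g * A * ρ g⁻¹ ∈ L)
    (hLB : ∀ A ∈ L, LieCond B A) {γ : E} (hγ : Node ρ B γ) {A : Module.End k E} (hA : A ∈ L) :
    pr B (-1) γ (A γ) ∈ L ∧ B γ (A γ) • pr B (-1) γ γ ∈ L := by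
  obtain ⟨h0, h, a, ha, h1, h2⟩ := hγ
  have symm : ∀ x y, B x y = - B y x := fun x y => by rw [S.symm, neg_one_mul]
  have hβ : ∀ x, B x x = 0 := by
    intro x
    have h6 := symm x x
    have h7 : 2 * B x x = 0 := by linear_combination h6
    exact (mul_eq_zero.1 h7).resolve_left two_ne_zero
  have key : ∀ (h : G) (a : k), (∀ x, ρ h x = x + (a * B γ x) • γ) →
      (∀ x y, B (ρ h x) (ρ h y) = B x y) →
      a • pr B (-1) γ (A γ) + (a ^ 2 / 2) • (B γ (A γ) • pr B (-1) γ γ) ∈ L := by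
    intro h a h1 h2
    have h4 : ∀ x, ρ h⁻¹ x = x + (-a * B γ x) • γ := by
      intro x
      rw [node_inv h1 h2, hβ]
      congr 2
      ring
    have h6 : a • pr B (-1) γ (A γ) + (a ^ 2 / 2) • (B γ (A γ) • pr B (-1) γ γ) =
        A - ρ h * A * ρ h⁻¹ := by
      ext x
      rw [LinearMap.sub_apply, node_conj h1 h4, LinearMap.add_apply, LinearMap.smul_apply,
        LinearMap.smul_apply, LinearMap.smul_apply, pr_apply, pr_apply]
      have h7 : B γ (A x) = - B (A γ) x := by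
        have := hLB A hA γ x
        linear_combination this
      rw [h7]
      have h8 : (a ^ 2 / 2) • B γ (A γ) • (B γ x • γ - (-1 * B γ x) • γ) =
          (a ^ 2 * B γ (A γ) * B γ x) • γ := by
        rw [← sub_smul, smul_smul, smul_smul]
        congr 1
        ring
      rw [h8]
      module
    rw [h6]
    exact L.sub_mem hA (hLG h A hA)
  have k1 := key h a h1 h2
  have k2 := key (h * h) (2 * a) (fun x => by
    rw [map_mul, Module.End.mul_apply, h1 x, h1, map_add, map_smul, hβ, add_assoc, ← add_smul]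
    congr 2
    rw [smul_zero, add_zero]
    ring) (fun x y => by
    rw [map_mul, Module.End.mul_apply, Module.End.mul_apply, h2, h2])
  set X := pr B (-1) γ (A γ)
  set Y := B γ (A γ) • pr B (-1) γ γ
  have hY : Y ∈ L := by
    have h3 : Y = (a ^ 2)⁻¹ • (((2 * a) • X + ((2 * a) ^ 2 / 2) • Y) -
        (2 : k) • (a • X + (a ^ 2 / 2) • Y)) := by
      have h4 : ((2 * a) • X + ((2 * a) ^ 2 / 2) • Y) - (2 : k) • (a • X + (a ^ 2 / 2) • Y) =
          (a ^ 2) • Y := by module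
      rw [h4, smul_smul, inv_mul_cancel₀ (pow_ne_zero 2 ha), one_smul]
    rw [h3]
    exact L.smul_mem _ (L.sub_mem k2 (L.smul_mem _ k1))
  refine ⟨?_, hY⟩
  have h3 : X = a⁻¹ • ((a • X + (a ^ 2 / 2) • Y) - (a ^ 2 / 2) • Y) := by
    rw [add_sub_cancel_right, smul_smul, inv_mul_cancel₀ ha, one_smul]
  rw [h3]
  exact L.smul_mem _ (L.sub_mem k1 (L.smul_mem _ hY))

end

end Pool.Agent.LM
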