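import Pool.Agent.Lib_helper98.LM.C3

set_option autoImplicit false

/-!
# The adjoint representation is irreducible, symmetric forms
-/

namespace Pool.Agent.LM

open Module

section

variable {k : Type*} [Field k] [CharZero k] {E : Type*} [AddCommGroup E] [Module k E]
  {G : Type*} [Group G] [TopologicalSpace G] [IsTopologicalGroup G]
  {ρ : G →* Module.End k E} {B : E →ₗ[k] E →ₗ[k] k} {L : Submodule k (Module.End k E)}

omit [CharZero k] in
theorem smul_mem_cancel {V : Type*} [AddCommGroup V] [Module k V] {L : Submodule k V} {a : k}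
    {x : V} (ha : a ≠ 0) (h : a • x ∈ L) : x ∈ L := by
  have h1 := L.smul_mem a⁻¹ h
  rwa [smul_smul, inv_mul_cancel₀ ha, one_smul] at h1

omit [CharZero k] [IsTopologicalGroup G] in
/-- an element of the Lie algebra that kills all nodes is zero -/
theorem eq_bot_of_nodes {e : k} (S : Setup ρ B e) {γ0 : E} (h0 : Node ρ B γ0)
    (h : ∀ A ∈ L, ∀ γ, Node ρ B γ → A γ = 0) : L = ⊥ := by
  rw [eq_bot_iff]
  intro A hA
  rw [Submodule.mem_bot]
  ext x
  have hx : x ∈ Submodule.span k {γ | Node ρ B γ} := by rw [span_nodes S h0]; trivial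
  rw [LinearMap.zero_apply]
  induction hx using Submodule.span_induction with
  | mem x hx => exact h A hA x hx
  | zero => rw [map_zero]
  | add x y _ _ hx hy => rw [map_add, hx, hy, add_zero]
  | smul a x _ hx => rw [map_smul, hx, smul_zero]

omit [CharZero k] in
theorem pr_self_one (γ : E) : pr B 1 γ γ = 0 := by
  ext x
  rw [pr_apply, one_mul, sub_self, LinearMap.zero_apply]

theorem full_one (S : Setup ρ B 1) {γ0 : E} (h0 : Node ρ B γ0) (hL0 : L ≠ ⊥)
    (hLG : ∀ g, ∀ A ∈ L, ρ g * A * ρ g⁻¹ ∈ L) (hLB : ∀ A ∈ L, LieCond B A) :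
    ∀ γ, Node ρ B γ → ∀ c, pr B 1 γ c ∈ L := by
  have symm : ∀ x y, B x y = B y x := fun x y => by rw [S.symm, one_mul]
  have hβ : ∀ γ, Node ρ B γ → B γ γ ≠ 0 := by
    rintro γ ⟨h0, h, a, ha, h1, h2⟩ h3
    have h4 := node_one symm S.nondeg h0 ha h1 h2
    rw [h3, mul_zero] at h4
    exact two_ne_zero (neg_eq_zero.1 h4.symm)
  have swap : ∀ u v, pr B 1 u v ∈ L → pr B 1 v u ∈ L := by
    intro u v h
    rw [pr_swap S.he u v]
    exact L.smul_mem _ h
  have star : ∀ γ ε, Node ρ B ε → ∀ c, pr B 1 γ c ∈ L →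
      B c ε • pr B 1 ε γ - B γ ε • pr B 1 ε c ∈ L := by
    intro γ ε hε c hc
    have h1 := mem_one S hLG hLB hε hc
    rw [pr_apply, one_mul, sub_eq_add_neg, ← neg_smul, pr_add_right, pr_smul_right,
      pr_smul_right, neg_smul, ← sub_eq_add_neg] at h1
    exact h1
  have L1 : ∀ γ ε, Node ρ B ε → B γ ε ≠ 0 → pr B 1 γ ε ∈ L → ∀ c, pr B 1 γ c ∈ L →
      pr B 1 ε c ∈ L := by
    intro γ ε hε hne h c hc
    have h1 := star γ ε hε c hc
    have h2 := L.sub_mem (L.smul_mem (B c ε) (swap _ _ h)) h1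
    rw [sub_sub_cancel] at h2
    exact smul_mem_cancel hne h2
  have L2 : ∀ γ ε, Node ρ B γ → Node ρ B ε → B γ ε ≠ 0 → pr B 1 γ ε ∉ L → ∀ c, B γ c = 0 →
      pr B 1 γ c ∈ L → B c ε = 0 ∧ pr B 1 ε c ∈ L := by
    intro γ ε hγ hε hne h c hc0 hc
    have h1 := star γ ε hε c hc
    have h1' : pr B 1 ε (B c ε • γ - B γ ε • c) ∈ L := by
      rw [sub_eq_add_neg, ← neg_smul, pr_add_right, pr_smul_right, pr_smul_right, neg_smul,
        ← sub_eq_add_neg]
      exact h1
    have h2 := star ε γ hγ _ h1'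
    have h3 : pr B 1 γ (B c ε • γ - B γ ε • c) ∈ L := by
      rw [sub_eq_add_neg, ← neg_smul, pr_add_right, pr_smul_right, pr_smul_right, pr_self_one,
        smul_zero, zero_add]
      exact L.smul_mem _ hc
    have h4 := L.add_mem h2 (L.smul_mem (B ε γ) h3)
    rw [sub_add_cancel] at h4
    have h5 : B (B c ε • γ - B γ ε • c) γ = 0 := by
      by_contra h6
      exact h (smul_mem_cancel h6 h4)
    rw [map_sub, map_smul, map_smul, LinearMap.sub_apply, LinearMap.smul_apply,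
      LinearMap.smul_apply, symm c γ, hc0, smul_zero, sub_zero, smul_eq_mul] at h5
    have h6 : B c ε = 0 := (mul_eq_zero.1 h5).resolve_right (hβ γ hγ)
    rw [h6, zero_smul, zero_sub] at h1
    exact ⟨h6, smul_mem_cancel hne (by rw [← neg_mem_iff]; exact h1)⟩
  have F2 : ∀ γ ε, Node ρ B γ → Node ρ B ε → B γ ε ≠ 0 → pr B 1 γ ε ∉ L → ∀ c,
      (B γ c = 0 ∧ pr B 1 γ c ∈ L) ↔ (B ε c = 0 ∧ pr B 1 ε c ∈ L) := by
    intro γ ε hγ hε hne h c
    constructor
    · rintro ⟨h1, h2⟩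
      have h3 := L2 γ ε hγ hε hne h c h1 h2
      exact ⟨by rw [symm]; exact h3.1, h3.2⟩
    · rintro ⟨h1, h2⟩
      have h3 := L2 ε γ hε hγ (by rw [symm]; exact hne) (fun h4 => h (swap _ _ h4)) c h1 h2
      exact ⟨by rw [symm]; exact h3.1, h3.2⟩
  have stab : ∀ (g : G) (u c : E), pr B 1 u c ∈ L → pr B 1 (ρ g u) (ρ g c) ∈ L := by
    intro g u c h
    obtain ⟨t, ht, h1⟩ := conj_pr S g u c
    have h2 := hLG g _ h
    rw [h1] at h2
    exact smul_mem_cancel ht h2
  by_cases hQ : ∃ γ1, Node ρ B γ1 ∧ ∃ γ', Node ρ B γ' ∧ B γ1 γ' ≠ 0 ∧ pr B 1 γ1 γ' ∉ L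
  · exfalso
    obtain ⟨γ1, hγ1, hQ1⟩ := hQ
    have hP := connected S hγ1 (fun γ => (∃ γ', Node ρ B γ' ∧ B γ γ' ≠ 0 ∧ pr B 1 γ γ' ∉ L) ∧
      ∀ c, (B γ1 c = 0 ∧ pr B 1 γ1 c ∈ L) ↔ (B γ c = 0 ∧ pr B 1 γ c ∈ L))
      ⟨hQ1, fun c => Iff.rfl⟩ (by
      rintro ε ε' hε hε' hne ⟨⟨γ', hγ', hne', hc'⟩, hF⟩
      by_cases hc : pr B 1 ε ε' ∈ L
      · set f := ε' - (B ε ε' / B ε ε) • ε with hf
        have hf1 : B ε f = 0 := by
          rw [hf, map_sub, map_smul, smul_eq_mul, div_mul_cancel₀ _ (hβ ε hε), sub_self]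
        have hf2 : pr B 1 ε f ∈ L := by
          rw [hf, sub_eq_add_neg, ← neg_smul, pr_add_right, pr_smul_right, pr_self_one, smul_zero,
            add_zero]
          exact hc
        have hf3 := (L2 ε γ' hε hγ' hne' hc' f hf1 hf2).1
        have hne2 : B ε' γ' ≠ 0 := by
          rw [hf, map_sub, map_smul, LinearMap.sub_apply, LinearMap.smul_apply, smul_eq_mul,
            sub_eq_zero] at hf3
          rw [hf3]
          exact mul_ne_zero (div_ne_zero hne (hβ ε hε)) hne'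
        have hc2 : pr B 1 ε' γ' ∉ L := by
          intro h1
          exact hc' (L1 ε' ε hε (by rw [symm]; exact hne) (swap _ _ hc) γ' h1)
        refine ⟨⟨γ', hγ', hne2, hc2⟩, fun c => ?_⟩
        rw [hF c, F2 ε γ' hε hγ' hne' hc' c, F2 ε' γ' hε' hγ' hne2 hc2 c]
      · refine ⟨⟨ε, hε, by rw [symm]; exact hne, fun h => hc (swap _ _ h)⟩, fun c => ?_⟩
        rw [hF c, F2 ε ε' hε hε' hne hc c])
    let F : Submodule k E :=
      { carrier := {c | B γ1 c = 0 ∧ pr B 1 γ1 c ∈ L}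
        zero_mem' := ⟨by rw [map_zero], by rw [pr_zero_right]; exact L.zero_mem⟩
        add_mem' := by
          rintro a b ⟨h1, h2⟩ ⟨h3, h4⟩
          exact ⟨by rw [map_add, h1, h3, add_zero], by rw [pr_add_right]; exact L.add_mem h2 h4⟩
        smul_mem' := by
          rintro t a ⟨h1, h2⟩
          exact ⟨by rw [map_smul, h1, smul_zero], by rw [pr_smul_right]; exact L.smul_mem _ h2⟩ }
    have hF := S.irr ⊤ F (by rw [Subgroup.coe_top]; exact isOpen_univ) (by
      rintro g - c ⟨h1, h2⟩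
      refine ((hP (ρ g γ1) (hγ1.map S g)).2 (ρ g c)).2 ⟨?_, stab g _ _ h2⟩
      obtain ⟨t, _, ht⟩ := S.sim g
      rw [ht, h1, mul_zero])
    have hF' : F = ⊥ := by
      rcases hF with h | h
      · exact h
      · exfalso
        have h1 : γ1 ∈ F := by rw [h]; trivial
        exact hβ γ1 hγ1 h1.1
    apply hL0
    refine eq_bot_of_nodes S h0 fun A hA γ hγ => ?_
    have h1 : B γ (A γ) = 0 := by
      have h6 := hLB A hA γ γ
      rw [symm (A γ) γ, ← two_mul] at h6
      exact (mul_eq_zero.1 h6).resolve_left two_ne_zero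
    have h2 : A γ ∈ F := ((hP γ hγ).2 (A γ)).2 ⟨h1, mem_one S hLG hLB hγ hA⟩
    rw [hF', Submodule.mem_bot] at h2
    exact h2
  · push Not at hQ
    have hP := connected S h0 (fun γ => ∀ c, pr B 1 γ0 c ∈ L ↔ pr B 1 γ c ∈ L)
      (fun c => Iff.rfl) (by
      intro ε ε' hε hε' hne hP c
      have h1 := hQ ε hε ε' hε' hne
      rw [hP c]
      exact ⟨L1 ε ε' hε' hne h1 c, L1 ε' ε hε (by rw [symm]; exact hne) (swap _ _ h1) c⟩)
    let F : Submodule k E :=
      { carrier := {c | pr B 1 γ0 c ∈ L}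
        zero_mem' := by
          rw [Set.mem_ofPred_eq, pr_zero_right]
          exact L.zero_mem
        add_mem' := by
          intro a b h1 h2
          rw [Set.mem_ofPred_eq] at h1 h2 ⊢
          rw [pr_add_right]
          exact L.add_mem h1 h2
        smul_mem' := by
          intro t a h1
          rw [Set.mem_ofPred_eq] at h1 ⊢
          rw [pr_smul_right]
          exact L.smul_mem _ h1 }
    have hF := S.irr ⊤ F (by rw [Subgroup.coe_top]; exact isOpen_univ) (by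
      intro g _ c hc
      exact (hP (ρ g γ0) (h0.map S g) (ρ g c)).2 (stab g _ _ hc))
    have hF' : F = ⊤ := by
      rcases hF with h | h
      · exfalso
        have h1 : γ0 ∈ F := by
          change pr B 1 γ0 γ0 ∈ L
          rw [pr_self_one]
          exact L.zero_mem
        rw [h, Submodule.mem_bot] at h1
        exact h0.1 h1
      · exact h
    intro γ hγ c
    have h1 : c ∈ F := by rw [hF']; trivial
    exact (hP γ hγ c).1 h1

theorem full_neg (S : Setup ρ B (-1)) {γ0 : E} (h0 : Node ρ B γ0) (hL0 : L ≠ ⊥)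
    (hLG : ∀ g, ∀ A ∈ L, ρ g * A * ρ g⁻¹ ∈ L) (hLB : ∀ A ∈ L, LieCond B A) :
    ∀ γ, Node ρ B γ → ∀ c, pr B (-1) γ c ∈ L := by
  have symm : ∀ x y, B x y = - B y x := fun x y => by rw [S.symm, neg_one_mul]
  have hap : ∀ u v x, pr B (-1) u v x = B v x • u + B u x • v := by
    intro u v x
    rw [pr_apply, neg_one_mul, neg_smul, sub_neg_eq_add]
  have step1 : ∃ γ1, Node ρ B γ1 ∧ pr B (-1) γ1 γ1 ∈ L := by
    by_contra hcon
    push Not at hcon
    have h1 : ∀ γ, Node ρ B γ → ∀ A ∈ L, B γ (A γ) = 0 := by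
      intro γ hγ A hA
      by_contra h2
      exact hcon γ hγ (smul_mem_cancel h2 (mem_neg S hLG hLB hγ hA).2)
    have h2 : ∀ γ ε, Node ρ B γ → Node ρ B ε → B γ ε ≠ 0 → ∀ A ∈ L, B (A γ) ε = 0 := by
      intro γ ε hγ hε hne A hA
      have h3 := h1 ε hε _ (mem_neg S hLG hLB hγ hA).1
      rw [hap, map_add, map_smul, map_smul, smul_eq_mul, smul_eq_mul, symm ε γ,
        symm ε (A γ)] at h3
      have h4 : (2 * B γ ε) * B (A γ) ε = 0 := by linear_combination -h3
      exact (mul_eq_zero.1 h4).resolve_left (mul_ne_zero two_ne_zero hne)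
    apply hL0
    refine eq_bot_of_nodes S h0 fun A hA γ hγ => ?_
    have hP := connected S hγ (fun ε => ∀ A ∈ L, B (A γ) ε = 0) (by
      intro A hA
      rw [symm, h1 γ hγ A hA, neg_zero]) (by
      intro ε ε' hε hε' hne hP A hA
      by_cases hne' : B γ ε' = 0
      · obtain ⟨_, h, a, ha, h3, h4⟩ := hε'
        have h5 := hP _ (hLG h⁻¹ A hA)
        rw [inv_inv, Module.End.mul_apply, Module.End.mul_apply, h3 γ, symm ε' γ, hne', neg_zero,
          mul_zero, zero_smul, add_zero, ← h4, mul_inv_apply, h3 ε, map_add, map_smul, hP A hA,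
          zero_add, smul_eq_mul] at h5
        exact (mul_eq_zero.1 h5).resolve_left (mul_ne_zero ha (S.ne_zero_symm hne))
      · exact h2 γ ε' hγ hε' hne' A hA)
    by_contra h3
    obtain ⟨ε, hε, h4⟩ := exists_ne_zero S h0 h3
    exact h4 (hP ε hε A hA)
  obtain ⟨γ1, hγ1, h1⟩ := step1
  have step2 : ∀ γ, Node ρ B γ → pr B (-1) γ γ ∈ L :=
    connected S hγ1 (fun γ => pr B (-1) γ γ ∈ L) h1 (by
      intro ε ε' hε hε' hne hP
      have h2 := (mem_neg S hLG hLB hε' hP).2
      refine smul_mem_cancel ?_ h2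
      rw [hap, map_add, map_smul, smul_eq_mul, ← two_mul]
      exact mul_ne_zero two_ne_zero (mul_ne_zero hne (S.ne_zero_symm hne)))
  have step3 : ∀ γ, Node ρ B γ → ∀ ε, Node ρ B ε → pr B (-1) ε γ ∈ L := by
    intro γ hγ
    refine connected S hγ (fun ε => pr B (-1) ε γ ∈ L) (step2 γ hγ) ?_
    intro ε ε' hε hε' hne hP
    by_cases hne' : B γ ε' = 0
    · have h2 := (mem_neg S hLG hLB hε' hP).1
      rw [hap, hne', zero_smul, zero_add, pr_smul_right] at h2
      exact smul_mem_cancel hne h2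
    · have h2 := (mem_neg S hLG hLB hε' (step2 γ hγ)).1
      rw [hap, ← two_smul k, smul_smul, pr_smul_right] at h2
      exact smul_mem_cancel (mul_ne_zero two_ne_zero hne') h2
  intro ε hε c
  have hc : c ∈ Submodule.span k {γ | Node ρ B γ} := by rw [span_nodes S h0]; trivial
  induction hc using Submodule.span_induction with
  | mem c hc => exact step3 c hc ε hε
  | zero => rw [pr_zero_right]; exact L.zero_mem
  | add u v _ _ hu hv => rw [pr_add_right]; exact L.add_mem hu hv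
  | smul a u _ hu => rw [pr_smul_right]; exact L.smul_mem a hu

/-- (C) the adjoint representation of `G` on the Lie algebra of the form is irreducible -/
theorem adjoint_irreducible [FiniteDimensional k E] {e : k} (he : e = 1 ∨ e = -1)
    (S : Setup ρ B e) {γ0 : E} (h0 : Node ρ B γ0) (hL0 : L ≠ ⊥)
    (hLG : ∀ g, ∀ A ∈ L, ρ g * A * ρ g⁻¹ ∈ L) (hLB : ∀ A ∈ L, LieCond B A) :
    ∀ A, LieCond B A → A ∈ L := by
  rcases he with rfl | rfl
  · exact lie_le S h0 L (full_one S h0 hL0 hLG hLB)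
  · exact lie_le S h0 L (full_neg S h0 hL0 hLG hLB)

end

end Pool.Agent.LM
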