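import Mathlib

set_option autoImplicit false

/-!
# Products of one parameter groups
-/

namespace Pool.Agent.LM

open Module Topology Filter

section

variable {𝕜 A : Type*} [NontriviallyNormedField 𝕜] [NormedRing A] [NormedAlgebra 𝕜 A]

/-- derivative of a product of functions with the value `1` -/
theorem prod_deriv {E : Type*} [NormedAddCommGroup E] [NormedSpace 𝕜 E] {ι : Type*} (l : List ι)
    (f : ι → E → A) (f' : ι → E →L[𝕜] A) (x : E) (h1 : ∀ i ∈ l, f i x = 1)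
    (h : ∀ i ∈ l, HasStrictFDerivAt (f i) (f' i) x) :
    (l.map fun i => f i x).prod = 1 ∧
      HasStrictFDerivAt (fun t => (l.map fun i => f i t).prod) (l.map f').sum x := by
  induction l with
  | nil => exact ⟨rfl, by simpa using hasStrictFDerivAt_const (1 : A) x⟩
  | cons i l ih =>
    obtain ⟨h2, h3⟩ := ih (fun j hj => h1 j (List.mem_cons_of_mem i hj))
      (fun j hj => h j (List.mem_cons_of_mem i hj))
    have h4 := h1 i List.mem_cons_self
    refine ⟨by rw [List.map_cons, List.prod_cons, h2, h4, one_mul], ?_⟩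
    have h5 := (h i List.mem_cons_self).mul' h3
    rw [h4, h2] at h5
    rw [List.map_cons, List.sum_cons, add_comm]
    rw [one_smul, MulOpposite.op_one, one_smul] at h5
    exact h5

/-- isometries near `1` are determined by `g - g⁻¹` -/
theorem near_one (h2 : (2 : 𝕜) ≠ 0) : ∃ δ : ℝ, 0 < δ ∧ ∀ g h g' h' : A, ‖g - 1‖ < δ → ‖h - 1‖ < δ →
    g * g' = 1 → h' * h = 1 → g - g' = h - h' → g = h := by
  set c : ℝ := ‖(1 : A)‖ + 1 with hc
  have hc0 : 0 < c := by positivity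
  have h20 : 0 < ‖(2 : 𝕜)‖ := norm_pos_iff.2 h2
  refine ⟨min 1 (‖(2 : 𝕜)‖ / (c + 1) / 2), by positivity, ?_⟩
  intro g h g' h' hg hh hgg hhh heq
  have hδ : min 1 (‖(2 : 𝕜)‖ / (c + 1) / 2) * (c + 1) < ‖(2 : 𝕜)‖ := by
    have h3 : min 1 (‖(2 : 𝕜)‖ / (c + 1) / 2) ≤ ‖(2 : 𝕜)‖ / (c + 1) / 2 := min_le_right _ _
    calc min 1 (‖(2 : 𝕜)‖ / (c + 1) / 2) * (c + 1) ≤ ‖(2 : 𝕜)‖ / (c + 1) / 2 * (c + 1) := by gcongr
      _ = ‖(2 : 𝕜)‖ / 2 := by field_simp
      _ < ‖(2 : 𝕜)‖ := by linarith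
  set δ := min 1 (‖(2 : 𝕜)‖ / (c + 1) / 2) with hδd
  have hδ1 : δ ≤ 1 := min_le_left _ _
  have hδ0 : 0 ≤ δ := by positivity
  by_contra hne
  have hX : 0 < ‖g - h‖ := norm_pos_iff.2 (sub_ne_zero.2 hne)
  have h4 : g * (g - h) * h = -(g - h) := by
    have h5 : g - h = g' - h' := by
      have : g - h - (g' - h') = (g - g') - (h - h') := by abel
      rw [heq, sub_self] at this
      exact sub_eq_zero.1 this
    have h6 : g * (g - h) * h = g * (g' - h') * h := by rw [h5]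
    rw [h6, mul_sub, sub_mul, hgg, mul_assoc g h' h, hhh, one_mul, mul_one]
    abel
  have h5 : (2 : 𝕜) • (g - h) = -((g - 1) * (g - h) * h + (g - h) * (h - 1)) := by
    have h6 : (g - 1) * (g - h) * h + (g - h) * (h - 1) = g * (g - h) * h - (g - h) := by
      noncomm_ring
    rw [h6, h4, two_smul]
    abel
  have h6 : ‖(2 : 𝕜)‖ * ‖g - h‖ ≤ δ * (c + 1) * ‖g - h‖ := by
    rw [← norm_smul, h5, norm_neg]
    have h7 : ‖h‖ ≤ c := by
      have : h = (h - 1) + 1 := by abel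
      calc ‖h‖ = ‖(h - 1) + 1‖ := by rw [← this]
        _ ≤ ‖h - 1‖ + ‖(1 : A)‖ := norm_add_le _ _
        _ ≤ c := by rw [hc]; linarith
    calc ‖(g - 1) * (g - h) * h + (g - h) * (h - 1)‖
        ≤ ‖(g - 1) * (g - h) * h‖ + ‖(g - h) * (h - 1)‖ := norm_add_le _ _
      _ ≤ ‖g - 1‖ * ‖g - h‖ * ‖h‖ + ‖g - h‖ * ‖h - 1‖ := by
        gcongr
        · exact (norm_mul_le _ _).trans (by gcongr; exact norm_mul_le _ _)
        · exact norm_mul_le _ _
      _ ≤ δ * ‖g - h‖ * c + ‖g - h‖ * δ := by gcongr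
      _ = δ * (c + 1) * ‖g - h‖ := by ring
  have h7 := lt_of_le_of_lt h6 (mul_lt_mul_of_pos_right hδ hX)
  exact lt_irrefl _ h7

variable [CompleteSpace 𝕜] [FiniteDimensional 𝕜 A]

theorem exists_product (h2 : (2 : 𝕜) ≠ 0) (Lie : Submodule 𝕜 A) (p : A →ₗ[𝕜] Lie)
    (hp : ∀ x : Lie, p x = x) {d : ℕ} (N : Fin d → A) (f : Fin d → 𝕜 → A) (hf0 : ∀ i, f i 0 = 1)
    (hf : ∀ i, HasStrictDerivAt (f i) (N i) 0)
    (hspan : Lie ≤ Submodule.span 𝕜 (Set.range N)) (Iso : A → Prop) (hIso1 : Iso 1)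
    (hIsom : ∀ g h, Iso g → Iso h → Iso (g * h)) (hfIso : ∀ i t, ‖t‖ ≤ 1 → Iso (f i t))
    (hpIso : ∀ g, Iso g → ∃ g', g * g' = 1 ∧ g' * g = 1 ∧ (2 : 𝕜) • (p g : A) = g - g') :
    ∃ δ : ℝ, 0 < δ ∧ ∀ g : A, ‖g - 1‖ < δ → Iso g → ∃ t : Fin d → 𝕜, (∀ i, ‖t i‖ ≤ 1) ∧
      g = ((List.finRange d).map fun i => f i (t i)).prod := by
  classical
  have : CompleteSpace A := FiniteDimensional.complete 𝕜 A
  have : CompleteSpace Lie := FiniteDimensional.complete 𝕜 Lie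
  set Φ : (Fin d → 𝕜) → A := fun t => ((List.finRange d).map fun i => f i (t i)).prod with hΦ
  set pc : A →L[𝕜] Lie := LinearMap.toContinuousLinearMap p with hpc
  set F' : Fin d → ((Fin d → 𝕜) →L[𝕜] A) := fun i =>
    (ContinuousLinearMap.proj i : (Fin d → 𝕜) →L[𝕜] 𝕜).smulRight (N i) with hF'
  have hd : (((List.finRange d).map fun i => f i ((0 : Fin d → 𝕜) i)).prod = 1 ∧
      HasStrictFDerivAt (fun t : Fin d → 𝕜 => ((List.finRange d).map fun i => f i (t i)).prod)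
        ((List.finRange d).map F').sum 0) := by
    refine prod_deriv (List.finRange d) (fun i (t : Fin d → 𝕜) => f i (t i)) F' 0
      (fun i _ => hf0 i) fun i _ => ?_
    have h3 : HasStrictFDerivAt (fun t : Fin d → 𝕜 => t i)
        (ContinuousLinearMap.proj i : (Fin d → 𝕜) →L[𝕜] 𝕜) 0 :=
      (ContinuousLinearMap.proj i : (Fin d → 𝕜) →L[𝕜] 𝕜).hasStrictFDerivAt
    have h4 : HasStrictFDerivAt (f i) ((1 : 𝕜 →L[𝕜] 𝕜).smulRight (N i)) ((0 : Fin d → 𝕜) i) :=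
      (hf i).hasStrictFDerivAt
    have h5 := h4.comp (0 : Fin d → 𝕜) h3
    have h6 : ((1 : 𝕜 →L[𝕜] 𝕜).smulRight (N i)).comp
        (ContinuousLinearMap.proj i : (Fin d → 𝕜) →L[𝕜] 𝕜) = F' i := by
      ext v
      simp [hF']
    rw [h6] at h5
    exact h5
  have hΦ0 : Φ 0 = 1 := hd.1
  have hΦd : HasStrictFDerivAt (fun t => pc (Φ t)) (pc.comp ((List.finRange d).map F').sum) 0 :=
    pc.hasStrictFDerivAt.comp 0 hd.2
  have hsurj : (pc.comp ((List.finRange d).map F').sum).range = ⊤ := by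
    rw [eq_top_iff]
    rintro y -
    have h3 : (y : A) ∈ Submodule.span 𝕜 (Set.range N) := hspan y.2
    rw [Submodule.mem_span_range_iff_exists_fun] at h3
    obtain ⟨t, ht⟩ := h3
    refine ⟨t, ?_⟩
    have h4 : ((List.finRange d).map F').sum t = (y : A) := by
      rw [← ht, ← Fin.sum_univ_def, _root_.sum_apply]
      rfl
    change pc (((List.finRange d).map F').sum t) = y
    rw [h4]
    exact hp y
  have hmap := hΦd.map_nhds_eq_of_surj hsurj
  obtain ⟨δ, hδ, hinj⟩ := near_one (𝕜 := 𝕜) (A := A) h2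
  have hcont : ContinuousAt Φ 0 := hd.2.continuousAt
  set U : Set (Fin d → 𝕜) := {t | ‖Φ t - 1‖ < δ} ∩ {t | ∀ i, ‖t i‖ ≤ 1} with hU
  have hU0 : U ∈ 𝓝 (0 : Fin d → 𝕜) := by
    refine inter_mem ?_ ?_
    · have h3 := hcont.eventually (Metric.ball_mem_nhds (Φ 0) hδ)
      filter_upwards [h3] with t ht
      rw [hΦ0, dist_eq_norm] at ht
      exact ht
    · filter_upwards [Metric.closedBall_mem_nhds (0 : Fin d → 𝕜) one_pos] with t ht i
      rw [Metric.mem_closedBall, dist_zero_right] at ht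
      exact (norm_le_pi_norm t i).trans ht
  have h3 : (fun t => pc (Φ t)) '' U ∈ 𝓝 (pc (Φ 0)) := by
    rw [← hmap]
    exact image_mem_map hU0
  rw [hΦ0] at h3
  have h4 : pc ⁻¹' ((fun t => pc (Φ t)) '' U) ∈ 𝓝 (1 : A) := pc.continuous.continuousAt h3
  obtain ⟨δ', hδ', h5⟩ := Metric.mem_nhds_iff.1 h4
  refine ⟨min δ δ', lt_min hδ hδ', ?_⟩
  intro g hg hgI
  have h6 : g ∈ Metric.ball (1 : A) δ' := by
    rw [Metric.mem_ball, dist_eq_norm]
    exact lt_of_lt_of_le hg (min_le_right _ _)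
  obtain ⟨t, ht, htg⟩ := h5 h6
  refine ⟨t, ht.2, ?_⟩
  have hΦI : Iso (Φ t) := by
    have h7 : ∀ l : List (Fin d), Iso ((l.map fun i => f i (t i)).prod) := by
      intro l
      induction l with
      | nil => exact hIso1
      | cons i l ih => rw [List.map_cons, List.prod_cons]; exact hIsom _ _ (hfIso i _ (ht.2 i)) ih
    exact h7 _
  obtain ⟨g', hg1, hg2, hg3⟩ := hpIso g hgI
  obtain ⟨h', hh1, hh2, hh3⟩ := hpIso (Φ t) hΦI
  refine hinj g (Φ t) g' h' (lt_of_lt_of_le hg (min_le_left _ _)) ht.1 hg1 hh2 ?_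
  rw [← hg3, ← hh3]
  have h8 : p (Φ t) = p g := htg
  rw [h8]

end

end Pool.Agent.LM
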