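import Pool.Agent.Lib_helper98.LM.A7

set_option autoImplicit false

/-!
# Exponentials
-/

namespace Pool.Agent.LM

open Module Matrix

section

theorem exp_pow {A : Type*} [Ring A] [Module ℚ A] {N : A} (hN : IsNilpotent N) (m : ℕ) :
    IsNilpotent.exp N ^ m = IsNilpotent.exp (m • N) := by
  induction m with
  | zero => rw [pow_zero, zero_smul, IsNilpotent.exp_zero]
  | succ m ih =>
    have h1 : Commute (m • N) N := (Commute.refl N).smul_left m
    have h2 : IsNilpotent (m • N) := by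
      rw [← Nat.cast_smul_eq_nsmul ℤ]
      exact hN.smul _
    rw [pow_succ, ih, succ_nsmul, IsNilpotent.exp_add_of_commute h1 h2 hN]

variable {k : Type*} [Field k] [CharZero k]

theorem exp_pow_sum {A : Type*} [Ring A] [Algebra k A] [Module ℚ A] {N : A} {K : ℕ}
    (hK : N ^ K = 0) (m : ℕ) : IsNilpotent.exp N ^ m =
      ∑ i ∈ Finset.range K, (m : k) ^ i • ((i.factorial : k)⁻¹ • N ^ i) := by
  rw [exp_pow ⟨K, hK⟩]
  have h1 : (m • N) ^ K = 0 := by
    rw [← Nat.cast_smul_eq_nsmul k, smul_pow, hK, smul_zero]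
  rw [IsNilpotent.exp_eq_sum h1]
  refine Finset.sum_congr rfl fun i _ => ?_
  rw [← Rat.cast_smul_eq_qsmul k, ← Nat.cast_smul_eq_nsmul k, smul_pow, smul_smul, smul_smul,
    mul_comm]
  congr 2
  push_cast
  rfl

variable {n : ℕ}

/-- a subspace stable under `exp (i₀ m N)` for all `m` is stable under `N` -/
theorem exp_stable [Module ℚ (Matrix (Fin n) (Fin n) k)] {N : Matrix (Fin n) (Fin n) k}
    (hN : IsNilpotent N) (W : Submodule k (Fin n → k)) (i₀ : ℕ) (hi₀ : 0 < i₀)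
    (h : ∀ m : ℕ, ∀ x ∈ W, (IsNilpotent.exp N ^ (i₀ * m)) *ᵥ x ∈ W) : ∀ x ∈ W, N *ᵥ x ∈ W := by
  intro x hx
  obtain ⟨K, hK⟩ := hN
  have hK' : N ^ (K + 2) = 0 := by rw [pow_add, hK, zero_mul]
  have h1 := poly_trick W (fun i => (i.factorial : k)⁻¹ • (N ^ i *ᵥ x)) (K + 2) i₀ hi₀ (by
    intro m
    have h2 := h m x hx
    rw [exp_pow_sum (k := k) hK', Matrix.sum_mulVec] at h2
    have h3 : ∑ i ∈ Finset.range (K + 2), (((i₀ * m : ℕ) : k) ^ i •
        ((i.factorial : k)⁻¹ • N ^ i)) *ᵥ x = ∑ i ∈ Finset.range (K + 2),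
        ((i₀ * m : ℕ) : k) ^ i • ((i.factorial : k)⁻¹ • (N ^ i *ᵥ x)) :=
      Finset.sum_congr rfl fun i _ => by rw [Matrix.smul_mulVec, Matrix.smul_mulVec]
    rw [h3] at h2
    exact h2) 1 (by omega)
  simpa using h1

/-- `exp N` preserves the form `J`: `N` is in the Lie algebra -/
theorem exp_lie [Module ℚ (Matrix (Fin n) (Fin n) k)] {N J : Matrix (Fin n) (Fin n) k}
    (hN : IsNilpotent N) (h : (IsNilpotent.exp N)ᵀ * J * IsNilpotent.exp N = J) :
    Nᵀ * J + J * N = 0 := by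
  obtain ⟨K, hK⟩ := hN
  have hK' : N ^ (K + 2) = 0 := by rw [pow_add, hK, zero_mul]
  have hK'' : (-N) ^ (K + 2) = 0 := by rw [neg_pow, hK', mul_zero]
  have hN : IsNilpotent N := ⟨K, hK⟩
  have h1 : ∀ m : ℕ, J * IsNilpotent.exp N ^ m = (IsNilpotent.exp (-N) ^ m)ᵀ * J := by
    intro m
    induction m with
    | zero => simp
    | succ m ih =>
      have h2 : J * IsNilpotent.exp N = (IsNilpotent.exp (-N))ᵀ * J := by
        have h3 : (IsNilpotent.exp (-N))ᵀ * ((IsNilpotent.exp N)ᵀ * J * IsNilpotent.exp N) =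
            (IsNilpotent.exp (-N))ᵀ * J := by rw [h]
        rw [← mul_assoc, ← mul_assoc, ← Matrix.transpose_mul, IsNilpotent.exp_mul_exp_neg_self hN,
          Matrix.transpose_one, one_mul] at h3
        exact h3
      rw [pow_succ, ← mul_assoc, ih, mul_assoc, h2, ← mul_assoc, ← Matrix.transpose_mul,
        ← pow_succ']
  have h2 := poly_trick (k := k) (⊥ : Submodule k (Matrix (Fin n) (Fin n) k))
    (fun i => (i.factorial : k)⁻¹ • (J * N ^ i - ((-N) ^ i)ᵀ * J)) (K + 2) 1 one_pos (by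
    intro m
    rw [Submodule.mem_bot]
    have h3 := h1 (1 * m)
    rw [exp_pow_sum (k := k) hK', exp_pow_sum (k := k) hK'', Matrix.mul_sum, Matrix.transpose_sum,
      Matrix.sum_mul, ← sub_eq_zero, ← Finset.sum_sub_distrib] at h3
    rw [← h3]
    refine Finset.sum_congr rfl fun i _ => ?_
    rw [smul_sub, smul_sub, Matrix.mul_smul, Matrix.mul_smul, Matrix.transpose_smul,
      Matrix.transpose_smul, Matrix.smul_mul, Matrix.smul_mul]) 1 (by omega)
  rw [Submodule.mem_bot] at h2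
  simp only [Nat.factorial_one, Nat.cast_one, inv_one, one_smul, pow_one, Matrix.transpose_neg,
    Matrix.neg_mul, sub_neg_eq_add] at h2
  rw [add_comm]
  exact h2

end

end Pool.Agent.LM
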