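import Pool.Agent.Lib_helper98.LM.D1
import Pool.Agent.Lib_helper98.LM.E1

set_option autoImplicit false

/-!
# The image is open
-/

open scoped Matrix

namespace Pool.Agent.LM

open Module Topology Filter

attribute [local instance] Matrix.linftyOpNormedRing Matrix.linftyOpNormedAlgebra

section

variable {ℓ : ℕ} [Fact ℓ.Prime] {n : ℕ}

/-- the polynomial `exp (t A)` -/
noncomputable def Ex (K : ℕ) (A : Matrix (Fin n) (Fin n) ℚ_[ℓ]) (t : ℚ_[ℓ]) :
    Matrix (Fin n) (Fin n) ℚ_[ℓ] :=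
  ∑ i ∈ Finset.range K, t ^ i • ((i.factorial : ℚ_[ℓ])⁻¹ • A ^ i)

theorem Ex_zero (K : ℕ) (hK : 2 ≤ K) (A : Matrix (Fin n) (Fin n) ℚ_[ℓ]) : Ex K A 0 = 1 := by
  rw [Ex, Finset.sum_eq_single 0]
  · simp
  · intro i _ hi
    rw [zero_pow hi, zero_smul]
  · intro h
    exact absurd (Finset.mem_range.2 (by omega)) h

theorem Ex_deriv (K : ℕ) (hK : 2 ≤ K) (A : Matrix (Fin n) (Fin n) ℚ_[ℓ]) :
    HasStrictDerivAt (Ex K A) A 0 := by
  have h1 : ∀ i ∈ Finset.range K, HasStrictDerivAt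
      (fun t : ℚ_[ℓ] => t ^ i • ((i.factorial : ℚ_[ℓ])⁻¹ • A ^ i))
      (((i : ℚ_[ℓ]) * 0 ^ (i - 1)) • ((i.factorial : ℚ_[ℓ])⁻¹ • A ^ i)) 0 := by
    intro i _
    exact (hasStrictDerivAt_pow i (0 : ℚ_[ℓ])).smul_const _
  have h2 := HasStrictDerivAt.fun_sum h1
  have h3 : ∑ i ∈ Finset.range K, (((i : ℚ_[ℓ]) * 0 ^ (i - 1)) •
      ((i.factorial : ℚ_[ℓ])⁻¹ • A ^ i)) = A := by
    rw [Finset.sum_eq_single 1]
    · simp
    · intro i _ hi
      rcases Nat.eq_zero_or_pos i with h | h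
      · rw [h]; simp
      · rw [zero_pow (by omega), mul_zero, zero_smul]
    · intro h
      exact absurd (Finset.mem_range.2 (by omega)) h
  rw [h3] at h2
  exact h2

theorem Ex_cont (K : ℕ) (A : Matrix (Fin n) (Fin n) ℚ_[ℓ]) :
    Continuous (fun t : ℤ_[ℓ] => Ex K A (t : ℚ_[ℓ])) := by
  unfold Ex
  refine continuous_finsetSum _ fun i _ => ?_
  have h1 : Continuous fun t : ℤ_[ℓ] => (t : ℚ_[ℓ]) ^ i := (continuous_subtype_val).pow i
  exact h1.smul continuous_const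

theorem conj_pow' {P Q A : Matrix (Fin n) (Fin n) ℚ_[ℓ]} (h : Q * P = 1) (i : ℕ) :
    (P * A * Q) ^ i = P * A ^ i * Q := by
  have h' : P * Q = 1 := mul_eq_one_comm.1 h
  induction i with
  | zero => rw [pow_zero, pow_zero, mul_one, h']
  | succ i ih =>
    rw [pow_succ, ih, pow_succ]
    calc P * A ^ i * Q * (P * A * Q) = P * A ^ i * (Q * P) * A * Q := by noncomm_ring
      _ = P * (A ^ i * A) * Q := by rw [h]; noncomm_ring

/-- the projection to the Lie algebra of `J` -/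
noncomputable def LieJ (J : Matrix (Fin n) (Fin n) ℚ_[ℓ]) :
    Submodule ℚ_[ℓ] (Matrix (Fin n) (Fin n) ℚ_[ℓ]) where
  carrier := {A | Aᵀ * J + J * A = 0}
  zero_mem' := by rw [Set.mem_ofPred_eq]; simp
  add_mem' := by
    intro A B hA hB
    rw [Set.mem_ofPred_eq] at hA hB ⊢
    rw [Matrix.transpose_add, add_mul, mul_add, add_add_add_comm, hA, hB, add_zero]
  smul_mem' := by
    intro a A hA
    rw [Set.mem_ofPred_eq] at hA ⊢
    rw [Matrix.transpose_smul, smul_mul_assoc, mul_smul_comm, ← smul_add, hA, smul_zero]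

theorem mem_LieJ {J A : Matrix (Fin n) (Fin n) ℚ_[ℓ]} : A ∈ LieJ J ↔ Aᵀ * J + J * A = 0 := Iff.rfl

theorem exists_proj (J : Matrix (Fin n) (Fin n) ℚ_[ℓ]) (hJ : J.det ≠ 0) (hJs : Jᵀ = J ∨ Jᵀ = -J) :
    ∃ p : Matrix (Fin n) (Fin n) ℚ_[ℓ] →ₗ[ℚ_[ℓ]] LieJ J,
      ∀ A, (2 : ℚ_[ℓ]) • (p A : Matrix (Fin n) (Fin n) ℚ_[ℓ]) = A - J⁻¹ * Aᵀ * J := by
  have hu : IsUnit J.det := isUnit_iff_ne_zero.2 hJ
  let p0 : Matrix (Fin n) (Fin n) ℚ_[ℓ] →ₗ[ℚ_[ℓ]] Matrix (Fin n) (Fin n) ℚ_[ℓ] :=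
    { toFun := fun A => (2 : ℚ_[ℓ])⁻¹ • (A - J⁻¹ * Aᵀ * J)
      map_add' := by
        intro A B
        rw [← smul_add, Matrix.transpose_add, mul_add, add_mul]
        congr 1
        abel
      map_smul' := by
        intro a A
        rw [RingHom.id_apply, smul_comm a, Matrix.transpose_smul, mul_smul_comm, smul_mul_assoc,
          ← smul_sub] }
  have hp0 : ∀ A, p0 A ∈ LieJ J := by
    intro A
    have h1 : A - J⁻¹ * Aᵀ * J ∈ LieJ J := by
      rw [mem_LieJ, Matrix.transpose_sub, Matrix.transpose_mul, Matrix.transpose_mul,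
        Matrix.transpose_transpose, Matrix.transpose_nonsing_inv, sub_mul, mul_sub]
      have h2 : J * (J⁻¹ * Aᵀ * J) = Aᵀ * J := by
        rw [← mul_assoc, ← mul_assoc, Matrix.mul_nonsing_inv J hu, one_mul]
      have h3 : Jᵀ * (A * (Jᵀ)⁻¹) * J = J * A := by
        rcases hJs with h | h
        · rw [h, mul_assoc, mul_assoc, Matrix.nonsing_inv_mul J hu, mul_one]
        · have h4 : (-J)⁻¹ = -J⁻¹ := by
            refine Matrix.inv_eq_left_inv ?_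
            rw [neg_mul_neg, Matrix.nonsing_inv_mul J hu]
          rw [h, h4, mul_neg, neg_mul_neg, mul_assoc, mul_assoc, Matrix.nonsing_inv_mul J hu,
            mul_one]
      rw [h2, h3]
      abel
    exact (LieJ J).smul_mem _ h1
  refine ⟨LinearMap.codRestrict (LieJ J) p0 hp0, fun A => ?_⟩
  rw [LinearMap.codRestrict_apply]
  change (2 : ℚ_[ℓ]) • ((2 : ℚ_[ℓ])⁻¹ • (A - J⁻¹ * Aᵀ * J)) = _
  rw [smul_smul, mul_inv_cancel₀ two_ne_zero, one_smul]

theorem linfty_le (A : Matrix (Fin n) (Fin n) ℚ_[ℓ]) (ε : ℝ) (hε : 0 < ε)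
    (h : ∀ i j, ‖A i j‖ < ε / (n + 1)) : ‖A‖ < ε := by
  rw [Matrix.linfty_opNorm_def]
  have h1 : (Finset.univ.sup fun i => ∑ j, ‖A i j‖₊) < ε.toNNReal := by
    rw [Finset.sup_lt_iff (by simpa using hε)]
    intro i _
    rw [← NNReal.coe_lt_coe, Real.coe_toNNReal _ hε.le]
    push_cast
    calc ∑ j, ‖A i j‖ ≤ ∑ _j : Fin n, ε / (n + 1) := Finset.sum_le_sum fun j _ => (h i j).le
      _ = n * (ε / (n + 1)) := by simp
      _ < (n + 1) * (ε / (n + 1)) := by gcongr; linarith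
      _ = ε := by field_simp
  rw [← Real.coe_toNNReal ε hε.le]
  exact_mod_cast h1

/-- (D) -/
theorem blockD {G : Type*} [Group G] [TopologicalSpace G] [CompactSpace G]
    (V : G →* Matrix (Fin n) (Fin n) ℚ_[ℓ]) (hV : Continuous V)
    (M : Subgroup G) (hM : IsClosed (M : Set G)) [hMn : M.Normal]
    (J : Matrix (Fin n) (Fin n) ℚ_[ℓ]) (hJ : J.det ≠ 0) (hJs : Jᵀ = J ∨ Jᵀ = -J)
    (hsim : ∀ g : G, ∃ c : ℚ_[ℓ], (V g)ᵀ * J * V g = c • J)
    (N : Matrix (Fin n) (Fin n) ℚ_[ℓ]) (hN : IsNilpotent N)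
    (s : G) (hs : s ∈ M) (hVs : V s = IsNilpotent.exp N) (hVJ : (V s)ᵀ * J * V s = J)
    (hspan : ∀ A : Matrix (Fin n) (Fin n) ℚ_[ℓ], Aᵀ * J + J * A = 0 →
      A ∈ Submodule.span ℚ_[ℓ] (Set.range fun g : G => V g * N * V g⁻¹)) :
    ∃ ε : ℝ, 0 < ε ∧ ∀ g : Matrix (Fin n) (Fin n) ℚ_[ℓ], gᵀ * J * g = J →
      (∀ i j, ‖(g - 1) i j‖ < ε) → ∃ σ ∈ M, V σ = g := by
  classical
  have hu : IsUnit J.det := isUnit_iff_ne_zero.2 hJ
  obtain ⟨K₀, hK₀⟩ := id hN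
  set K := K₀ + 2 with hKdef
  have hK2 : 2 ≤ K := by omega
  have hK : N ^ K = 0 := by rw [hKdef, pow_add, hK₀, zero_mul]
  have hVinv : ∀ g : G, V g⁻¹ * V g = 1 := fun g => by rw [← map_mul, inv_mul_cancel, map_one]
  -- the one parameter groups
  set Z : Set (Matrix (Fin n) (Fin n) ℚ_[ℓ]) := V '' {σ | σ ∈ M ∧ (V σ)ᵀ * J * V σ = J} with hZ
  have hZc : IsClosed Z := by
    have h1 : IsClosed {σ : G | σ ∈ M ∧ (V σ)ᵀ * J * V σ = J} := by
      refine IsClosed.inter hM (isClosed_eq ?_ continuous_const)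
      exact ((hV.matrix_transpose).mul continuous_const).mul hV
    exact (h1.isCompact.image hV).isClosed
  have hone : ∀ (g : G) (m : ℕ), Ex K (V g * N * V g⁻¹) (m : ℚ_[ℓ]) ∈ Z := by
    intro g m
    refine ⟨g * s ^ m * g⁻¹, ⟨hMn.conj_mem _ (M.pow_mem hs m) g, ?_⟩, ?_⟩
    · have h1 : ∀ m : ℕ, (V (s ^ m))ᵀ * J * V (s ^ m) = J := by
        intro m
        induction m with
        | zero => simp
        | succ m ih =>
          rw [pow_succ, map_mul, Matrix.transpose_mul]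
          calc (V s)ᵀ * (V (s ^ m))ᵀ * J * (V (s ^ m) * V s)
              = (V s)ᵀ * ((V (s ^ m))ᵀ * J * V (s ^ m)) * V s := by noncomm_ring
            _ = J := by rw [ih, hVJ]
      obtain ⟨c, hc⟩ := hsim g
      have h2 : c • ((V g⁻¹)ᵀ * J * V g⁻¹) = J := by
        calc c • ((V g⁻¹)ᵀ * J * V g⁻¹) = (V g⁻¹)ᵀ * (c • J) * V g⁻¹ := by
              rw [mul_smul_comm, smul_mul_assoc]
          _ = (V g * V g⁻¹)ᵀ * J * (V g * V g⁻¹) := by
              rw [← hc, Matrix.transpose_mul]; noncomm_ring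
          _ = J := by
              rw [← map_mul, mul_inv_cancel, map_one, Matrix.transpose_one, one_mul, mul_one]
      rw [map_mul, map_mul, Matrix.transpose_mul, Matrix.transpose_mul]
      calc (V g⁻¹)ᵀ * ((V (s ^ m))ᵀ * (V g)ᵀ) * J * (V g * V (s ^ m) * V g⁻¹)
          = (V g⁻¹)ᵀ * ((V (s ^ m))ᵀ * ((V g)ᵀ * J * V g) * V (s ^ m)) * V g⁻¹ := by noncomm_ring
        _ = (V g⁻¹)ᵀ * ((V (s ^ m))ᵀ * (c • J) * V (s ^ m)) * V g⁻¹ := by rw [hc]
        _ = c • ((V g⁻¹)ᵀ * ((V (s ^ m))ᵀ * J * V (s ^ m)) * V g⁻¹) := by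
            simp only [mul_smul_comm, smul_mul_assoc]
        _ = J := by rw [h1, h2]
    · rw [map_mul, map_mul, map_pow, hVs, exp_pow_sum (k := ℚ_[ℓ]) hK, Ex, Finset.mul_sum,
        Finset.sum_mul]
      refine Finset.sum_congr rfl fun i _ => ?_
      rw [conj_pow' (hVinv g)]
      simp only [mul_smul_comm, smul_mul_assoc]
  have hpar : ∀ (g : G) (t : ℚ_[ℓ]), ‖t‖ ≤ 1 → Ex K (V g * N * V g⁻¹) t ∈ Z := by
    intro g t ht
    have h1 : IsClosed {t : ℤ_[ℓ] | Ex K (V g * N * V g⁻¹) (t : ℚ_[ℓ]) ∈ Z} :=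
      hZc.preimage (Ex_cont K _)
    have h2 := PadicInt.denseRange_natCast.induction_on (p := fun t : ℤ_[ℓ] =>
      Ex K (V g * N * V g⁻¹) (t : ℚ_[ℓ]) ∈ Z) ⟨t, ht⟩ h1 (fun m => by
        have := hone g m
        simpa using this)
    exact h2
  -- a finite spanning family
  obtain ⟨b, hb1, hb2, hb3⟩ := exists_linearIndependent ℚ_[ℓ]
    (Set.range fun g : G => V g * N * V g⁻¹)
  have hbf : b.Finite := hb3.setFinite
  obtain ⟨d, ⟨e⟩⟩ : ∃ d : ℕ, Nonempty (Fin d ≃ b) := by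
    have := hbf.fintype
    exact ⟨Fintype.card b, ⟨(Fintype.equivFin b).symm⟩⟩
  have hg : ∀ i : Fin d, ∃ g : G, V g * N * V g⁻¹ = (e i : Matrix (Fin n) (Fin n) ℚ_[ℓ]) :=
    fun i => hb1 (e i).2
  choose γ hγ using hg
  obtain ⟨p, hp⟩ := exists_proj J hJ hJs
  obtain ⟨δ, hδ, hmain⟩ := exists_product (𝕜 := ℚ_[ℓ]) (A := Matrix (Fin n) (Fin n) ℚ_[ℓ])
    two_ne_zero (LieJ J) p (by
      intro x
      have h1 := hp x
      have h2 : J⁻¹ * (x : Matrix (Fin n) (Fin n) ℚ_[ℓ])ᵀ * J = -x := by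
        have h3 := mem_LieJ.1 x.2
        rw [mul_assoc, eq_neg_of_add_eq_zero_left h3, mul_neg, ← mul_assoc,
          Matrix.nonsing_inv_mul J hu, one_mul]
      rw [h2, sub_neg_eq_add, ← two_smul ℚ_[ℓ]] at h1
      exact Subtype.ext (smul_right_injective _ two_ne_zero h1))
    (fun i => V (γ i) * N * V (γ i)⁻¹) (fun i => Ex K (V (γ i) * N * V (γ i)⁻¹))
    (fun i => Ex_zero K hK2 _) (fun i => Ex_deriv K hK2 _) (by
      intro A hA
      have h1 := hspan A (mem_LieJ.1 hA)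
      rw [← hb2] at h1
      have h2 : (Set.range fun i => V (γ i) * N * V (γ i)⁻¹) = b := by
        ext x
        constructor
        · rintro ⟨i, rfl⟩
          simp only [hγ]
          exact (e i).2
        · intro hx
          refine ⟨e.symm ⟨x, hx⟩, ?_⟩
          simp only [hγ, Equiv.apply_symm_apply]
      rw [h2]
      exact h1)
    (fun g => gᵀ * J * g = J) (by simp) (by
      intro a b ha hb
      rw [Matrix.transpose_mul]
      calc bᵀ * aᵀ * J * (a * b) = bᵀ * (aᵀ * J * a) * b := by noncomm_ring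
        _ = J := by rw [ha, hb])
    (fun i t ht => by
      obtain ⟨σ, ⟨_, h1⟩, h2⟩ := hpar (γ i) t ht
      rw [← h2]
      exact h1)
    (fun g hg => by
      have h1 : J⁻¹ * gᵀ * J * g = 1 := by
        rw [mul_assoc, mul_assoc, ← mul_assoc gᵀ, hg, Matrix.nonsing_inv_mul J hu]
      exact ⟨J⁻¹ * gᵀ * J, mul_eq_one_comm.1 h1, h1, hp g⟩)
  refine ⟨δ / (n + 1), by positivity, fun g hg hgε => ?_⟩
  obtain ⟨t, ht, rfl⟩ := hmain g (linfty_le _ δ hδ hgε) hg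
  have hprod : ∀ l : List (Fin d), (l.map fun i => Ex K (V (γ i) * N * V (γ i)⁻¹) (t i)).prod ∈ Z := by
    intro l
    induction l with
    | nil => exact ⟨1, ⟨M.one_mem, by simp⟩, map_one V⟩
    | cons i l ih =>
      rw [List.map_cons, List.prod_cons]
      obtain ⟨a, ⟨ha, ha'⟩, ha''⟩ := hpar (γ i) (t i) (ht i)
      obtain ⟨b, ⟨hb, hb'⟩, hb''⟩ := ih
      rw [← ha'', ← hb'']
      refine ⟨a * b, ⟨M.mul_mem ha hb, ?_⟩, map_mul V a b⟩
      rw [map_mul, Matrix.transpose_mul]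
      calc (V b)ᵀ * (V a)ᵀ * J * (V a * V b)
          = (V b)ᵀ * ((V a)ᵀ * J * V a) * V b := by noncomm_ring
        _ = J := by rw [ha', hb']
  obtain ⟨σ, ⟨h1, _⟩, h2⟩ := hprod (List.finRange d)
  exact ⟨σ, h1, h2⟩

end

end Pool.Agent.LM
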