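import Pool.Agent.Lib_helper98.LM.G2

set_option autoImplicit false

/-!
# Semisimplicity
-/

namespace Pool.Agent.LM

open Matrix Module

section

variable {k : Type*} [Field k] {n : ℕ}

/-- the bilinear form of a matrix -/
noncomputable def BJ (J : Matrix (Fin n) (Fin n) k) : LinearMap.BilinForm k (Fin n → k) :=
  Matrix.toBilin' J

theorem BJ_apply (J : Matrix (Fin n) (Fin n) k) (x y : Fin n → k) :
    BJ J x y = x ⬝ᵥ (J *ᵥ y) := by
  rw [BJ, Matrix.toBilin'_apply']

theorem BJ_move (J A : Matrix (Fin n) (Fin n) k) (x y : Fin n → k) :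
    BJ J (toLin' A x) y = BJ (Aᵀ * J) x y := by
  rw [BJ_apply, BJ_apply, toLin'_apply, ← Matrix.mulVec_mulVec, Matrix.dotProduct_mulVec,
    Matrix.dotProduct_mulVec, Matrix.dotProduct_mulVec, Matrix.vecMul_transpose]

theorem BJ_move' (J A : Matrix (Fin n) (Fin n) k) (x y : Fin n → k) :
    BJ J x (toLin' A y) = BJ (J * A) x y := by
  rw [BJ_apply, BJ_apply, toLin'_apply, Matrix.mulVec_mulVec]

theorem BJ_symm (J : Matrix (Fin n) (Fin n) k) (x y : Fin n → k) :
    BJ J x y = BJ Jᵀ y x := by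
  rw [BJ_apply, BJ_apply, Matrix.dotProduct_mulVec, Matrix.mulVec_transpose, dotProduct_comm]

theorem BJ_smul (J : Matrix (Fin n) (Fin n) k) (c : k) (x y : Fin n → k) :
    BJ (c • J) x y = c * BJ J x y := by
  rw [BJ_apply, BJ_apply, Matrix.smul_mulVec, dotProduct_smul, smul_eq_mul]

theorem BJ_eq {e : k} {J : Matrix (Fin n) (Fin n) k} (h : Jᵀ = e • J)
    (x y : Fin n → k) : BJ J x y = e * BJ J y x := by
  rw [BJ_symm, h, BJ_smul]

theorem BJ_inj {J J' : Matrix (Fin n) (Fin n) k} (h : ∀ x y, BJ J x y = BJ J' x y) : J = J' := by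
  have h1 : BJ J = BJ J' := by
    ext x y
    exact h _ _
  exact (Matrix.toBilin' : Matrix (Fin n) (Fin n) k ≃ₗ[k] _).injective h1

theorem BJ_nondeg {J : Matrix (Fin n) (Fin n) k} (hJ : J.det ≠ 0) (x : Fin n → k)
    (h : ∀ y, BJ J x y = 0) : x = 0 := by
  have hu : IsUnit J.det := isUnit_iff_ne_zero.2 hJ
  ext i
  have h1 := h (J⁻¹ *ᵥ Pi.single i 1)
  rw [BJ_apply, Matrix.mulVec_mulVec, Matrix.mul_nonsing_inv J hu, Matrix.one_mulVec] at h1
  simpa using h1

theorem lie_iff {J A : Matrix (Fin n) (Fin n) k} : Aᵀ * J + J * A = 0 ↔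
    ∀ x y, BJ J (toLin' A x) y + BJ J x (toLin' A y) = 0 := by
  constructor
  · intro h x y
    rw [BJ_move, BJ_move', ← LinearMap.add_apply, ← LinearMap.add_apply, BJ, BJ, ← map_add, h,
      map_zero]
    rfl
  · intro h
    refine BJ_inj fun x y => ?_
    have h1 := h x y
    rw [BJ_move, BJ_move', ← LinearMap.add_apply, ← LinearMap.add_apply, BJ, BJ, ← map_add] at h1
    rw [BJ, h1, BJ, map_zero]
    rfl

end

section

variable {k : Type*} [Field k] [CharZero k] {n : ℕ} [Module ℚ (Matrix (Fin n) (Fin n) k)]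

omit [CharZero k] in
theorem det_exp {N : Matrix (Fin n) (Fin n) k} (hN : IsNilpotent N) :
    (IsNilpotent.exp N).det = 1 := by
  have h1 : IsNilpotent (toLin' (-(IsNilpotent.exp N - 1))) := by
    obtain ⟨m, hm⟩ := (IsNilpotent.isNilpotent_exp_sub_one hN).neg
    exact ⟨m, by rw [← Matrix.toLin'_pow, hm, map_zero]⟩
  have h2 := h1.charpoly_eq_X_pow_finrank
  rw [Matrix.charpoly_toLin', finrank_fin_fun] at h2
  have h3 := Matrix.eval_charpoly (-(IsNilpotent.exp N - 1)) (1 : k)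
  rw [h2] at h3
  have h4 : (scalar (Fin n)) (1 : k) - -(IsNilpotent.exp N - 1) = IsNilpotent.exp N := by
    rw [map_one]; abel
  rw [h4] at h3
  rw [← h3]
  simp

theorem lie_exp {N J : Matrix (Fin n) (Fin n) k} (hN : IsNilpotent N)
    (h : Nᵀ * J + J * N = 0) : (IsNilpotent.exp N)ᵀ * J * IsNilpotent.exp N = J := by
  obtain ⟨K, hK⟩ := id hN
  have hK' : (-N) ^ K = 0 := by rw [neg_pow, hK, mul_zero]
  have h1 : ∀ i : ℕ, J * N ^ i = ((-N) ^ i)ᵀ * J := by
    intro i
    induction i with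
    | zero => simp
    | succ i ih =>
      have h2 : J * N = (-N)ᵀ * J := by
        rw [Matrix.transpose_neg, Matrix.neg_mul]
        exact eq_neg_of_add_eq_zero_right h
      rw [pow_succ, ← mul_assoc, ih, mul_assoc, h2, ← mul_assoc, ← Matrix.transpose_mul,
        ← pow_succ']
  have h2 : J * IsNilpotent.exp N = (IsNilpotent.exp (-N))ᵀ * J := by
    have h3 := exp_pow_sum (k := k) hK 1
    have h4 := exp_pow_sum (k := k) hK' 1
    rw [pow_one] at h3 h4
    rw [h3, h4, Matrix.mul_sum, Matrix.transpose_sum, Matrix.sum_mul]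
    refine Finset.sum_congr rfl fun i _ => ?_
    rw [Matrix.mul_smul, Matrix.mul_smul, h1, Matrix.transpose_smul, Matrix.transpose_smul,
      Matrix.smul_mul, Matrix.smul_mul]
  rw [mul_assoc, h2, ← mul_assoc, ← Matrix.transpose_mul, IsNilpotent.exp_neg_mul_exp_self hN,
    Matrix.transpose_one, one_mul]

/-- the logarithm of a unipotent similitude is in the Lie algebra -/
theorem unip_lie {N J : Matrix (Fin n) (Fin n) k} (hN : IsNilpotent N) (hJ : J.det ≠ 0) {c : k}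
    (h : (IsNilpotent.exp N)ᵀ * J * IsNilpotent.exp N = c • J) :
    Nᵀ * J + J * N = 0 ∧ (0 < n → c = 1) := by
  rcases Nat.eq_zero_or_pos n with h0 | h0
  · subst h0
    exact ⟨Subsingleton.elim _ _, fun h => absurd h (lt_irrefl _)⟩
  have hcn : c ^ n = 1 := by
    have h1 := congrArg Matrix.det h
    rw [Matrix.det_mul, Matrix.det_mul, Matrix.det_transpose, det_exp hN, one_mul, mul_one,
      Matrix.det_smul, Fintype.card_fin] at h1
    have h2 : (c ^ n - 1) * J.det = 0 := by linear_combination -h1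
    exact sub_eq_zero.1 ((mul_eq_zero.1 h2).resolve_right hJ)
  have hpow : ∀ m : ℕ, (IsNilpotent.exp N ^ m)ᵀ * J * IsNilpotent.exp N ^ m = c ^ m • J := by
    intro m
    induction m with
    | zero => simp
    | succ m ih =>
      rw [pow_succ, Matrix.transpose_mul]
      calc (IsNilpotent.exp N)ᵀ * (IsNilpotent.exp N ^ m)ᵀ * J * (IsNilpotent.exp N ^ m *
            IsNilpotent.exp N)
          = (IsNilpotent.exp N)ᵀ * ((IsNilpotent.exp N ^ m)ᵀ * J * IsNilpotent.exp N ^ m) *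
            IsNilpotent.exp N := by noncomm_ring
        _ = c ^ (m + 1) • J := by
          rw [ih, Matrix.mul_smul, Matrix.smul_mul, h, smul_smul, pow_succ]
  have h2 : IsNilpotent (n • N) := by
    rw [← Nat.cast_smul_eq_nsmul ℤ]
    exact hN.smul _
  have h3 := hpow n
  rw [exp_pow hN, hcn, one_smul] at h3
  have h4 := exp_lie h2 h3
  rw [Matrix.transpose_smul, Matrix.smul_mul, Matrix.mul_smul, ← smul_add] at h4
  have hn0 : (n : k) ≠ 0 := by exact_mod_cast h0.ne'
  have h5 : Nᵀ * J + J * N = 0 := by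
    rw [← Nat.cast_smul_eq_nsmul k] at h4
    exact (smul_eq_zero.1 h4).resolve_left hn0
  refine ⟨h5, fun _ => ?_⟩
  have h6 := lie_exp hN h5
  rw [h] at h6
  have h7 : (c - 1) • J = 0 := by rw [sub_smul, h6, one_smul, sub_self]
  rcases smul_eq_zero.1 h7 with h8 | h8
  · exact sub_eq_zero.1 h8
  · exfalso
    apply hJ
    rw [h8]
    have h9 : Nonempty (Fin n) := Fin.pos_iff_nonempty.1 h0
    exact Matrix.det_zero

end

section

variable {K : Type} [Field K] [NumberField K] [Algebra K (AlgebraicClosure ℚ)]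
  {ℓ : ℕ} [Fact ℓ.Prime] {n : ℕ} {ι : ℚ_[ℓ] →+* ℂ} {w : ℤ}
  {J : Matrix (Fin n) (Fin n) ℚ_[ℓ]}
  {V : GK K →* Matrix (Fin n) (Fin n) ℚ_[ℓ]} {N : Matrix (Fin n) (Fin n) ℚ_[ℓ]}

omit [NumberField K] in
theorem Geo.sign (h : Geo ι w J V) : ∃ e : ℚ_[ℓ], (e = 1 ∨ e = -1) ∧ Jᵀ = e • J := by
  rcases h.symm with h1 | h1
  · exact ⟨1, Or.inl rfl, by rw [h1, one_smul]⟩
  · exact ⟨-1, Or.inr rfl, by rw [h1, neg_one_smul]⟩

omit [NumberField K] in
theorem Geo.refl (h : Geo ι w J V) (x y : Fin n → ℚ_[ℓ]) (hxy : BJ J x y = 0) :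
    BJ J y x = 0 := by
  obtain ⟨e, _, he⟩ := h.sign
  rw [BJ_eq he, hxy, mul_zero]

omit [NumberField K] in
theorem Geo.sim' (h : Geo ι w J V) (σ : GK K) : ∃ c : ℚ_[ℓ], (0 < n → c ≠ 0) ∧
    (V σ)ᵀ * J * V σ = c • J ∧ (V σ).det ^ 2 = c ^ n ∧
    ∀ x y, BJ J (toLin' (V σ) x) (toLin' (V σ) y) = c * BJ J x y := by
  obtain ⟨c, hc⟩ := h.sim σ
  have h1 : (V σ).det ^ 2 = c ^ n := by
    have h2 := congrArg Matrix.det hc
    rw [Matrix.det_mul, Matrix.det_mul, Matrix.det_transpose, Matrix.det_smul,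
      Fintype.card_fin] at h2
    have h3 : ((V σ).det ^ 2 - c ^ n) * J.det = 0 := by linear_combination h2
    exact sub_eq_zero.1 ((mul_eq_zero.1 h3).resolve_right h.det)
  have h2 : (V σ).det ≠ 0 := by
    have h3 : V σ * V σ⁻¹ = 1 := by rw [← map_mul, mul_inv_cancel, map_one]
    have h4 := congrArg Matrix.det h3
    rw [Matrix.det_mul, Matrix.det_one] at h4
    exact left_ne_zero_of_mul_eq_one h4
  refine ⟨c, ?_, hc, h1, ?_⟩
  · rintro hn rfl
    rw [zero_pow hn.ne'] at h1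
    exact h2 (pow_eq_zero_iff two_ne_zero |>.1 h1)
  · intro x y
    rw [BJ_move, BJ_move', hc, BJ_smul]

theorem WM.finsupp {k : Type*} [Field k] {E : Type*} [AddCommGroup E] [Module k E]
    [FiniteDimensional k E] {ι : k →+* ℂ} {q : ℕ} (hq : 1 < q) {w : ℤ} {F N : Module.End k E}
    (h : WM ι q w F N) : ∃ c : ℕ →₀ ℕ, (∀ i, c i ≤ blocks N i) ∧
      finrank k E = c.sum fun i m => (i + 1) * m := by
  obtain ⟨m, hm⟩ := exists_bound ι hq w F
  refine ⟨Finsupp.onFinset (Finset.range (m + 1))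
    (fun i => if i < m + 1 then blocks N i else 0) ?_, ?_, ?_⟩
  · intro i hi
    rw [Finset.mem_range]
    by_contra h3
    rw [if_neg h3] at hi
    exact hi rfl
  · intro i
    rw [Finsupp.onFinset_apply]
    split_ifs
    · exact le_rfl
    · exact Nat.zero_le _
  · rw [h.finrank_eq hq m hm, Finsupp.onFinset_sum _ (fun i => by simp)]
    refine Finset.sum_congr rfl fun i hi => ?_
    rw [if_pos (Finset.mem_range.1 hi)]

/-- an isotropic stable subspace -/
theorem iso_part (hG : Geo ι w J V) (hlog : IsLog ι w V N) {H : Subgroup (GK K)}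
    (hH : IsOpen (H : Set (GK K))) {R : Submodule ℚ_[ℓ] (Fin n → ℚ_[ℓ])} (hR : Stable V H R)
    (hiso : ∀ x ∈ R, ∀ y ∈ R, BJ J x y = 0) (hR0 : 0 < finrank ℚ_[ℓ] R) :
    HalfSum (toLin' N) (finrank ℚ_[ℓ] R) := by
  have hn : 0 < n := by
    have := Submodule.finrank_le R
    rw [finrank_fin_fun] at this
    omega
  obtain ⟨q, F, hq, hF, hWM, hN, hdet, -⟩ := log_data hH hG.pure hlog
  have hRF := hR F hF
  have hRN := hN R hR
  obtain ⟨hRWM, -⟩ := hWM.split hq R hRF hRN (hdet R hRF hR)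
  obtain ⟨c, hc0, -, hcd, hsim⟩ := hG.sim' F
  have hq0 : (0 : ℝ) < q := by exact_mod_cast zero_lt_one.trans hq
  -- the multiplier
  have hcw : ‖ι c‖ ^ 2 = (q : ℝ) ^ (2 * w) := by
    have h1 := hdet ⊤ (fun _ _ => Submodule.mem_top) (fun _ _ _ _ => Submodule.mem_top)
    rw [det_restrict_top, finrank_top, finrank_fin_fun, LinearMap.det_toLin'] at h1
    have h2 : (‖ι c‖ ^ 2) ^ n = ((q : ℝ) ^ (2 * w)) ^ n := by
      rw [← pow_mul, mul_comm 2 n, pow_mul, ← norm_pow, ← map_pow, ← hcd, map_pow, norm_pow,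
        ← zpow_natCast ((q : ℝ) ^ (2 * w)) n, ← _root_.zpow_mul, mul_assoc, mul_comm 2, _root_.zpow_mul, ← h1]
      rfl
    exact (pow_left_inj₀ (by positivity) (by positivity) hn.ne').1 h2
  have hVinv : V F * V F⁻¹ = 1 := by rw [← map_mul, mul_inv_cancel, map_one]
  have hVinv' : V F⁻¹ * V F = 1 := by rw [← map_mul, inv_mul_cancel, map_one]
  have hinj : Function.Injective (toLin' (V F)) := by
    intro x y hxy
    have h1 := congrArg (toLin' (V F⁻¹)) hxy
    rwa [← Matrix.toLin'_mul_apply, ← Matrix.toLin'_mul_apply, hVinv', Matrix.toLin'_one] at h1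
  have hsurj : Function.Surjective (toLin' (V F)) :=
    (LinearMap.injective_iff_surjective (f := toLin' (V F))).1 hinj
  obtain ⟨-, u, j, F₁, s, -, -, hs, -, -⟩ := id hlog
  obtain ⟨c', hc'⟩ := hG.sim s
  rw [hs] at hc'
  have hlie := lie_iff.1 (unip_lie hlog.1 hG.det hc').1
  obtain ⟨f, hf, hfr⟩ := hRWM.finsupp hq
  refine ⟨f, fun i => ?_, hfr⟩
  have h1 := half hq hWM (fun x hx => BJ_nondeg hG.det x hx) hlie
    (fun i j hij x hx y hy => orth hq hsurj (hc0 hn) hsim hcw hinj hij hx hy) R hRF hRN hRWM hiso i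
  have h2 := hf i
  omega

/-- (1a) -/
theorem semis_part (hG : Geo ι w J V)
    (h : ∀ r, 0 < r → 2 * r ≤ n → ∃ N, IsLog ι w V N ∧ ¬ HalfSum (toLin' N) r)
    {H : Subgroup (GK K)} (hH : IsOpen (H : Set (GK K)))
    {W : Submodule ℚ_[ℓ] (Fin n → ℚ_[ℓ])} (hW : Stable V H W) :
    ∃ W', Stable V H W' ∧ IsCompl W W' := by
  have hrefl : (BJ J).IsRefl := hG.refl
  have hst : ∀ U : Submodule ℚ_[ℓ] (Fin n → ℚ_[ℓ]), Stable V H U →
      Stable V H ((BJ J).orthogonal U) := by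
    intro U hU g hg y hy x hx
    have h1 : toLin' (V g) (toLin' (V g⁻¹) x) = x := by
      rw [← Matrix.toLin'_mul_apply, ← map_mul, mul_inv_cancel, map_one, Matrix.toLin'_one]
      rfl
    obtain ⟨c, -, -, -, hc⟩ := hG.sim' g
    have h2 := hy _ (hU g⁻¹ (H.inv_mem hg) x hx)
    change BJ J x (toLin' (V g) y) = 0
    rw [← h1, hc]
    rw [show BJ J (toLin' (V g⁻¹) x) y = 0 from h2, mul_zero]
  refine ⟨(BJ J).orthogonal W, hst W hW, ?_⟩
  rw [LinearMap.BilinForm.isCompl_orthogonal_iff_disjoint hrefl, disjoint_iff]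
  set R := W ⊓ (BJ J).orthogonal W with hRdef
  have hR : Stable V H R := fun g hg x hx => ⟨hW g hg x hx.1, hst W hW g hg x hx.2⟩
  have hiso : ∀ x ∈ R, ∀ y ∈ R, BJ J x y = 0 := fun x hx y hy => hy.2 x hx.1
  rcases Nat.eq_zero_or_pos (finrank ℚ_[ℓ] R) with h0 | h0
  · exact Submodule.finrank_eq_zero.1 h0
  · exfalso
    have h1 : R ≤ (BJ J).orthogonal R := fun y hy x hx => hiso x hx y hy
    have h2 := LinearMap.BilinForm.finrank_add_finrank_orthogonal' (B := BJ J) R
    have h3 : (BJ J).ker = ⊥ := by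
      rw [LinearMap.ker_eq_bot']
      intro x hx
      exact BJ_nondeg hG.det x fun y => by rw [hx]; rfl
    rw [h3, inf_bot_eq, finrank_bot, finrank_fin_fun] at h2
    have h4 := Submodule.finrank_mono h1
    obtain ⟨N, hN, hr⟩ := h _ h0 (by omega)
    exact hr (iso_part hG hN hH hR hiso h0)

end

end Pool.Agent.LM
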