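import Pool.Agent.Lib_helper98.LM.D2
import Pool.Agent.Lib_helper98.LM.G3

set_option autoImplicit false

/-!
# The image is open: families
-/

open scoped Matrix

namespace Pool.Agent.LM

open Module Topology Filter

attribute [local instance] Matrix.linftyOpNormedRing Matrix.linftyOpNormedAlgebra

section

variable {ℓ : ℕ} [Fact ℓ.Prime] {I : Type} [Fintype I] {n : I → ℕ}

/-- families of matrices -/
abbrev Tot (ℓ : ℕ) [Fact ℓ.Prime] {I : Type} (n : I → ℕ) : Type :=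
  (a : I) → Matrix (Fin (n a)) (Fin (n a)) ℚ_[ℓ]

/-- the Lie algebra of a family of forms -/
noncomputable def LieT (J : Tot ℓ n) : Submodule ℚ_[ℓ] (Tot ℓ n) where
  carrier := {A | ∀ a, A a ∈ LieJ (J a)}
  zero_mem' := fun a => (LieJ (J a)).zero_mem
  add_mem' := fun hA hB a => (LieJ (J a)).add_mem (hA a) (hB a)
  smul_mem' := fun c _ hA a => (LieJ (J a)).smul_mem c (hA a)

/-- the logarithms of the elements of `M` that act by unipotent matrices -/
def Logs {G : Type*} [Group G] (V : (a : I) → G →* Matrix (Fin (n a)) (Fin (n a)) ℚ_[ℓ])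
    (M : Subgroup G) : Set (Tot ℓ n) :=
  {N | (∀ a, IsNilpotent (N a)) ∧ ∃ s ∈ M, ∀ a, V a s = IsNilpotent.exp (N a)}

theorem blockD_fam {G : Type*} [Group G] [TopologicalSpace G] [CompactSpace G]
    (V : (a : I) → G →* Matrix (Fin (n a)) (Fin (n a)) ℚ_[ℓ]) (hV : ∀ a, Continuous (V a))
    (M : Subgroup G) (hM : IsClosed (M : Set G)) (J : Tot ℓ n) (hJ : ∀ a, (J a).det ≠ 0)
    (hJs : ∀ a, (J a)ᵀ = J a ∨ (J a)ᵀ = -J a)
    (hsim : ∀ a (g : G), ∃ c : ℚ_[ℓ], (V a g)ᵀ * J a * V a g = c • J a)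
    (hspan : LieT J ≤ Submodule.span ℚ_[ℓ] (Logs V M)) :
    ∃ ε : ℝ, 0 < ε ∧ ∀ g : Tot ℓ n, (∀ a, (g a)ᵀ * J a * g a = J a) →
      (∀ a i j, ‖(g a - 1) i j‖ < ε) → ∃ σ ∈ M, ∀ a, V a σ = g a := by
  classical
  have hu : ∀ a, IsUnit (J a).det := fun a => isUnit_iff_ne_zero.2 (hJ a)
  set K := (∑ a, n a) + 2 with hKdef
  have hK2 : 2 ≤ K := by omega
  have hK : ∀ a (N : Matrix (Fin (n a)) (Fin (n a)) ℚ_[ℓ]), IsNilpotent N → N ^ K = 0 := by
    intro a N hN
    refine pow_eq_zero_of_le ?_ (nilp_pow hN)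
    have := Finset.single_le_sum (f := n) (fun _ _ => Nat.zero_le _) (Finset.mem_univ a)
    omega
  set Z : Set (Tot ℓ n) := (fun σ a => V a σ) '' {σ | σ ∈ M ∧ ∀ a, (V a σ)ᵀ * J a * V a σ = J a}
    with hZ
  have hZc : IsClosed Z := by
    have h1 : IsClosed {σ : G | σ ∈ M ∧ ∀ a, (V a σ)ᵀ * J a * V a σ = J a} := by
      have h0 : {σ : G | σ ∈ M ∧ ∀ a, (V a σ)ᵀ * J a * V a σ = J a} =
          (M : Set G) ∩ ⋂ a, {σ | (V a σ)ᵀ * J a * V a σ = J a} := by
        ext σ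
        simp
      rw [h0]
      refine IsClosed.inter hM (isClosed_iInter fun a => isClosed_eq ?_ continuous_const)
      exact (((hV a).matrix_transpose).mul continuous_const).mul (hV a)
    exact (h1.isCompact.image (continuous_pi hV)).isClosed
  have hone : ∀ N ∈ Logs V M, ∀ m : ℕ, (fun a => Ex K (N a) (m : ℚ_[ℓ])) ∈ Z := by
    rintro N ⟨hN, s, hs, hsN⟩ m
    have hiso : ∀ a, (V a s)ᵀ * J a * V a s = J a := by
      intro a
      obtain ⟨c, hc⟩ := hsim a s
      rw [hsN] at hc ⊢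
      exact lie_exp (hN a) (unip_lie (hN a) (hJ a) hc).1
    refine ⟨s ^ m, ⟨M.pow_mem hs m, fun a => ?_⟩, ?_⟩
    · induction m with
      | zero => simp
      | succ m ih =>
        rw [pow_succ, map_mul, Matrix.transpose_mul]
        calc (V a s)ᵀ * (V a (s ^ m))ᵀ * J a * (V a (s ^ m) * V a s)
            = (V a s)ᵀ * ((V a (s ^ m))ᵀ * J a * V a (s ^ m)) * V a s := by noncomm_ring
          _ = J a := by rw [ih, hiso]
    · funext a
      change V a (s ^ m) = _
      rw [map_pow, hsN, exp_pow_sum (k := ℚ_[ℓ]) (hK a _ (hN a)), Ex]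
  have hpar : ∀ N ∈ Logs V M, ∀ t : ℚ_[ℓ], ‖t‖ ≤ 1 → (fun a => Ex K (N a) t) ∈ Z := by
    intro N hN t ht
    have h1 : IsClosed {t : ℤ_[ℓ] | (fun a => Ex K (N a) (t : ℚ_[ℓ])) ∈ Z} :=
      hZc.preimage (continuous_pi fun a => Ex_cont K _)
    have h2 := PadicInt.denseRange_natCast.induction_on (p := fun t : ℤ_[ℓ] =>
      (fun a => Ex K (N a) (t : ℚ_[ℓ])) ∈ Z) ⟨t, ht⟩ h1 (fun m => by
        have := hone N hN m
        simpa using this)
    exact h2
  obtain ⟨b, hb1, hb2, hb3⟩ := exists_linearIndependent ℚ_[ℓ] (Logs V M)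
  have hbf : b.Finite := hb3.setFinite
  obtain ⟨d, ⟨e⟩⟩ : ∃ d : ℕ, Nonempty (Fin d ≃ b) := by
    have := hbf.fintype
    exact ⟨Fintype.card b, ⟨(Fintype.equivFin b).symm⟩⟩
  have he : ∀ i, (e i : Tot ℓ n) ∈ Logs V M := fun i => hb1 (e i).2
  choose p hp using fun a => exists_proj (J a) (hJ a) (hJs a)
  let pT : Tot ℓ n →ₗ[ℚ_[ℓ]] LieT J :=
    { toFun := fun A => ⟨fun a => (p a (A a) : Matrix _ _ ℚ_[ℓ]), fun a => (p a (A a)).2⟩
      map_add' := by
        intro A B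
        apply Subtype.ext
        funext a
        exact congrArg Subtype.val (map_add (p a) (A a) (B a))
      map_smul' := by
        intro c A
        apply Subtype.ext
        funext a
        exact congrArg Subtype.val (map_smul (p a) c (A a)) }
  have hpT : ∀ (A : Tot ℓ n) a, (2 : ℚ_[ℓ]) • ((pT A : Tot ℓ n) a) =
      A a - (J a)⁻¹ * (A a)ᵀ * J a := fun A a => hp a (A a)
  obtain ⟨δ, hδ, hmain⟩ := exists_product (𝕜 := ℚ_[ℓ]) (A := Tot ℓ n)
    two_ne_zero (LieT J) pT (by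
      intro x
      apply Subtype.ext
      funext a
      have h1 := hpT x a
      have h2 : (J a)⁻¹ * ((x : Tot ℓ n) a)ᵀ * J a = -((x : Tot ℓ n) a) := by
        have h3 := mem_LieJ.1 (x.2 a)
        rw [mul_assoc, eq_neg_of_add_eq_zero_left h3, mul_neg, ← mul_assoc,
          Matrix.nonsing_inv_mul (J a) (hu a), one_mul]
      rw [h2, sub_neg_eq_add, ← two_smul ℚ_[ℓ]] at h1
      exact smul_right_injective _ two_ne_zero h1)
    (fun i => (e i : Tot ℓ n)) (fun i t a => Ex K ((e i : Tot ℓ n) a) t)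
    (fun i => funext fun a => Ex_zero K hK2 _)
    (fun i => hasStrictDerivAt_pi.2 fun a => Ex_deriv K hK2 _) (by
      intro A hA
      have h1 := hspan hA
      rw [← hb2] at h1
      have h2 : (Set.range fun i => (e i : Tot ℓ n)) = b := by
        ext x
        constructor
        · rintro ⟨i, rfl⟩
          exact (e i).2
        · intro hx
          exact ⟨e.symm ⟨x, hx⟩, by simp only [Equiv.apply_symm_apply]⟩
      rw [h2]
      exact h1)
    (fun g => ∀ a, (g a)ᵀ * J a * g a = J a) (fun a => by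
      rw [Pi.one_apply, Matrix.transpose_one, one_mul, mul_one]) (by
      intro A B hA hB a
      rw [Pi.mul_apply, Matrix.transpose_mul]
      calc (B a)ᵀ * (A a)ᵀ * J a * (A a * B a) = (B a)ᵀ * ((A a)ᵀ * J a * A a) * B a := by
            noncomm_ring
        _ = J a := by rw [hA, hB])
    (fun i t ht => by
      obtain ⟨σ, ⟨_, h1⟩, h2⟩ := hpar _ (he i) t ht
      intro a
      have h3 := congrFun h2 a
      have h4 := h1 a
      change V a σ = _ at h3
      rw [h3] at h4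
      exact h4)
    (fun g hg => by
      have h1 : ∀ a, (J a)⁻¹ * (g a)ᵀ * J a * g a = 1 := by
        intro a
        rw [mul_assoc, mul_assoc, ← mul_assoc (g a)ᵀ, hg a, Matrix.nonsing_inv_mul (J a) (hu a)]
      exact ⟨fun a => (J a)⁻¹ * (g a)ᵀ * J a, funext fun a => mul_eq_one_comm.1 (h1 a),
        funext fun a => h1 a, funext fun a => hpT g a⟩)
  obtain ⟨m, hm⟩ : ∃ m : ℕ, ∀ a, n a ≤ m := ⟨∑ a, n a, fun a =>
    Finset.single_le_sum (f := n) (fun _ _ => Nat.zero_le _) (Finset.mem_univ a)⟩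
  refine ⟨δ / (m + 1), by positivity, fun g hg hgε => ?_⟩
  have hnorm : ‖g - 1‖ < δ := by
    rw [pi_norm_lt_iff hδ]
    intro a
    refine linfty_le _ δ hδ fun i j => ?_
    have h1 := hgε a i j
    have h2 : δ / ((m : ℝ) + 1) ≤ δ / ((n a : ℝ) + 1) := by
      have h3 : (n a : ℝ) ≤ m := by exact_mod_cast hm a
      gcongr
    exact lt_of_lt_of_le h1 h2
  obtain ⟨t, ht, rfl⟩ := hmain g hnorm hg
  have hprod : ∀ l : List (Fin d), (l.map fun i => (fun a => Ex K ((e i : Tot ℓ n) a) (t i) :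
      Tot ℓ n)).prod ∈ Z := by
    intro l
    induction l with
    | nil => exact ⟨1, ⟨M.one_mem, by simp⟩, funext fun a => map_one (V a)⟩
    | cons i l ih =>
      rw [List.map_cons, List.prod_cons]
      obtain ⟨x, ⟨hx, hx'⟩, hx''⟩ := hpar _ (he i) (t i) (ht i)
      obtain ⟨y, ⟨hy, hy'⟩, hy''⟩ := ih
      rw [← hx'', ← hy'']
      refine ⟨x * y, ⟨M.mul_mem hx hy, fun a => ?_⟩, funext fun a => map_mul (V a) x y⟩
      rw [map_mul, Matrix.transpose_mul]
      calc (V a y)ᵀ * (V a x)ᵀ * J a * (V a x * V a y)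
          = (V a y)ᵀ * ((V a x)ᵀ * J a * V a x) * V a y := by noncomm_ring
        _ = J a := by rw [hx', hy']
  obtain ⟨σ, ⟨h1, _⟩, h2⟩ := hprod (List.finRange d)
  exact ⟨σ, h1, fun a => congrFun h2 a⟩

end

end Pool.Agent.LM
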