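import Pool.Agent.Lib_helper98.LM.A7

set_option autoImplicit false

/-!
# Weights and duality
-/

namespace Pool.Agent.LM

open Polynomial Module

section

variable {k : Type*} [Field k] {E : Type*} [AddCommGroup E] [Module k E]

theorem pow_mul_pow_of {F F' : Module.End k E} {χ : k} (h2 : F' * F = χ • 1)
    (i : ℕ) : F' ^ i * F ^ i = χ ^ i • 1 := by
  induction i with
  | zero => simp
  | succ i ih =>
    rw [pow_succ, pow_succ', mul_assoc, ← mul_assoc F', h2, smul_mul_assoc, one_mul,
      mul_smul_comm, ih, smul_smul, pow_succ']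

/-- weights of `χ F⁻¹` -/
theorem ws_inv (ι : k →+* ℂ) {F F' : Module.End k E} {χ : k} (hχ : χ ≠ 0)
    (h2 : F' * F = χ • 1) (c : ℝ) (hc : c ≠ 0) :
    ws ι F c ≤ ws ι F' (‖ι χ‖ ^ 2 / c) := by
  rintro x ⟨P, h0, hP, hx⟩
  set d := P.natDegree with hd
  set Q : k[X] := ∑ i ∈ Finset.range (d + 1), C (P.coeff i * χ ^ i) * X ^ (d - i) with hQ
  have hlead : P.coeff d ≠ 0 := by
    rw [hd, coeff_natDegree]
    exact leadingCoeff_ne_zero.2 h0
  have heval : ∀ z : ℂ, (Q.map ι).eval z =
      ∑ i ∈ Finset.range (d + 1), ι (P.coeff i) * ι χ ^ i * z ^ (d - i) := by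
    intro z
    rw [hQ, Polynomial.map_sum, eval_finsetSum]
    refine Finset.sum_congr rfl fun i _ => ?_
    rw [Polynomial.map_mul, map_C, Polynomial.map_pow, map_X, eval_mul, eval_C, eval_pow, eval_X,
      map_mul, map_pow]
  have heval0 : (Q.map ι).eval 0 ≠ 0 := by
    rw [heval, Finset.sum_eq_single d]
    · rw [Nat.sub_self, pow_zero, mul_one]
      exact mul_ne_zero ((map_ne_zero ι).2 hlead) (pow_ne_zero _ ((map_ne_zero ι).2 hχ))
    · intro i hi hid
      rw [Finset.mem_range] at hi
      rw [zero_pow (by omega), mul_zero]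
    · intro h
      exact absurd (Finset.mem_range.2 (Nat.lt_succ_self d)) h
  refine ⟨Q, ?_, ?_, ?_⟩
  · intro h
    rw [h] at heval0
    simp at heval0
  · intro z hz
    have hz0 : z ≠ 0 := by
      rintro rfl
      exact heval0 hz
    have h3 : (P.map ι).eval (ι χ / z) = 0 := by
      have h4 : z ^ d * (P.map ι).eval (ι χ / z) = (Q.map ι).eval z := by
        rw [heval, eval_map, eval₂_eq_sum_range, ← hd, Finset.mul_sum]
        refine Finset.sum_congr rfl fun i hi => ?_
        rw [Finset.mem_range] at hi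
        have h5 : z ^ d = z ^ (d - i) * z ^ i := by rw [← pow_add]; congr 1; omega
        rw [h5, div_pow]
        field_simp
      rw [show (Q.map ι).eval z = 0 from hz] at h4
      exact (mul_eq_zero.1 h4).resolve_left (pow_ne_zero _ hz0)
    have h4 := hP _ h3
    rw [norm_div, div_pow] at h4
    have h5 : ‖z‖ ^ 2 ≠ 0 := pow_ne_zero _ (norm_ne_zero_iff.2 hz0)
    rw [div_eq_iff h5] at h4
    rw [h4, mul_div_cancel_left₀ _ hc]
  · have h3 : aeval F' Q = F' ^ d * aeval F P := by
      rw [hQ, map_sum, aeval_eq_sum_range, ← hd, Finset.mul_sum]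
      refine Finset.sum_congr rfl fun i hi => ?_
      rw [Finset.mem_range] at hi
      have h5 : F' ^ d = F' ^ (d - i) * F' ^ i := by rw [← pow_add]; congr 1; omega
      rw [map_mul, aeval_C, map_pow, aeval_X, mul_smul_comm, h5, mul_assoc, pow_mul_pow_of h2,
        mul_smul_comm, mul_one, ← Algebra.smul_def, smul_smul]
    rw [h3, Module.End.mul_apply, hx, map_zero]

variable {B : E →ₗ[k] E →ₗ[k] k}

theorem adjoint_aeval {F F' : Module.End k E} (hadj : ∀ x y, B (F' x) y = B x (F y)) (P : k[X])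
    (x y : E) : B (aeval F' P x) y = B x (aeval F P y) := by
  induction P using Polynomial.induction_on' with
  | add p q hp hq =>
    rw [map_add, map_add, LinearMap.add_apply, LinearMap.add_apply, map_add, map_add,
      LinearMap.add_apply, hp, hq]
  | monomial n a =>
    have h1 : ∀ (n : ℕ) (x y : E), B ((F' ^ n) x) y = B x ((F ^ n) y) := by
      intro n
      induction n with
      | zero => intro x y; rfl
      | succ n ih => intro x y; rw [pow_succ, pow_succ', Module.End.mul_apply, Module.End.mul_apply,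
          ih, hadj]
    rw [aeval_monomial, aeval_monomial, Module.End.mul_apply, Module.End.mul_apply,
      Module.algebraMap_end_apply, Module.algebraMap_end_apply, map_smul, map_smul,
      LinearMap.smul_apply, h1]

theorem orth_of_ne {ι : k →+* ℂ} {F F' : Module.End k E}
    (hadj : ∀ x y, B (F' x) y = B x (F y)) {c d : ℝ} (hcd : c ≠ d) {x y : E}
    (hx : x ∈ ws ι F' c) (hy : y ∈ ws ι F d) : B x y = 0 := by
  obtain ⟨P, h0, hP, hPx⟩ := hx
  obtain ⟨Q, h0', hQ, hQy⟩ := hy
  obtain ⟨a, b, hab⟩ := coprime_of_rootsAbs hcd hP hQ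
  have h1 : x = aeval F' Q (aeval F' b x) := by
    have h2 := congrArg (fun p => aeval F' p x) hab
    simp only [map_add, LinearMap.add_apply, map_one, Module.End.one_apply] at h2
    rw [map_mul, Module.End.mul_apply, hPx, map_zero, zero_add, mul_comm, map_mul,
      Module.End.mul_apply] at h2
    exact h2.symm
  rw [h1, adjoint_aeval hadj, hQy, map_zero]

/-- the parts of weights `w + i` and `w + j` are orthogonal for `i + j ≠ 0` -/
theorem orth {ι : k →+* ℂ} {q : ℕ} (hq : 1 < q) {w : ℤ} {F : Module.End k E}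
    (hFs : Function.Surjective F) {χ : k} (hχ : χ ≠ 0)
    (hsim : ∀ x y, B (F x) (F y) = χ * B x y) (hχw : ‖ι χ‖ ^ 2 = (q : ℝ) ^ (2 * w))
    (hFi : Function.Injective F) {i j : ℤ} (hij : i + j ≠ 0) {x y : E}
    (hx : x ∈ ws ι F ((q : ℝ) ^ (w + i))) (hy : y ∈ ws ι F ((q : ℝ) ^ (w + j))) : B x y = 0 := by
  have hq0 : (q : ℝ) ≠ 0 := by exact_mod_cast (zero_lt_one.trans hq).ne'
  let Fe : E ≃ₗ[k] E := LinearEquiv.ofBijective F ⟨hFi, hFs⟩
  have hFe : ∀ x, Fe x = F x := fun x => rfl
  set F' : Module.End k E := χ • (Fe.symm : E →ₗ[k] E) with hF'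
  have h2 : F' * F = χ • 1 := by
    ext x
    rw [hF', Module.End.mul_apply, LinearMap.smul_apply, LinearMap.smul_apply,
      Module.End.one_apply, ← hFe]
    congr 1
    exact Fe.symm_apply_apply x
  have hFF' : ∀ x, F (F' x) = χ • x := by
    intro x
    rw [hF', LinearMap.smul_apply, map_smul, ← hFe]
    congr 1
    exact Fe.apply_symm_apply x
  have hadj : ∀ x y, B (F' x) y = B x (F y) := by
    intro x y
    have h3 := hsim (F' x) y
    rw [hFF', map_smul, LinearMap.smul_apply, smul_eq_mul] at h3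
    exact (mul_left_cancel₀ hχ h3).symm
  have hx' := ws_inv ι hχ h2 _ (zpow_ne_zero _ hq0) hx
  refine orth_of_ne hadj ?_ hx' hy
  rw [hχw, ← zpow_sub₀ hq0]
  intro h
  have h1 : (1 : ℝ) < q := by exact_mod_cast hq
  have h4 := (zpow_right_injective₀ (lt_trans one_pos h1) h1.ne') h
  omega

end

end Pool.Agent.LM
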