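import Pool.Agent.Lib_helper98.LM.F1

set_option autoImplicit false

/-!
# Isotropic subspaces
-/

namespace Pool.Agent.LM

open Polynomial Module

section

variable {k : Type*} [Field k] {E : Type*} [AddCommGroup E] [Module k E]
  {B : E →ₗ[k] E →ₗ[k] k}

theorem lie_pow {N : Module.End k E} (hB : ∀ x y, B (N x) y + B x (N y) = 0) (j : ℕ) (x y : E) :
    B ((N ^ j) x) y = (-1) ^ j * B x ((N ^ j) y) := by
  induction j generalizing x y with
  | zero => simp
  | succ j ih =>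
    have h1 : (N ^ (j + 1)) x = (N ^ j) (N x) := by rw [pow_succ, Module.End.mul_apply]
    have h2 : (N ^ (j + 1)) y = N ((N ^ j) y) := by rw [pow_succ', Module.End.mul_apply]
    rw [h1, h2, ih, pow_succ]
    have := hB x ((N ^ j) y)
    linear_combination (-1) ^ j * this

variable [FiniteDimensional k E]

omit [FiniteDimensional k E] in
theorem prim_nondeg {ι : k →+* ℂ} {q : ℕ} (hq : 1 < q) {w : ℤ} {F N : Module.End k E}
    (h : WM ι q w F N) (hnd : ∀ x, (∀ y, B x y = 0) → x = 0)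
    (hB : ∀ x y, B (N x) y + B x (N y) = 0)
    (horth : ∀ i j : ℤ, i + j ≠ 0 → ∀ x ∈ ws ι F ((q : ℝ) ^ (w + i)),
      ∀ y ∈ ws ι F ((q : ℝ) ^ (w + j)), B x y = 0) (i : ℕ)
    {x : E} (hx : x ∈ ws ι F ((q : ℝ) ^ (w + i))) (hx' : (N ^ (i + 1)) x = 0) (hx0 : x ≠ 0) :
    ∃ y ∈ ws ι F ((q : ℝ) ^ (w + i)) ⊓ LinearMap.ker (N ^ (i + 1)), B x ((N ^ i) y) ≠ 0 := by
  obtain ⟨z, hz⟩ : ∃ z, B x z ≠ 0 := by
    by_contra h1
    push Not at h1
    exact hx0 (hnd x h1)
  obtain ⟨s, v, hv, hzv⟩ := exists_sum h.top z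
  have h1 : ∃ z' ∈ ws ι F ((q : ℝ) ^ (w + (-(i : ℤ)))), B x z' ≠ 0 := by
    by_contra h1
    push Not at h1
    apply hz
    rw [hzv, map_sum]
    refine Finset.sum_eq_zero fun j _ => ?_
    by_cases hj : (i : ℤ) + j = 0
    · have h2 : j = -(i : ℤ) := by omega
      subst h2
      exact h1 _ (hv _)
    · exact horth i j hj x hx _ (hv j)
  obtain ⟨z', hz', hne⟩ := h1
  obtain ⟨y', hy', hy'z⟩ := (h.bij i).surjOn (show z' ∈ ((ws ι F ((q : ℝ) ^ (w - (i : ℤ))) :
    Submodule k E) : Set E) from by rw [sub_eq_add_neg]; exact hz')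
  have h2 : (N ^ (i + 1)) y' ∈ ws ι F ((q : ℝ) ^ (w - ((i + 2 : ℕ) : ℤ))) := by
    have h3 := ws_shift_pow ι (zero_lt_one.trans hq) w h.rel (i + 1) i y' hy'
    have h4 : w + ((i : ℤ) - 2 * ((i + 1 : ℕ) : ℤ)) = w - ((i + 2 : ℕ) : ℤ) := by push_cast; ring
    rwa [h4] at h3
  obtain ⟨y'', hy'', hyy⟩ := (h.bij (i + 2)).surjOn h2
  refine ⟨y' - N y'', ⟨?_, ?_⟩, ?_⟩
  · refine Submodule.sub_mem _ hy' ?_
    have h3 := ws_shift ι (zero_lt_one.trans hq) w h.rel _ y'' hy''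
    have h4 : ((i + 2 : ℕ) : ℤ) - 2 = i := by push_cast; ring
    rwa [h4] at h3
  · rw [SetLike.mem_coe, LinearMap.mem_ker, map_sub, ← Module.End.mul_apply, ← pow_succ]
    have h3 : (N ^ (i + 1 + 1)) y'' = (N ^ (i + 1)) y' := hyy
    rw [h3, sub_self]
  · rw [map_sub, map_sub, ← Module.End.mul_apply, ← pow_succ]
    have h3 := lie_pow hB (i + 1) x y''
    rw [hx', map_zero, LinearMap.zero_apply] at h3
    have h4 : B x ((N ^ (i + 1)) y'') = 0 := by
      rcases mul_eq_zero.1 h3.symm with h5 | h5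
      · exact absurd h5 (pow_ne_zero _ (neg_ne_zero.2 one_ne_zero))
      · exact h5
    rw [h4, sub_zero, hy'z]
    exact hne

/-- the Jordan types of an isotropic subspace are at most half of those of the whole space -/
theorem half {ι : k →+* ℂ} {q : ℕ} (hq : 1 < q) {w : ℤ} {F N : Module.End k E}
    (h : WM ι q w F N) (hnd : ∀ x, (∀ y, B x y = 0) → x = 0)
    (hB : ∀ x y, B (N x) y + B x (N y) = 0)
    (horth : ∀ i j : ℤ, i + j ≠ 0 → ∀ x ∈ ws ι F ((q : ℝ) ^ (w + i)),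
      ∀ y ∈ ws ι F ((q : ℝ) ^ (w + j)), B x y = 0)
    (R : Submodule k E) (hF : ∀ x ∈ R, F x ∈ R) (hN : ∀ x ∈ R, N x ∈ R)
    (hR : WM ι q w (F.restrict hF) (N.restrict hN)) (hiso : ∀ x ∈ R, ∀ y ∈ R, B x y = 0) (i : ℕ) :
    2 * blocks (N.restrict hN) i ≤ blocks N i := by
  set P : Submodule k E := ws ι F ((q : ℝ) ^ (w + i)) ⊓ LinearMap.ker (N ^ (i + 1)) with hP
  set U : Submodule k E := (ws ι (F.restrict hF) ((q : ℝ) ^ (w + i)) ⊓
    LinearMap.ker ((N.restrict hN) ^ (i + 1))).map R.subtype with hU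
  have hUP : U ≤ P := by
    rintro _ ⟨x, ⟨hx1, hx2⟩, rfl⟩
    refine ⟨(ws_restrict ι F R hF _ x).1 hx1, ?_⟩
    rw [SetLike.mem_coe, LinearMap.mem_ker] at hx2
    rw [SetLike.mem_coe, LinearMap.mem_ker, Submodule.subtype_apply, ← coe_restrict_pow N R hN, hx2]
    rfl
  have hUR : U ≤ R := by
    rintro _ ⟨x, _, rfl⟩
    exact x.2
  have hdU : blocks (N.restrict hN) i = finrank k U := by
    rw [hR.blocks_eq' hq, hU, Submodule.finrank_map_subtype_eq]
  have hdP : blocks N i = finrank k P := h.blocks_eq' hq i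
  have hNR : ∀ (j : ℕ), ∀ x ∈ R, (N ^ j) x ∈ R := by
    intro j x hx
    have := (((N.restrict hN) ^ j) ⟨x, hx⟩).2
    rwa [coe_restrict_pow] at this
  -- the pairing
  let T : U →ₗ[k] Module.Dual k P :=
    { toFun := fun x => (B (x : E)) ∘ₗ (N ^ i) ∘ₗ P.subtype
      map_add' := by intro x y; ext z; simp
      map_smul' := by intro a x; ext z; simp }
  have hTi : Function.Injective T := by
    rw [← LinearMap.ker_eq_bot, LinearMap.ker_eq_bot']
    intro x hx
    by_contra hx0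
    obtain ⟨y, hy, hne⟩ := prim_nondeg hq h hnd hB horth i (hUP x.2).1 (hUP x.2).2
      (fun h0 => hx0 (Subtype.ext h0))
    exact hne (LinearMap.congr_fun hx ⟨y, hy⟩)
  have hTr : LinearMap.range T ≤ (U.comap P.subtype).dualAnnihilator := by
    rintro _ ⟨x, rfl⟩
    rw [Submodule.mem_dualAnnihilator]
    intro y hy
    exact hiso x (hUR x.2) _ (hNR i _ (hUR hy))
  have h1 := Submodule.finrank_mono hTr
  rw [LinearMap.finrank_range_of_inj hTi] at h1
  have h2 := Subspace.finrank_add_finrank_dualAnnihilator_eq (U.comap P.subtype)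
  have h3 : finrank k (U.comap P.subtype) = finrank k U :=
    (Submodule.comapSubtypeEquivOfLe hUP).finrank_eq
  rw [hdU, hdP]
  omega

end

end Pool.Agent.LM
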