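import Pool.Agent.Lib_helper98.LM.F2

set_option autoImplicit false

/-!
# A single Jordan block: weight-monodromy is automatic
-/

namespace Pool.Agent.LM

open Polynomial Module

section

variable {k : Type*} [Field k] {E : Type*} [AddCommGroup E] [Module k E]

theorem coeff_zero_of {N : Module.End k E} {m : ℕ} (hN : N ^ (m + 1) = 0) {x : E}
    (hx : (N ^ m) x ≠ 0) (t : ℕ) (g : Fin (m + 1) → k)
    (h : (N ^ t) (∑ i, g i • (N ^ (i : ℕ)) x) = 0) : ∀ i : Fin (m + 1), (i : ℕ) + t ≤ m → g i = 0 := by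
  have key : ∀ l : ℕ, ∀ i : Fin (m + 1), (i : ℕ) = l → (i : ℕ) + t ≤ m → g i = 0 := by
    intro l
    induction l using Nat.strong_induction_on with
    | _ l ih =>
      intro i hil hit
      have h1 : (N ^ (m - i)) (∑ j, g j • (N ^ (j : ℕ)) x) = 0 := by
        have h2 : m - (i : ℕ) = (m - i - t) + t := by omega
        rw [h2, pow_add, Module.End.mul_apply, h, map_zero]
      rw [map_sum, Finset.sum_eq_single i] at h1
      · rw [map_smul, ← Module.End.mul_apply, ← pow_add] at h1
        have h2 : m - (i : ℕ) + i = m := by omega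
        rw [h2] at h1
        exact (smul_eq_zero.1 h1).resolve_right hx
      · intro j _ hji
        rw [map_smul, ← Module.End.mul_apply, ← pow_add]
        rcases lt_or_gt_of_ne (fun h3 => hji (Fin.ext h3) : (j : ℕ) ≠ i) with h3 | h3
        · rw [ih j (by omega) j rfl (by omega), zero_smul]
        · have h4 : m - (i : ℕ) + j = (m - i + j - (m + 1)) + (m + 1) := by omega
          rw [h4, pow_add, hN, mul_zero, LinearMap.zero_apply, smul_zero]
      · intro h3
        exact absurd (Finset.mem_univ i) h3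
  intro i hi
  exact key i i rfl hi

theorem ker_of_block [FiniteDimensional k E] {N : Module.End k E} {m : ℕ} (hN : N ^ (m + 1) = 0) {x : E}
    (hx : (N ^ m) x ≠ 0) (hm : finrank k E = m + 1) (z : E) (hz : N z = 0) :
    ∃ c : k, z = c • (N ^ m) x := by
  have hli : LinearIndependent k (fun i : Fin (m + 1) => (N ^ (i : ℕ)) x) := by
    rw [Fintype.linearIndependent_iff]
    intro g hg i
    exact coeff_zero_of hN hx 0 g (by rw [pow_zero, Module.End.one_apply]; exact hg) i (by omega)
  have hspan := hli.span_eq_top_of_card_eq_finrank' (by rw [hm, Fintype.card_fin])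
  have hz' : z ∈ Submodule.span k (Set.range fun i : Fin (m + 1) => (N ^ (i : ℕ)) x) := by
    rw [hspan]; trivial
  rw [Submodule.mem_span_range_iff_exists_fun] at hz'
  obtain ⟨g, rfl⟩ := hz'
  have h1 := coeff_zero_of hN hx 1 g (by rw [pow_one]; exact hz)
  refine ⟨g (Fin.last m), ?_⟩
  rw [Finset.sum_eq_single (Fin.last m)]
  · rfl
  · intro i _ hi
    have h2 : (i : ℕ) ≠ m := fun h3 => hi (Fin.ext h3)
    rw [h1 i (by omega), zero_smul]
  · intro h
    exact absurd (Finset.mem_univ _) h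

theorem eq_zero_of_ws {ι : k →+* ℂ} {F : Module.End k E} {c d : ℝ} (hcd : c ≠ d) {x : E}
    (hx : x ∈ ws ι F c) (hy : x ∈ ws ι F d) : x = 0 := by
  obtain ⟨P, h0, hP, hPx⟩ := hx
  obtain ⟨Q, h0', hQ, hQx⟩ := hy
  obtain ⟨a, b, hab⟩ := coprime_of_rootsAbs hcd hP hQ
  have h2 := congrArg (fun p => aeval F p x) hab
  simp only [map_add, LinearMap.add_apply, map_one, Module.End.one_apply] at h2
  rw [map_mul, Module.End.mul_apply, hPx, map_zero, zero_add, map_mul, Module.End.mul_apply, hQx,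
    map_zero] at h2
  exact h2.symm

theorem mem_ws_of_eigen {ι : k →+* ℂ} {F : Module.End k E} {a : k} {x : E} (h : F x = a • x)
    (c : ℝ) (hc : ‖ι a‖ ^ 2 = c) : x ∈ ws ι F c := by
  refine ⟨X - C a, X_sub_C_ne_zero a, ?_, ?_⟩
  · intro z hz
    rw [IsRoot, Polynomial.map_sub, map_X, map_C, eval_sub, eval_X, eval_C, sub_eq_zero] at hz
    rw [hz, hc]
  · rw [map_sub, aeval_X, aeval_C, LinearMap.sub_apply, h, Module.algebraMap_end_apply, sub_self]

theorem relpow {q : k} {F N : Module.End k E} (rel : N * F = q • (F * N)) (j : ℕ) :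
    N ^ j * F = q ^ j • (F * N ^ j) := by
  induction j with
  | zero => simp
  | succ j ih =>
    rw [pow_succ', mul_assoc, ih, mul_smul_comm, ← mul_assoc, rel, smul_mul_assoc, smul_smul,
      ← pow_succ, mul_assoc, ← pow_succ']

theorem single_block [FiniteDimensional k E] {ι : k →+* ℂ} {q : ℕ} (hq : 1 < q) {w : ℤ}
    {F N : Module.End k E}
    (rel : N * F = (q : k) • (F * N)) {m : ℕ} (hm : finrank k E = m + 1) (hN : N ^ (m + 1) = 0)
    (hN' : N ^ m ≠ 0) (hdet : ‖ι (LinearMap.det F)‖ ^ 2 = (q : ℝ) ^ (w * (finrank k E : ℤ))) :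
    WM ι q w F N := by
  have hq0 : (q : ℝ) ≠ 0 := by exact_mod_cast (zero_lt_one.trans hq).ne'
  have hq0' : (0 : ℝ) < q := by exact_mod_cast (zero_lt_one.trans hq)
  have hq1 : (1 : ℝ) < q := by exact_mod_cast hq
  have hqk : (q : k) ≠ 0 := by
    intro h
    have h1 := congrArg ι h
    rw [map_natCast, map_zero] at h1
    exact hq0 (by exact_mod_cast h1)
  have hqpow : ∀ i j : ℕ, (q : k) ^ i = (q : k) ^ j → i = j := by
    intro i j h
    have h1 := congrArg ι h
    rw [map_pow, map_pow, map_natCast] at h1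
    exact Nat.pow_right_injective (a := q) (by omega) (by exact_mod_cast h1)
  obtain ⟨x, hx⟩ : ∃ x, (N ^ m) x ≠ 0 := by
    by_contra h
    push Not at h
    exact hN' (LinearMap.ext h)
  set y₀ := (N ^ m) x with hy₀
  have hker := fun z hz => ker_of_block hN hx hm z hz
  have hNm : ∀ z, ∃ c : k, (N ^ m) z = c • y₀ := by
    intro z
    refine hker _ ?_
    rw [← Module.End.mul_apply, ← pow_succ', hN]
    rfl
  have hNF : ∀ j z, (N ^ j) (F z) = (q : k) ^ j • F ((N ^ j) z) := fun j z =>
    LinearMap.congr_fun (relpow rel j) z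
  obtain ⟨α, hα⟩ : ∃ α : k, F y₀ = α • y₀ := by
    obtain ⟨c, hc⟩ := hNm (F x)
    rw [hNF] at hc
    refine ⟨((q : k) ^ m)⁻¹ * c, ?_⟩
    rw [mul_smul, ← hc, smul_smul, inv_mul_cancel₀ (pow_ne_zero _ hqk), one_smul]
  have hFinj : Function.Injective F := by
    have h1 : LinearMap.det F ≠ 0 := by
      intro h
      rw [h, map_zero, norm_zero, zero_pow two_ne_zero] at hdet
      exact (zpow_ne_zero _ hq0) hdet.symm
    have h2 := LinearMap.bot_lt_ker_of_det_eq_zero (f := F)
    rw [← LinearMap.ker_eq_bot]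
    by_contra h3
    exact h1 (LinearMap.det_eq_zero_iff_ker_ne_bot.2 h3)
  have hα0 : α ≠ 0 := by
    rintro rfl
    rw [zero_smul] at hα
    exact hx (hFinj (by rw [hα, map_zero]))
  -- an eigenvector
  obtain ⟨e, he0, he⟩ : ∃ e, e ≠ 0 ∧ F e = (α * (q : k) ^ m) • e := by
    set T : Module.End k E := F - (α * (q : k) ^ m) • 1 with hT
    have h1 : LinearMap.range T ≤ LinearMap.ker (N ^ m) := by
      rintro _ ⟨z, rfl⟩
      obtain ⟨c, hc⟩ := hNm z
      rw [LinearMap.mem_ker, hT, LinearMap.sub_apply, LinearMap.smul_apply, Module.End.one_apply,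
        map_sub, map_smul, hNF, hc, map_smul, hα, smul_smul, smul_smul, smul_smul, ← sub_smul]
      have h2 : (q : k) ^ m * c * α - α * (q : k) ^ m * c = 0 := by ring
      rw [h2, zero_smul]
    have h2 : ¬ Function.Injective T := by
      intro h3
      have h4 : LinearMap.range T = ⊤ :=
        LinearMap.range_eq_top.2 ((LinearMap.injective_iff_surjective (f := T)).1 h3)
      rw [h4] at h1
      apply hN'
      ext z
      exact h1 (Submodule.mem_top (x := z))
    rw [← LinearMap.ker_eq_bot, LinearMap.ker_eq_bot'] at h2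
    push Not at h2
    obtain ⟨e, h3, h4⟩ := h2
    refine ⟨e, h4, ?_⟩
    rw [hT, LinearMap.sub_apply, LinearMap.smul_apply, Module.End.one_apply, sub_eq_zero] at h3
    exact h3
  have hFe : ∀ i : ℕ, (q : k) ^ i • F ((N ^ i) e) = (α * (q : k) ^ m) • (N ^ i) e := by
    intro i
    rw [← hNF, he, map_smul]
  have heN : (N ^ m) e ≠ 0 := by
    classical
    have hex : ∃ j, (N ^ (j + 1)) e = 0 := ⟨m, by rw [hN]; rfl⟩
    set j := Nat.find hex with hj
    have h1 : (N ^ (j + 1)) e = 0 := Nat.find_spec hex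
    have h2 : (N ^ j) e ≠ 0 := by
      rcases Nat.eq_zero_or_pos j with h0 | h0
      · rw [h0, pow_zero]; exact he0
      · have h3 := Nat.find_min hex (m := j - 1) (by omega)
        rwa [Nat.sub_add_cancel h0] at h3
    obtain ⟨c, hc⟩ := hker ((N ^ j) e) (by rw [← Module.End.mul_apply, ← pow_succ']; exact h1)
    have hc0 : c ≠ 0 := by
      rintro rfl
      rw [zero_smul] at hc
      exact h2 hc
    have h3 := hFe j
    have hc' : (N ^ j) e = c • y₀ := hc
    rw [hc', map_smul, hα, smul_smul, smul_smul, smul_smul] at h3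
    have h4 := smul_left_injective k hx h3
    have h5 : (q : k) ^ j = (q : k) ^ m := by
      have h6 : (c * α) * (q : k) ^ j = (c * α) * (q : k) ^ m := by linear_combination h4
      exact mul_left_cancel₀ (mul_ne_zero hc0 hα0) h6
    have h6 := hqpow _ _ h5
    rw [h6] at h2
    exact h2
  have hNe : ∀ i ≤ m, (N ^ i) e ≠ 0 := by
    intro i hi h0
    apply heN
    have h1 : m = (m - i) + i := by omega
    rw [h1, pow_add, Module.End.mul_apply, h0, map_zero]
  have hli : LinearIndependent k (fun i : Fin (m + 1) => (N ^ (i : ℕ)) e) := by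
    rw [Fintype.linearIndependent_iff]
    intro g hg i
    exact coeff_zero_of hN heN 0 g (by rw [pow_zero, Module.End.one_apply]; exact hg) i (by omega)
  let b : Basis (Fin (m + 1)) k E := basisOfLinearIndependentOfCardEqFinrank hli
    (by rw [hm, Fintype.card_fin])
  have hb : ∀ i, b i = (N ^ (i : ℕ)) e := fun i => by
    simp [b]
  have hFb : ∀ i : Fin (m + 1), F (b i) = (α * (q : k) ^ (m - (i : ℕ))) • b i := by
    intro i
    rw [hb]
    have h1 := hFe i
    have h2 : (q : k) ^ m = (q : k) ^ (i : ℕ) * (q : k) ^ (m - (i : ℕ)) := by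
      rw [← pow_add]; congr 1; omega
    rw [h2] at h1
    have h3 : (α * ((q : k) ^ (i : ℕ) * (q : k) ^ (m - (i : ℕ)))) • (N ^ (i : ℕ)) e =
        (q : k) ^ (i : ℕ) • ((α * (q : k) ^ (m - (i : ℕ))) • (N ^ (i : ℕ)) e) := by
      rw [smul_smul]; congr 1; ring
    rw [h3] at h1
    exact smul_right_injective E (pow_ne_zero _ hqk) h1
  -- the absolute value of `α`
  have hα' : ‖ι α‖ ^ 2 = (q : ℝ) ^ (w - m) := by
    have h1 : LinearMap.det F = ∏ i : Fin (m + 1), (α * (q : k) ^ (m - (i : ℕ))) := by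
      rw [← LinearMap.det_toMatrix b]
      have h2 : LinearMap.toMatrix b b F =
          Matrix.diagonal fun i : Fin (m + 1) => (α * (q : k) ^ (m - (i : ℕ))) := by
        ext i j
        rw [LinearMap.toMatrix_apply, hFb, map_smul, Finsupp.smul_apply, Basis.repr_self,
          Matrix.diagonal_apply, Finsupp.single_apply, smul_eq_mul]
        by_cases hij : i = j
        · rw [if_pos hij, if_pos hij.symm, mul_one, hij]
        · rw [if_neg hij, if_neg (Ne.symm hij), mul_zero]
      rw [h2, Matrix.det_diagonal]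
    have h2 : ‖ι (LinearMap.det F)‖ ^ 2 = (‖ι α‖ ^ 2 * (q : ℝ) ^ m) ^ (m + 1) := by
      rw [h1, map_prod, norm_prod, ← Finset.prod_pow]
      have h3 : ∀ i : Fin (m + 1), ‖ι (α * (q : k) ^ (m - (i : ℕ)))‖ ^ 2 =
          ‖ι α‖ ^ 2 * ((q : ℝ) ^ 2) ^ (m - (i : ℕ)) := by
        intro i
        rw [map_mul, map_pow, map_natCast, norm_mul, norm_pow, Complex.norm_natCast, mul_pow,
          ← pow_mul, ← pow_mul, mul_comm 2]
      rw [Finset.prod_congr rfl fun i _ => h3 i, Finset.prod_mul_distrib, Finset.prod_const,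
        Finset.card_univ, Fintype.card_fin, mul_pow, Finset.prod_pow_eq_pow_sum]
      congr 1
      rw [← pow_mul, ← pow_mul]
      congr 1
      have h4 : ∑ i : Fin (m + 1), (m - (i : ℕ)) = ∑ i ∈ Finset.range (m + 1), i := by
        rw [Fin.sum_univ_eq_sum_range (fun i => m - i), ← Finset.sum_range_reflect]
        refine Finset.sum_congr rfl fun i hi => ?_
        rw [Finset.mem_range] at hi
        omega
      rw [h4, mul_comm, Finset.sum_range_id_mul_two, Nat.add_sub_cancel, mul_comm]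
    rw [hm] at hdet
    have h3 : (‖ι α‖ ^ 2 * (q : ℝ) ^ m) ^ (m + 1) = ((q : ℝ) ^ w) ^ (m + 1) := by
      rw [← h2, hdet, zpow_mul, zpow_natCast]
    have h4 : ‖ι α‖ ^ 2 * (q : ℝ) ^ m = (q : ℝ) ^ w :=
      (pow_left_inj₀ (by positivity) (by positivity) (Nat.succ_ne_zero m)).1 h3
    rw [zpow_sub₀ hq0, ← h4, zpow_natCast, mul_div_cancel_right₀ _ (pow_ne_zero _ hq0)]
  have hbw : ∀ i : Fin (m + 1), b i ∈ ws ι F ((q : ℝ) ^ (w + ((m : ℤ) - 2 * (i : ℕ)))) := by
    intro i
    refine mem_ws_of_eigen (hFb i) _ ?_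
    rw [map_mul, map_pow, map_natCast, norm_mul, norm_pow, Complex.norm_natCast, mul_pow, hα',
      ← zpow_natCast, ← zpow_natCast, ← zpow_mul, ← zpow_add₀ hq0]
    congr 1
    have hi := i.2
    push_cast [Nat.cast_sub (show (i : ℕ) ≤ m by omega)]
    ring
  have htop : ⨆ i : ℤ, ws ι F ((q : ℝ) ^ (w + i)) = ⊤ := by
    rw [eq_top_iff, ← b.span_eq, Submodule.span_le]
    rintro _ ⟨i, rfl⟩
    exact Submodule.mem_iSup_of_mem _ (hbw i)
  refine WI.toWM hq ⟨rel, htop, ?_⟩ hdet
  intro i z hz hz0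
  -- expansion
  set W : Submodule k E := ws ι F ((q : ℝ) ^ (w + (i : ℤ))) ⊓ LinearMap.ker (N ^ i) with hW
  have hWF : ∀ y ∈ W, F y ∈ W := fun y hy =>
    ⟨ws_stable ι F _ y hy.1, ker_stable rel i y hy.2⟩
  have h1 := comp_mem (κ := Fin (m + 1)) ι F
    (fun t : Fin (m + 1) => (q : ℝ) ^ (w + ((m : ℤ) - 2 * (t : ℕ)))) (by
      intro s t hst
      have := wts_injective hq w hst
      exact Fin.ext (by omega)) Finset.univ (fun t => b.repr z t • b t)
    (fun t _ => Submodule.smul_mem _ _ (hbw t)) W hWF (by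
      rw [b.sum_repr]
      exact ⟨hz, hz0⟩)
  have h2 : ∀ t, b.repr z t = 0 := by
    intro t
    by_contra hne
    have h3 := W.smul_mem (b.repr z t)⁻¹ (h1 t (Finset.mem_univ t))
    rw [smul_smul, inv_mul_cancel₀ hne, one_smul] at h3
    have hbt : b t ≠ 0 := b.ne_zero t
    by_cases hit : (i : ℤ) = m - 2 * (t : ℕ)
    · have h4 : (N ^ i) (b t) = 0 := h3.2
      rw [hb, ← Module.End.mul_apply, ← pow_add] at h4
      have ht := t.2
      exact hNe (i + t) (by omega) h4
    · refine hbt (eq_zero_of_ws ?_ h3.1 (hbw t))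
      intro h4
      exact hit (wts_injective hq w h4)
  rw [← b.sum_repr z]
  exact Finset.sum_eq_zero fun t _ => by rw [h2 t, zero_smul]

end

end Pool.Agent.LM
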