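import Pool.Agent.Lib_helper98.LM.F3
import Pool.Agent.Lib_helper98.LM.E1

set_option autoImplicit false

/-!
# Places
-/

namespace Pool.Agent.LM

open Matrix NumberField Polynomial Module

section

variable {K : Type} [Field K] [NumberField K] [Algebra K (AlgebraicClosure ℚ)]

theorem gk_compact : CompactSpace (GK K) := by
  have h0 : Algebra.IsAlgebraic ℚ (AlgebraicClosure ℚ) := AlgebraicClosure.isAlgebraic ℚ
  have hac : Algebra.IsAlgebraic K (AlgebraicClosure ℚ) := Algebra.IsAlgebraic.tower_top (K := ℚ) K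
  have h1 : Algebra.IsSeparable K (AlgebraicClosure ℚ) := inferInstance
  have h2 : Normal K (AlgebraicClosure ℚ) := by
    have : IsAlgClosed (AlgebraicClosure ℚ) := inferInstance
    have : IsAlgClosure K (AlgebraicClosure ℚ) := ⟨this, hac⟩
    exact IsAlgClosure.normal K (AlgebraicClosure ℚ)
  have h3 : IsGalois K (AlgebraicClosure ℚ) := {}
  change CompactSpace (AlgebraicClosure ℚ ≃ₐ[K] AlgebraicClosure ℚ)
  infer_instance

omit [NumberField K] in
theorem frob_pow {u j : ℕ} {F : GK K} (h : IsFrob u j F) (i : ℕ) (hi : 0 < i) :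
    IsFrob u (j * i) (F ^ i) := by
  obtain ⟨hu, hj, P, hP, huP, hF⟩ := h
  refine ⟨hu, Nat.mul_pos hj hi, P, hP, huP, ?_⟩
  have key : ∀ (i : ℕ) (x y : 𝓞 (AlgebraicClosure ℚ)), (y : AlgebraicClosure ℚ) = (F ^ i)⁻¹ x →
      y - x ^ (u ^ (j * i)) ∈ P := by
    intro i
    induction i with
    | zero =>
      intro x y hxy
      have h1 : y = x := by
        apply RingOfIntegers.ext
        rw [hxy, pow_zero, inv_one]
        rfl
      rw [h1, mul_zero, pow_zero, pow_one, sub_self]
      exact P.zero_mem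
    | succ i ih =>
      intro x y hxy
      have hint : IsIntegral ℤ ((F ^ i)⁻¹ (x : AlgebraicClosure ℚ)) :=
        map_isIntegral_int ((F ^ i)⁻¹ : GK K) (RingOfIntegers.isIntegral_coe x)
      obtain ⟨z, hz⟩ : ∃ z : 𝓞 (AlgebraicClosure ℚ), (z : AlgebraicClosure ℚ) = (F ^ i)⁻¹ x :=
        ⟨⟨_, hint⟩, rfl⟩
      have h1 := ih x z hz
      have h2 : (y : AlgebraicClosure ℚ) = F⁻¹ z := by
        rw [hxy, hz, ← AlgEquiv.mul_apply, ← _root_.mul_inv_rev, ← pow_succ]
      have h3 := hF z y h2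
      have h4 : z ^ u ^ j - (x ^ u ^ (j * i)) ^ u ^ j ∈ P :=
        P.mem_of_dvd (sub_dvd_pow_sub_pow _ _ _) h1
      have h5 := P.add_mem h3 h4
      have h6 : y - z ^ u ^ j + (z ^ u ^ j - (x ^ u ^ (j * i)) ^ u ^ j) = y - x ^ u ^ (j * (i + 1)) := by
        rw [← pow_mul x, ← pow_add, mul_add, mul_one]
        ring
      rw [h6] at h5
      exact h5
  exact fun x y hxy => key i x y hxy

end

end Pool.Agent.LM
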