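import Pool.Agent.Lib_helper98.LM.G1

set_option autoImplicit false

/-!
# Subspaces stable under open subgroups
-/

namespace Pool.Agent.LM

open Matrix Module

section

variable {k : Type*} [Field k] {E : Type*} [AddCommGroup E] [Module k E]

theorem det_restrict_top (f : Module.End k E) (h : ∀ x ∈ (⊤ : Submodule k E), f x ∈ (⊤ : Submodule k E)) :
    LinearMap.det (f.restrict h) = LinearMap.det f := by
  have h1 := LinearMap.det_conj f (Submodule.topEquiv (R := k) (M := E)).symm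
  rw [← h1]
  congr 1

end

section

variable {K : Type} [Field K] [NumberField K] [Algebra K (AlgebraicClosure ℚ)]
  {ℓ : ℕ} [Fact ℓ.Prime] {n : ℕ} {ι : ℚ_[ℓ] →+* ℂ} {w : ℤ}
  {V : GK K →* Matrix (Fin n) (Fin n) ℚ_[ℓ]} {N : Matrix (Fin n) (Fin n) ℚ_[ℓ]}

theorem nilp_pow (hN : IsNilpotent N) : N ^ n = 0 := by
  have h1 : IsNilpotent (toLin' N) := by
    obtain ⟨m, hm⟩ := hN
    exact ⟨m, by rw [← Matrix.toLin'_pow, hm, map_zero]⟩
  have h2 := h1.charpoly_eq_X_pow_finrank
  have h3 := LinearMap.aeval_self_charpoly (toLin' N)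
  rw [h2, map_pow, Polynomial.aeval_X, finrank_fin_fun, ← Matrix.toLin'_pow] at h3
  exact (LinearEquiv.map_eq_zero_iff (toLin' : Matrix (Fin n) (Fin n) ℚ_[ℓ] ≃ₗ[ℚ_[ℓ]] _)).1 h3

theorem finite_index {H : Subgroup (GK K)} (hH : IsOpen (H : Set (GK K))) : H.index ≠ 0 := by
  have := gk_compact (K := K)
  have h1 : Finite (GK K ⧸ H) := H.quotient_finite_of_isOpen hH
  exact Subgroup.index_ne_zero_of_finite

theorem log_data {H : Subgroup (GK K)} (hH : IsOpen (H : Set (GK K))) (hpure : PureDet ι w V)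
    (hlog : IsLog ι w V N) : ∃ (q : ℕ) (F : GK K), 1 < q ∧ F ∈ H ∧
      WM ι q w (toLin' (V F)) (toLin' N) ∧
      (∀ W, Stable V H W → ∀ x ∈ W, toLin' N x ∈ W) ∧
      (∀ (W : Submodule ℚ_[ℓ] (Fin n → ℚ_[ℓ])) (hW : ∀ x ∈ W, toLin' (V F) x ∈ W), Stable V H W →
        ‖ι (LinearMap.det ((toLin' (V F)).restrict hW))‖ ^ 2 =
          (q : ℝ) ^ (w * (finrank ℚ_[ℓ] W : ℤ))) ∧
      (∀ A : Matrix (Fin n) (Fin n) ℚ_[ℓ], (∀ h ∈ H, A * V h = V h * A) → A * N = N * A) := by
  obtain ⟨hN, u, j, F, s, hu, hF, hs, hrel, hwm⟩ := hlog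
  have hidx := finite_index hH
  obtain ⟨a, ha, -, haH⟩ := Subgroup.exists_pow_mem_of_index_ne_zero hidx F
  obtain ⟨b, hb, -, hbH⟩ := Subgroup.exists_pow_mem_of_index_ne_zero hidx s
  have hq : 1 < u ^ j := Nat.one_lt_pow hF.2.1.ne' hF.1.one_lt
  have hrel' : toLin' N * toLin' (V F) = ((u ^ j : ℕ) : ℚ_[ℓ]) • (toLin' (V F) * toLin' N) := by
    rw [Module.End.mul_eq_comp, Module.End.mul_eq_comp, ← Matrix.toLin'_mul, ← Matrix.toLin'_mul,
      hrel, map_smul]
  have hWM : WM ι (u ^ j) w (toLin' (V F)) (toLin' N) := by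
    rcases hwm with h | h
    · exact h
    · rcases n with _ | m
      · exact absurd (Subsingleton.elim _ _) h
      · refine single_block (m := m) hq hrel' (by rw [finrank_fin_fun]) ?_ ?_ ?_
        · rw [← Matrix.toLin'_pow, nilp_pow hN, map_zero]
        · rw [← Matrix.toLin'_pow]
          intro h0
          exact h ((LinearEquiv.map_eq_zero_iff
            (toLin' : Matrix (Fin (m + 1)) (Fin (m + 1)) ℚ_[ℓ] ≃ₗ[ℚ_[ℓ]] _)).1 h0)
        · have h1 := hpure ⊤ ⊤ (by rw [Subgroup.coe_top]; exact isOpen_univ)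
            (fun _ _ _ _ => Submodule.mem_top) F (Subgroup.mem_top F) u j hu hF
          rw [det_restrict_top, finrank_top] at h1
          exact h1
  refine ⟨(u ^ j) ^ a, F ^ a, Nat.one_lt_pow ha.ne' hq, haH, ?_, ?_, ?_, ?_⟩
  · rw [map_pow, Matrix.toLin'_pow]
    exact hWM.pow hq a ha
  · intro W hW
    refine exp_stable hN W b hb ?_
    intro m x hx
    have h1 : s ^ (b * m) ∈ H := by
      rw [pow_mul]
      exact H.pow_mem hbH m
    have h2 := hW _ h1 x hx
    rw [map_pow, hs, Matrix.toLin'_apply] at h2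
    exact h2
  · intro W hW hWs
    have h1 := hpure H W hH hWs (F ^ a) haH u (j * a) hu (frob_pow hF a ha)
    rw [pow_mul] at h1
    exact h1
  · intro A hA
    obtain ⟨k₀, hk₀⟩ := id hN
    have hK : N ^ (k₀ + 2) = 0 := by rw [pow_add, hk₀, zero_mul]
    have h2 := poly_trick (k := ℚ_[ℓ]) (⊥ : Submodule ℚ_[ℓ] (Matrix (Fin n) (Fin n) ℚ_[ℓ]))
      (fun i => (i.factorial : ℚ_[ℓ])⁻¹ • (A * N ^ i - N ^ i * A)) (k₀ + 2) b hb (by
      intro m
      rw [Submodule.mem_bot]
      have h1 : s ^ (b * m) ∈ H := by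
        rw [pow_mul]
        exact H.pow_mem hbH m
      have h3 := hA _ h1
      rw [map_pow, hs, exp_pow_sum (k := ℚ_[ℓ]) hK, Finset.mul_sum, Finset.sum_mul, ← sub_eq_zero,
        ← Finset.sum_sub_distrib] at h3
      rw [← h3]
      refine Finset.sum_congr rfl fun i _ => ?_
      rw [smul_sub, smul_sub, Matrix.mul_smul, Matrix.mul_smul, Matrix.smul_mul,
        Matrix.smul_mul]) 1 (by omega)
    rw [Submodule.mem_bot] at h2
    simp only [Nat.factorial_one, Nat.cast_one, inv_one, one_smul, pow_one, sub_eq_zero] at h2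
    exact h2

/-- (0) the dimension of a subspace that is stable under an open subgroup is a sum of block sizes -/
theorem zero_part (hpure : PureDet ι w V) (hlog : IsLog ι w V N) {H : Subgroup (GK K)}
    (hH : IsOpen (H : Set (GK K))) {W : Submodule ℚ_[ℓ] (Fin n → ℚ_[ℓ])} (hW : Stable V H W) :
    BlockSum (toLin' N) (finrank ℚ_[ℓ] W) := by
  obtain ⟨q, F, hq, hF, hWM, hN, hdet, -⟩ := log_data hH hpure hlog
  exact hWM.blockSum hq W (hW F hF) (hN W hW) (hdet W (hW F hF) hW)

/-- (1b) -/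
theorem irr_part (hpure : PureDet ι w V)
    (h : ∀ r, 0 < r → r < n → ∃ N, IsLog ι w V N ∧ ¬ BlockSum (toLin' N) r) : Irr V := by
  intro H W hH hW
  rcases Nat.eq_zero_or_pos (finrank ℚ_[ℓ] W) with h0 | h0
  · exact Or.inl (Submodule.finrank_eq_zero.1 h0)
  · right
    apply Submodule.eq_top_of_finrank_eq
    rw [finrank_fin_fun]
    by_contra hne
    have h1 : finrank ℚ_[ℓ] W ≤ n := by
      have := Submodule.finrank_le W
      rwa [finrank_fin_fun] at this
    obtain ⟨N, hN, hr⟩ := h _ h0 (lt_of_le_of_ne h1 hne)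
    exact hr (zero_part hpure hN hH hW)

/-- (1c) -/
theorem scalar_part (hpure : PureDet ι w V) (hirr : Irr V) (hlog : IsLog ι w V N) (i : ℕ)
    (hi : blocks (toLin' N) i = 1) {H : Subgroup (GK K)} (hH : IsOpen (H : Set (GK K)))
    (A : Matrix (Fin n) (Fin n) ℚ_[ℓ]) (hA : ∀ h ∈ H, A * V h = V h * A) :
    ∃ c : ℚ_[ℓ], A = c • 1 := by
  obtain ⟨q, F, hq, hF, hWM, hN, hdet, hcomm⟩ := log_data hH hpure hlog
  have hAN := hcomm A hA
  rw [hWM.blocks_eq' hq, finrank_eq_one_iff'] at hi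
  obtain ⟨⟨v, hv1, hv2⟩, hv0, hv⟩ := hi
  have hAlin : ∀ (B : Matrix (Fin n) (Fin n) ℚ_[ℓ]), A * B = B * A → ∀ x,
      toLin' A (toLin' B x) = toLin' B (toLin' A x) := by
    intro B hB x
    rw [← Matrix.toLin'_mul_apply, hB, Matrix.toLin'_mul_apply]
  have hAv1 : toLin' A v ∈ ws ι (toLin' (V F)) ((q : ℝ) ^ (w + (i : ℤ))) := by
    obtain ⟨P, h0, hP, hPv⟩ := hv1
    refine ⟨P, h0, hP, ?_⟩
    have h1 : ∀ P : Polynomial ℚ_[ℓ], ∀ x, Polynomial.aeval (toLin' (V F)) P (toLin' A x) =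
        toLin' A (Polynomial.aeval (toLin' (V F)) P x) := by
      intro P
      induction P using Polynomial.induction_on' with
      | add p r hp hr =>
        intro x
        rw [map_add, LinearMap.add_apply, LinearMap.add_apply, hp, hr, map_add]
      | monomial m c =>
        intro x
        rw [Polynomial.aeval_monomial, Module.End.mul_apply, Module.End.mul_apply,
          Module.algebraMap_end_apply, Module.algebraMap_end_apply, map_smul]
        congr 1
        induction m generalizing x with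
        | zero => rfl
        | succ m ih =>
          rw [pow_succ, Module.End.mul_apply, Module.End.mul_apply, ← hAlin _ (hA F hF), ih]
    rw [h1, hPv, map_zero]
  have hAv2 : (toLin' N ^ (i + 1)) (toLin' A v) = 0 := by
    have h1 : ∀ (m : ℕ) x, (toLin' N ^ m) (toLin' A x) = toLin' A ((toLin' N ^ m) x) := by
      intro m
      induction m with
      | zero => intro x; rfl
      | succ m ih =>
        intro x
        rw [pow_succ, Module.End.mul_apply, Module.End.mul_apply, ← hAlin _ hAN, ih]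
    rw [h1]
    have h2 : (toLin' N ^ (i + 1)) v = 0 := hv2
    rw [h2, map_zero]
  obtain ⟨c, hc⟩ := hv ⟨toLin' A v, hAv1, hAv2⟩
  have hc' : c • v = toLin' A v := congrArg Subtype.val hc
  refine ⟨c, ?_⟩
  have hker := hirr H (LinearMap.ker (toLin' A - c • 1)) hH (by
    intro h hh x hx
    rw [LinearMap.mem_ker, LinearMap.sub_apply, LinearMap.smul_apply, Module.End.one_apply] at hx ⊢
    rw [hAlin _ (hA h hh), ← map_smul, ← map_sub, hx, map_zero])
  rcases hker with h | h
  · exfalso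
    apply hv0
    have h1 : v ∈ LinearMap.ker (toLin' A - c • 1) := by
      rw [LinearMap.mem_ker, LinearMap.sub_apply, LinearMap.smul_apply, Module.End.one_apply, hc',
        sub_self]
    rw [h, Submodule.mem_bot] at h1
    exact Subtype.ext h1
  · have h1 : toLin' A = toLin' (c • 1 : Matrix (Fin n) (Fin n) ℚ_[ℓ]) := by
      rw [LinearMap.ker_eq_top, sub_eq_zero] at h
      rw [h, map_smul, Matrix.toLin'_one]
      rfl
    exact (toLin' : Matrix (Fin n) (Fin n) ℚ_[ℓ] ≃ₗ[ℚ_[ℓ]] _).injective h1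

end

end Pool.Agent.LM
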