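import Pool.Agent.Lib_helper98.LM.G3
import Pool.Agent.Lib_helper98.LM.C4
import Pool.Agent.Lib_helper98.LM.D2

set_option autoImplicit false

/-!
# The image is open
-/

namespace Pool.Agent.LM

open Matrix Module

section

variable {K : Type} [Field K] [NumberField K] [Algebra K (AlgebraicClosure ℚ)]
  {ℓ : ℕ} [Fact ℓ.Prime] {n : ℕ} {ι : ℚ_[ℓ] →+* ℂ} {w : ℤ}
  {J : Matrix (Fin n) (Fin n) ℚ_[ℓ]}
  {V : GK K →* Matrix (Fin n) (Fin n) ℚ_[ℓ]}

/-- the representation by linear maps -/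
noncomputable def rho (V : GK K →* Matrix (Fin n) (Fin n) ℚ_[ℓ]) :
    GK K →* Module.End ℚ_[ℓ] (Fin n → ℚ_[ℓ]) where
  toFun g := toLin' (V g)
  map_one' := by rw [map_one, Matrix.toLin'_one]; rfl
  map_mul' a b := by rw [map_mul, Matrix.toLin'_mul]; rfl

omit [NumberField K] in
theorem rho_apply (g : GK K) : rho V g = toLin' (V g) := rfl

omit [NumberField K] in
theorem setup (hG : Geo ι w J V) (hirr : Irr V) (hn : 0 < n) {e : ℚ_[ℓ]}
    (he : e = 1 ∨ e = -1) (hJe : Jᵀ = e • J) : Setup (rho V) (BJ J) e where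
  he := by rcases he with rfl | rfl <;> ring
  symm := BJ_eq hJe
  nondeg := BJ_nondeg hG.det
  sim := by
    intro g
    obtain ⟨c, hc0, -, -, hc⟩ := hG.sim' g
    exact ⟨c, hc0 hn, hc⟩
  cont := by
    intro x y
    have h1 : Continuous fun g : GK K => BJ J (rho V g x) y := by
      simp only [BJ_apply, rho_apply, toLin'_apply]
      exact (hG.cont.matrix_mulVec continuous_const).dotProduct continuous_const
    exact isOpen_compl_singleton.preimage h1
  irr := fun H W hH hW => hirr H W hH hW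

omit [NumberField K] in
/-- an isometry `V g` with `V g - 1` of rank one -/
theorem exists_node (hG : Geo ι w J V) {g : GK K} (h1 : (V g)ᵀ * J * V g = J)
    (h2 : (V g - 1).rank = 1) : ∃ γ, Node (rho V) (BJ J) γ := by
  obtain ⟨e, he, hJe⟩ := hG.sign
  have he0 : e ≠ 0 := by
    rcases he with rfl | rfl
    · exact one_ne_zero
    · exact neg_ne_zero.2 one_ne_zero
  have hiso : ∀ x y, BJ J (toLin' (V g) x) (toLin' (V g) y) = BJ J x y := by
    intro x y
    rw [BJ_move, BJ_move', h1]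
  rw [Matrix.rank, finrank_eq_one_iff'] at h2
  obtain ⟨⟨u, ⟨y₀, hy₀⟩⟩, hu0, hu⟩ := h2
  have hu0' : u ≠ 0 := fun h => hu0 (Subtype.ext h)
  have hex : ∀ x, ∃ c : ℚ_[ℓ], toLin' (V g) x = x + c • u := by
    intro x
    obtain ⟨c, hc⟩ := hu ⟨(V g - 1).mulVecLin x, ⟨x, rfl⟩⟩
    refine ⟨c, ?_⟩
    have hc' : c • u = (V g - 1) *ᵥ x := congrArg Subtype.val hc
    rw [hc', Matrix.sub_mulVec, Matrix.one_mulVec, toLin'_apply]
    abel
  choose φ hφ using hex
  have hφ0 : φ y₀ = 1 := by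
    have h3 := hφ y₀
    have h4 : u = (V g - 1) *ᵥ y₀ := hy₀.symm
    rw [Matrix.sub_mulVec, Matrix.one_mulVec, ← toLin'_apply, h3, add_sub_cancel_left] at h4
    have h5 : (φ y₀ - 1) • u = 0 := by rw [sub_smul, ← h4, one_smul, sub_self]
    exact sub_eq_zero.1 ((smul_eq_zero.1 h5).resolve_right hu0')
  set κ := BJ J u y₀ + BJ J u u with hκ
  have hrel : ∀ x, BJ J x u = - (φ x * κ) := by
    intro x
    have h3 := hiso x y₀
    rw [hφ x, hφ y₀, hφ0, one_smul, map_add, map_add, LinearMap.add_apply, LinearMap.add_apply,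
      map_smul, LinearMap.smul_apply, LinearMap.smul_apply, smul_eq_mul, smul_eq_mul] at h3
    rw [hκ]
    linear_combination h3
  have hκ0 : κ ≠ 0 := by
    intro h
    apply hu0'
    refine BJ_nondeg hG.det u fun y => ?_
    refine hG.refl y u ?_
    rw [hrel, h, mul_zero, neg_zero]
  refine ⟨u, hu0', g, -e / κ, div_ne_zero (neg_ne_zero.2 he0) hκ0, fun x => ?_, fun x y => hiso x y⟩
  rw [rho_apply, hφ x]
  congr 2
  have h3 := hrel x
  rw [BJ_eq hJe] at h3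
  rw [div_mul_eq_mul_div, neg_mul, h3, neg_neg, mul_div_cancel_right₀ _ hκ0]

omit [NumberField K] in
/-- (C) for matrices -/
theorem span_conj (hG : Geo ι w J V) (hirr : Irr V) {g : GK K} (h1 : (V g)ᵀ * J * V g = J)
    (h2 : (V g - 1).rank = 1) {N : Matrix (Fin n) (Fin n) ℚ_[ℓ]} (hN0 : N ≠ 0)
    (hNJ : Nᵀ * J + J * N = 0) (A : Matrix (Fin n) (Fin n) ℚ_[ℓ]) (hA : Aᵀ * J + J * A = 0) :
    A ∈ Submodule.span ℚ_[ℓ] (Set.range fun g : GK K => V g * N * V g⁻¹) := by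
  have hn : 0 < n := by
    rcases Nat.eq_zero_or_pos n with h | h
    · subst h
      exact absurd (Subsingleton.elim _ _) hN0
    · exact h
  obtain ⟨e, he, hJe⟩ := hG.sign
  have hS := setup hG hirr hn he hJe
  obtain ⟨γ, hγ⟩ := exists_node hG h1 h2
  have hconj : ∀ (g : GK K) (B : Matrix (Fin n) (Fin n) ℚ_[ℓ]),
      rho V g * toLin' B * rho V g⁻¹ = toLin' (V g * B * V g⁻¹) := by
    intro g B
    rw [Matrix.toLin'_mul, Matrix.toLin'_mul]
    rfl
  set L₀ := Submodule.span ℚ_[ℓ] (Set.range fun g : GK K => V g * N * V g⁻¹) with hL₀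
  set L : Submodule ℚ_[ℓ] (Module.End ℚ_[ℓ] (Fin n → ℚ_[ℓ])) :=
    L₀.map (toLin' : Matrix (Fin n) (Fin n) ℚ_[ℓ] ≃ₗ[ℚ_[ℓ]] _).toLinearMap with hL
  have hNL : N ∈ L₀ := by
    refine Submodule.subset_span ⟨1, ?_⟩
    simp
  have hL0 : L ≠ ⊥ := by
    intro h
    have h3 : toLin' N ∈ L := ⟨N, hNL, rfl⟩
    rw [h, Submodule.mem_bot] at h3
    exact hN0 ((LinearEquiv.map_eq_zero_iff
      (toLin' : Matrix (Fin n) (Fin n) ℚ_[ℓ] ≃ₗ[ℚ_[ℓ]] _)).1 h3)
  have hLG : ∀ g, ∀ A ∈ L, rho V g * A * rho V g⁻¹ ∈ L := by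
    rintro g _ ⟨A, hA, rfl⟩
    change rho V g * toLin' A * rho V g⁻¹ ∈ L
    rw [hconj]
    refine ⟨V g * A * V g⁻¹, ?_, rfl⟩
    induction hA using Submodule.span_induction with
    | mem A hA =>
      obtain ⟨h, rfl⟩ := hA
      refine Submodule.subset_span ⟨g * h, ?_⟩
      simp only [map_mul, _root_.mul_inv_rev, mul_assoc]
    | zero => simp
    | add A B _ _ hA hB => rw [mul_add, add_mul]; exact Submodule.add_mem _ hA hB
    | smul c A _ hA => rw [mul_smul_comm, smul_mul_assoc]; exact Submodule.smul_mem _ _ hA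
  have hLB : ∀ A ∈ L, LieCond (BJ J) A := by
    rintro _ ⟨A, hA, rfl⟩
    change LieCond (BJ J) (toLin' A)
    refine lie_iff.1 ?_
    induction hA using Submodule.span_induction with
    | mem A hA =>
      obtain ⟨h, rfl⟩ := hA
      refine lie_iff.2 ?_
      intro x y
      obtain ⟨c, -, -, -, hc⟩ := hG.sim' h
      have hinv : ∀ x, toLin' (V h) (toLin' (V h⁻¹) x) = x := by
        intro x
        rw [← Matrix.toLin'_mul_apply, ← map_mul, mul_inv_cancel, map_one, Matrix.toLin'_one]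
        rfl
      have h3 : ∀ x, toLin' (V h * N * V h⁻¹) x = toLin' (V h) (toLin' N (toLin' (V h⁻¹) x)) := by
        intro x
        rw [Matrix.toLin'_mul_apply, Matrix.toLin'_mul_apply]
      have h4 := lie_iff.1 hNJ (toLin' (V h⁻¹) x) (toLin' (V h⁻¹) y)
      have h5 := hc (toLin' N (toLin' (V h⁻¹) x)) (toLin' (V h⁻¹) y)
      have h6 := hc (toLin' (V h⁻¹) x) (toLin' N (toLin' (V h⁻¹) y))
      rw [hinv] at h5 h6
      rw [h3, h3, h5, h6, ← mul_add, h4, mul_zero]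
    | zero => simp
    | add A B _ _ hA hB =>
      rw [Matrix.transpose_add, add_mul, mul_add, add_add_add_comm, hA, hB, add_zero]
    | smul c A _ hA =>
      rw [Matrix.transpose_smul, smul_mul_assoc, mul_smul_comm, ← smul_add, hA, smul_zero]
  obtain ⟨A', hA', hAA⟩ := adjoint_irreducible he hS hγ hL0 hLG hLB (toLin' A) (lie_iff.1 hA)
  have h3 : A' = A := (toLin' : Matrix (Fin n) (Fin n) ℚ_[ℓ] ≃ₗ[ℚ_[ℓ]] _).injective hAA
  rw [← h3]
  exact hA'

end

/-- (2) -/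
theorem open_part {K : Type} [Field K] [NumberField K] [Algebra K (AlgebraicClosure ℚ)]
    {ℓ : ℕ} [Fact ℓ.Prime] {ι : ℚ_[ℓ] →+* ℂ} {I : Type} [Fintype I] {n : I → ℕ} {w : I → ℤ}
    {J : (a : I) → Matrix (Fin (n a)) (Fin (n a)) ℚ_[ℓ]}
    {V : (a : I) → GK K →* Matrix (Fin (n a)) (Fin (n a)) ℚ_[ℓ]}
    (hG : ∀ a, Geo ι (w a) (J a) (V a)) (hirr : ∀ a, Irr (V a))
    (hnode : ∀ a, ∃ g : GK K, (V a g)ᵀ * J a * V a g = J a ∧ (V a g - 1).rank = 1)
    (hunip : ∀ a, ∃ (s : GK K) (N : Matrix (Fin (n a)) (Fin (n a)) ℚ_[ℓ]), IsNilpotent N ∧ N ≠ 0 ∧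
      V a s = IsNilpotent.exp N ∧ ∀ b, b ≠ a → V b s = 1)
    (H : Subgroup (GK K)) (hH : IsOpen (H : Set (GK K))) :
    ∃ ε : ℝ, 0 < ε ∧ ∀ g : (a : I) → Matrix (Fin (n a)) (Fin (n a)) ℚ_[ℓ],
      (∀ a, (g a)ᵀ * J a * g a = J a) → (∀ a i j, ‖(g a - 1) i j‖ < ε) →
      ∃ σ ∈ H, ∀ a, V a σ = g a := by
  classical
  have hcomp := gk_compact (K := K)
  have hHfi : H.FiniteIndex := ⟨finite_index hH⟩
  have key : ∀ a, ∃ ε : ℝ, 0 < ε ∧ ∀ g : Matrix (Fin (n a)) (Fin (n a)) ℚ_[ℓ],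
      gᵀ * J a * g = J a → (∀ i j, ‖(g - 1) i j‖ < ε) →
      ∃ σ ∈ H, V a σ = g ∧ ∀ b, b ≠ a → V b σ = 1 := by
    intro a
    obtain ⟨g, hg1, hg2⟩ := hnode a
    obtain ⟨s, N, hN, hN0, hs, hsb⟩ := hunip a
    obtain ⟨i, hi, -, hiH⟩ := Subgroup.exists_pow_mem_of_index_ne_zero
      (H := H.normalCore) Subgroup.FiniteIndex.index_ne_zero s
    -- the closed normal subgroup
    let M : Subgroup (GK K) :=
      { carrier := {σ | σ ∈ H.normalCore ∧ ∀ b, b ≠ a → V b σ = 1}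
        one_mem' := ⟨H.normalCore.one_mem, fun b _ => map_one _⟩
        mul_mem' := by
          rintro x y ⟨hx, hx'⟩ ⟨hy, hy'⟩
          exact ⟨H.normalCore.mul_mem hx hy, fun b hb => by rw [map_mul, hx' b hb, hy' b hb, one_mul]⟩
        inv_mem' := by
          rintro x ⟨hx, hx'⟩
          refine ⟨H.normalCore.inv_mem hx, fun b hb => ?_⟩
          have h1 : V b x⁻¹ * V b x = 1 := by rw [← map_mul, inv_mul_cancel, map_one]
          rwa [hx' b hb, mul_one] at h1 }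
    have hMn : M.Normal := by
      refine ⟨fun x hx g => ⟨(inferInstance : H.normalCore.Normal).conj_mem x hx.1 g, fun b hb => ?_⟩⟩
      rw [map_mul, map_mul, hx.2 b hb, mul_one, ← map_mul, mul_inv_cancel, map_one]
    have hMc : IsClosed (M : Set (GK K)) := by
      have h1 : (M : Set (GK K)) = (H.normalCore : Set (GK K)) ∩ {σ | ∀ b, b ≠ a → V b σ = 1} := rfl
      rw [h1]
      refine IsClosed.inter (H.normalCore_isClosed (H.isClosed_of_isOpen hH)) ?_
      simp only [Set.ofPred_forall]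
      exact isClosed_iInter fun b => isClosed_iInter fun _ =>
        isClosed_eq (hG b).cont continuous_const
    obtain ⟨c, hc⟩ := (hG a).sim s
    rw [hs] at hc
    have hNJ := (unip_lie hN (hG a).det hc).1
    have hN' : IsNilpotent (i • N) := by
      rw [← Nat.cast_smul_eq_nsmul ℤ]
      exact hN.smul _
    have hik : (i : ℚ_[ℓ]) ≠ 0 := by exact_mod_cast hi.ne'
    have hN0' : i • N ≠ 0 := by
      rw [← Nat.cast_smul_eq_nsmul ℚ_[ℓ]]
      exact smul_ne_zero hik hN0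
    have hNJ' : (i • N)ᵀ * J a + J a * (i • N) = 0 := by
      rw [Matrix.transpose_smul, Matrix.smul_mul, Matrix.mul_smul, ← smul_add, hNJ, smul_zero]
    have hs' : V a (s ^ i) = IsNilpotent.exp (i • N) := by rw [map_pow, hs, exp_pow hN]
    obtain ⟨ε, hε, h⟩ := blockD (V a) (hG a).cont M hMc (J a) (hG a).det (hG a).symm (hG a).sim
      (i • N) hN' (s ^ i) ⟨hiH, fun b hb => by rw [map_pow, hsb b hb, one_pow]⟩ hs'
      (by rw [hs']; exact lie_exp hN' hNJ')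
      (span_conj (hG a) (hirr a) hg1 hg2 hN0' hNJ')
    refine ⟨ε, hε, fun g hg hgε => ?_⟩
    obtain ⟨σ, hσ, hσg⟩ := h g hg hgε
    exact ⟨σ, Subgroup.normalCore_le H hσ.1, hσg, hσ.2⟩
  choose ε hε hkey using key
  obtain ⟨ε₀, hε₀, hle⟩ : ∃ ε₀ : ℝ, 0 < ε₀ ∧ ∀ a, ε₀ ≤ ε a := by
    rcases isEmpty_or_nonempty I with hI | hI
    · exact ⟨1, one_pos, fun a => (IsEmpty.false a).elim⟩
    · exact ⟨Finset.univ.inf' Finset.univ_nonempty ε,
        (Finset.lt_inf'_iff _).2 fun a _ => hε a, fun a => Finset.inf'_le _ (Finset.mem_univ a)⟩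
  refine ⟨ε₀, hε₀, fun g hg hgε => ?_⟩
  have hσ : ∀ a, ∃ σ ∈ H, V a σ = g a ∧ ∀ b, b ≠ a → V b σ = 1 := fun a =>
    hkey a (g a) (hg a) fun i j => lt_of_lt_of_le (hgε a i j) (hle a)
  choose σ hσH hσg hσ1 using hσ
  have hfin : ∀ S : Finset I, ∃ τ ∈ H, (∀ a ∈ S, V a τ = g a) ∧ ∀ a ∉ S, V a τ = 1 := by
    intro S
    induction S using Finset.induction_on with
    | empty => exact ⟨1, H.one_mem, by simp, fun a _ => map_one _⟩
    | insert a S ha ih =>
      obtain ⟨τ, hτH, hτ1, hτ2⟩ := ih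
      refine ⟨σ a * τ, H.mul_mem (hσH a) hτH, ?_, ?_⟩
      · intro b hb
        rw [Finset.mem_insert] at hb
        by_cases hba : b = a
        · subst hba
          rw [map_mul, hσg, hτ2 b ha, mul_one]
        · rw [map_mul, hσ1 a b hba, one_mul, hτ1 b (hb.resolve_left hba)]
      · intro b hb
        rw [Finset.mem_insert, not_or] at hb
        rw [map_mul, hσ1 a b hb.1, one_mul, hτ2 b hb.2]
  obtain ⟨τ, hτH, hτ, -⟩ := hfin Finset.univ
  exact ⟨τ, hτH, fun a => hτ a (Finset.mem_univ a)⟩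

end Pool.Agent.LM
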