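import Pool.Agent.Lib_helper98.LM.G4
import Pool.Agent.Lib_helper98.LM.D3

set_option autoImplicit false

/-!
# The image is open in products
-/

namespace Pool.Agent.LM

open Matrix Module

section

variable {K : Type} [Field K] [NumberField K] [Algebra K (AlgebraicClosure ℚ)]
  {ℓ : ℕ} [Fact ℓ.Prime] {n : ℕ} {ι : ℚ_[ℓ] →+* ℂ} {w : ℤ}
  {J : Matrix (Fin n) (Fin n) ℚ_[ℓ]}
  {V : GK K →* Matrix (Fin n) (Fin n) ℚ_[ℓ]}

omit [NumberField K] in
theorem conj_exp (g : GK K) {N : Matrix (Fin n) (Fin n) ℚ_[ℓ]} (hN : IsNilpotent N) :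
    IsNilpotent (V g * N * V g⁻¹) ∧
      V g * IsNilpotent.exp N * V g⁻¹ = IsNilpotent.exp (V g * N * V g⁻¹) := by
  obtain ⟨m, hm⟩ := id hN
  have hinv : V g⁻¹ * V g = 1 := by rw [← map_mul, inv_mul_cancel, map_one]
  have h1 : (V g * N * V g⁻¹) ^ m = 0 := by rw [conj_pow' hinv, hm, mul_zero, zero_mul]
  refine ⟨⟨m, h1⟩, ?_⟩
  have h2 := exp_pow_sum (k := ℚ_[ℓ]) hm 1
  have h3 := exp_pow_sum (k := ℚ_[ℓ]) h1 1
  rw [pow_one] at h2 h3
  rw [h2, h3, Finset.mul_sum, Finset.sum_mul]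
  refine Finset.sum_congr rfl fun i _ => ?_
  rw [conj_pow' hinv]
  simp only [mul_smul_comm, smul_mul_assoc]

omit [NumberField K] in
/-- (C) for matrices -/
theorem adj_irr (hG : Geo ι w J V) (hirr : Irr V) {g : GK K} (h1 : (V g)ᵀ * J * V g = J)
    (h2 : (V g - 1).rank = 1) (L₀ : Submodule ℚ_[ℓ] (Matrix (Fin n) (Fin n) ℚ_[ℓ]))
    (hL : L₀ ≠ ⊥) (hst : ∀ (g : GK K), ∀ A ∈ L₀, V g * A * V g⁻¹ ∈ L₀) (hle : L₀ ≤ LieJ J) :
    LieJ J ≤ L₀ := by
  obtain ⟨N, hN, hN0⟩ := Submodule.exists_mem_ne_zero_of_ne_bot hL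
  intro A hA
  have h3 := span_conj hG hirr h1 h2 hN0 (mem_LieJ.1 (hle hN)) A (mem_LieJ.1 hA)
  refine (Submodule.span_le.2 ?_) h3
  rintro _ ⟨g, rfl⟩
  exact hst g N hN

end

section

variable {K : Type} [Field K] [NumberField K] [Algebra K (AlgebraicClosure ℚ)]
    {ℓ : ℕ} [Fact ℓ.Prime] {ι : ℚ_[ℓ] →+* ℂ} {I : Type} [Fintype I] {n : I → ℕ} {w : I → ℤ}
    {J : (a : I) → Matrix (Fin (n a)) (Fin (n a)) ℚ_[ℓ]}
    {V : (a : I) → GK K →* Matrix (Fin (n a)) (Fin (n a)) ℚ_[ℓ]}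

/-- the adjoint action -/
noncomputable def ad (V : (a : I) → GK K →* Matrix (Fin (n a)) (Fin (n a)) ℚ_[ℓ]) (g : GK K) (x : Tot ℓ n) :
    Tot ℓ n := fun a => V a g * x a * V a g⁻¹

omit [NumberField K] in
theorem goursat
    (hadj : ∀ a (L₀ : Submodule ℚ_[ℓ] (Matrix (Fin (n a)) (Fin (n a)) ℚ_[ℓ])), L₀ ≠ ⊥ →
      (∀ (g : GK K), ∀ A ∈ L₀, V a g * A * V a g⁻¹ ∈ L₀) → L₀ ≤ LieJ (J a) → LieJ (J a) ≤ L₀)
    (hdiff : ∀ a b, a ≠ b → ¬ AdIso (J b) (J a) (V b) (V a))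
    (S : Submodule ℚ_[ℓ] (Tot ℓ n)) (hSad : ∀ g, ∀ x ∈ S, ad V g x ∈ S) (hSJ : S ≤ LieT J)
    (hS0 : ∀ a, ∃ x ∈ S, x a ≠ 0) : LieT J ≤ S := by
  classical
  -- projections of stable subspaces
  have hproj : ∀ (T : Submodule ℚ_[ℓ] (Tot ℓ n)) (a : I), T ≤ S → (∀ g, ∀ x ∈ T, ad V g x ∈ T) →
      (∃ x ∈ T, x a ≠ 0) → ∀ A ∈ LieJ (J a), ∃ x ∈ T, x a = A := by
    intro T a hTS hT ⟨x, hx, hxa⟩ A hA
    have h1 := hadj a (T.map (LinearMap.proj a)) (by
      intro h
      have h2 : x a ∈ T.map (LinearMap.proj a) := ⟨x, hx, rfl⟩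
      rw [h, Submodule.mem_bot] at h2
      exact hxa h2) (by
      rintro g _ ⟨y, hy, rfl⟩
      exact ⟨ad V g y, hT g y hy, rfl⟩) (by
      rintro _ ⟨y, hy, rfl⟩
      exact hSJ (hTS hy) a) hA
    obtain ⟨y, hy, hya⟩ := h1
    exact ⟨y, hy, hya⟩
  -- supports
  have key : ∀ (a : I) (m : ℕ) (Q : Finset I), Q.card = m → a ∈ Q →
      (∃ x ∈ S, (∀ c, c ∉ Q → x c = 0) ∧ x a ≠ 0) →
      ∃ x ∈ S, (∀ c, c ≠ a → x c = 0) ∧ x a ≠ 0 := by
    intro a m
    induction m using Nat.strong_induction_on with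
    | _ m ih =>
      intro Q hQm haQ hx
      by_cases hQ : Q = {a}
      · obtain ⟨x, hxS, hx1, hx2⟩ := hx
        exact ⟨x, hxS, fun c hc => hx1 c (by rw [hQ, Finset.mem_singleton]; exact hc), hx2⟩
      obtain ⟨b, hbQ, hba⟩ : ∃ b ∈ Q, b ≠ a := by
        by_contra h
        push Not at h
        exact hQ (Finset.eq_singleton_iff_unique_mem.2 ⟨haQ, h⟩)
      by_cases hP : ∃ x ∈ S, (∀ c, c ∉ Q.erase b → x c = 0) ∧ x a ≠ 0
      · refine ih (Q.erase b).card ?_ (Q.erase b) rfl (Finset.mem_erase.2 ⟨Ne.symm hba, haQ⟩) hP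
        rw [← hQm]
        exact Finset.card_erase_lt_of_mem hbQ
      exfalso
      push Not at hP
      let T : Submodule ℚ_[ℓ] (Tot ℓ n) :=
        { carrier := {x | x ∈ S ∧ ∀ c, c ∉ Q → x c = 0}
          zero_mem' := ⟨S.zero_mem, fun _ _ => rfl⟩
          add_mem' := by
            rintro x y ⟨hx, hx'⟩ ⟨hy, hy'⟩
            exact ⟨S.add_mem hx hy, fun c hc => by rw [Pi.add_apply, hx' c hc, hy' c hc, add_zero]⟩
          smul_mem' := by
            rintro t x ⟨hx, hx'⟩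
            exact ⟨S.smul_mem t hx, fun c hc => by rw [Pi.smul_apply, hx' c hc, smul_zero]⟩ }
      have hTS : T ≤ S := fun x hx => hx.1
      have hTad : ∀ g, ∀ x ∈ T, ad V g x ∈ T := by
        rintro g x ⟨hx, hx'⟩
        exact ⟨hSad g x hx, fun c hc => by rw [ad, hx' c hc, mul_zero, zero_mul]⟩
      -- the `b`-component determines the `a`-component
      have hdet : ∀ x ∈ T, x b = 0 → x a = 0 := by
        rintro x ⟨hx, hx'⟩ hxb
        refine hP x hx fun c hc => ?_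
        by_cases hcb : c = b
        · rw [hcb]; exact hxb
        · exact hx' c fun h => hc (Finset.mem_erase.2 ⟨hcb, h⟩)
      obtain ⟨x₀, hx₀S, hx₀Q, hx₀a⟩ := hx
      have hx₀T : x₀ ∈ T := ⟨hx₀S, hx₀Q⟩
      have hx₀b : x₀ b ≠ 0 := fun h => hx₀a (hdet x₀ hx₀T h)
      have hpa := hproj T a hTS hTad ⟨x₀, hx₀T, hx₀a⟩
      have hpb := hproj T b hTS hTad ⟨x₀, hx₀T, hx₀b⟩
      -- a section of the projection to the `b`-component
      let π : T →ₗ[ℚ_[ℓ]] LieJ (J b) :=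
        { toFun := fun x => ⟨(x : Tot ℓ n) b, hSJ (hTS x.2) b⟩
          map_add' := fun x y => rfl
          map_smul' := fun t x => rfl }
      have hπ : LinearMap.range π = ⊤ := by
        rw [LinearMap.range_eq_top]
        rintro ⟨A, hA⟩
        obtain ⟨x, hx, hxA⟩ := hpb A hA
        exact ⟨⟨x, hx⟩, Subtype.ext hxA⟩
      obtain ⟨s, hs⟩ := LinearMap.exists_rightInverse_of_surjective π hπ
      have hs' : ∀ A : LieJ (J b), ((s A : T) : Tot ℓ n) b = A := fun A =>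
        congrArg Subtype.val (LinearMap.congr_fun hs A)
      let φ₀ : LieJ (J b) →ₗ[ℚ_[ℓ]] Matrix (Fin (n a)) (Fin (n a)) ℚ_[ℓ] :=
        { toFun := fun A => ((s A : T) : Tot ℓ n) a
          map_add' := fun A B => by rw [map_add]; rfl
          map_smul' := fun t A => by rw [map_smul]; rfl }
      obtain ⟨φ, hφ⟩ := LinearMap.exists_extend φ₀
      have hφ' : ∀ x ∈ T, φ (x b) = x a := by
        intro x hx
        have h1 : φ (x b) = ((s ⟨x b, hSJ (hTS hx) b⟩ : T) : Tot ℓ n) a :=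
          LinearMap.congr_fun hφ ⟨x b, hSJ (hTS hx) b⟩
        rw [h1]
        have h2 := hdet _ (T.sub_mem (s ⟨x b, hSJ (hTS hx) b⟩ : T).2 hx) (by
          rw [Pi.sub_apply, hs', sub_self])
        rw [Pi.sub_apply, sub_eq_zero] at h2
        exact h2
      apply hdiff a b (Ne.symm hba)
      refine ⟨φ, ⟨?_, ?_, ?_⟩, ?_⟩
      · intro A hA
        obtain ⟨x, hx, rfl⟩ := hpb A hA
        rw [hφ' x hx]
        exact hSJ (hTS hx) a
      · -- injectivity
        have hker : ∀ x ∈ T, x a = 0 → x b = 0 := by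
          intro x hx hxa
          by_contra hxb
          let T' : Submodule ℚ_[ℓ] (Tot ℓ n) :=
            { carrier := {x | x ∈ T ∧ x a = 0}
              zero_mem' := ⟨T.zero_mem, rfl⟩
              add_mem' := by
                rintro x y ⟨hx, hx'⟩ ⟨hy, hy'⟩
                exact ⟨T.add_mem hx hy, by rw [Pi.add_apply, hx', hy', add_zero]⟩
              smul_mem' := by
                rintro t x ⟨hx, hx'⟩
                exact ⟨T.smul_mem t hx, by rw [Pi.smul_apply, hx', smul_zero]⟩ }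
          obtain ⟨y, ⟨hyT, hya⟩, hyb⟩ := hproj T' b (fun x hx => hTS hx.1) (by
            rintro g x ⟨hx, hx'⟩
            exact ⟨hTad g x hx, by rw [ad, hx', mul_zero, zero_mul]⟩) ⟨x, ⟨hx, hxa⟩, hxb⟩ (x₀ b)
            (hSJ hx₀S b)
          have h1 := hdet _ (T.sub_mem hx₀T hyT) (by rw [Pi.sub_apply, hyb, sub_self])
          rw [Pi.sub_apply, hya, sub_zero] at h1
          exact hx₀a h1
        intro A hA B hB hAB
        obtain ⟨x, hx, rfl⟩ := hpb A hA
        obtain ⟨y, hy, rfl⟩ := hpb B hB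
        rw [hφ' x hx, hφ' y hy] at hAB
        have h1 := hker _ (T.sub_mem hx hy) (by rw [Pi.sub_apply, hAB, sub_self])
        rw [Pi.sub_apply, sub_eq_zero] at h1
        exact h1
      · intro A hA
        obtain ⟨x, hx, rfl⟩ := hpa A hA
        exact ⟨x b, hSJ (hTS hx) b, hφ' x hx⟩
      · intro σ A hA
        obtain ⟨x, hx, rfl⟩ := hpb A hA
        have h1 := hφ' _ (hTad σ x hx)
        rw [hφ' x hx]
        exact h1
  -- single components
  have hsingle : ∀ a, ∀ A ∈ LieJ (J a), (Pi.single a A : Tot ℓ n) ∈ S := by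
    intro a A hA
    obtain ⟨x, hxS, hxa⟩ := hS0 a
    obtain ⟨y, hyS, hy1, hy2⟩ := key a _ Finset.univ rfl (Finset.mem_univ a)
      ⟨x, hxS, fun c hc => absurd (Finset.mem_univ c) hc, hxa⟩
    have hy : y = Pi.single a (y a) := by
      funext c
      by_cases hc : c = a
      · subst hc
        rw [Pi.single_eq_same]
      · rw [Pi.single_eq_of_ne hc, hy1 c hc]
    have h1 := hadj a
      (S.comap (LinearMap.single ℚ_[ℓ] (fun a => Matrix (Fin (n a)) (Fin (n a)) ℚ_[ℓ]) a)) (by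
      intro h
      have h2 : y a ∈ S.comap (LinearMap.single ℚ_[ℓ]
          (fun a => Matrix (Fin (n a)) (Fin (n a)) ℚ_[ℓ]) a) := by
        change (Pi.single a (y a) : Tot ℓ n) ∈ S
        rw [← hy]
        exact hyS
      rw [h, Submodule.mem_bot] at h2
      exact hy2 h2) (by
      intro g B hB
      have h2 := hSad g _ hB
      have h3 : ad V g (Pi.single a B) = Pi.single a (V a g * B * V a g⁻¹) := by
        funext c
        by_cases hc : c = a
        · subst hc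
          rw [ad, Pi.single_eq_same, Pi.single_eq_same]
        · rw [ad, Pi.single_eq_of_ne hc, Pi.single_eq_of_ne hc, mul_zero, zero_mul]
      change (Pi.single a (V a g * B * V a g⁻¹) : Tot ℓ n) ∈ S
      rw [← h3]
      exact h2) (by
      intro B hB
      have h2 := hSJ hB a
      change (Pi.single a B : Tot ℓ n) a ∈ LieJ (J a) at h2
      rw [Pi.single_eq_same] at h2
      exact h2)
    exact h1 hA
  intro A hA
  have h1 : A = ∑ a, Pi.single a (A a) := (Finset.univ_sum_single A).symm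
  rw [h1]
  exact S.sum_mem fun a _ => hsingle a (A a) (hA a)

end

end Pool.Agent.LM
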