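import Pool.Agent.Lib_helper98.LM.O4

set_option autoImplicit false

/-!
# Forms that are invariant under an improper element
-/

namespace Pool.Agent.LM

open Matrix T

section

variable {K : Type} [Field K] [Algebra K (AlgebraicClosure ℚ)]
    {ℓ : ℕ} [Fact ℓ.Prime] {I : Type} [Fintype I] {n : I → ℕ}
    {J : (a : I) → Matrix (Fin (n a)) (Fin (n a)) ℚ_[ℓ]} {k : ℕ}
    {V : (a : I) → GK K →* Matrix (Fin (n a)) (Fin (n a)) ℚ_[ℓ]}
    {f : Forms ℓ n k}

theorem unip_iso {m : ℕ} {N J : Matrix (Fin m) (Fin m) ℚ_[ℓ]} (hN : IsNilpotent N)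
    (hJ : J.det ≠ 0) {c : ℚ_[ℓ]}
    (h : (IsNilpotent.exp N)ᵀ * J * IsNilpotent.exp N = c • J) :
    (IsNilpotent.exp N)ᵀ * J * IsNilpotent.exp N = J ∧ (1 + IsNilpotent.exp N).det ≠ 0 := by
  refine ⟨?_, ?_⟩
  · rcases Nat.eq_zero_or_pos m with h0 | h0
    · subst h0
      exact Subsingleton.elim _ _
    · rw [h, (unip_lie hN hJ h).2 h0, one_smul]
  · have h1 : IsNilpotent (((2 : ℚ_[ℓ])⁻¹) • (IsNilpotent.exp N - 1)) :=
      (IsNilpotent.isNilpotent_exp_sub_one hN).smul _
    have h2 : IsUnit (1 + ((2 : ℚ_[ℓ])⁻¹) • (IsNilpotent.exp N - 1)) := h1.isUnit_one_add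
    have h3 : 1 + IsNilpotent.exp N = (2 : ℚ_[ℓ]) • (1 + ((2 : ℚ_[ℓ])⁻¹) • (IsNilpotent.exp N - 1)) := by
      rw [smul_add, smul_smul, mul_inv_cancel₀ two_ne_zero, one_smul, two_smul]
      abel
    rw [h3, Matrix.det_smul]
    exact mul_ne_zero (pow_ne_zero _ two_ne_zero) ((Matrix.isUnit_iff_isUnit_det _).1 h2).ne_zero

/-- all reflections -/
theorem all_reflections (hJ : ∀ a, (J a).det ≠ 0)
    (hsim : ∀ a σ, ∃ c : ℚ_[ℓ], (V a σ)ᵀ * J a * V a σ = c • J a)
    (hf : Near J f) {a : I} (hJs : (J a)ᵀ = J a) {H : Subgroup (GK K)}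
    (h : FixedByReflection J V H a f) (u : Fin (n a) → ℚ_[ℓ]) (hu : u ⬝ᵥ (J a *ᵥ u) ≠ 0)
    (v : Fin k → (a : I) → Fin (n a) → ℚ_[ℓ]) :
    f (fun i => open Classical in Function.update (v i) a (mrefl (J a) u (v i a))) = f v := by
  classical
  obtain ⟨σ, -, hσ, hiso, hr, hb⟩ := h
  have hσ' : ∀ v : Fin k → (a : I) → Fin (n a) → ℚ_[ℓ], f (fun i b => V b σ *ᵥ v i b) = f v := by
    intro v
    have h1 := congrArg (fun F => F v) hσ
    exact h1
  -- the other components
  have hS : ∀ S : Finset I, a ∉ S → ∀ v : Fin k → (a : I) → Fin (n a) → ℚ_[ℓ],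
      f (fun i b => if b ∈ S then V b σ *ᵥ v i b else v i b) = f v := by
    intro S
    induction S using Finset.induction_on with
    | empty => intro _ v; simp
    | insert b S hbS ih =>
      intro ha v
      rw [Finset.mem_insert, not_or] at ha
      obtain ⟨N, hN, hbN⟩ := hb b (Ne.symm ha.1)
      obtain ⟨c, hc⟩ := hsim b σ
      rw [hbN] at hc
      obtain ⟨h1, h2⟩ := unip_iso hN (hJ b) hc
      have h3 : (fun i b' => if b' ∈ insert b S then V b' σ *ᵥ v i b' else v i b') =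
          cact b (V b σ) (fun i b' => if b' ∈ S then V b' σ *ᵥ v i b' else v i b') := by
        funext i b'
        unfold cact
        by_cases hbb : b' = b
        · subst hbb
          rw [Function.update_self, if_pos (Finset.mem_insert_self _ _)]
          simp only [if_neg hbS]
        · rw [Function.update_of_ne hbb]
          simp [hbb]
      rw [h3, iso_inv hf b _ (by rw [hbN]; exact h1) (by rw [hbN]; exact h2), ih ha.2]
  obtain ⟨w, hw, hg⟩ := refl_of_rank (hJ a) hJs hiso hr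
  have hw' : HasR J f a w := by
    intro v
    rw [← hg, ← hS (Finset.univ.erase a) (Finset.notMem_erase _ _), ← hσ' v]
    congr 1
    funext i b
    by_cases hba : b = a
    · subst hba
      rw [if_neg (Finset.notMem_erase _ _), cact, Function.update_self]
    · rw [if_pos (Finset.mem_erase.2 ⟨hba, Finset.mem_univ _⟩), cact, Function.update_of_ne hba]
  have h1 := HasR.all hf hJs hw hw' u hu v
  rw [← h1]
  congr 1
  funext i
  unfold cact
  rw [Rm_mulVec]

end

end Pool.Agent.LM
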