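import Pool.Agent.Lib_helper98.LM.G3
import Pool.Agent.Lib_helper44.LM.BlockP

set_option autoImplicit false

/-!
# Parity
-/

namespace Pool.Agent.LM

open Matrix Module

section

variable {K : Type} [Field K] [NumberField K] [Algebra K (AlgebraicClosure ℚ)]
  {ℓ : ℕ} [Fact ℓ.Prime] {n : ℕ} {ι : ℚ_[ℓ] →+* ℂ} {w : ℤ}
  {J : Matrix (Fin n) (Fin n) ℚ_[ℓ]}
  {V : GK K →* Matrix (Fin n) (Fin n) ℚ_[ℓ]} {N : Matrix (Fin n) (Fin n) ℚ_[ℓ]}

theorem WM.finsupp' {k : Type*} [Field k] {E : Type*} [AddCommGroup E] [Module k E]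
    [FiniteDimensional k E] {ι : k →+* ℂ} {q : ℕ} (hq : 1 < q) {w : ℤ} {F N : Module.End k E}
    (h : WM ι q w F N) : ∃ c : ℕ →₀ ℕ, (∀ i, c i = blocks N i ∨ c i = 0) ∧
      finrank k E = c.sum fun i m => (i + 1) * m := by
  obtain ⟨m, hm⟩ := exists_bound ι hq w F
  refine ⟨Finsupp.onFinset (Finset.range (m + 1))
    (fun i => if i < m + 1 then blocks N i else 0) ?_, ?_, ?_⟩
  · intro i hi
    rw [Finset.mem_range]
    by_contra h3
    rw [if_neg h3] at hi
    exact hi rfl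
  · intro i
    rw [Finsupp.onFinset_apply]
    split_ifs
    · exact Or.inl rfl
    · exact Or.inr rfl
  · rw [h.finrank_eq hq m hm, Finsupp.onFinset_sum _ (fun i => by simp)]
    refine Finset.sum_congr rfl fun i hi => ?_
    rw [if_pos (Finset.mem_range.1 hi)]

/-- a stable subspace on which the form is nondegenerate -/
theorem parity_part (hG : Geo ι w J V) (hlog : IsLog ι w V N) {H : Subgroup (GK K)}
    (hH : IsOpen (H : Set (GK K))) {U : Submodule ℚ_[ℓ] (Fin n → ℚ_[ℓ])} (hU : Stable V H U)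
    (hnd : ∀ x ∈ U, (∀ y ∈ U, BJ J x y = 0) → x = 0) (h0 : 0 < finrank ℚ_[ℓ] U) :
    ParitySum J N (finrank ℚ_[ℓ] U) := by
  have hn : 0 < n := by
    have := Submodule.finrank_le U
    rw [finrank_fin_fun] at this
    omega
  have hJ0 : J ≠ 0 := by
    intro h
    have h1 := hG.det
    have : Nonempty (Fin n) := ⟨⟨0, hn⟩⟩
    rw [h, Matrix.det_zero] at h1
    exact h1 rfl
  obtain ⟨q, F, hq, hF, hWM, hN, hdet, -⟩ := log_data hH hG.pure hlog
  have hUN := hN U hU
  obtain ⟨h1, h2⟩ := hWM.split hq U (hU F hF) hUN (hdet U (hU F hF) hU)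
  obtain ⟨c, hc1, hc2⟩ := h1.finsupp' hq
  obtain ⟨e, he, hJe⟩ := hG.sign
  have hNJ : Nᵀ * J + J * N = 0 := by
    obtain ⟨hnil, -, -, -, s, -, -, hs, -, -⟩ := hlog
    obtain ⟨d, hd⟩ := hG.sim s
    rw [hs] at hd
    exact (unip_lie hnil hG.det hd).1
  have hnil : IsNilpotent ((toLin' N).restrict hUN) := by
    refine ⟨n, ?_⟩
    apply LinearMap.ext
    intro x
    apply Subtype.ext
    rw [coe_restrict_pow, ← Matrix.toLin'_pow, nilp_pow hlog.1, map_zero]
    rfl
  refine ⟨c, fun i => ?_, fun i hi => ?_, hc2⟩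
  · rcases hc1 i with h | h
    · rw [h]; exact h2 i
    · rw [h]; exact Nat.zero_le _
  · rcases hc1 i with h | h
    · rw [h]
      have hei : e * (-1) ^ i = -1 := by
        rw [hJe, smul_smul] at hi
        have h3 : ((-1) ^ i * e + 1) • J = 0 := by rw [add_smul, hi, one_smul, neg_add_cancel]
        have h4 := (smul_eq_zero.1 h3).resolve_right hJ0
        linear_combination h4
      refine block_parity ((BJ J).restrict U) ?_ e ?_ _ ?_ hnil i hei
      · intro x hx
        exact Subtype.ext (hnd x x.2 fun y hy => hx ⟨y, hy⟩)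
      · intro x y
        exact BJ_eq hJe _ _
      · intro x y
        exact lie_iff.1 hNJ x y
    · rw [h]
      exact Even.zero

/-- the orthogonal complement of a stable subspace -/
theorem orth_part (hG : Geo ι w J V)
    (h : ∀ r, 0 < r → 2 * r ≤ n → ∃ N, IsLog ι w V N ∧ ¬ HalfSum (toLin' N) r)
    {H : Subgroup (GK K)} (hH : IsOpen (H : Set (GK K)))
    {W : Submodule ℚ_[ℓ] (Fin n → ℚ_[ℓ])} (hW : Stable V H W) :
    Stable V H ((BJ J).orthogonal W) ∧ IsCompl W ((BJ J).orthogonal W) := by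
  have hrefl : (BJ J).IsRefl := hG.refl
  have hst : ∀ U : Submodule ℚ_[ℓ] (Fin n → ℚ_[ℓ]), Stable V H U →
      Stable V H ((BJ J).orthogonal U) := by
    intro U hU g hg y hy x hx
    have h1 : toLin' (V g) (toLin' (V g⁻¹) x) = x := by
      rw [← Matrix.toLin'_mul_apply, ← map_mul, mul_inv_cancel, map_one, Matrix.toLin'_one]
      rfl
    obtain ⟨c, -, -, -, hc⟩ := hG.sim' g
    have h2 := hy _ (hU g⁻¹ (H.inv_mem hg) x hx)
    change BJ J x (toLin' (V g) y) = 0
    rw [← h1, hc]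
    rw [show BJ J (toLin' (V g⁻¹) x) y = 0 from h2, mul_zero]
  refine ⟨hst W hW, ?_⟩
  rw [LinearMap.BilinForm.isCompl_orthogonal_iff_disjoint hrefl, disjoint_iff]
  set R := W ⊓ (BJ J).orthogonal W with hRdef
  have hR : Stable V H R := fun g hg x hx => ⟨hW g hg x hx.1, hst W hW g hg x hx.2⟩
  have hiso : ∀ x ∈ R, ∀ y ∈ R, BJ J x y = 0 := fun x hx y hy => hy.2 x hx.1
  rcases Nat.eq_zero_or_pos (finrank ℚ_[ℓ] R) with h0 | h0
  · exact Submodule.finrank_eq_zero.1 h0
  · exfalso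
    have h1 : R ≤ (BJ J).orthogonal R := fun y hy x hx => hiso x hx y hy
    have h2 := LinearMap.BilinForm.finrank_add_finrank_orthogonal' (B := BJ J) R
    have h3 : (BJ J).ker = ⊥ := by
      rw [LinearMap.ker_eq_bot']
      intro x hx
      exact BJ_nondeg hG.det x fun y => by rw [hx]; rfl
    rw [h3, inf_bot_eq, finrank_bot, finrank_fin_fun] at h2
    have h4 := Submodule.finrank_mono h1
    obtain ⟨N, hN, hr⟩ := h _ h0 (by omega)
    exact hr (iso_part hG hN hH hR hiso h0)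

/-- half sums and parity sums -/
theorem irr_part' (hG : Geo ι w J V)
    (h : ∀ r, 0 < r → 2 * r ≤ n → ∃ N, IsLog ι w V N ∧ ¬ HalfSum (toLin' N) r)
    (h' : ∀ r, 0 < r → 2 * r ≤ n → ∃ N, IsLog ι w V N ∧ ¬ ParitySum J N r) : Irr V := by
  -- stable subspaces of dimension at most `n / 2` are `0`
  have key : ∀ (H : Subgroup (GK K)) (U : Submodule ℚ_[ℓ] (Fin n → ℚ_[ℓ])),
      IsOpen (H : Set (GK K)) → Stable V H U → 2 * finrank ℚ_[ℓ] U ≤ n → U = ⊥ := by
    intro H U hH hU hle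
    rcases Nat.eq_zero_or_pos (finrank ℚ_[ℓ] U) with h0 | h0
    · exact Submodule.finrank_eq_zero.1 h0
    · exfalso
      obtain ⟨h1, h2⟩ := orth_part hG h hH hU
      obtain ⟨N, hN, hr⟩ := h' _ h0 hle
      refine hr (parity_part hG hN hH hU (fun x hx hxy => ?_) h0)
      have h3 : x ∈ U ⊓ (BJ J).orthogonal U := ⟨hx, fun y hy => hG.refl x y (hxy y hy)⟩
      rw [h2.inf_eq_bot] at h3
      exact (Submodule.mem_bot _).1 h3
  intro H W hH hW
  obtain ⟨h1, h2⟩ := orth_part hG h hH hW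
  have h3 := Submodule.finrank_add_eq_of_isCompl h2
  rw [finrank_fin_fun] at h3
  by_cases h4 : 2 * finrank ℚ_[ℓ] W ≤ n
  · exact Or.inl (key H W hH hW h4)
  · right
    have h5 := key H _ hH h1 (by omega)
    rw [h5] at h2
    exact eq_top_of_isCompl_bot h2

end

end Pool.Agent.LM
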