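import Pool.Agent.Lib_helper98.LM.R5
import Pool.Agent.Lib_helper51.LM.BlockO

set_option autoImplicit false

/-!
# One Jordan block, alternating or symmetric forms: the adjoint representation is irreducible
-/

namespace Pool.Agent.LM

open Matrix Module Polynomial

section

variable {K : Type} [Field K] [Algebra K (AlgebraicClosure ℚ)]
  {ℓ : ℕ} [Fact ℓ.Prime] {n : ℕ} {ι : ℚ_[ℓ] →+* ℂ} {w : ℤ}
  {J : Matrix (Fin n) (Fin n) ℚ_[ℓ]}
  {V : GK K →* Matrix (Fin n) (Fin n) ℚ_[ℓ]}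

theorem adj_irr_one (hG : Geo ι w J V) (hirr : Irr V) (hn7 : n ≠ 7)
    {N : Matrix (Fin n) (Fin n) ℚ_[ℓ]} (hlog : IsLog ι w V N) (hN' : N ^ (n - 1) ≠ 0)
    (hex : n ≤ 3 ∨ (∃ g : GK K, ¬ GP ι (V g)) ∨ ∃ (s : GK K) (N' : Matrix (Fin n) (Fin n) ℚ_[ℓ]),
      IsNilpotent N' ∧ V s = IsNilpotent.exp N' ∧ N' ≠ 0 ∧ N' ^ (n - 1) = 0)
    (L₀ : Submodule ℚ_[ℓ] (Matrix (Fin n) (Fin n) ℚ_[ℓ]))
    (hL : L₀ ≠ ⊥) (hst : ∀ (g : GK K), ∀ A ∈ L₀, V g * A * V g⁻¹ ∈ L₀) (hle : L₀ ≤ LieJ J) :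
    LieJ J ≤ L₀ := by
  obtain ⟨hN, u, j, F, s, -, hF, hs, hrel, -⟩ := id hlog
  have hNL : N ∈ L1 V := Submodule.subset_span ⟨hN, s, hs⟩
  -- `n` is at least `2`
  have hn : 2 ≤ n := by
    by_contra hcon
    have h1 : n = 0 ∨ n = 1 := by omega
    rcases h1 with rfl | rfl
    · exact hN' (Subsingleton.elim _ _)
    · apply hL
      rw [Submodule.eq_bot_iff]
      intro A hA
      have h2 := congrFun (congrFun (mem_LieJ.1 (hle hA)) 0) 0
      have h4 := hG.det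
      rw [Matrix.det_fin_one] at h4
      rw [Matrix.add_apply, Matrix.mul_apply, Matrix.mul_apply, Fin.sum_univ_one, Fin.sum_univ_one,
        Matrix.transpose_apply, Matrix.zero_apply] at h2
      have h3 : A 0 0 * J 0 0 = 0 := by linear_combination h2 / 2
      ext i j
      rw [Subsingleton.elim i 0, Subsingleton.elim j 0, Matrix.zero_apply]
      exact (mul_eq_zero.1 h3).resolve_right h4
  have hq : 1 < u ^ j := Nat.one_lt_pow (by have := hF.2.1; omega) hF.1.one_lt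
  have hq' : ∀ m : ℕ, 0 < m → ((u ^ j : ℕ) : ℚ_[ℓ]) ^ m ≠ 1 := by
    intro m hm h
    have h1 : (u ^ j) ^ m = 1 := by exact_mod_cast h
    have h2 : 1 < (u ^ j) ^ m := Nat.one_lt_pow hm.ne' hq
    omega
  have hVF : V F * V F⁻¹ = 1 := by rw [← map_mul, mul_inv_cancel, map_one]
  rcases hG.symm with hJs | hJs
  · -- symmetric forms
    obtain h1 | ⟨h3, P, Q, h, f, hPQ, hPe, hPh, hPf, hh, hf, hspan⟩ := blockO hn hn7 J hG.det hJs (L1 V)
      (L1_lie hG) (fun A hA B hB => L1_bracket (fun g => L1_conj g) A hA B hB) N (V F) (V F⁻¹) hNL hN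
      hN' hVF ((u ^ j : ℕ) : ℚ_[ℓ]) hq' hrel (L1_conj F) (L1_irr hirr hN hNL hN')
    · intro A hA
      exact h1 L₀ hL (fun B hB => mem_LieJ.1 (hle hB)) (fun B hB C hC => L1_bracket hst B hB C hC)
        (hst F) A (mem_LieJ.1 hA)
    · exact (not_principal hn hNL (hex.resolve_left (by omega)) hPQ hPe hPh hPf hh hf hspan).elim
  · -- alternating forms
    by_cases hn3 : n ≤ 3
    · have hn2 : n = 2 := by
        obtain ⟨m, hm⟩ := BR.even_n hG.det hJs
        omega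
      have h1 : N ^ (n - 1) ∈ L1 V := by
        have h2 : n - 1 = 1 := by omega
        rw [h2, pow_one]
        exact hNL
      refine full_of_rank_one hG hirr hJs (L1_lie hG _ h1) hN' ?_ (rank_pow_eq_one hN hN' (by omega))
        L₀ hL hst (L1_bracket hst _ h1) hle
      rw [← pow_add]
      exact pow_eq_zero_of_le (by omega) (nilp_pow hN)
    · exact adj_irr_block hG hirr hJs hlog hN' (hex.resolve_left hn3) L₀ hL hst hle

end

end Pool.Agent.LM
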