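import Pool.Agent.Lib_helper98.LM.S9
import Pool.Agent.Lib_helper98.LM.R6
import Pool.Agent.Lib_helper98.LM.P1
import Pool.Agent.Lib_helper98.LM.O5

set_option autoImplicit false

/-!
# Local monodromy: the theorem on families
-/

namespace Pool.Agent.LM

open Matrix Module

section

variable {K : Type} [Field K] [NumberField K] [Algebra K (AlgebraicClosure ℚ)]
    {ℓ : ℕ} [Fact ℓ.Prime] {ι : ℚ_[ℓ] →+* ℂ}

/-- the adjoint representation of a rich representation is irreducible -/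
theorem adj_irr_rich {n : ℕ} {w : ℤ} {J : Matrix (Fin n) (Fin n) ℚ_[ℓ]}
    {V : GK K →* Matrix (Fin n) (Fin n) ℚ_[ℓ]} (hG : Geo ι w J V) (hirr : Irr V)
    (hrich : Rich ι w J V) (L₀ : Submodule ℚ_[ℓ] (Matrix (Fin n) (Fin n) ℚ_[ℓ])) (hL : L₀ ≠ ⊥)
    (hst : ∀ (g : GK K), ∀ A ∈ L₀, V g * A * V g⁻¹ ∈ L₀) (hle : L₀ ≤ LieJ J) : LieJ J ≤ L₀ := by
  rcases hrich with ⟨g, h1, h2⟩ | ⟨hn7, ⟨N, hlog, hN'⟩, hex⟩
  · exact adj_irr hG hirr h1 h2 L₀ hL hst hle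
  · exact adj_irr_one hG hirr hn7 hlog hN' hex L₀ hL hst hle

variable {I : Type} [Fintype I] {n : I → ℕ} {w : I → ℤ}
    {J : (a : I) → Matrix (Fin (n a)) (Fin (n a)) ℚ_[ℓ]}
    {V : (a : I) → GK K →* Matrix (Fin (n a)) (Fin (n a)) ℚ_[ℓ]}

theorem family (hG : ∀ a, Geo ι (w a) (J a) (V a)) (hirr : ∀ a, Irr (V a))
    (hrich : ∀ a, Rich ι (w a) (J a) (V a))
    (hunip : ∀ a, ∃ s : GK K, V a s ≠ 1 ∧ ∀ b, ∃ N, IsNilpotent N ∧ V b s = IsNilpotent.exp N)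
    (hdiff : ∀ a b, a ≠ b → ¬ AdIso (J a) (J b) (V a) (V b))
    (H : Subgroup (GK K)) (hH : IsOpen (H : Set (GK K))) :
    OpenImage J V H ∧ OnlyPairings J V H ∧ SemisimpleForms V H := by
  have hL : LieT J ≤ Submodule.span ℚ_[ℓ] (Logs V H) :=
    lie_le_logs hG (fun a => adj_irr_rich (hG a) (hirr a) (hrich a)) hunip
      (fun a b hab => hdiff b a (Ne.symm hab)) H hH
  refine ⟨?_, ?_, ?_⟩
  · exact image_closed hG hL H (H.isClosed_of_isOpen hH) fun _ _ _ hs _ => hs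
  · intro k f hk hf
    obtain ⟨ε, hε, h⟩ := lines_inv hG hH hL f hf
    refine blockT_O (fun a => (hG a).det) (fun a => ?_) ε hε h
    rcases (hG a).symm with h2 | h2
    · rcases hk a with h1 | h1 | h1
      · exact Or.inl h1
      · exact Or.inr ⟨h2, Or.inl h1⟩
      · exact Or.inr ⟨h2, Or.inr (all_reflections (fun a => (hG a).det) (fun a => (hG a).sim)
          ⟨ε, hε, h⟩ h2 h1)⟩
    · exact Or.inl h2
  · intro k W hW
    exact forms_semisimple hG hH hL W hW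

end

end Pool.Agent.LM
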