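import Pool.Agent.Lib_helper51.LM.BlockT

set_option autoImplicit false

/-!
# Invariants of orthogonal groups: the operator on functions with even multiplicities
-/

set_option linter.unusedSectionVars false
set_option linter.unusedSimpArgs false

namespace Pool.Agent.LM.T

open Module Finset

section pos

variable {A B : Type*} [Fintype A] [DecidableEq A] [Fintype B] [DecidableEq B] {ι : Type*}
  [DecidableEq ι]

theorem top_diag {R : Type*} [CommRing R] (P : Finset A) (b : B) (F : (A → B) → R) (β : A → B) :
    Top P b b F β = ((P.filter fun a => β a = b).card : R) * F β := by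
  unfold Top
  have h1 : ∀ a ∈ P, (if β a = b then F (Function.update β a b) else 0) =
      if β a = b then F β else 0 := by
    intro a _
    split_ifs with h
    · rw [← h, Function.update_eq_self]
    · rfl
  rw [Finset.sum_congr rfl h1, ← Finset.sum_filter, Finset.sum_const, nsmul_eq_mul]

theorem T1_sum_eq (c : B → ι) (P : Finset A) (F : (A → B) → ℚ) (q : ι → Prop) [DecidablePred q] :
    ∑ β, ∑ a ∈ P, (if q (c (β a)) then T1 c P F β a * F β else 0) =
      ∑ b', if q (c b') then ∑ b, if c b = c b' then ∑ β, Top P b' b F β * Top P b' b F β else 0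
        else 0 := by
  have h1 : ∀ β, (∑ a ∈ P, if q (c (β a)) then T1 c P F β a * F β else 0)
      = ∑ b', if q (c b') then ∑ b, if c b = c b' then Top P b b' (Top P b' b F) β * F β else 0
        else 0 := by
    intro β
    have h2 : ∀ b', (if q (c b') then ∑ b, if c b = c b' then Top P b b' (Top P b' b F) β * F β else 0
        else 0) = ∑ a ∈ P, if β a = b' then (if q (c b') then T1 c P F β a * F β else 0) else 0 := by
      intro b'
      split_ifs with hq
      · have h3 := top_sum c P F β b'
        have h4 : (∑ b, if c b = c b' then Top P b b' (Top P b' b F) β * F β else 0)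
            = (∑ b, if c b = c b' then Top P b b' (Top P b' b F) β else 0) * F β := by
          rw [Finset.sum_mul]
          refine Finset.sum_congr rfl fun b _ => ?_
          split_ifs <;> simp
        rw [h4, h3, Finset.sum_mul]
        refine Finset.sum_congr rfl fun a _ => ?_
        split_ifs with hb
        · subst hb
          unfold T1
          congr 2
          refine Finset.sum_congr rfl fun a' _ => ?_
          by_cases h : c (β a) = c (β a')
          · rw [if_pos h, if_pos h.symm]
          · rw [if_neg h, if_neg (fun h' => h h'.symm)]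
        · simp
      · symm
        refine Finset.sum_eq_zero fun a _ => ?_
        split_ifs <;> rfl
    simp only [h2]
    rw [Finset.sum_comm]
    refine Finset.sum_congr rfl fun a _ => ?_
    rw [Finset.sum_ite_eq]
    simp
  simp only [h1]
  rw [Finset.sum_comm]
  refine Finset.sum_congr rfl fun b' _ => ?_
  split_ifs with hq
  · rw [Finset.sum_comm]
    refine Finset.sum_congr rfl fun b _ => ?_
    split_ifs with hc
    · rw [Top_adj]
    · simp
  · simp

/-- the lower bound for functions with even multiplicities -/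
theorem even_lower (c : B → ι) (P : Finset A) (F : (A → B) → ℚ) (q : ι → Prop) [DecidablePred q]
    (hev : ∀ b, q (c b) → ∀ β : A → B, Odd (P.filter fun a => β a = b).card → F β = 0) :
    2 * (∑ β, ∑ a ∈ P, if q (c (β a)) then F β * F β else 0)
      ≤ ∑ β, ∑ a ∈ P, if q (c (β a)) then T1 c P F β a * F β else 0 := by
  rw [T1_sum_eq]
  have h1 : ∀ β : A → B, (∑ a ∈ P, if q (c (β a)) then F β * F β else 0) =
      ∑ b', if q (c b') then ((P.filter fun a => β a = b').card : ℚ) * (F β * F β) else 0 := by
    intro β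
    have h2 : ∀ b', (if q (c b') then ((P.filter fun a => β a = b').card : ℚ) * (F β * F β) else 0) =
        ∑ a ∈ P, if β a = b' then (if q (c b') then F β * F β else 0) else 0 := by
      intro b'
      rw [← Finset.sum_filter, Finset.sum_const, nsmul_eq_mul]
      split_ifs <;> simp
    simp only [h2]
    rw [Finset.sum_comm]
    refine Finset.sum_congr rfl fun a _ => ?_
    rw [Finset.sum_ite_eq]
    simp
  simp only [h1]
  rw [Finset.sum_comm, Finset.mul_sum]
  refine Finset.sum_le_sum fun b' _ => ?_
  split_ifs with hq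
  · rw [Finset.mul_sum]
    have h2 : ∑ β : A → B, Top P b' b' F β * Top P b' b' F β ≤
        ∑ b, if c b = c b' then ∑ β, Top P b' b F β * Top P b' b F β else 0 := by
      have h3 := Finset.single_le_sum (s := (Finset.univ : Finset B))
        (f := fun b => if c b = c b' then ∑ β : A → B, Top P b' b F β * Top P b' b F β else 0)
        (fun b _ => by
          split_ifs
          · exact Finset.sum_nonneg fun β _ => mul_self_nonneg _
          · exact le_refl _) (Finset.mem_univ b')
      simpa using h3
    refine le_trans (Finset.sum_le_sum fun β _ => ?_) h2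
    rw [top_diag]
    obtain ⟨m, hm⟩ : ∃ m, m = (P.filter fun a => β a = b').card := ⟨_, rfl⟩
    rw [← hm]
    by_cases h0 : F β = 0
    · rw [h0]; simp
    · have hme : Even m := by
        rw [← Nat.not_odd_iff_even]
        intro hodd
        exact h0 (hev b' hq β (hm ▸ hodd))
      obtain ⟨r, hr⟩ := hme
      have h4 : (m : ℚ) = 2 * r := by rw [hr]; push_cast; ring
      have h5 : (0 : ℚ) ≤ (r : ℚ) * (r - 1) := by
        rcases Nat.eq_zero_or_pos r with h | h
        · subst h; simp
        · have h6 : (1 : ℚ) ≤ r := by exact_mod_cast h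
          have h7 : (0 : ℚ) ≤ (r : ℚ) - 1 := by linarith
          exact mul_nonneg (by linarith) h7
      have h6 : (m : ℚ) * F β * ((m : ℚ) * F β) - 2 * ((m : ℚ) * (F β * F β)) =
          4 * ((r : ℚ) * (r - 1)) * (F β * F β) := by
        rw [h4]; ring
      have h7 : 0 ≤ 4 * ((r : ℚ) * (r - 1)) * (F β * F β) :=
        mul_nonneg (mul_nonneg (by norm_num) h5) (mul_self_nonneg _)
      linarith
  · simp

theorem Dc_inj_even_rat (e : ι → ℤ) (he : ∀ i, e i = 1 ∨ e i = -1) (c : B → ι) (P : Finset A)
    (hP : P.Nonempty) (F : (A → B) → ℚ)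
    (hq : ∀ i, e i = 1 → (∀ b, c b = i → P.card < (univ.filter (fun b' => c b' = c b)).card) ∨
      ∀ b, c b = i → ∀ β : A → B, Odd (P.filter fun a => β a = b).card → F β = 0)
    (h : ∀ β, Dc e c P F β = 0) : ∀ β, F β = 0 := by
  classical
  have h1 : ∑ β, Dc e c P F β * F β = 0 := by simp [h]
  obtain ⟨s, hs⟩ : ∃ s : ι → Prop, s = fun i =>
    ∀ b, c b = i → P.card < (univ.filter (fun b' => c b' = c b)).card := ⟨_, rfl⟩
  have h2 : ∀ β : A → B, Dc e c P F β * F β
      = (∑ a ∈ P, if e (c (β a)) = -1 then T1 c P F β a * F β else 0)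
        + (∑ a ∈ P, if e (c (β a)) = -1 then F β * F β else 0)
        + ((∑ a ∈ P, if (e (c (β a)) = 1 ∧ s (c (β a))) then T1 c P F β a * F β else 0)
        - (∑ a ∈ P, if (e (c (β a)) = 1 ∧ s (c (β a))) then F β * F β else 0))
        + ((∑ a ∈ P, if (e (c (β a)) = 1 ∧ ¬ s (c (β a))) then T1 c P F β a * F β else 0)
        - (∑ a ∈ P, if (e (c (β a)) = 1 ∧ ¬ s (c (β a))) then F β * F β else 0)) := by
    intro β
    rw [Dc_eq_T1, Finset.sum_mul, ← Finset.sum_add_distrib, ← Finset.sum_sub_distrib,
      ← Finset.sum_sub_distrib, ← Finset.sum_add_distrib, ← Finset.sum_add_distrib]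
    refine Finset.sum_congr rfl fun a _ => ?_
    by_cases hsa : s (c (β a))
    · rcases he (c (β a)) with h | h
      · rw [h]; simp [hsa]; ring
      · rw [h]; simp [hsa]; ring
    · rcases he (c (β a)) with h | h
      · rw [h]; simp [hsa]; ring
      · rw [h]; simp [hsa]; ring
  simp only [h2] at h1
  rw [Finset.sum_add_distrib, Finset.sum_add_distrib, Finset.sum_add_distrib,
    Finset.sum_sub_distrib, Finset.sum_sub_distrib] at h1
  have h3 := sympl_nonneg c P F (fun i => e i = -1)
  have h4 : 2 * (∑ β, ∑ a ∈ P, if (e (c (β a)) = 1 ∧ s (c (β a))) then F β * F β else 0)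
      ≤ ∑ β, ∑ a ∈ P, if (e (c (β a)) = 1 ∧ s (c (β a))) then T1 c P F β a * F β else 0 := by
    rw [Finset.sum_comm, Finset.sum_comm (s := (Finset.univ : Finset (A → B))), Finset.mul_sum]
    exact Finset.sum_le_sum fun a ha => orth_lower c P F (fun i => e i = 1 ∧ s i)
      (fun b hb => (by rw [hs] at hb; exact hb.2 b rfl)) ha
  have h4' : 2 * (∑ β, ∑ a ∈ P, if (e (c (β a)) = 1 ∧ ¬ s (c (β a))) then F β * F β else 0)
      ≤ ∑ β, ∑ a ∈ P, if (e (c (β a)) = 1 ∧ ¬ s (c (β a))) then T1 c P F β a * F β else 0 := by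
    refine even_lower c P F (fun i => e i = 1 ∧ ¬ s i) ?_
    intro b hb β hodd
    rcases hq (c b) hb.1 with h | h
    · exact absurd (by rw [hs]; exact h) hb.2
    · exact h b rfl β hodd
  have h5 : ∑ β : A → B, (P.card : ℚ) * (F β * F β)
      = (∑ β : A → B, ∑ a ∈ P, if e (c (β a)) = -1 then F β * F β else 0)
        + (∑ β : A → B, ∑ a ∈ P, if (e (c (β a)) = 1 ∧ s (c (β a))) then F β * F β else 0)
        + ∑ β : A → B, ∑ a ∈ P, if (e (c (β a)) = 1 ∧ ¬ s (c (β a))) then F β * F β else 0 := by
    rw [← Finset.sum_add_distrib, ← Finset.sum_add_distrib]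
    refine Finset.sum_congr rfl fun β _ => ?_
    rw [← Finset.sum_add_distrib, ← Finset.sum_add_distrib, ← nsmul_eq_mul, ← Finset.sum_const]
    refine Finset.sum_congr rfl fun a _ => ?_
    by_cases hsa : s (c (β a))
    · rcases he (c (β a)) with h | h
      · rw [h]; simp [hsa]
      · rw [h]; simp [hsa]
    · rcases he (c (β a)) with h | h
      · rw [h]; simp [hsa]
      · rw [h]; simp [hsa]
  have h6 : ∑ β : A → B, (P.card : ℚ) * (F β * F β) ≤ 0 := by linarith
  have h7 : ∀ β ∈ (Finset.univ : Finset (A → B)), 0 ≤ (P.card : ℚ) * (F β * F β) := fun β _ =>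
    mul_nonneg (Nat.cast_nonneg _) (mul_self_nonneg _)
  have h8 : ∑ β : A → B, (P.card : ℚ) * (F β * F β) = 0 := le_antisymm h6 (Finset.sum_nonneg h7)
  intro β
  have h9 := (Finset.sum_eq_zero_iff_of_nonneg h7).mp h8 β (Finset.mem_univ β)
  have hc : (P.card : ℚ) ≠ 0 := by
    rw [Nat.cast_ne_zero]; exact Finset.card_ne_zero.mpr hP
  exact mul_self_eq_zero.mp ((mul_eq_zero.mp h9).resolve_left hc)

theorem Dc_inj_even {K : Type*} [Field K] [CharZero K] (e : ι → ℤ) (he : ∀ i, e i = 1 ∨ e i = -1)
    (c : B → ι) (P : Finset A) (hP : P.Nonempty) (F : (A → B) → K)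
    (hq : ∀ i, e i = 1 → (∀ b, c b = i → P.card < (univ.filter (fun b' => c b' = c b)).card) ∨
      ∀ b, c b = i → ∀ β : A → B, Odd (P.filter fun a => β a = b).card → F β = 0)
    (h : ∀ β, Dc e c P F β = 0) : ∀ β, F β = 0 := by
  intro β
  rw [← Module.forall_dual_apply_eq_zero_iff ℚ]
  intro φ
  refine Dc_inj_even_rat e he c P hP (fun β => φ (F β)) ?_ ?_ β
  · intro i hi
    rcases hq i hi with h | h
    · exact Or.inl h
    · refine Or.inr fun b hb β hodd => ?_
      rw [h b hb β hodd, map_zero]
  intro γ
  have h1 := congrArg φ (h γ)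
  rw [map_zero] at h1
  rw [← h1]
  unfold Dc
  rw [map_sum]
  refine Finset.sum_congr rfl fun a _ => ?_
  rw [map_add, map_sum, ← zsmul_eq_mul, ← zsmul_eq_mul, map_zsmul]
  congr 1
  refine Finset.sum_congr rfl fun a' _ => ?_
  split_ifs
  · rfl
  · rw [map_zero]

end pos

end Pool.Agent.LM.T
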