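import Pool.Agent.Lib_helper98.LM.O1

set_option autoImplicit false

/-!
# Invariants of orthogonal groups: the first fundamental theorem
-/

set_option linter.unusedSectionVars false
set_option linter.unusedSimpArgs false

namespace Pool.Agent.LM.T

open Module Finset

variable {K : Type*} [Field K] [CharZero K]
variable {ι : Type*} [Fintype ι] [DecidableEq ι] {W : ι → Type*} [∀ i, AddCommGroup (W i)]
  [∀ i, Module K (W i)] [∀ i, FiniteDimensional K (W i)]
variable {A : Type*} [Fintype A] [DecidableEq A]

/-- the reflection along `u` -/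
def rf {V : Type*} [AddCommGroup V] [Module K V] (ω : LinearMap.BilinForm K V) (u x : V) : V :=
  x - (2 * ω x u / ω u u) • u

theorem rf_add {V : Type*} [AddCommGroup V] [Module K V] (ω : LinearMap.BilinForm K V) (u x y : V) :
    rf ω u (x + y) = rf ω u x + rf ω u y := by
  unfold rf
  rw [map_add, LinearMap.add_apply, mul_add, add_div, add_smul]
  abel

theorem rf_smul {V : Type*} [AddCommGroup V] [Module K V] (ω : LinearMap.BilinForm K V) (u : V)
    (c : K) (x : V) : rf ω u (c • x) = c • rf ω u x := by
  unfold rf
  rw [map_smul, LinearMap.smul_apply, smul_eq_mul, smul_sub, smul_smul]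
  congr 2
  ring

theorem rf_zero {V : Type*} [AddCommGroup V] [Module K V] (ω : LinearMap.BilinForm K V) (u : V) :
    rf ω u 0 = 0 := by
  have := rf_smul ω u (0 : K) 0
  rwa [zero_smul, zero_smul] at this

theorem rf_sum {V : Type*} [AddCommGroup V] [Module K V] (ω : LinearMap.BilinForm K V) (u : V)
    {J : Type*} (s : Finset J) (c : J → K) (x : J → V) :
    rf ω u (∑ j ∈ s, c j • x j) = ∑ j ∈ s, c j • rf ω u (x j) := by
  classical
  induction s using Finset.induction_on with
  | empty => simp [rf_zero]
  | insert j s hj ih => rw [Finset.sum_insert hj, Finset.sum_insert hj, rf_add, rf_smul, ih]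

theorem rf_rf {V : Type*} [AddCommGroup V] [Module K V] (ω : LinearMap.BilinForm K V) {u : V}
    (hu : ω u u ≠ 0) (x : V) : rf ω u (rf ω u x) = x := by
  unfold rf
  rw [map_sub, LinearMap.sub_apply, map_smul, LinearMap.smul_apply, smul_eq_mul, sub_sub, ← add_smul]
  have : 2 * ω x u / ω u u + 2 * (ω x u - 2 * ω x u / ω u u * ω u u) / ω u u = 0 := by
    field_simp
    ring
  rw [this, zero_smul, sub_zero]

theorem rf_move {V : Type*} [AddCommGroup V] [Module K V] (ω : LinearMap.BilinForm K V)
    (hs : ∀ x y, ω x y = ω y x) {u : V} (x y : V) :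
    ω x (rf ω u y) = ω (rf ω u x) y := by
  unfold rf
  rw [map_sub, map_sub, LinearMap.sub_apply, map_smul, map_smul, LinearMap.smul_apply, smul_eq_mul,
    smul_eq_mul, hs u y]
  ring

/-- the reflection along `u` in the component `i` -/
def Rf (ω : ∀ i, LinearMap.BilinForm K (W i)) (i : ι) (u : W i) (x : ∀ i, W i) : ∀ i, W i :=
  Function.update x i (rf (ω i) u (x i))

/-- invariance under reflections in the component `i` -/
def RInv (ω : ∀ i, LinearMap.BilinForm K (W i)) (i : ι) (f : (A → ∀ i, W i) → K) : Prop :=
  ∀ u : W i, ω i u u ≠ 0 → ∀ v : A → ∀ i, W i, f (fun a => Rf ω i u (v a)) = f v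

variable {ω : ∀ i, LinearMap.BilinForm K (W i)}

theorem Rf_single_ne {i i' : ι} (h : i' ≠ i) (u : W i) (x : W i') :
    Rf ω i u (Pi.single i' x) = Pi.single i' x := by
  unfold Rf
  rw [Pi.single_eq_of_ne h.symm, rf_zero]
  have : (Pi.single i' x : ∀ i, W i) i = 0 := Pi.single_eq_of_ne h.symm _
  rw [← this, Function.update_eq_self]

theorem Rf_single_self (i : ι) (u x : W i) :
    Rf ω i u (Pi.single i x) = Pi.single i (rf (ω i) u x) := by
  unfold Rf
  rw [Pi.single_eq_same]
  funext j
  by_cases h : j = i
  · subst h
    rw [Function.update_self, Pi.single_eq_same]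
  · rw [Function.update_of_ne h, Pi.single_eq_of_ne h, Pi.single_eq_of_ne h]

theorem kap_rinv (hω : ∀ i, (ω i).Nondegenerate) (i : ι) {a a' : A} (hne : a ≠ a')
    {P : Finset A} (ha : a ∈ P) (ha' : a' ∈ P) {f : (A → ∀ i, W i) → K} (hf : PML K P f)
    {i' : ι} (hsym : ∀ x y, ω i' x y = ω i' y x) (hR : RInv ω i' f) :
    RInv ω i' (kap hω i a a' f) := by
  intro u hu v
  obtain ⟨e, he⟩ : ∃ e, e = Module.finBasis K (W i) := ⟨_, rfl⟩
  obtain ⟨e', he'⟩ : ∃ e', e' = (ω i).dualBasis (hω i) (Module.finBasis K (W i)) := ⟨_, rfl⟩
  have hG : ∀ x y : ∀ i, W i, Function.update (Function.update (fun a => Rf ω i' u (v a)) a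
      (Rf ω i' u x)) a' (Rf ω i' u y) =
        fun b => Rf ω i' u (Function.update (Function.update v a x) a' y b) := by
    intro x y
    funext b
    by_cases h1 : b = a'
    · subst h1
      rw [Function.update_self, Function.update_self]
    · rw [Function.update_of_ne h1, Function.update_of_ne h1]
      by_cases h2 : b = a
      · subst h2
        rw [Function.update_self, Function.update_self]
      · rw [Function.update_of_ne h2, Function.update_of_ne h2]
  unfold kap
  rw [← he', ← he]
  by_cases hii : i = i'
  · subst hii
    have h1 : ∀ b, f (Function.update (Function.update (fun a => Rf ω i u (v a)) a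
        (Pi.single i (e b))) a' (Pi.single i (e' b))) =
        f (Function.update (Function.update v a (Pi.single i (rf (ω i) u (e b)))) a'
          (Pi.single i (rf (ω i) u (e' b)))) := by
      intro b
      rw [← hR u hu (Function.update (Function.update v a (Pi.single i (rf (ω i) u (e b)))) a'
          (Pi.single i (rf (ω i) u (e' b)))), ← hG, Rf_single_self, Rf_single_self, rf_rf _ hu,
          rf_rf _ hu]
    rw [Finset.sum_congr rfl fun b _ => h1 b]
    have h2 : ∀ b, f (Function.update (Function.update v a (Pi.single i (rf (ω i) u (e b)))) a'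
          (Pi.single i (rf (ω i) u (e' b)))) =
        ∑ c, ω i (e' c) (rf (ω i) u (e b)) * f (Function.update (Function.update v a'
          (Pi.single i (rf (ω i) u (e' b)))) a (Pi.single i (e c))) := by
      intro b
      rw [Function.update_comm hne]
      have h3 := dual_sum2 (ω i) (hω i) (rf (ω i) u (e b))
      rw [← he', ← he] at h3
      conv_lhs => rw [← h3]
      rw [single_sum_smul, hf.sum_smul ha]
    rw [Finset.sum_congr rfl fun b _ => h2 b, Finset.sum_comm]
    refine Finset.sum_congr rfl fun c _ => ?_
    have h3 : ∀ b, ω i (e' c) (rf (ω i) u (e b)) * f (Function.update (Function.update v a'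
          (Pi.single i (rf (ω i) u (e' b)))) a (Pi.single i (e c))) =
        ω i (rf (ω i) u (e' c)) (e b) * f (Function.update (Function.update v a
          (Pi.single i (e c))) a' (Pi.single i (rf (ω i) u (e' b)))) := by
      intro b
      rw [rf_move _ hsym, Function.update_comm hne]
    rw [Finset.sum_congr rfl fun b _ => h3 b, ← hf.sum_smul ha', ← single_sum_smul, ← rf_sum]
    have h4 := dual_sum1 (ω i) (hω i) (rf (ω i) u (e' c))
    rw [← he', ← he] at h4
    rw [h4, rf_rf _ hu]
  · refine Finset.sum_congr rfl fun b _ => ?_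
    rw [← hR u hu (Function.update (Function.update v a (Pi.single i (e b))) a'
      (Pi.single i (e' b))), ← hG, Rf_single_ne hii, Rf_single_ne hii]

theorem Pairing.rinv {P : Finset A} {F : (A → ∀ i, W i) → K} (h : Pairing ω P F) {i : ι}
    (hsym : ∀ x y, ω i x y = ω i y x) : RInv ω i F := by
  induction h with
  | one => intro u _ v; rfl
  | @mul P F a a' j hne ha ha' hF ih =>
    intro u hu v
    change ω j (Rf ω i u (v a) j) (Rf ω i u (v a') j) * F (fun a => Rf ω i u (v a)) = _
    rw [ih u hu v]
    by_cases hji : j = i
    · subst hji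
      rw [Rf, Rf, Function.update_self, Function.update_self, rf_move _ hsym, rf_rf _ hu]
    · rw [Rf, Rf, Function.update_of_ne hji, Function.update_of_ne hji]

theorem S_rinv {P : Finset A} {F : (A → ∀ i, W i) → K} (h : F ∈ S ω P) {i : ι}
    (hsym : ∀ x y, ω i x y = ω i y x) : RInv ω i F := by
  unfold S at h
  induction h using Submodule.span_induction with
  | mem x hx => exact Pairing.rinv hx hsym
  | zero => intro u _ v; rfl
  | add x y _ _ hx hy => intro u hu v; rw [Pi.add_apply, Pi.add_apply, hx u hu v, hy u hu v]
  | smul c x _ hx => intro u hu v; rw [Pi.smul_apply, Pi.smul_apply, hx u hu v]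

theorem PML.neg_on {V : Type*} [AddCommGroup V] [Module K V] {P : Finset A} {f : (A → V) → K}
    (hf : PML K P f) (v : A → V) (Q : Finset A) :
    f (fun a => if a ∈ Q then -v a else v a) = (-1) ^ (P.filter fun a => a ∈ Q).card * f v := by
  induction Q using Finset.induction_on with
  | empty => simp
  | insert a Q ha ih =>
    obtain ⟨w, hw⟩ : ∃ w : A → V, w = fun a => if a ∈ Q then -v a else v a := ⟨_, rfl⟩
    have hwa : w a = v a := by rw [hw]; simp [ha]
    have h1 : (fun x => if x ∈ insert a Q then -v x else v x) = Function.update w a (-v a) := by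
      funext x
      by_cases hx : x = a
      · subst hx
        rw [Function.update_self, if_pos (Finset.mem_insert_self _ _)]
      · rw [Function.update_of_ne hx, hw]
        simp [hx]
    rw [h1]
    rw [← hw] at ih
    by_cases haP : a ∈ P
    · have h2 : f (Function.update w a (-v a)) = - f w := by
        have h3 := hf.smul a haP w (-1) (v a)
        rw [neg_one_smul] at h3
        rw [h3, ← hwa, Function.update_eq_self]
        ring
      have h3 : (P.filter fun x => x ∈ insert a Q) = insert a (P.filter fun x => x ∈ Q) := by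
        ext x
        simp only [mem_filter, mem_insert]
        constructor
        · rintro ⟨h, rfl | h'⟩
          · exact Or.inl rfl
          · exact Or.inr ⟨h, h'⟩
        · rintro (rfl | ⟨h, h'⟩)
          · exact ⟨haP, Or.inl rfl⟩
          · exact ⟨h, Or.inr h'⟩
      rw [h2, ih, h3, Finset.card_insert_of_notMem (by simp [ha]), pow_succ]
      ring
    · have h3 : (P.filter fun x => x ∈ insert a Q) = (P.filter fun x => x ∈ Q) := by
        ext x
        simp only [mem_filter, mem_insert]
        constructor
        · rintro ⟨h, rfl | h'⟩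
          · exact absurd h haP
          · exact ⟨h, h'⟩
        · rintro ⟨h, h'⟩
          exact ⟨h, Or.inr h'⟩
      rw [hf.const a haP, ih, h3]

/-- invariance under reflections: even multiplicities in an orthogonal basis -/
theorem rinv_even (bs : ∀ i, Basis (Fin (finrank K (W i))) K (W i))
    [DecidableEq (Σ i, Fin (finrank K (W i)))] {P : Finset A} {f : (A → ∀ i, W i) → K}
    (hf : PML K P f) {i : ι} (hR : RInv ω i f)
    (hbs : ∀ k l, k ≠ l → ω i (bs i k) (bs i l) = 0) (hbs' : ∀ k, ω i (bs i k) (bs i k) ≠ 0)
    (b : Σ i, Fin (finrank K (W i))) (hb : b.1 = i) (β : A → Σ i, Fin (finrank K (W i)))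
    (hodd : Odd (P.filter fun a => β a = b).card) : f (fun a => Pi.basis bs (β a)) = 0 := by
  obtain ⟨j, k⟩ := b
  change j = i at hb
  subst hb
  have h1 := hR (bs j k) (hbs' k) (fun a => Pi.basis bs (β a))
  have h2 : (fun a => Rf ω j (bs j k) (Pi.basis bs (β a))) =
      fun a => if a ∈ (Finset.univ.filter fun a => β a = ⟨j, k⟩) then -(Pi.basis bs (β a))
        else Pi.basis bs (β a) := by
    funext a
    simp only [mem_filter, mem_univ, true_and]
    obtain ⟨j', k'⟩ := β a
    rw [Pi.basis_apply]
    by_cases hj : j' = j
    · subst hj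
      rw [Rf_single_self]
      by_cases hk : k' = k
      · subst hk
        rw [if_pos rfl]
        have h3 : rf (ω j') (bs j' k') (bs j' k') = -(bs j' k') := by
          unfold rf
          rw [mul_div_assoc, div_self (hbs' k'), mul_one, two_smul]
          abel
        rw [h3, ← Pi.single_neg]
      · rw [if_neg (by
          intro h
          exact hk (eq_of_heq (Sigma.mk.inj h).2))]
        have h3 : rf (ω j') (bs j' k) (bs j' k') = bs j' k' := by
          unfold rf
          rw [hbs k' k hk, mul_zero, zero_div, zero_smul, sub_zero]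
        rw [h3]
    · rw [Rf_single_ne hj, if_neg (by
          intro h
          exact hj (Sigma.mk.inj h).1)]
  rw [h2, hf.neg_on] at h1
  have h3 : (P.filter fun a => a ∈ (Finset.univ.filter fun a => β a = ⟨j, k⟩)) =
      P.filter fun a => β a = ⟨j, k⟩ := by
    ext a; simp
  rw [h3, hodd.neg_one_pow] at h1
  have h4 : (2 : K) * f (fun a => Pi.basis bs (β a)) = 0 := by linear_combination -h1
  exact (mul_eq_zero.mp h4).resolve_left two_ne_zero

theorem ev_DD' (bs : ∀ i, Basis (Fin (finrank K (W i))) K (W i)) (e₀ : ι → ℤ)
    [DecidableEq (Σ i, Fin (finrank K (W i)))] {P : Finset A} {f : (A → ∀ i, W i) → K}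
    (hf : PML K P f) (β : A → Σ i, Fin (finrank K (W i))) :
    DD e₀ P f (fun a => Pi.basis bs (β a))
      = Dc e₀ (fun b : (Σ i, Fin (finrank K (W i))) => b.1) P
        (fun β => f (fun a => Pi.basis bs (β a))) β := by
  obtain ⟨e, he⟩ : ∃ e, e = Pi.basis bs := ⟨_, rfl⟩
  rw [← he]
  have hs : ∀ b i, (Pi.single i (e b i) : ∀ i, W i) = if i = b.1 then e b else 0 := by
    intro b i
    rw [he, Pi.basis_apply]
    split_ifs with h
    · subst h; rw [Pi.single_eq_same]
    · rw [Pi.single_eq_of_ne h, Pi.single_zero]
  unfold DD Dc
  refine Finset.sum_congr rfl fun a ha => ?_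
  rw [Finset.sum_add_distrib]
  congr 1
  · rw [Finset.sum_eq_single (β a).1]
    · rw [hs, if_pos rfl, Function.update_eq_self, card_fibre]
    · intro i _ hi
      rw [hs, if_neg hi, hf.zero ha, mul_zero]
    · intro h; exact absurd (Finset.mem_univ _) h
  · rw [Finset.sum_comm]
    refine Finset.sum_congr rfl fun a' ha' => ?_
    have hne := (Finset.mem_erase.mp ha').1
    have ha'P := (Finset.mem_erase.mp ha').2
    split_ifs with hc
    · rw [Finset.sum_eq_single (β a).1]
      · rw [hs, hs, if_pos rfl, if_pos hc]
        congr 1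
        funext x
        by_cases h1 : x = a'
        · subst h1
          rw [Function.update_self, Function.comp_apply, Equiv.swap_apply_right]
        · rw [Function.update_of_ne h1]
          by_cases h2 : x = a
          · subst h2
            rw [Function.update_self, Function.comp_apply, Equiv.swap_apply_left]
          · rw [Function.update_of_ne h2, Function.comp_apply, Equiv.swap_apply_of_ne_of_ne h2 h1]
      · intro i _ hi
        rw [hs (β a), if_neg hi, hf.zero ha'P]
      · intro h; exact absurd (Finset.mem_univ _) h
    · refine Finset.sum_eq_zero fun i _ => ?_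
      rw [hs, hs]
      by_cases h1 : i = (β a).1
      · have h2 : i ≠ (β a').1 := fun h => hc (h1.symm.trans h)
        rw [if_neg h2, Function.update_comm hne.symm, hf.zero ha]
      · rw [if_neg h1, hf.zero ha'P]

/-- First fundamental theorem for a product of symplectic (`e₀ i = -1`) and orthogonal (`e₀ i = 1`)
Lie algebras; for each orthogonal one the number of arguments is less than the dimension, or the form
is invariant under reflections. -/
theorem fftO (hω : ∀ i, (ω i).Nondegenerate) (e₀ : ι → ℤ) (he₀ : ∀ i, e₀ i = 1 ∨ e₀ i = -1)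
    (hs : ∀ i v w, ω i v w = (e₀ i : K) * ω i w v) (bs : ∀ i, Basis (Fin (finrank K (W i))) K (W i))
    (hbs : ∀ i, e₀ i = 1 → (∀ k l, k ≠ l → ω i (bs i k) (bs i l) = 0) ∧
      ∀ k, ω i (bs i k) (bs i k) ≠ 0) (n : ℕ) :
    ∀ (P : Finset A), P.card = n → ∀ f : (A → ∀ i, W i) → K, PML K P f → Inv ω P f →
      (∀ i, e₀ i = 1 → n < finrank K (W i) ∨ RInv ω i f) → f ∈ S ω P := by
  classical
  induction n using Nat.strong_induction_on with
  | _ n ih =>
  intro P hPn f hf hI hn
  have hsym : ∀ i, e₀ i = 1 → ∀ x y, ω i x y = ω i y x := by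
    intro i hi x y
    rw [hs i x y, hi, Int.cast_one, one_mul]
  rcases P.eq_empty_or_nonempty with rfl | hP
  · -- constant
    have : f = f 0 • (fun _ => 1) := by
      funext v
      rw [Pi.smul_apply, smul_eq_mul, mul_one]
      exact const_all (fun a v x => hf.const a (Finset.notMem_empty a) v x) v 0
    rw [this]
    exact Submodule.smul_mem _ _ (Submodule.subset_span Pairing.one)
  -- the right side
  have hD : DD e₀ P f ∈ S ω P := by
    have e : DD e₀ P f = ∑ a ∈ P, ∑ i, ∑ a' ∈ P.erase a, (e₀ i : K) • (fun v : A → ∀ i, W i =>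
        ω i (v a i) (v a' i) * kap hω i a a' f v) := by
      funext v
      simp only [DD, Finset.sum_apply, Pi.smul_apply, smul_eq_mul]
      exact Finset.sum_congr rfl fun a ha => Finset.sum_congr rfl fun i _ =>
        ident hω e₀ he₀ hs i ha hf hI v
    rw [e]
    refine Submodule.sum_mem _ fun a ha => Submodule.sum_mem _ fun i _ => Submodule.sum_mem _
      fun a' ha' => Submodule.smul_mem _ _ ?_
    have hne := (Finset.mem_erase.mp ha').1
    have ha'P := (Finset.mem_erase.mp ha').2
    have hlt : ((P.erase a).erase a').card < n := by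
      rw [← hPn]
      exact lt_of_lt_of_le (Finset.card_erase_lt_of_mem ha') (Finset.card_erase_le)
    have hk := ih ((P.erase a).erase a').card hlt _ rfl _
      (kap_pml hω i hne.symm hf) (kap_inv hω i hne.symm ha ha'P hf hI) (by
        intro i' hi'
        rcases hn i' hi' with h | h
        · exact Or.inl (hlt.trans h)
        · exact Or.inr (kap_rinv hω i hne.symm ha ha'P hf (hsym i' hi') h))
    have := S_mul hk i hne.symm (by simp) (by simp)
    have hins : insert a (insert a' ((P.erase a).erase a')) = P := by
      rw [Finset.insert_erase ha', Finset.insert_erase ha]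
    rwa [hins] at this
  by_cases hB : Nonempty (Σ i, Fin (finrank K (W i)))
  · -- coordinates
    let ev : ((A → ∀ i, W i) → K) →ₗ[K] ((A → Σ i, Fin (finrank K (W i))) → K) :=
      { toFun := fun f β => f (fun a => Pi.basis bs (β a))
        map_add' := fun _ _ => rfl
        map_smul' := fun _ _ => rfl }
    let D : ((A → Σ i, Fin (finrank K (W i))) → K) →ₗ[K] ((A → Σ i, Fin (finrank K (W i))) → K) :=
      { toFun := fun F => Dc e₀ (fun b : (Σ i, Fin (finrank K (W i))) => b.1) P F
        map_add' := by
          intro F G
          funext β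
          simp only [Dc, Pi.add_apply, mul_add, Finset.sum_add_distrib]
          have : ∀ a, (∑ a' ∈ P.erase a, if (β a).1 = (β a').1 then F (β ∘ Equiv.swap a a')
              + G (β ∘ Equiv.swap a a') else 0)
              = (∑ a' ∈ P.erase a, if (β a).1 = (β a').1 then F (β ∘ Equiv.swap a a') else 0)
              + (∑ a' ∈ P.erase a, if (β a).1 = (β a').1 then G (β ∘ Equiv.swap a a') else 0) := by
            intro a
            rw [← Finset.sum_add_distrib]
            refine Finset.sum_congr rfl fun a' _ => ?_
            split_ifs <;> simp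
          simp only [this, Finset.sum_add_distrib]
          ring
        map_smul' := by
          intro c F
          funext β
          simp only [Dc, Pi.smul_apply, smul_eq_mul, RingHom.id_apply, Finset.mul_sum, mul_add]
          refine Finset.sum_congr rfl fun a _ => ?_
          congr 1
          · ring
          · refine Finset.sum_congr rfl fun a' _ => ?_
            split_ifs <;> simp }
    -- functions with even multiplicities in the orthogonal components that are not large
    have hDinj : ∀ F, (∀ i, e₀ i = 1 → n < finrank K (W i) ∨ ∀ b : (Σ i, Fin (finrank K (W i))),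
        b.1 = i → ∀ β : A → (Σ i, Fin (finrank K (W i))),
          Odd (P.filter fun a => β a = b).card → F β = 0) → D F = 0 → F = 0 := fun F hFe hF =>
      funext (Dc_inj_even e₀ he₀ (fun b : (Σ i, Fin (finrank K (W i))) => b.1) P hP F
        (fun i hi => by
          rcases hFe i hi with h | h
          · refine Or.inl fun b hb => ?_
            rw [card_fibre, hPn, hb]
            exact h
          · exact Or.inr fun b hb β hodd => h b hb β hodd) (fun β => congrFun hF β))
    have hev : ∀ g, PML K P g → ev (DD e₀ P g) = D (ev g) := by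
      intro g hg
      funext β
      exact ev_DD' bs e₀ hg β
    have heven : ∀ g, PML K P g → ∀ i, e₀ i = 1 → RInv ω i g →
        ∀ b : (Σ i, Fin (finrank K (W i))), b.1 = i → ∀ β : A → (Σ i, Fin (finrank K (W i))),
          Odd (P.filter fun a => β a = b).card → ev g β = 0 := by
      intro g hg i hi hR b hb β hodd
      exact rinv_even bs hg hR (hbs i hi).1 (hbs i hi).2 b hb β hodd
    -- D restricts to a bijection of the image of S
    let S' := (S ω P).map ev
    have hS' : ∀ F ∈ S', D F ∈ S' := by
      rintro _ ⟨g, hg, rfl⟩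
      rw [← hev g (S_pml hg)]
      exact Submodule.mem_map_of_mem (DD_S e₀ hg)
    have hinj : Function.Injective (D.restrict hS') := by
      rw [← LinearMap.ker_eq_bot, LinearMap.ker_eq_bot']
      rintro ⟨F, hF⟩ h
      refine Subtype.ext (hDinj F ?_ (congrArg Subtype.val h))
      obtain ⟨g, hg, rfl⟩ := hF
      intro i hi
      exact Or.inr (heven g (S_pml hg) i hi (S_rinv hg (hsym i hi)))
    have hsurj := LinearMap.surjective_of_injective hinj
    obtain ⟨⟨_, ⟨g, hg, rfl⟩⟩, hgD⟩ := hsurj ⟨D (ev f), by
      rw [← hev f hf]; exact Submodule.mem_map_of_mem hD⟩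
    have h1 : D (ev g) = D (ev f) := congrArg Subtype.val hgD
    have h2 : ev g = ev f := by
      have := hDinj (ev g - ev f) (by
        intro i hi
        rcases hn i hi with h | h
        · exact Or.inl h
        · refine Or.inr fun b hb β hodd => ?_
          rw [Pi.sub_apply, heven g (S_pml hg) i hi (S_rinv hg (hsym i hi)) b hb β hodd,
            heven f hf i hi h b hb β hodd, sub_zero]) (by rw [map_sub, h1, sub_self])
      exact sub_eq_zero.mp this
    have h3 : g = f := PML.ext (Pi.basis bs) (S_pml hg) hf
      (fun β => congrFun h2 β)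
    rw [← h3]; exact hg
  · -- the space is zero
    have hz : ∀ v : ∀ i, W i, v = 0 := by
      intro v
      have : IsEmpty (Σ i, Fin (finrank K (W i))) := not_nonempty_iff.mp hB
      have := (Pi.basis bs).sum_repr v
      rw [← this]
      simp
    obtain ⟨a, ha⟩ := hP
    have : f = 0 := by
      funext v
      have h1 := hf.zero ha v
      rw [← hz (v a), Function.update_eq_self] at h1
      exact h1
    rw [this]
    exact Submodule.zero_mem _

end Pool.Agent.LM.T
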