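import Pool.Agent.Lib_helper98.LM.O2

set_option autoImplicit false

/-!
# Invariants of orthogonal groups: from the isometries near `1` to the Lie algebra; the theorem
-/

open scoped Matrix

namespace Pool.Agent.LM

open T

section

variable {ℓ : ℕ} [Fact ℓ.Prime] {I : Type} {n : I → ℕ}
    {J : (a : I) → Matrix (Fin (n a)) (Fin (n a)) ℚ_[ℓ]} {k : ℕ}
    {f : MultilinearMap ℚ_[ℓ] (fun _ : Fin k => (a : I) → Fin (n a) → ℚ_[ℓ]) ℚ_[ℓ]}

/-- invariance under the isometries near `1` implies an identity of polynomials for the Cayley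
transform -/
theorem cayley_near [DecidableEq I] {ε : ℝ} (hε : 0 < ε)
    (hf : ∀ g : (a : I) → Matrix (Fin (n a)) (Fin (n a)) ℚ_[ℓ],
      (∀ a, (g a)ᵀ * J a * g a = J a) → (∀ a i j, ‖(g a - 1) i j‖ < ε) →
      ∀ v, f (fun i a => g a *ᵥ v i a) = f v)
    (i : I) (A : Matrix (Fin (n i)) (Fin (n i)) ℚ_[ℓ]) (hA : Aᵀ * J i + J i * A = 0)
    (v : Fin k → (a : I) → Fin (n a) → ℚ_[ℓ]) :
    ∀ᶠ t in nhds (0 : ℚ_[ℓ]),
      f (fun a => v a + t • (Pi.single i (A *ᵥ v a i) : (a : I) → Fin (n a) → ℚ_[ℓ])) =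
      f (fun a => v a + (-t) • (Pi.single i (A *ᵥ v a i) : (a : I) → Fin (n a) → ℚ_[ℓ])) := by
  have hAt : ∀ t : ℚ_[ℓ], (t • A)ᵀ * J i + J i * (t • A) = 0 := by
    intro t
    rw [Matrix.transpose_smul, Matrix.smul_mul, Matrix.mul_smul, ← smul_add, hA, smul_zero]
  have hev : ∀ᶠ t in nhds (0 : ℚ_[ℓ]), (1 - t • A).det ≠ 0 ∧
      ∀ p q, ‖((1 + t • A) * (1 - t • A)⁻¹ - 1) p q‖ < ε := by
    have h1 : ∀ᶠ t in nhds (0 : ℚ_[ℓ]), (1 - t • A).det ≠ 0 := by
      have hc : Continuous fun t : ℚ_[ℓ] => (1 - t • A).det := by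
        have : Continuous fun t : ℚ_[ℓ] => 1 - t • A := by fun_prop
        exact this.matrix_det
      exact hc.continuousAt.eventually_ne (by simp)
    have h2 : ∀ p q, ∀ᶠ t in nhds (0 : ℚ_[ℓ]),
        ‖((1 + t • A) * (1 - t • A)⁻¹ - 1) p q‖ < ε := by
      intro p q
      have h3 := (cayley_cont A p q).norm
      refine h3.eventually_lt_const ?_
      simpa using hε
    have h4 : ∀ᶠ t in nhds (0 : ℚ_[ℓ]), ∀ p q,
        ‖((1 + t • A) * (1 - t • A)⁻¹ - 1) p q‖ < ε :=
      Filter.eventually_all.mpr fun p => Filter.eventually_all.mpr fun q => h2 p q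
    exact h1.and h4
  refine hev.mono fun t ht => ?_
  let C := (1 + t • A) * (1 - t • A)⁻¹
  let g : (a : I) → Matrix (Fin (n a)) (Fin (n a)) ℚ_[ℓ] := Function.update (fun _ => 1) i C
  have hgi : g i = C := Function.update_self _ _ _
  have hgo : ∀ a, a ≠ i → g a = 1 := fun a ha => Function.update_of_ne ha _ _
  have h2 := hf g ?_ ?_
    (fun a => v a + (-t) • (Pi.single i (A *ᵥ v a i) : (a : I) → Fin (n a) → ℚ_[ℓ]))
  · rw [← h2]
    congr 1
    funext a b
    by_cases hb : b = i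
    · subst hb
      rw [hgi]
      simp only [Pi.add_apply, Pi.smul_apply, Pi.single_eq_same]
      have h3 : v a b + (-t) • (A *ᵥ v a b) = (1 - t • A) *ᵥ v a b := by
        rw [Matrix.sub_mulVec, Matrix.one_mulVec, Matrix.smul_mulVec, neg_smul, sub_eq_add_neg]
      have h4 : v a b + t • (A *ᵥ v a b) = (1 + t • A) *ᵥ v a b := by
        rw [Matrix.add_mulVec, Matrix.one_mulVec, Matrix.smul_mulVec]
      rw [h3, h4, Matrix.mulVec_mulVec]
      congr 1
      have hu : IsUnit (1 - t • A).det := isUnit_iff_ne_zero.mpr ht.1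
      show _ = (1 + t • A) * (1 - t • A)⁻¹ * (1 - t • A)
      rw [Matrix.mul_assoc, Matrix.nonsing_inv_mul _ hu, Matrix.mul_one]
    · rw [hgo b hb, Matrix.one_mulVec]
      simp only [Pi.add_apply, Pi.smul_apply, Pi.single_eq_of_ne hb, smul_zero]
  · intro a
    by_cases ha : a = i
    · subst ha
      rw [hgi]
      exact cayley_isom (J a) (t • A) (hAt t) ht.1
    · rw [hgo a ha]; simp
  · intro a p q
    by_cases ha : a = i
    · subst ha
      rw [hgi]
      exact ht.2 p q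
    · rw [hgo a ha]; simpa using hε

/-- the reflection along `u` for the form `J` -/
noncomputable def mrefl {m : ℕ} (J : Matrix (Fin m) (Fin m) ℚ_[ℓ]) (u x : Fin m → ℚ_[ℓ]) :
    Fin m → ℚ_[ℓ] :=
  x - (2 * (x ⬝ᵥ (J *ᵥ u)) / (u ⬝ᵥ (J *ᵥ u))) • u

/-- block T for orthogonal groups: multilinear forms on the direct sum of the spaces that are
invariant under all isometries near `1` are linear combinations of products of the forms `J a`, if
each symmetric `J a` is larger than the number of arguments or `f` is invariant under reflections. -/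
theorem blockT_O [Fintype I] (hJ : ∀ a, (J a).det ≠ 0)
    (hJs : ∀ a, (J a)ᵀ = -J a ∨ ((J a)ᵀ = J a ∧ (k < n a ∨
      ∀ u : Fin (n a) → ℚ_[ℓ], u ⬝ᵥ (J a *ᵥ u) ≠ 0 → ∀ v : Fin k → (a : I) → Fin (n a) → ℚ_[ℓ],
        f (fun i => open Classical in Function.update (v i) a (mrefl (J a) u (v i a))) = f v)))
    (ε : ℝ) (hε : 0 < ε)
    (hf : ∀ g : (a : I) → Matrix (Fin (n a)) (Fin (n a)) ℚ_[ℓ],
      (∀ a, (g a)ᵀ * J a * g a = J a) → (∀ a i j, ‖(g a - 1) i j‖ < ε) →
      ∀ v, f (fun i a => g a *ᵥ v i a) = f v) :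
    (fun v => f v) ∈ Submodule.span ℚ_[ℓ]
      {F : (Fin k → (a : I) → Fin (n a) → ℚ_[ℓ]) → ℚ_[ℓ] |
        ∃ (m : ℕ) (π : Fin m × Fin 2 ≃ Fin k) (c : Fin m → I), ∀ v, F v =
          ∏ i : Fin m, v (π (i, 0)) (c i) ⬝ᵥ (J (c i) *ᵥ v (π (i, 1)) (c i))} := by
  classical
  let W : I → Type := fun a => Fin (n a) → ℚ_[ℓ]
  let ω : ∀ a, LinearMap.BilinForm ℚ_[ℓ] (W a) := fun a => Matrix.toBilin' (J a)
  have hωa : ∀ a (x y : W a), ω a x y = x ⬝ᵥ (J a *ᵥ y) := fun a x y =>
    Matrix.toBilin'_apply' (J a) x y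
  have hω : ∀ a, (ω a).Nondegenerate := fun a =>
    LinearMap.BilinForm.nondegenerate_toBilin'_of_det_ne_zero' (J a) (hJ a)
  let e₀ : I → ℤ := fun a => if (J a)ᵀ = -J a then -1 else 1
  have he₀ : ∀ a, e₀ a = 1 ∨ e₀ a = -1 := by
    intro a
    simp only [e₀]
    split_ifs
    · exact Or.inr rfl
    · exact Or.inl rfl
  have hs : ∀ a (v w : W a), ω a v w = (e₀ a : ℚ_[ℓ]) * ω a w v := by
    intro a v w
    rw [hωa, hωa]
    have h1 : w ⬝ᵥ (J a *ᵥ v) = v ⬝ᵥ ((J a)ᵀ *ᵥ w) := by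
      rw [Matrix.dotProduct_mulVec, ← Matrix.mulVec_transpose, dotProduct_comm]
    rw [h1]
    simp only [e₀]
    split_ifs with h
    · rw [h, Matrix.neg_mulVec, dotProduct_neg]
      push_cast
      ring
    · have h2 := (hJs a).resolve_left h
      rw [h2.1]; simp
  have hsym : ∀ a, e₀ a = 1 → ∀ x y, ω a x y = ω a y x := by
    intro a ha x y
    rw [hs a x y, ha, Int.cast_one, one_mul]
  have horth : ∀ a, e₀ a = 1 → (k < n a ∨
      ∀ u : Fin (n a) → ℚ_[ℓ], u ⬝ᵥ (J a *ᵥ u) ≠ 0 → ∀ v : Fin k → (a : I) → Fin (n a) → ℚ_[ℓ],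
        f (fun i => open Classical in Function.update (v i) a (mrefl (J a) u (v i a))) = f v) := by
    intro a ha
    refine ((hJs a).resolve_left fun h => ?_).2
    simp only [e₀] at ha
    rw [if_pos h] at ha
    exact absurd ha (by norm_num)
  have hP : PML ℚ_[ℓ] (Finset.univ : Finset (Fin k)) (fun v : Fin k → ∀ a, W a => f v) :=
    ⟨fun a _ v x y => f.map_update_add v a x y, fun a _ v c x => f.map_update_smul v a c x,
      fun a ha => absurd (Finset.mem_univ a) ha⟩
  have hI : Inv ω (Finset.univ : Finset (Fin k)) (fun v : Fin k → ∀ a, W a => f v) := by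
    intro i x hx v
    let A : Matrix (Fin (n i)) (Fin (n i)) ℚ_[ℓ] := LinearMap.toMatrix' x
    have hAx : ∀ y, x y = A *ᵥ y := fun y => by
      rw [← Matrix.toLin'_apply, Matrix.toLin'_toMatrix']
    have hA : Aᵀ * J i + J i * A = 0 := by
      have h1 : ∀ p q : Fin (n i) → ℚ_[ℓ], p ⬝ᵥ ((Aᵀ * J i + J i * A) *ᵥ q) = 0 := by
        intro p q
        have h2 := hx p q
        rw [hωa, hωa, hAx, hAx] at h2
        rw [Matrix.add_mulVec, dotProduct_add, ← Matrix.mulVec_mulVec, ← Matrix.mulVec_mulVec]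
        have h3 : (A *ᵥ p) ⬝ᵥ (J i *ᵥ q) = p ⬝ᵥ (Aᵀ *ᵥ (J i *ᵥ q)) := by
          rw [Matrix.dotProduct_mulVec p, ← Matrix.mulVec_transpose, Matrix.transpose_transpose]
        rw [← h3, h2]
        ring
      ext p q
      have := h1 (Pi.single p 1) (Pi.single q 1)
      simpa using this
    let u : Fin k → ∀ a, W a := fun a => Pi.single i (x (v a i))
    have hkey : ∀ᶠ t in nhds (0 : ℚ_[ℓ]),
        ∑ S : Finset (Fin k), (t ^ S.card - (-t) ^ S.card) * f (S.piecewise u v) = 0 := by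
      refine (cayley_near hε hf i A hA v).mono fun t ht => ?_
      have h1 : f (fun a => v a + t • u a) = f (fun a => v a + (-t) • u a) := by
        simp only [u, hAx]
        exact ht
      rw [multi_expand, multi_expand] at h1
      simp only [sub_mul, Finset.sum_sub_distrib]
      rw [h1, sub_self]
    have h := deriv_sum (fun S => f (S.piecewise u v)) hkey
    simp only [Finset.piecewise_singleton] at h
    exact h
  -- orthogonal bases
  have hbas : ∀ a, ∃ b : Module.Basis (Fin (Module.finrank ℚ_[ℓ] (W a))) ℚ_[ℓ] (W a), e₀ a = 1 →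
      (∀ p q, p ≠ q → ω a (b p) (b q) = 0) ∧ ∀ p, ω a (b p) (b p) ≠ 0 := by
    intro a
    by_cases ha : e₀ a = 1
    · have : Invertible (2 : ℚ_[ℓ]) := invertibleOfNonzero two_ne_zero
      obtain ⟨b, hb⟩ := LinearMap.BilinForm.exists_orthogonal_basis (K := ℚ_[ℓ]) (V := W a)
        (B := ω a) ⟨fun x y => hsym a ha x y⟩
      refine ⟨b, fun _ => ⟨fun p q hpq => ?_, fun p => ?_⟩⟩
      · exact hb hpq
      · exact hb.not_isOrtho_basis_self_of_separatingLeft (hω a).1 p
    · exact ⟨Module.finBasis ℚ_[ℓ] (W a), fun h => absurd h ha⟩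
  choose bs hbs using hbas
  have hS := fftO hω e₀ he₀ hs bs hbs k Finset.univ (by simp) _ hP hI (by
    intro a ha
    rcases horth a ha with h | h
    · refine Or.inl ?_
      simp only [W]
      rw [Module.finrank_fin_fun]
      exact h
    · refine Or.inr fun u hu v => ?_
      rw [hωa] at hu
      have h1 := h u hu v
      change f (fun a_1 => Rf ω a u (v a_1)) = f v
      rw [← h1]
      congr 1
      funext i
      unfold Rf rf mrefl
      rw [hωa, hωa])
  unfold S at hS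
  refine Submodule.span_mono ?_ hS
  intro F hF
  obtain ⟨m, q, c, hinj, hmem, hv⟩ := Pairing.explicit hF
  refine ⟨m, Equiv.ofBijective q ⟨hinj, fun a => (hmem a).mp (Finset.mem_univ a)⟩, c, fun v => ?_⟩
  rw [hv v]
  exact Finset.prod_congr rfl fun t _ => hωa _ _ _

end

end Pool.Agent.LM
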