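import Pool.Agent.Lib_helper98.LM.O3
import Pool.Agent.Lib_helper98.LM.G3

set_option autoImplicit false

/-!
# Invariants of orthogonal groups: one improper element gives all reflections
-/

namespace Pool.Agent.LM

open Matrix T Polynomial

section

variable {ℓ : ℕ} [Fact ℓ.Prime] {I : Type} [DecidableEq I] {n : I → ℕ}
    {J : (a : I) → Matrix (Fin (n a)) (Fin (n a)) ℚ_[ℓ]} {k : ℕ}
    {f : MultilinearMap ℚ_[ℓ] (fun _ : Fin k => (a : I) → Fin (n a) → ℚ_[ℓ]) ℚ_[ℓ]}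

/-- the action of a matrix in one component -/
noncomputable def cact (i : I) (g : Matrix (Fin (n i)) (Fin (n i)) ℚ_[ℓ])
    (v : Fin k → (a : I) → Fin (n a) → ℚ_[ℓ]) : Fin k → (a : I) → Fin (n a) → ℚ_[ℓ] :=
  fun j => Function.update (v j) i (g *ᵥ v j i)

/-- `f` is invariant under all isometries near `1` -/
def Near (J : (a : I) → Matrix (Fin (n a)) (Fin (n a)) ℚ_[ℓ])
    (f : MultilinearMap ℚ_[ℓ] (fun _ : Fin k => (a : I) → Fin (n a) → ℚ_[ℓ]) ℚ_[ℓ]) : Prop :=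
  ∃ ε : ℝ, 0 < ε ∧ ∀ g : (a : I) → Matrix (Fin (n a)) (Fin (n a)) ℚ_[ℓ],
      (∀ a, (g a)ᵀ * J a * g a = J a) → (∀ a i j, ‖(g a - 1) i j‖ < ε) →
      ∀ v, f (fun i a => g a *ᵥ v i a) = f v

theorem cayley_one (hf : Near J f) (i : I) (A : Matrix (Fin (n i)) (Fin (n i)) ℚ_[ℓ])
    (hA : Aᵀ * J i + J i * A = 0) (v : Fin k → (a : I) → Fin (n a) → ℚ_[ℓ]) :
    f (fun a => v a + (Pi.single i (A *ᵥ v a i) : (a : I) → Fin (n a) → ℚ_[ℓ])) =
      f (fun a => v a - (Pi.single i (A *ᵥ v a i) : (a : I) → Fin (n a) → ℚ_[ℓ])) := by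
  obtain ⟨ε, hε, hf⟩ := hf
  let u : Fin k → (a : I) → Fin (n a) → ℚ_[ℓ] := fun a => Pi.single i (A *ᵥ v a i)
  let p : ℚ_[ℓ][X] := ∑ S : Finset (Fin k),
    (X ^ S.card - (-X) ^ S.card) * Polynomial.C (f (S.piecewise u v))
  have hp : ∀ t, p.eval t = f (fun a => v a + t • u a) - f (fun a => v a + (-t) • u a) := by
    intro t
    rw [multi_expand, multi_expand, ← Finset.sum_sub_distrib]
    simp only [p, Polynomial.eval_finsetSum, Polynomial.eval_mul, Polynomial.eval_sub,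
      Polynomial.eval_pow, Polynomial.eval_X, Polynomial.eval_neg, Polynomial.eval_C, sub_mul]
  have hev := cayley_near hε hf i A hA v
  have hinf : {t : ℚ_[ℓ] | p.IsRoot t}.Infinite := by
    refine infinite_of_mem_nhds (0 : ℚ_[ℓ]) ?_
    filter_upwards [hev] with t ht
    change p.eval t = 0
    rw [hp, sub_eq_zero]
    exact ht
  have hp0 : p = 0 := Polynomial.eq_zero_of_infinite_isRoot p hinf
  have h1 := hp 1
  rw [hp0, Polynomial.eval_zero] at h1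
  have h2 := (sub_eq_zero.1 h1.symm)
  simp only [one_smul, neg_smul, ← sub_eq_add_neg] at h2
  exact h2

theorem cayley_all (hf : Near J f) (i : I) (A : Matrix (Fin (n i)) (Fin (n i)) ℚ_[ℓ])
    (hA : Aᵀ * J i + J i * A = 0) (hd : (1 - A).det ≠ 0)
    (v : Fin k → (a : I) → Fin (n a) → ℚ_[ℓ]) :
    f (cact i ((1 + A) * (1 - A)⁻¹) v) = f v := by
  have hu : IsUnit (1 - A).det := isUnit_iff_ne_zero.mpr hd
  obtain ⟨w, hw⟩ : ∃ w : Fin k → (a : I) → Fin (n a) → ℚ_[ℓ], w = cact i (1 - A)⁻¹ v := ⟨_, rfl⟩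
  have hwi : ∀ a, w a i = (1 - A)⁻¹ *ᵥ v a i := fun a => by
    rw [hw]
    exact Function.update_self _ _ _
  have hwj : ∀ a j, j ≠ i → w a j = v a j := fun a j hj => by
    rw [hw]
    exact Function.update_of_ne hj _ _
  have h1 := cayley_one hf i A hA w
  have h2 : (fun a => w a + (Pi.single i (A *ᵥ w a i) : (a : I) → Fin (n a) → ℚ_[ℓ])) =
      cact i ((1 + A) * (1 - A)⁻¹) v := by
    funext a j
    by_cases hj : j = i
    · subst hj
      rw [Pi.add_apply, Pi.single_eq_same, cact, Function.update_self, hwi, ← Matrix.mulVec_mulVec,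
        Matrix.add_mulVec, Matrix.one_mulVec]
    · rw [Pi.add_apply, Pi.single_eq_of_ne hj, cact, Function.update_of_ne hj, hwj _ _ hj, add_zero]
  have h3 : (fun a => w a - (Pi.single i (A *ᵥ w a i) : (a : I) → Fin (n a) → ℚ_[ℓ])) = v := by
    funext a j
    by_cases hj : j = i
    · subst hj
      rw [Pi.sub_apply, Pi.single_eq_same, hwi]
      have h4 : (1 - A) *ᵥ ((1 - A)⁻¹ *ᵥ v a j) = v a j := by
        rw [Matrix.mulVec_mulVec, Matrix.mul_nonsing_inv _ hu, Matrix.one_mulVec]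
      rw [Matrix.sub_mulVec, Matrix.one_mulVec] at h4
      exact h4
    · rw [Pi.sub_apply, Pi.single_eq_of_ne hj, hwj _ _ hj, sub_zero]
  rw [h2, h3] at h1
  exact h1

/-- invariance under the isometries without the eigenvalue `-1` -/
theorem iso_inv (hf : Near J f) (i : I) (g : Matrix (Fin (n i)) (Fin (n i)) ℚ_[ℓ])
    (hg : gᵀ * J i * g = J i) (hd : (1 + g).det ≠ 0)
    (v : Fin k → (a : I) → Fin (n a) → ℚ_[ℓ]) : f (cact i g v) = f v := by
  have hu : IsUnit (1 + g).det := isUnit_iff_ne_zero.mpr hd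
  obtain ⟨B, hB⟩ : ∃ B, B = (1 + g)⁻¹ := ⟨_, rfl⟩
  have hgB : (1 + g) * B = 1 := by rw [hB]; exact Matrix.mul_nonsing_inv _ hu
  have hBg : B * (1 + g) = 1 := by rw [hB]; exact Matrix.nonsing_inv_mul _ hu
  obtain ⟨A, hA⟩ : ∃ A, A = (g - 1) * B := ⟨_, rfl⟩
  have h1A : 1 - A = (2 : ℚ_[ℓ]) • B := by
    calc 1 - A = (1 + g) * B - (g - 1) * B := by rw [hgB, hA]
      _ = B + B := by noncomm_ring
      _ = (2 : ℚ_[ℓ]) • B := (two_smul _ _).symm
  have h1A' : 1 + A = (2 : ℚ_[ℓ]) • (g * B) := by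
    calc 1 + A = (1 + g) * B + (g - 1) * B := by rw [hgB, hA]
      _ = g * B + g * B := by noncomm_ring
      _ = (2 : ℚ_[ℓ]) • (g * B) := (two_smul _ _).symm
  have hinv : (1 - A)⁻¹ = (2 : ℚ_[ℓ])⁻¹ • (1 + g) := by
    refine Matrix.inv_eq_right_inv ?_
    rw [h1A, Matrix.smul_mul, Matrix.mul_smul, hBg, smul_smul, mul_inv_cancel₀ two_ne_zero, one_smul]
  have hgA : (1 + A) * (1 - A)⁻¹ = g := by
    rw [h1A', hinv, Matrix.smul_mul, Matrix.mul_smul, smul_smul, mul_inv_cancel₀ two_ne_zero, one_smul,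
      mul_assoc, hBg, mul_one]
  have hLie : Aᵀ * J i + J i * A = 0 := by
    have h1 : (g - 1)ᵀ * J i * (1 + g) + (1 + g)ᵀ * J i * (g - 1) = 0 := by
      rw [Matrix.transpose_sub, Matrix.transpose_add, Matrix.transpose_one]
      have h2 : (gᵀ - 1) * J i * (1 + g) + (1 + gᵀ) * J i * (g - 1) =
          (gᵀ * J i * g - J i) + (gᵀ * J i * g - J i) := by noncomm_ring
      rw [h2, hg, sub_self, add_zero]
    have h2 : Aᵀ * J i + J i * A = Bᵀ * ((g - 1)ᵀ * J i * (1 + g) + (1 + g)ᵀ * J i * (g - 1)) * B := by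
      have h3 : Bᵀ * (1 + g)ᵀ = 1 := by
        rw [← Matrix.transpose_mul, hgB, Matrix.transpose_one]
      calc Aᵀ * J i + J i * A = Bᵀ * (g - 1)ᵀ * J i * ((1 + g) * B) +
            (Bᵀ * (1 + g)ᵀ) * J i * ((g - 1) * B) := by
            rw [hgB, h3, hA, Matrix.transpose_mul, mul_one, one_mul]
        _ = _ := by noncomm_ring
    rw [h2, h1, mul_zero, zero_mul]
  have hdA : (1 - A).det ≠ 0 := by
    have h1 : (1 - A) * ((2 : ℚ_[ℓ])⁻¹ • (1 + g)) = 1 := by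
      rw [h1A, Matrix.smul_mul, Matrix.mul_smul, hBg, smul_smul, mul_inv_cancel₀ two_ne_zero,
        one_smul]
    intro h0
    have h2 := congrArg Matrix.det h1
    rw [Matrix.det_mul, h0, zero_mul, Matrix.det_one] at h2
    exact zero_ne_one h2
  have h1 := cayley_all hf i A hLie hdA v
  rw [hgA] at h1
  exact h1

/-! ### reflections -/

variable {m : ℕ}

theorem mrefl_eq (J : Matrix (Fin m) (Fin m) ℚ_[ℓ]) (u x : Fin m → ℚ_[ℓ]) :
    mrefl J u x = rf (Matrix.toBilin' J) u x := by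
  unfold mrefl rf
  rw [Matrix.toBilin'_apply', Matrix.toBilin'_apply']

/-- the matrix of the reflection along `u` -/
noncomputable def Rm (J : Matrix (Fin m) (Fin m) ℚ_[ℓ]) (u : Fin m → ℚ_[ℓ]) :
    Matrix (Fin m) (Fin m) ℚ_[ℓ] :=
  1 - (2 / (u ⬝ᵥ (J *ᵥ u))) • Matrix.vecMulVec u (J *ᵥ u)

theorem Rm_mulVec (J : Matrix (Fin m) (Fin m) ℚ_[ℓ]) (u x : Fin m → ℚ_[ℓ]) :
    Rm J u *ᵥ x = mrefl J u x := by
  rw [Rm, Matrix.sub_mulVec, Matrix.one_mulVec, Matrix.smul_mulVec, Matrix.vecMulVec_mulVec, mrefl]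
  congr 1
  ext i
  simp only [Pi.smul_apply, smul_eq_mul, MulOpposite.smul_eq_mul_unop, MulOpposite.unop_op]
  rw [dotProduct_comm (J *ᵥ u) x]
  ring

theorem eq_of_form {A B : Matrix (Fin m) (Fin m) ℚ_[ℓ]}
    (h : ∀ x y : Fin m → ℚ_[ℓ], x ⬝ᵥ (A *ᵥ y) = x ⬝ᵥ (B *ᵥ y)) : A = B := by
  ext i j
  have := h (Pi.single i 1) (Pi.single j 1)
  simpa using this

theorem form_move (J g : Matrix (Fin m) (Fin m) ℚ_[ℓ]) (x y : Fin m → ℚ_[ℓ]) :
    x ⬝ᵥ ((gᵀ * J * g) *ᵥ y) = (g *ᵥ x) ⬝ᵥ (J *ᵥ (g *ᵥ y)) := by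
  rw [← Matrix.mulVec_mulVec, ← Matrix.mulVec_mulVec, Matrix.dotProduct_mulVec,
    ← Matrix.mulVec_transpose, Matrix.transpose_transpose]

theorem sym_form {J : Matrix (Fin m) (Fin m) ℚ_[ℓ]} (hJs : Jᵀ = J) (x y : Fin m → ℚ_[ℓ]) :
    Matrix.toBilin' J x y = Matrix.toBilin' J y x := by
  rw [Matrix.toBilin'_apply', Matrix.toBilin'_apply']
  have h1 : y ⬝ᵥ (J *ᵥ x) = x ⬝ᵥ (Jᵀ *ᵥ y) := by
    rw [Matrix.dotProduct_mulVec, ← Matrix.mulVec_transpose, dotProduct_comm]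
  rw [h1, hJs]

theorem Rm_iso {J : Matrix (Fin m) (Fin m) ℚ_[ℓ]} (hJs : Jᵀ = J) {u : Fin m → ℚ_[ℓ]}
    (hu : u ⬝ᵥ (J *ᵥ u) ≠ 0) : (Rm J u)ᵀ * J * Rm J u = J := by
  refine eq_of_form fun x y => ?_
  rw [form_move, Rm_mulVec, Rm_mulVec, mrefl_eq, mrefl_eq, ← Matrix.toBilin'_apply',
    rf_move _ (sym_form hJs), rf_rf, Matrix.toBilin'_apply']
  rw [Matrix.toBilin'_apply']
  exact hu

theorem Rm_Rm_det {J : Matrix (Fin m) (Fin m) ℚ_[ℓ]} (hJs : Jᵀ = J) {u w : Fin m → ℚ_[ℓ]}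
    (hu : u ⬝ᵥ (J *ᵥ u) ≠ 0) (hw : w ⬝ᵥ (J *ᵥ w) ≠ 0) (huw : u ⬝ᵥ (J *ᵥ w) ≠ 0) :
    (1 + Rm J w * Rm J u).det ≠ 0 := by
  intro hdet
  obtain ⟨x, hx0, hx⟩ := Matrix.exists_mulVec_eq_zero_iff.2 hdet
  apply hx0
  rw [Matrix.add_mulVec, Matrix.one_mulVec, ← Matrix.mulVec_mulVec, Rm_mulVec, Rm_mulVec] at hx
  have hB : ∀ x y, x ⬝ᵥ (J *ᵥ y) = Matrix.toBilin' J x y := fun x y =>
    (Matrix.toBilin'_apply' J x y).symm
  rw [hB] at hu hw huw
  obtain ⟨ω, hω⟩ : ∃ ω, ω = Matrix.toBilin' J := ⟨_, rfl⟩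
  have hs : ∀ x y, ω x y = ω y x := by rw [hω]; exact sym_form hJs
  rw [mrefl_eq, mrefl_eq, ← hω] at hx
  rw [← hω] at hu hw huw
  -- `r_u x = - r_w x`
  have h1 : rf ω u x = - rf ω w x := by
    have h2 := congrArg (rf ω w) hx
    rw [rf_zero, rf_add, rf_rf ω hw] at h2
    exact (neg_eq_of_add_eq_zero_right h2).symm
  unfold rf at h1
  obtain ⟨α, hα⟩ : ∃ α, α = 2 * ω x u / ω u u := ⟨_, rfl⟩
  obtain ⟨β, hβ⟩ : ∃ β, β = 2 * ω x w / ω w w := ⟨_, rfl⟩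
  rw [← hα, ← hβ] at h1
  have h2 : (2 : ℚ_[ℓ]) • x = α • u + β • w := by
    rw [two_smul]
    have h3 : x - α • u = -x + β • w := by rw [h1]; abel
    calc x + x = (x - α • u) + x + α • u := by abel
      _ = α • u + β • w := by rw [h3]; abel
  have hα' : α * ω u u = 2 * ω x u := by rw [hα]; field_simp
  have hβ' : β * ω w w = 2 * ω x w := by rw [hβ]; field_simp
  have h3 := congrArg (fun y => ω y u) h2
  simp only [map_smul, map_add, LinearMap.smul_apply, LinearMap.add_apply, smul_eq_mul] at h3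
  have h4 := congrArg (fun y => ω y w) h2
  simp only [map_smul, map_add, LinearMap.smul_apply, LinearMap.add_apply, smul_eq_mul] at h4
  have hβ0 : β = 0 := by
    have : β * ω u w = 0 := by rw [hs u w]; linear_combination -h3 - hα'
    exact (mul_eq_zero.1 this).resolve_right huw
  have hα0 : α = 0 := by
    have : α * ω u w = 0 := by linear_combination -h4 - hβ'
    exact (mul_eq_zero.1 this).resolve_right huw
  rw [hα0, hβ0, zero_smul, zero_smul, add_zero] at h2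
  exact (smul_eq_zero.1 h2).resolve_left two_ne_zero

/-- `f` is invariant under the reflection along `u` in the component `i` -/
def HasR (J : (a : I) → Matrix (Fin (n a)) (Fin (n a)) ℚ_[ℓ])
    (f : MultilinearMap ℚ_[ℓ] (fun _ : Fin k => (a : I) → Fin (n a) → ℚ_[ℓ]) ℚ_[ℓ]) (i : I)
    (u : Fin (n i) → ℚ_[ℓ]) : Prop :=
  ∀ v : Fin k → (a : I) → Fin (n a) → ℚ_[ℓ], f (cact i (Rm (J i) u) v) = f v

theorem HasR.step (hf : Near J f) {i : I} (hJs : (J i)ᵀ = J i) {u w : Fin (n i) → ℚ_[ℓ]}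
    (hu : u ⬝ᵥ (J i *ᵥ u) ≠ 0) (hw : w ⬝ᵥ (J i *ᵥ w) ≠ 0) (huw : u ⬝ᵥ (J i *ᵥ w) ≠ 0)
    (h : HasR J f i u) : HasR J f i w := by
  intro v
  have h1 : cact i (Rm (J i) w) v = cact i (Rm (J i) w * Rm (J i) u) (cact i (Rm (J i) u) v) := by
    funext j
    unfold cact
    rw [Function.update_self, Function.update_idem, Matrix.mulVec_mulVec, mul_assoc]
    congr 1
    have h2 : Rm (J i) u *ᵥ (Rm (J i) u *ᵥ v j i) = v j i := by
      rw [Rm_mulVec, Rm_mulVec, mrefl_eq, mrefl_eq, rf_rf]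
      rw [Matrix.toBilin'_apply']
      exact hu
    rw [← Matrix.mulVec_mulVec, ← Matrix.mulVec_mulVec, h2]
  rw [h1, iso_inv hf i _ ?_ (Rm_Rm_det hJs hu hw huw), h v]
  rw [Matrix.transpose_mul]
  calc (Rm (J i) u)ᵀ * (Rm (J i) w)ᵀ * J i * (Rm (J i) w * Rm (J i) u)
      = (Rm (J i) u)ᵀ * ((Rm (J i) w)ᵀ * J i * Rm (J i) w) * Rm (J i) u := by
        simp only [mul_assoc]
    _ = J i := by rw [Rm_iso hJs hw, Rm_iso hJs hu]

theorem HasR.all (hf : Near J f) {i : I} (hJs : (J i)ᵀ = J i) {u : Fin (n i) → ℚ_[ℓ]}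
    (hu : u ⬝ᵥ (J i *ᵥ u) ≠ 0) (h : HasR J f i u) (w : Fin (n i) → ℚ_[ℓ])
    (hw : w ⬝ᵥ (J i *ᵥ w) ≠ 0) : HasR J f i w := by
  by_cases huw : u ⬝ᵥ (J i *ᵥ w) = 0
  · -- an intermediate vector
    have hwu : w ⬝ᵥ (J i *ᵥ u) = 0 := by
      have := sym_form hJs w u
      rw [Matrix.toBilin'_apply', Matrix.toBilin'_apply'] at this
      rw [this, huw]
    have hq : ∀ c : ℚ_[ℓ], (u + c • w) ⬝ᵥ (J i *ᵥ (u + c • w)) =
        u ⬝ᵥ (J i *ᵥ u) + c * c * (w ⬝ᵥ (J i *ᵥ w)) := by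
      intro c
      rw [Matrix.mulVec_add, Matrix.mulVec_smul, add_dotProduct, dotProduct_add, dotProduct_add,
        smul_dotProduct, smul_dotProduct, dotProduct_smul, dotProduct_smul, huw, hwu]
      simp only [smul_eq_mul]
      ring
    obtain ⟨c, hc0, hc⟩ : ∃ c : ℚ_[ℓ], c ≠ 0 ∧
        u ⬝ᵥ (J i *ᵥ u) + c * c * (w ⬝ᵥ (J i *ᵥ w)) ≠ 0 := by
      by_contra hcon
      push Not at hcon
      have h1 := hcon 1 one_ne_zero
      have h2 := hcon 2 two_ne_zero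
      have h3 : (3 : ℚ_[ℓ]) * (w ⬝ᵥ (J i *ᵥ w)) = 0 := by linear_combination h2 - h1
      exact hw ((mul_eq_zero.1 h3).resolve_left (by norm_num))
    obtain ⟨z, hz⟩ : ∃ z, z = u + c • w := ⟨_, rfl⟩
    have hzz : z ⬝ᵥ (J i *ᵥ z) ≠ 0 := by rw [hz, hq]; exact hc
    have huz : u ⬝ᵥ (J i *ᵥ z) ≠ 0 := by
      rw [hz, Matrix.mulVec_add, Matrix.mulVec_smul, dotProduct_add, dotProduct_smul, huw, smul_zero,
        add_zero]
      exact hu
    have hzw : z ⬝ᵥ (J i *ᵥ w) ≠ 0 := by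
      rw [hz, add_dotProduct, smul_dotProduct, huw, zero_add, smul_eq_mul]
      exact mul_ne_zero hc0 hw
    exact HasR.step hf hJs hzz hw hzw (HasR.step hf hJs hu hzz huz h)
  · exact HasR.step hf hJs hu hw huw h

/-- an isometry `g` of a symmetric form with `g - 1` of rank one is a reflection -/
theorem refl_of_rank {J g : Matrix (Fin m) (Fin m) ℚ_[ℓ]} (hJ : J.det ≠ 0) (hJs : Jᵀ = J)
    (hg : gᵀ * J * g = J) (hr : (g - 1).rank = 1) :
    ∃ u : Fin m → ℚ_[ℓ], u ⬝ᵥ (J *ᵥ u) ≠ 0 ∧ g = Rm J u := by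
  rw [Matrix.rank, finrank_eq_one_iff'] at hr
  obtain ⟨⟨v, ⟨y₀, hy₀⟩⟩, hv0, hv⟩ := hr
  have hv0' : v ≠ 0 := fun h => hv0 (Subtype.ext h)
  have hex : ∀ y, ∃ c : ℚ_[ℓ], g *ᵥ y = y + c • v := by
    intro y
    obtain ⟨c, hc⟩ := hv ⟨(g - 1).mulVecLin y, ⟨y, rfl⟩⟩
    refine ⟨c, ?_⟩
    have h1 : c • v = (g - 1) *ᵥ y := congrArg Subtype.val hc
    rw [h1, Matrix.sub_mulVec, Matrix.one_mulVec]
    abel
  choose φ hφ using hex
  have hφ0 : φ y₀ = 1 := by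
    have h1 : v = (g - 1) *ᵥ y₀ := hy₀.symm
    rw [Matrix.sub_mulVec, Matrix.one_mulVec, hφ] at h1
    have h3 : (φ y₀ - 1) • v = 0 := by
      rw [sub_smul, one_smul]
      nth_rewrite 2 [h1]
      abel
    exact sub_eq_zero.1 ((smul_eq_zero.1 h3).resolve_right hv0')
  obtain ⟨ω, hω⟩ : ∃ ω, ω = Matrix.toBilin' J := ⟨_, rfl⟩
  have hB : ∀ x y, x ⬝ᵥ (J *ᵥ y) = ω x y := fun x y => by
    rw [hω, Matrix.toBilin'_apply']
  have hs : ∀ x y, ω x y = ω y x := by rw [hω]; exact sym_form hJs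
  have hiso : ∀ x y, φ y * ω x v + φ x * ω v y + φ x * φ y * ω v v = 0 := by
    intro x y
    have h1 := form_move J g x y
    rw [hg, hφ, hφ, hB, hB] at h1
    simp only [map_add, map_smul, LinearMap.add_apply, LinearMap.smul_apply, smul_eq_mul] at h1
    linear_combination -h1
  have h0 := hiso y₀ y₀
  rw [hφ0, hs v y₀] at h0
  have hx : ∀ x, ω x v = φ x * (-(ω v v) / 2) := by
    intro x
    have h1 := hiso x y₀
    rw [hφ0, hs v y₀] at h1
    linear_combination h1 - φ x * h0 / 2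
  have hvv : ω v v ≠ 0 := by
    intro h
    apply hv0'
    have hnd := LinearMap.BilinForm.nondegenerate_toBilin'_of_det_ne_zero' J hJ
    refine hnd.2 v fun x => ?_
    rw [← hω, hx x, h, neg_zero, zero_div, mul_zero]
  refine ⟨v, by rw [hB]; exact hvv, ?_⟩
  refine Matrix.ext_of_mulVec_single fun j => ?_
  rw [Rm_mulVec, hφ, mrefl_eq, ← hω]
  unfold rf
  rw [hx]
  have h1 : 2 * (φ (Pi.single j 1) * (-(ω v v) / 2)) / ω v v = - φ (Pi.single j 1) := by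
    field_simp
  rw [h1, neg_smul, sub_neg_eq_add]

end

end Pool.Agent.LM
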