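import Mathlib

set_option autoImplicit false

/-!
# Normalizers of the principal `sl 2`: eigenvalues in geometric progression
-/

namespace Pool.Agent.LM

open Matrix Polynomial

section

variable {k : Type*} [Field k] {n : ℕ}

/-- a matrix with nonzero subdiagonal and zeros below it has a large power different from `0` -/
theorem hess_pow (M : Matrix (Fin n) (Fin n) k) (hn : 0 < n)
    (h0 : ∀ i j : Fin n, j.val + 1 < i.val → M i j = 0)
    (h1 : ∀ i j : Fin n, i.val = j.val + 1 → M i j ≠ 0) (m : ℕ) :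
    (∀ i : Fin n, m < i.val → (M ^ m) i ⟨0, hn⟩ = 0) ∧
      ∀ i : Fin n, i.val = m → (M ^ m) i ⟨0, hn⟩ ≠ 0 := by
  induction m with
  | zero =>
    refine ⟨fun i hi => ?_, fun i hi => ?_⟩
    · rw [pow_zero, Matrix.one_apply_ne]
      intro h
      rw [h] at hi
      exact lt_irrefl _ hi
    · have : i = ⟨0, hn⟩ := Fin.ext hi
      rw [pow_zero, this, Matrix.one_apply_eq]
      exact one_ne_zero
  | succ m ih =>
    refine ⟨fun i hi => ?_, fun i hi => ?_⟩
    · rw [pow_succ', Matrix.mul_apply]
      refine Finset.sum_eq_zero fun j _ => ?_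
      rcases le_or_gt j.val m with h | h
      · rw [h0 i j (by omega), zero_mul]
      · rw [ih.1 j h, mul_zero]
    · rw [pow_succ', Matrix.mul_apply]
      have hm : m < n := by have := i.isLt; omega
      rw [Finset.sum_eq_single (⟨m, hm⟩ : Fin n)]
      · exact mul_ne_zero (h1 i ⟨m, hm⟩ (by simpa using hi)) (ih.2 ⟨m, hm⟩ rfl)
      · intro j _ hj
        have hj' : j.val ≠ m := fun h => hj (Fin.ext h)
        rcases lt_or_gt_of_ne hj' with h | h
        · rw [h0 i j (by omega), zero_mul]
        · rw [ih.1 j h, mul_zero]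
      · intro h
        exact absurd (Finset.mem_univ _) h

theorem hess_ne (M : Matrix (Fin n) (Fin n) k) (hn : 0 < n)
    (h0 : ∀ i j : Fin n, j.val + 1 < i.val → M i j = 0)
    (h1 : ∀ i j : Fin n, i.val = j.val + 1 → M i j ≠ 0) : M ^ (n - 1) ≠ 0 := by
  intro h
  have h2 := (hess_pow M hn h0 h1 (n - 1)).2 ⟨n - 1, by omega⟩ rfl
  rw [h] at h2
  exact h2 rfl

/-- `g x = μ x g` with `x` nilpotent with one Jordan block: the eigenvalues of `g` are in geometric
progression -/
theorem charpoly_gp (g x : Matrix (Fin n) (Fin n) k) (hn : 0 < n) (hx : IsNilpotent x)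
    (hx' : x ^ (n - 1) ≠ 0) (μ : k) (h : g * x = μ • (x * g)) :
    ∃ c : k, g.charpoly = ∏ i ∈ Finset.range n, (X - C (c * μ ^ i)) := by
  -- a cyclic vector
  obtain ⟨v, hv⟩ : ∃ v : Fin n → k, (x ^ (n - 1)) *ᵥ v ≠ 0 := by
    by_contra hcon
    push Not at hcon
    apply hx'
    ext i j
    have h1 := congrFun (hcon (Pi.single j 1)) i
    rw [Matrix.mulVec_single_one] at h1
    exact h1
  have hxn : x ^ n = 0 := by
    have h1 := Matrix.isNilpotent_charpoly_sub_pow_of_isNilpotent hx
    have h2 : x.charpoly = X ^ n := by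
      have h3 := (IsReduced.eq_zero _ h1)
      rw [sub_eq_zero, Fintype.card_fin] at h3
      exact h3
    have h3 := Matrix.aeval_self_charpoly x
    rwa [h2, map_pow, aeval_X] at h3
  -- the basis `x ^ i v`
  have hli : LinearIndependent k (fun i : Fin n => (x ^ (i : ℕ)) *ᵥ v) := by
    rw [Fintype.linearIndependent_iff]
    intro c hc
    have key : ∀ l : ℕ, ∀ i : Fin n, (i : ℕ) = l → c i = 0 := by
      intro l
      induction l using Nat.strong_induction_on with
      | _ l ih =>
        intro i hil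
        have h1 := congrArg (fun z => (x ^ (n - 1 - i)) *ᵥ z) hc
        simp only [Matrix.mulVec_zero] at h1
        rw [Matrix.mulVec_sum, Finset.sum_eq_single i] at h1
        · rw [Matrix.mulVec_smul, Matrix.mulVec_mulVec, ← pow_add] at h1
          have h2 : n - 1 - (i : ℕ) + i = n - 1 := by have := i.isLt; omega
          rw [h2] at h1
          exact (smul_eq_zero.1 h1).resolve_right hv
        · intro j _ hji
          rw [Matrix.mulVec_smul, Matrix.mulVec_mulVec, ← pow_add]
          rcases lt_or_gt_of_ne (fun h3 => hji (Fin.ext h3) : (j : ℕ) ≠ i) with h3 | h3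
          · rw [ih j (by omega) j rfl, zero_smul]
          · have h4 : n - 1 - (i : ℕ) + j = (n - 1 - i + j - n) + n := by
              have := i.isLt; omega
            rw [h4, pow_add, hxn, mul_zero, Matrix.zero_mulVec, smul_zero]
        · intro h3
          exact absurd (Finset.mem_univ i) h3
    exact fun i => key i i rfl
  set U : Matrix (Fin n) (Fin n) k := Matrix.of fun i j => ((x ^ (j : ℕ)) *ᵥ v) i with hU
  have hcol : ∀ j, U.col j = (x ^ (j : ℕ)) *ᵥ v := fun j => rfl
  have hUu : IsUnit U := by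
    rw [← Matrix.linearIndependent_cols_iff_isUnit]
    exact hli
  have hUd : IsUnit U.det := (Matrix.isUnit_iff_isUnit_det _).1 hUu
  have hUi : U * U⁻¹ = 1 := Matrix.mul_nonsing_inv U hUd
  have hUi' : U⁻¹ * U = 1 := Matrix.nonsing_inv_mul U hUd
  -- the coordinates of `g v`
  set c : Fin n → k := U⁻¹ *ᵥ (g *ᵥ v) with hc
  have hgv : g *ᵥ v = ∑ i, c i • ((x ^ (i : ℕ)) *ᵥ v) := by
    have h1 : U *ᵥ c = g *ᵥ v := by rw [hc, Matrix.mulVec_mulVec, hUi, Matrix.one_mulVec]
    rw [← h1]
    funext i
    rw [Matrix.mulVec, dotProduct, Finset.sum_apply]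
    exact Finset.sum_congr rfl fun j _ => by rw [Pi.smul_apply, smul_eq_mul, mul_comm]; rfl
  have hgx : ∀ j : ℕ, g * x ^ j = μ ^ j • (x ^ j * g) := by
    intro j
    induction j with
    | zero => simp
    | succ j ih =>
      rw [pow_succ, ← mul_assoc, ih, smul_mul_assoc, mul_assoc, h, mul_smul_comm, smul_smul,
        ← mul_assoc, ← pow_succ, ← pow_succ]
  set T : Matrix (Fin n) (Fin n) k := U⁻¹ * g * U with hT
  have hTe : ∀ i j : Fin n, T i j = if h : (j : ℕ) ≤ i then
      μ ^ (j : ℕ) * c ⟨i - j, by omega⟩ else 0 := by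
    intro i j
    have h1 : g *ᵥ U.col j = U *ᵥ (fun i : Fin n => if h : (j : ℕ) ≤ i then
      μ ^ (j : ℕ) * c ⟨i - j, by omega⟩ else 0) := by
      rw [hcol, Matrix.mulVec_mulVec, hgx, Matrix.smul_mulVec, ← Matrix.mulVec_mulVec, hgv,
        Matrix.mulVec_sum]
      have h2 : ∀ w : Fin n → k, U *ᵥ w = ∑ i, w i • ((x ^ (i : ℕ)) *ᵥ v) := by
        intro w
        funext i
        rw [Matrix.mulVec, dotProduct, Finset.sum_apply]
        exact Finset.sum_congr rfl fun j _ => by rw [Pi.smul_apply, smul_eq_mul, mul_comm]; rfl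
      rw [h2, Finset.smul_sum]
      have h3 : ∀ a : Fin n, μ ^ (j : ℕ) • (x ^ (j : ℕ)) *ᵥ (c a • ((x ^ (a : ℕ)) *ᵥ v)) =
          (μ ^ (j : ℕ) * c a) • ((x ^ ((j : ℕ) + a)) *ᵥ v) := by
        intro a
        rw [Matrix.mulVec_smul, Matrix.mulVec_mulVec, ← pow_add, smul_smul]
      rw [Finset.sum_congr rfl fun a _ => h3 a]
      -- reindex
      have hz : ∀ a : ℕ, n ≤ a → (x ^ a) *ᵥ v = 0 := by
        intro a ha
        rw [pow_eq_zero_of_le ha hxn, Matrix.zero_mulVec]
      symm
      rw [← Finset.sum_subset (Finset.subset_univ (Finset.univ.filter fun i : Fin n => (j : ℕ) ≤ i))]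
      swap
      · intro i _ hi
        rw [Finset.mem_filter, not_and] at hi
        rw [dif_neg (hi (Finset.mem_univ i)), zero_smul]
      symm
      rw [← Finset.sum_subset (Finset.subset_univ
        (Finset.univ.filter fun a : Fin n => (j : ℕ) + a < n))]
      swap
      · intro a _ ha
        rw [Finset.mem_filter, not_and] at ha
        have h4 := ha (Finset.mem_univ a)
        rw [hz _ (by omega), smul_zero]
      refine Finset.sum_bij' (fun a ha => ⟨(j : ℕ) + a, (Finset.mem_filter.1 ha).2⟩)
        (fun i hi => ⟨(i : ℕ) - j, by omega⟩) ?_ ?_ ?_ ?_ ?_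
      · intro a ha
        rw [Finset.mem_filter]
        exact ⟨Finset.mem_univ _, Nat.le_add_right _ _⟩
      · intro i hi
        rw [Finset.mem_filter] at hi ⊢
        refine ⟨Finset.mem_univ _, ?_⟩
        have := i.isLt
        simp only
        omega
      · intro a ha
        apply Fin.ext
        simp
      · intro i hi
        rw [Finset.mem_filter] at hi
        apply Fin.ext
        simp only
        omega
      · intro a ha
        rw [dif_pos (Nat.le_add_right _ _)]
        congr 3
        apply Fin.ext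
        simp
    have h2 : T.col j = fun i : Fin n => if h : (j : ℕ) ≤ i then
      μ ^ (j : ℕ) * c ⟨i - j, by omega⟩ else 0 := by
      have h3 : T.col j = U⁻¹ *ᵥ (g *ᵥ U.col j) := by
        funext i
        rw [hT, mul_assoc, Matrix.mulVec_mulVec]
        change (U⁻¹ * (g * U)) i j = _
        rw [← mul_assoc]
        rfl
      rw [h3, h1, Matrix.mulVec_mulVec, hUi', Matrix.one_mulVec]
    exact congrFun h2 i
  have hchar : g.charpoly = T.charpoly := by
    have h1 : g = U * T * U⁻¹ := by
      rw [hT]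
      calc g = (U * U⁻¹) * g * (U * U⁻¹) := by rw [hUi, one_mul, mul_one]
        _ = U * (U⁻¹ * g * U) * U⁻¹ := by noncomm_ring
    have h2 := Matrix.charpoly_units_conj (⟨U, U⁻¹, hUi, hUi'⟩ : (Matrix (Fin n) (Fin n) k)ˣ) T
    rw [h1]
    exact h2
  refine ⟨c ⟨0, hn⟩, ?_⟩
  rw [hchar, ← Matrix.charpoly_transpose]
  have htri : (Tᵀ).BlockTriangular id := by
    intro i j hij
    rw [Matrix.transpose_apply, hTe, dif_neg]
    exact not_le.2 hij
  rw [Matrix.charpoly_of_isUpperTriangular _ htri, Finset.prod_range]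
  refine Finset.prod_congr rfl fun i _ => ?_
  rw [Matrix.transpose_apply, hTe, dif_pos le_rfl, mul_comm]
  congr 5
  exact Nat.sub_self _

end

end Pool.Agent.LM
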