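import Pool.Agent.Lib_helper98.LM.R1

set_option autoImplicit false

/-!
# The principal `sl 2`
-/

namespace Pool.Agent.LM

open Matrix Polynomial

section

variable (k : Type*) [Field k] (n : ℕ)

/-- the shift -/
def pE : Matrix (Fin n) (Fin n) k := Matrix.of fun i j => if i.val = j.val + 1 then 1 else 0

/-- the grading -/
def pH : Matrix (Fin n) (Fin n) k := Matrix.diagonal fun i => (i.val : k) - ((n : k) - 1) / 2

/-- the lowering operator -/
def pF : Matrix (Fin n) (Fin n) k := Matrix.of fun i j => if i.val + 1 = j.val then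
  (j.val : k) * ((n : k) - j.val) / 2 else 0

variable {k n}

theorem pHE : pH k n * pE k n - pE k n * pH k n = pE k n := by
  ext i j
  rw [Matrix.sub_apply, pH, Matrix.diagonal_mul, Matrix.mul_diagonal, pE, Matrix.of_apply]
  split_ifs with h
  · rw [h]; push_cast; ring
  · ring

theorem pHF : pH k n * pF k n - pF k n * pH k n = -pF k n := by
  ext i j
  rw [Matrix.sub_apply, pH, Matrix.diagonal_mul, Matrix.mul_diagonal, pF, Matrix.neg_apply,
    Matrix.of_apply]
  split_ifs with h
  · rw [← h]; push_cast; ring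
  · ring

theorem pEF_apply (i j : Fin n) : (pE k n * pF k n) i j =
    if i = j then (i.val : k) * ((n : k) - i.val) / 2 else 0 := by
  rw [Matrix.mul_apply]
  rcases Nat.eq_zero_or_pos i.val with h0 | h0
  · rw [Finset.sum_eq_zero]
    · rw [h0]; simp
    · intro l _
      rw [pE, Matrix.of_apply, if_neg (by omega), zero_mul]
  · rw [Finset.sum_eq_single (⟨i.val - 1, by omega⟩ : Fin n)]
    · rw [pE, pF, Matrix.of_apply, Matrix.of_apply, if_pos (by simp only; omega), one_mul]
      by_cases h : i = j
      · subst h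
        rw [if_pos (by simp only; omega), if_pos rfl]
      · rw [if_neg h, if_neg]
        intro h2
        apply h
        apply Fin.ext
        simp only at h2
        omega
    · intro l _ hl
      rw [pE, Matrix.of_apply, if_neg, zero_mul]
      intro h2
      apply hl
      apply Fin.ext
      simp only
      omega
    · intro h
      exact absurd (Finset.mem_univ _) h

theorem pFE_apply (i j : Fin n) : (pF k n * pE k n) i j =
    if i = j then ((i.val : k) + 1) * ((n : k) - (i.val + 1)) / 2 else 0 := by
  rw [Matrix.mul_apply]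
  rcases Nat.lt_or_ge (i.val + 1) n with h0 | h0
  · rw [Finset.sum_eq_single (⟨i.val + 1, h0⟩ : Fin n)]
    · rw [pE, pF, Matrix.of_apply, Matrix.of_apply, if_pos rfl]
      by_cases h : i = j
      · subst h
        rw [if_pos rfl, if_pos rfl]
        push_cast
        ring
      · rw [if_neg h, if_neg, mul_zero]
        intro h2
        apply h
        apply Fin.ext
        simp only at h2
        omega
    · intro l _ hl
      rw [pF, Matrix.of_apply, if_neg, zero_mul]
      intro h2
      apply hl
      apply Fin.ext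
      simp only
      omega
    · intro h
      exact absurd (Finset.mem_univ _) h
  · rw [Finset.sum_eq_zero]
    · have h1 : n = i.val + 1 := by have := i.isLt; omega
      have h2 : (n : k) = (i.val : k) + 1 := by exact_mod_cast congrArg (Nat.cast : ℕ → k) h1
      rw [h2]
      split_ifs
      · ring
      · rfl
    · intro l _
      rw [pF, Matrix.of_apply, if_neg (by have := l.isLt; omega), zero_mul]

theorem pEF [CharZero k] : pE k n * pF k n - pF k n * pE k n = pH k n := by
  ext i j
  rw [Matrix.sub_apply, pEF_apply, pFE_apply, pH]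
  by_cases h : i = j
  · subst h
    rw [if_pos rfl, if_pos rfl, Matrix.diagonal_apply_eq]
    ring
  · rw [if_neg h, if_neg h, Matrix.diagonal_apply_ne _ h, sub_zero]

/-- `z x - x z = x` implies that `x` is nilpotent -/
theorem nilp_of_bracket [CharZero k] {z x : Matrix (Fin n) (Fin n) k} (h : z * x - x * z = x) :
    IsNilpotent x := by
  have h1 : ∀ m : ℕ, z * x ^ m - x ^ m * z = (m : k) • x ^ m := by
    intro m
    induction m with
    | zero => simp
    | succ m ih =>
      have h2 : z * x ^ (m + 1) - x ^ (m + 1) * z = (z * x ^ m - x ^ m * z) * x +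
          x ^ m * (z * x - x * z) := by
        rw [pow_succ]; noncomm_ring
      rw [h2, ih, h, smul_mul_assoc, ← pow_succ, Nat.cast_succ, add_smul, one_smul]
  by_contra hx
  -- infinitely many eigenvalues
  let A : Module.End k (Matrix (Fin n) (Fin n) k) :=
    { toFun := fun y => z * y - y * z
      map_add' := by intro y y'; noncomm_ring
      map_smul' := by
        intro c y
        simp only [RingHom.id_apply]
        rw [mul_smul_comm, smul_mul_assoc, smul_sub] }
  have h3 : ∀ m : ℕ, A.HasEigenvalue (m : k) := by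
    intro m
    refine Module.End.hasEigenvalue_of_hasEigenvector (x := x ^ m) ⟨?_, fun h => hx ⟨m, h⟩⟩
    rw [Module.End.mem_eigenspace_iff]
    exact h1 m
  have h4 : Set.Finite {μ : k | A.HasEigenvalue μ} := Module.End.finite_hasEigenvalue A
  exact Set.infinite_of_injective_forall_mem (f := fun m : ℕ => (m : k)) Nat.cast_injective h3 h4

/-- traces -/
theorem tr_bracket (x y z : Matrix (Fin n) (Fin n) k) :
    (x * (y * z - z * y)).trace = ((x * y - y * x) * z).trace := by
  rw [mul_sub, sub_mul, Matrix.trace_sub, Matrix.trace_sub, ← mul_assoc, ← mul_assoc,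
    Matrix.trace_mul_comm (x * z) y, ← mul_assoc]

theorem tr_sq [CharZero k] (a b c : k) :
    ((a • pE k n + b • pH k n + c • pF k n) * (a • pE k n + b • pH k n + c • pF k n)).trace =
      (b ^ 2 + 2 * a * c) * (pH k n * pH k n).trace := by
  have hEE : (pE k n * pE k n).trace = 0 := by
    have h1 := tr_bracket (pE k n) (pH k n) (pE k n)
    rw [pHE] at h1
    have h2 : pE k n * pH k n - pH k n * pE k n = -pE k n := by rw [← neg_sub, pHE]
    rw [h2, neg_mul, Matrix.trace_neg] at h1
    exact self_eq_neg.1 h1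
  have hFF : (pF k n * pF k n).trace = 0 := by
    have h1 := tr_bracket (pF k n) (pH k n) (pF k n)
    rw [pHF] at h1
    have h2 : pF k n * pH k n - pH k n * pF k n = pF k n := by
      rw [← neg_sub, pHF, neg_neg]
    rw [h2, mul_neg, Matrix.trace_neg] at h1
    exact self_eq_neg.1 h1.symm
  have hHE : (pH k n * pE k n).trace = 0 := by
    have h1 := tr_bracket (pH k n) (pH k n) (pE k n)
    rw [pHE, sub_self, zero_mul, Matrix.trace_zero] at h1
    exact h1
  have hHF : (pH k n * pF k n).trace = 0 := by
    have h1 := tr_bracket (pH k n) (pH k n) (pF k n)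
    rw [pHF, sub_self, zero_mul, Matrix.trace_zero, mul_neg, Matrix.trace_neg, neg_eq_zero] at h1
    exact h1
  have hEF : (pE k n * pF k n).trace = (pH k n * pH k n).trace := by
    have h1 := tr_bracket (pH k n) (pE k n) (pF k n)
    rw [pEF, pHE] at h1
    exact h1.symm
  simp only [add_mul, mul_add, smul_mul_assoc, mul_smul_comm, Matrix.trace_add, Matrix.trace_smul,
    smul_eq_mul]
  rw [Matrix.trace_mul_comm (pE k n) (pH k n), Matrix.trace_mul_comm (pF k n) (pE k n),
    Matrix.trace_mul_comm (pF k n) (pH k n), hEE, hFF, hHE, hHF, hEF]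
  ring

/-- the span of `e`, `h`, `f` -/
def pS (k : Type*) [Field k] (n : ℕ) : Submodule k (Matrix (Fin n) (Fin n) k) :=
  Submodule.span k {pE k n, pH k n, pF k n}

theorem mem_pS {x : Matrix (Fin n) (Fin n) k} : x ∈ pS k n ↔
    ∃ a b c : k, a • pE k n + b • pH k n + c • pF k n = x := by
  rw [pS, Submodule.mem_span_triple]

/-- nonzero nilpotent elements of the principal `sl 2` have one Jordan block -/
theorem pS_nilp [CharZero k] (hn : 2 ≤ n) {x : Matrix (Fin n) (Fin n) k} (hx : x ∈ pS k n)
    (hnil : IsNilpotent x) (hx0 : x ≠ 0) : x ^ (n - 1) ≠ 0 := by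
  obtain ⟨a, b, c, rfl⟩ := mem_pS.1 hx
  by_cases ha : a = 0
  swap
  · refine hess_ne _ (by omega) (fun i j hij => ?_) (fun i j hij => ?_)
    · rw [Matrix.add_apply, Matrix.add_apply, Matrix.smul_apply, Matrix.smul_apply,
        Matrix.smul_apply, pE, pH, pF, Matrix.of_apply, Matrix.of_apply, if_neg (by omega),
        if_neg (by omega), Matrix.diagonal_apply_ne _ (by rintro rfl; omega)]
      simp
    · rw [Matrix.add_apply, Matrix.add_apply, Matrix.smul_apply, Matrix.smul_apply,
        Matrix.smul_apply, pE, pH, pF, Matrix.of_apply, Matrix.of_apply, if_pos hij,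
        if_neg (by omega), Matrix.diagonal_apply_ne _ (by rintro rfl; omega)]
      simpa using ha
  by_cases hc : c = 0
  swap
  · intro h
    have h1 := congrArg Matrix.transpose h
    rw [Matrix.transpose_pow, Matrix.transpose_zero] at h1
    refine hess_ne _ (by omega) (fun i j hij => ?_) (fun i j hij => ?_) h1
    · rw [Matrix.transpose_apply, Matrix.add_apply, Matrix.add_apply, Matrix.smul_apply,
        Matrix.smul_apply, Matrix.smul_apply, pE, pH, pF, Matrix.of_apply, Matrix.of_apply,
        if_neg (by omega), if_neg (by omega), Matrix.diagonal_apply_ne _ (by rintro rfl; omega)]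
      simp
    · rw [Matrix.transpose_apply, Matrix.add_apply, Matrix.add_apply, Matrix.smul_apply,
        Matrix.smul_apply, Matrix.smul_apply, pE, pH, pF, Matrix.of_apply, Matrix.of_apply,
        if_neg (by omega), if_pos hij.symm, Matrix.diagonal_apply_ne _ (by rintro rfl; omega)]
      have h2 : (i.val : k) ≠ 0 := by
        have : i.val ≠ 0 := by omega
        exact_mod_cast this
      have h3 : (n : k) - i.val ≠ 0 := by
        rw [sub_ne_zero]
        have : n ≠ i.val := by have := i.isLt; omega
        exact_mod_cast this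
      simp [hc, h2, h3]
  -- `x = b h`
  exfalso
  subst ha hc
  obtain ⟨m, hm⟩ := hnil
  have h1 : (b • pH k n) ^ m = 0 := by simpa using hm
  have hb : b = 0 := by
    have h2 := congrFun (congrFun h1 ⟨0, by omega⟩) ⟨0, by omega⟩
    rw [_root_.smul_pow, pH, Matrix.diagonal_pow, Matrix.smul_apply, Matrix.diagonal_apply_eq,
      Matrix.zero_apply, Pi.pow_apply, smul_eq_mul, ← mul_pow] at h2
    have h3 := eq_zero_of_pow_eq_zero h2
    rcases mul_eq_zero.1 h3 with h4 | h4
    · exact h4
    · exfalso
      have h5 : (n : k) = 1 := by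
        have h6 : (0 : k) - ((n : k) - 1) / 2 = 0 := by simpa using h4
        have h7 : (n : k) - 1 = 0 := by
          have h8 := sub_eq_zero.1 h6
          have h9 := h8.symm
          rw [div_eq_zero_iff] at h9
          rcases h9 with h9 | h9
          · exact h9
          · exact absurd h9 two_ne_zero
        exact sub_eq_zero.1 h7
      have h6 : n = 1 := by exact_mod_cast h5
      omega
  apply hx0
  rw [hb]
  simp

end

section

variable {k : Type*} [Field k] [CharZero k] [IsAlgClosed k] {n : ℕ}

/-- an invertible matrix that normalizes the principal `sl 2` has eigenvalues in geometric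
progression -/
theorem normalizer_gp (hn : 2 ≤ n) (g g' : Matrix (Fin n) (Fin n) k) (hg : g' * g = 1)
    (hS : ∀ x ∈ pS k n, g * x * g' ∈ pS k n) :
    ∃ c t : k, g.charpoly = ∏ i ∈ Finset.range n, (X - C (c * t ^ i)) := by
  have hκ : (pH k n * pH k n).trace ≠ 0 := by
    have h1 : (pH k n * pH k n).trace =
        ((∑ i : Fin n, ((i.val : ℚ) - ((n : ℚ) - 1) / 2) ^ 2 : ℚ) : k) := by
      rw [pH, Matrix.diagonal_mul_diagonal, Matrix.trace_diagonal]
      push_cast
      exact Finset.sum_congr rfl fun i _ => by ring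
    rw [h1]
    have h2 : 0 < ∑ i : Fin n, ((i.val : ℚ) - ((n : ℚ) - 1) / 2) ^ 2 := by
      refine Finset.sum_pos' (fun i _ => sq_nonneg _) ⟨⟨0, by omega⟩, Finset.mem_univ _, ?_⟩
      have h3 : (2 : ℚ) ≤ n := by exact_mod_cast hn
      have h4 : (0 : ℚ) - ((n : ℚ) - 1) / 2 ≠ 0 := by linarith
      simpa using pow_pos (lt_of_le_of_ne (abs_nonneg _) (Ne.symm (abs_ne_zero.2 h4))) 2
    exact_mod_cast h2.ne'
  have hnil : ∀ x ∈ pS k n, IsNilpotent x → IsNilpotent (g * x * g') := by
    rintro x hx ⟨m, hm⟩
    refine ⟨m, ?_⟩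
    have h1 : ∀ m : ℕ, (g * x * g') ^ m * g = g * x ^ m := by
      intro m
      induction m with
      | zero => simp
      | succ m ih =>
        rw [pow_succ', mul_assoc, ih, pow_succ' x]
        calc g * x * g' * (g * x ^ m) = g * x * (g' * g) * x ^ m := by noncomm_ring
          _ = g * (x * x ^ m) := by rw [hg, mul_one, mul_assoc]
    have h2 := h1 m
    rw [hm, mul_zero] at h2
    have h3 : g * g' = 1 := mul_eq_one_comm.1 hg
    calc (g * x * g') ^ m = (g * x * g') ^ m * (g * g') := by rw [h3, mul_one]
      _ = 0 := by rw [← mul_assoc, h2, zero_mul]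
  have hq : ∀ a b c : k, IsNilpotent (a • pE k n + b • pH k n + c • pF k n) →
      b ^ 2 + 2 * a * c = 0 := by
    intro a b c h
    have h1 : IsNilpotent ((a • pE k n + b • pH k n + c • pF k n) *
        (a • pE k n + b • pH k n + c • pF k n)) := by
      rw [← sq]
      exact h.pow_succ 1
    have h2 := Matrix.isNilpotent_trace_of_isNilpotent h1
    have h3 := tr_sq (n := n) a b c
    rw [h2.eq_zero] at h3
    exact (mul_eq_zero.1 h3.symm).resolve_right hκ
  -- the images of `e`, `h`, `f`
  obtain ⟨a₁, b₁, c₁, h1⟩ := mem_pS.1 (hS _ (Submodule.subset_span (by simp : pE k n ∈ _)))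
  obtain ⟨a₂, b₂, c₂, h2⟩ := mem_pS.1 (hS _ (Submodule.subset_span (by simp : pH k n ∈ _)))
  obtain ⟨a₃, b₃, c₃, h3⟩ := mem_pS.1 (hS _ (Submodule.subset_span (by simp : pF k n ∈ _)))
  -- a nilpotent eigenvector
  have key : ∃ x ∈ pS k n, IsNilpotent x ∧ x ≠ 0 ∧ ∃ μ : k, g * x * g' = μ • x := by
    by_cases ha : a₃ = 0
    · have hF : IsNilpotent (pF k n) := by
        refine nilp_of_bracket (z := -pH k n) ?_
        rw [neg_mul, mul_neg, sub_neg_eq_add, neg_add_eq_sub, ← neg_sub, pHF, neg_neg]
      have hFS : pF k n ∈ pS k n := Submodule.subset_span (by simp)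
      have h4 := hq a₃ b₃ c₃ (by rw [h3]; exact hnil _ hFS hF)
      have hb : b₃ = 0 := by
        rw [ha] at h4
        exact eq_zero_of_pow_eq_zero (n := 2) (by simpa using h4)
      refine ⟨pF k n, hFS, hF, ?_, c₃, ?_⟩
      · intro h5
        have h6 := congrFun (congrFun h5 ⟨0, by omega⟩) ⟨1, by omega⟩
        rw [pF, Matrix.of_apply, if_pos rfl, Matrix.zero_apply] at h6
        have h7 : (n : k) - 1 ≠ 0 := by
          rw [sub_ne_zero]
          have : n ≠ 1 := by omega
          exact_mod_cast this
        simp [h7] at h6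
      · rw [← h3, ha, hb, zero_smul, zero_smul, zero_add, zero_add]
    · obtain ⟨t, ht⟩ := IsAlgClosed.exists_root (C c₁ + C (2 * b₁ + 2 * c₂) * X +
        C (4 * b₂ - 2 * c₃ - 2 * a₁) * X ^ 2 + C (-4 * b₃ - 4 * a₂) * X ^ 3 +
        C (4 * a₃) * X ^ 4) (by
          intro hdeg
          have h5 := Polynomial.natDegree_eq_of_degree_eq_some hdeg
          have h6 : ∀ p₀ p₁ p₂ p₃ p₄ : k, p₄ ≠ 0 → 4 ≤ (C p₀ + C p₁ * X + C p₂ * X ^ 2 +
              C p₃ * X ^ 3 + C p₄ * X ^ 4).natDegree := by
            intro p₀ p₁ p₂ p₃ p₄ hp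
            refine Polynomial.le_natDegree_of_ne_zero ?_
            rw [Polynomial.coeff_add, Polynomial.coeff_add, Polynomial.coeff_add,
              Polynomial.coeff_add, Polynomial.coeff_C, Polynomial.coeff_C_mul,
              Polynomial.coeff_C_mul, Polynomial.coeff_C_mul, Polynomial.coeff_C_mul,
              Polynomial.coeff_X, Polynomial.coeff_X_pow, Polynomial.coeff_X_pow,
              Polynomial.coeff_X_pow]
            simpa using hp
          have h7 := h6 c₁ (2 * b₁ + 2 * c₂) (4 * b₂ - 2 * c₃ - 2 * a₁) (-4 * b₃ - 4 * a₂)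
            (4 * a₃) (mul_ne_zero (by norm_num) ha)
          rw [h5] at h7
          exact absurd h7 (by norm_num))
      have ht' : c₁ + (2 * b₁ + 2 * c₂) * t + (4 * b₂ - 2 * c₃ - 2 * a₁) * t ^ 2 +
          (-4 * b₃ - 4 * a₂) * t ^ 3 + 4 * a₃ * t ^ 4 = 0 := by
        simpa [Polynomial.IsRoot] using ht
      set x := pE k n + (2 * t) • pH k n + (-2 * t ^ 2) • pF k n with hx
      have hxS : x ∈ pS k n := mem_pS.2 ⟨1, 2 * t, -2 * t ^ 2, by rw [one_smul]⟩
      have hxn : IsNilpotent x := by
        refine nilp_of_bracket (z := pH k n + (-2 * t) • pF k n) ?_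
        have e1 : pH k n * pE k n = pE k n + pE k n * pH k n := by
          rw [← sub_eq_iff_eq_add]; exact pHE
        have e2 : pH k n * pF k n = -pF k n + pF k n * pH k n := by
          rw [← sub_eq_iff_eq_add]; exact pHF
        have e3 : pE k n * pF k n = pH k n + pF k n * pE k n := by
          rw [← sub_eq_iff_eq_add]; exact pEF
        rw [hx]
        simp only [mul_add, add_mul, smul_mul_assoc, mul_smul_comm, smul_smul, smul_add]
        rw [e1, e2, e3]
        module
      have hx0 : x ≠ 0 := by
        intro h5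
        have h6 := congrFun (congrFun h5 ⟨1, by omega⟩) ⟨0, by omega⟩
        rw [hx, Matrix.add_apply, Matrix.add_apply, Matrix.smul_apply, Matrix.smul_apply, pE, pH,
          pF, Matrix.of_apply, Matrix.of_apply, if_pos rfl, Matrix.diagonal_apply_ne _ (by
            intro h; exact absurd (congrArg Fin.val h) (by norm_num)), if_neg (by norm_num),
          Matrix.zero_apply] at h6
        simp at h6
      have hgx : g * x * g' = (a₁ + 2 * t * a₂ - 2 * t ^ 2 * a₃) • pE k n +
          (b₁ + 2 * t * b₂ - 2 * t ^ 2 * b₃) • pH k n +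
          (c₁ + 2 * t * c₂ - 2 * t ^ 2 * c₃) • pF k n := by
        have h5 : g * x * g' = g * pE k n * g' + (2 * t) • (g * pH k n * g') +
            (-2 * t ^ 2) • (g * pF k n * g') := by
          rw [hx]
          simp only [mul_add, add_mul, smul_mul_assoc, mul_smul_comm]
        rw [h5, ← h1, ← h2, ← h3]
        module
      have h4 := hq _ _ _ (by rw [← hgx]; exact hnil x hxS hxn)
      set A := a₁ + 2 * t * a₂ - 2 * t ^ 2 * a₃ with hA
      set B := b₁ + 2 * t * b₂ - 2 * t ^ 2 * b₃ with hB
      set D := c₁ + 2 * t * c₂ - 2 * t ^ 2 * c₃ with hD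
      have h5 : D = 2 * t ^ 2 * A - 2 * t * B := by
        have h6 : 2 * t * B + D - 2 * t ^ 2 * A = 0 := by
          rw [hA, hB, hD, ← ht']
          ring
        linear_combination h6
      have h6 : B = 2 * t * A := by
        have h7 : (B - 2 * t * A) ^ 2 = 0 := by
          rw [← h4, h5]
          ring
        exact sub_eq_zero.1 (eq_zero_of_pow_eq_zero h7)
      refine ⟨x, hxS, hxn, hx0, A, ?_⟩
      rw [hgx, h5, h6, hx]
      module
  obtain ⟨x, hx, hxn, hx0, μ, hμ⟩ := key
  obtain ⟨c, hc⟩ := charpoly_gp g x (by omega) hxn (pS_nilp hn hx hxn hx0) μ (by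
    calc g * x = g * x * g' * g := by rw [mul_assoc _ g', hg, mul_one]
      _ = μ • (x * g) := by rw [hμ, smul_mul_assoc])
  exact ⟨c, μ, hc⟩

end

end Pool.Agent.LM
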