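import Pool.Agent.Lib_helper98.LM.R2
import Pool.Agent.Lib_helper98.LM.G5

set_option autoImplicit false

/-!
# One Jordan block: brackets, chains, irreducibility under the Lie algebra
-/

namespace Pool.Agent.LM

open Matrix Module

section

variable {k : Type*} [Field k] [CharZero k] {E : Type*} [AddCommGroup E] [Module k E]

theorem poly_trick' {κ : Type*} (W : Submodule k E) (s : Finset κ) (d : κ → ℕ) (v : κ → E)
    (h : ∀ m : ℕ, ∑ x ∈ s, (m : k) ^ d x • v x ∈ W) (l : ℕ) :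
    ∑ x ∈ s with d x = l, v x ∈ W := by
  classical
  obtain ⟨K, hK⟩ : ∃ K : ℕ, ∀ x ∈ s, d x < K :=
    ⟨s.sup d + 1, fun x hx => Nat.lt_succ_of_le (Finset.le_sup hx)⟩
  have h1 : ∀ m : ℕ, ∑ i ∈ Finset.range K, ((1 * m : ℕ) : k) ^ i •
      (∑ x ∈ s with d x = i, v x) ∈ W := by
    intro m
    have h2 : ∑ i ∈ Finset.range K, ((1 * m : ℕ) : k) ^ i • (∑ x ∈ s with d x = i, v x) =
        ∑ x ∈ s, (m : k) ^ d x • v x := by
      rw [← Finset.sum_fiberwise_of_maps_to (s := s) (t := Finset.range K) (g := d)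
        (fun x hx => Finset.mem_range.2 (hK x hx))]
      refine Finset.sum_congr rfl fun i _ => ?_
      rw [Finset.smul_sum]
      refine Finset.sum_congr rfl fun x hx => ?_
      rw [(Finset.mem_filter.1 hx).2, one_mul]
    rw [h2]
    exact h m
  rcases lt_or_ge l K with hl | hl
  · exact poly_trick W _ K 1 one_pos h1 l hl
  · rw [Finset.sum_eq_zero]
    · exact W.zero_mem
    · intro x hx
      rw [Finset.mem_filter] at hx
      exact absurd (hK x hx.1) (by omega)

end

section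

variable {K : Type} [Field K] [Algebra K (AlgebraicClosure ℚ)]
  {ℓ : ℕ} [Fact ℓ.Prime] {n : ℕ} {ι : ℚ_[ℓ] →+* ℂ} {w : ℤ}
  {J : Matrix (Fin n) (Fin n) ℚ_[ℓ]}
  {V : GK K →* Matrix (Fin n) (Fin n) ℚ_[ℓ]}

theorem inv_exp {N : Matrix (Fin n) (Fin n) ℚ_[ℓ]} (hN : IsNilpotent N) {s : GK K}
    (hs : V s = IsNilpotent.exp N) : V s⁻¹ = IsNilpotent.exp (-N) := by
  have h1 : V s⁻¹ * V s = 1 := by rw [← map_mul, inv_mul_cancel, map_one]
  have h2 := IsNilpotent.exp_mul_exp_neg_self hN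
  calc V s⁻¹ = V s⁻¹ * (IsNilpotent.exp N * IsNilpotent.exp (-N)) := by rw [h2, mul_one]
    _ = IsNilpotent.exp (-N) := by rw [← mul_assoc, ← hs, h1, one_mul]

/-- a subspace that is stable under conjugation is stable under brackets with logarithms -/
theorem bracket_mem {L₀ : Submodule ℚ_[ℓ] (Matrix (Fin n) (Fin n) ℚ_[ℓ])}
    (hst : ∀ (g : GK K), ∀ A ∈ L₀, V g * A * V g⁻¹ ∈ L₀) {N : Matrix (Fin n) (Fin n) ℚ_[ℓ]}
    (hN : IsNilpotent N) {s : GK K} (hs : V s = IsNilpotent.exp N) :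
    ∀ A ∈ L₀, N * A - A * N ∈ L₀ := by
  intro A hA
  obtain ⟨K', hK'⟩ := id hN
  have hK : N ^ (K' + 2) = 0 := by rw [pow_add, hK', zero_mul]
  have hKn : (-N) ^ (K' + 2) = 0 := by rw [neg_pow, hK, mul_zero]
  have h1 : ∀ m : ℕ, ∑ x ∈ Finset.range (K' + 2) ×ˢ Finset.range (K' + 2),
      (m : ℚ_[ℓ]) ^ (x.1 + x.2) • ((((x.1).factorial : ℚ_[ℓ])⁻¹ • N ^ x.1) * A *
        (((x.2).factorial : ℚ_[ℓ])⁻¹ • (-N) ^ x.2)) ∈ L₀ := by
    intro m
    have h2 := hst (s ^ m) A hA
    have h3 : V (s ^ m)⁻¹ = IsNilpotent.exp (-N) ^ m := by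
      rw [← inv_pow, map_pow, inv_exp hN hs]
    rw [h3, map_pow, hs, exp_pow_sum (k := ℚ_[ℓ]) hK, exp_pow_sum (k := ℚ_[ℓ]) hKn,
      Finset.sum_mul, Finset.sum_mul] at h2
    have h4 : ∑ x ∈ Finset.range (K' + 2) ×ˢ Finset.range (K' + 2),
      (m : ℚ_[ℓ]) ^ (x.1 + x.2) • ((((x.1).factorial : ℚ_[ℓ])⁻¹ • N ^ x.1) * A *
        (((x.2).factorial : ℚ_[ℓ])⁻¹ • (-N) ^ x.2)) = ∑ i ∈ Finset.range (K' + 2),
        (m : ℚ_[ℓ]) ^ i • ((i.factorial : ℚ_[ℓ])⁻¹ • N ^ i) * A *
          ∑ i ∈ Finset.range (K' + 2), (m : ℚ_[ℓ]) ^ i • ((i.factorial : ℚ_[ℓ])⁻¹ • (-N) ^ i) := by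
      rw [Finset.sum_product]
      refine Finset.sum_congr rfl fun i _ => ?_
      rw [Finset.mul_sum]
      refine Finset.sum_congr rfl fun j _ => ?_
      simp only [smul_mul_assoc, mul_smul_comm, smul_smul, pow_add]
      congr 1
      ring
    rw [h4]
    exact h2
  have h2 := poly_trick' L₀ _ (fun x : ℕ × ℕ => x.1 + x.2) _ h1 1
  have h3 : (Finset.range (K' + 2) ×ˢ Finset.range (K' + 2)).filter
      (fun x : ℕ × ℕ => x.1 + x.2 = 1) = {(0, 1), (1, 0)} := by
    ext ⟨i, j⟩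
    simp only [Finset.mem_filter, Finset.mem_product, Finset.mem_range, Finset.mem_insert,
      Finset.mem_singleton, Prod.mk.injEq]
    omega
  rw [h3, Finset.sum_pair (by simp)] at h2
  simp only [pow_zero, pow_one, Nat.factorial_zero, Nat.factorial_one, Nat.cast_one, inv_one,
    one_smul, one_mul, mul_one, mul_neg] at h2
  have h4 : N * A - A * N = -(A * N) + N * A := by abel
  rw [h4]
  exact h2

end

section

variable {k : Type*} [Field k] {E : Type*} [AddCommGroup E] [Module k E] [FiniteDimensional k E]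

/-- stable subspaces of a nilpotent endomorphism with one Jordan block are determined by their
dimension -/
theorem chain_unique {N : Module.End k E} {m : ℕ} (hm : finrank k E = m + 1)
    (hN : N ^ (m + 1) = 0) (hN' : N ^ m ≠ 0) {U W : Submodule k E}
    (hU : ∀ x ∈ U, N x ∈ U) (hW : ∀ x ∈ W, N x ∈ W) (hUW : finrank k U = finrank k W) :
    U = W := by
  obtain ⟨x, hx⟩ : ∃ x, (N ^ m) x ≠ 0 := by
    by_contra hcon
    push Not at hcon
    exact hN' (LinearMap.ext hcon)
  have hli : LinearIndependent k (fun i : Fin (m + 1) => (N ^ (i : ℕ)) x) := by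
    rw [Fintype.linearIndependent_iff]
    intro g hg i
    exact coeff_zero_of hN hx 0 g (by rw [pow_zero, Module.End.one_apply]; exact hg) i (by omega)
  have hker : ∀ r, r ≤ m + 1 → finrank k (LinearMap.ker (N ^ r)) ≤ r := by
    intro r hr
    have h1 : m + 1 - r ≤ finrank k (LinearMap.range (N ^ r)) := by
      have h2 : LinearIndependent k (fun i : Fin (m + 1 - r) =>
          (⟨(N ^ ((i : ℕ) + r)) x, by
            rw [add_comm, pow_add]
            exact ⟨(N ^ (i : ℕ)) x, rfl⟩⟩ : LinearMap.range (N ^ r))) := by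
        rw [← LinearMap.linearIndependent_iff (LinearMap.range (N ^ r)).subtype
          (Submodule.ker_subtype _)]
        exact hli.comp (fun i : Fin (m + 1 - r) => (⟨(i : ℕ) + r, by omega⟩ : Fin (m + 1)))
          (fun i j hij => Fin.ext (by simpa using hij))
      have h3 := h2.fintype_card_le_finrank
      rwa [Fintype.card_fin] at h3
    have h4 := LinearMap.finrank_range_add_finrank_ker (N ^ r)
    omega
  have hle : ∀ U : Submodule k E, (∀ x ∈ U, N x ∈ U) →
      U = LinearMap.ker (N ^ finrank k U) := by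
    intro U hU
    have hr : finrank k U ≤ m + 1 := by rw [← hm]; exact Submodule.finrank_le U
    refine Submodule.eq_of_le_of_finrank_le ?_ (hker _ hr)
    intro y hy
    rw [LinearMap.mem_ker]
    have hnil : IsNilpotent (N.restrict hU) := by
      refine ⟨m + 1, ?_⟩
      ext z
      rw [Module.End.pow_restrict, LinearMap.restrict_apply]
      have h1 : (N ^ (m + 1)) (z : E) = 0 := by rw [hN]; rfl
      exact h1
    have h1 := hnil.charpoly_eq_X_pow_finrank
    have h2 := LinearMap.aeval_self_charpoly (N.restrict hU)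
    rw [h1, map_pow, Polynomial.aeval_X, Module.End.pow_restrict] at h2
    have h3 := congrArg Subtype.val (LinearMap.congr_fun h2 ⟨y, hy⟩)
    exact h3
  rw [hle U hU, hle W hW, hUW]

end

end Pool.Agent.LM
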