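import Pool.Agent.Lib_helper98.LM.R3

set_option autoImplicit false

/-!
# A nilpotent matrix of rank one: the adjoint representation is irreducible
-/

namespace Pool.Agent.LM

open Matrix Module

section

variable {K : Type} [Field K] [Algebra K (AlgebraicClosure ℚ)]
  {ℓ : ℕ} [Fact ℓ.Prime] {n : ℕ} {ι : ℚ_[ℓ] →+* ℂ} {w : ℤ}
  {J : Matrix (Fin n) (Fin n) ℚ_[ℓ]}
  {V : GK K →* Matrix (Fin n) (Fin n) ℚ_[ℓ]}

/-- the similitudes that normalize `L₀` -/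
def NG (J : Matrix (Fin n) (Fin n) ℚ_[ℓ]) (L₀ : Submodule ℚ_[ℓ] (Matrix (Fin n) (Fin n) ℚ_[ℓ])) :
    Subgroup (Matrix (Fin n) (Fin n) ℚ_[ℓ])ˣ where
  carrier := {u | (∃ c : ℚ_[ℓ], c ≠ 0 ∧ (u : Matrix (Fin n) (Fin n) ℚ_[ℓ])ᵀ * J * u = c • J) ∧
    (∀ A ∈ L₀, (u : Matrix (Fin n) (Fin n) ℚ_[ℓ]) * A * (u⁻¹ : (Matrix _ _ _)ˣ) ∈ L₀) ∧
    ∀ A ∈ L₀, ((u⁻¹ : (Matrix _ _ _)ˣ) : Matrix (Fin n) (Fin n) ℚ_[ℓ]) * A * u ∈ L₀}
  one_mem' := ⟨⟨1, one_ne_zero, by simp⟩, by simp, by simp⟩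
  mul_mem' := by
    rintro u v ⟨⟨c, hc0, hc⟩, hu1, hu2⟩ ⟨⟨d, hd0, hd⟩, hv1, hv2⟩
    refine ⟨⟨d * c, mul_ne_zero hd0 hc0, ?_⟩, fun A hA => ?_, fun A hA => ?_⟩
    · rw [Units.val_mul, Matrix.transpose_mul]
      calc (v : Matrix (Fin n) (Fin n) ℚ_[ℓ])ᵀ * (u : Matrix (Fin n) (Fin n) ℚ_[ℓ])ᵀ * J * (u * v)
          = (v : Matrix (Fin n) (Fin n) ℚ_[ℓ])ᵀ *
            ((u : Matrix (Fin n) (Fin n) ℚ_[ℓ])ᵀ * J * u) * v := by noncomm_ring
        _ = (d * c) • J := by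
          rw [hc, mul_smul_comm, smul_mul_assoc, hd, smul_smul, mul_comm]
    · have h1 := hu1 _ (hv1 A hA)
      rw [_root_.mul_inv_rev, Units.val_mul, Units.val_mul]
      convert h1 using 1
      noncomm_ring
    · have h1 := hv2 _ (hu2 A hA)
      rw [_root_.mul_inv_rev, Units.val_mul, Units.val_mul]
      convert h1 using 1
      noncomm_ring
  inv_mem' := by
    rintro u ⟨⟨c, hc0, hc⟩, hu1, hu2⟩
    refine ⟨⟨c⁻¹, inv_ne_zero hc0, ?_⟩, ?_, ?_⟩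
    · have h1 : (u : Matrix (Fin n) (Fin n) ℚ_[ℓ]) * (u⁻¹ : (Matrix _ _ _)ˣ) = 1 := u.mul_inv
      have h2 : ((u⁻¹ : (Matrix _ _ _)ˣ) : Matrix (Fin n) (Fin n) ℚ_[ℓ])ᵀ *
          ((u : Matrix (Fin n) (Fin n) ℚ_[ℓ])ᵀ * J * u) * (u⁻¹ : (Matrix _ _ _)ˣ) = J := by
        calc ((u⁻¹ : (Matrix _ _ _)ˣ) : Matrix (Fin n) (Fin n) ℚ_[ℓ])ᵀ *
          ((u : Matrix (Fin n) (Fin n) ℚ_[ℓ])ᵀ * J * u) * (u⁻¹ : (Matrix _ _ _)ˣ)
            = (((u⁻¹ : (Matrix _ _ _)ˣ) : Matrix (Fin n) (Fin n) ℚ_[ℓ])ᵀ *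
              (u : Matrix (Fin n) (Fin n) ℚ_[ℓ])ᵀ) * J * (u * (u⁻¹ : (Matrix _ _ _)ˣ)) := by
              noncomm_ring
          _ = J := by rw [← Matrix.transpose_mul, h1, Matrix.transpose_one, one_mul, mul_one]
      rw [hc, mul_smul_comm, smul_mul_assoc] at h2
      have h3 := congrArg (fun Z => c⁻¹ • Z) h2
      rw [smul_smul, inv_mul_cancel₀ hc0, one_smul] at h3
      exact h3
    · rw [inv_inv]; exact hu2
    · rw [inv_inv]; exact hu1

/-- the conclusion for a subspace that is stable under conjugation and under the bracket with a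
nilpotent matrix `x` of rank one of the Lie algebra -/
theorem full_of_rank_one (hG : Geo ι w J V) (hirr : Irr V) (hJs : Jᵀ = -J)
    {x : Matrix (Fin n) (Fin n) ℚ_[ℓ]} (hxJ : xᵀ * J + J * x = 0) (hx0 : x ≠ 0) (hxx : x * x = 0)
    (hxr : x.rank = 1)
    (L₀ : Submodule ℚ_[ℓ] (Matrix (Fin n) (Fin n) ℚ_[ℓ]))
    (hL : L₀ ≠ ⊥) (hst : ∀ (g : GK K), ∀ A ∈ L₀, V g * A * V g⁻¹ ∈ L₀)
    (hbr : ∀ A ∈ L₀, x * A - A * x ∈ L₀) (hle : L₀ ≤ LieJ J) : LieJ J ≤ L₀ := by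
  have hn : 0 < n := by
    rcases Nat.eq_zero_or_pos n with h | h
    · subst h
      exact absurd (Subsingleton.elim _ _) hx0
    · exact h
  -- the unit `1 + x`
  let u : (Matrix (Fin n) (Fin n) ℚ_[ℓ])ˣ :=
    ⟨1 + x, 1 - x, by
      have : (1 + x) * (1 - x) = 1 - x * x := by noncomm_ring
      rw [this, hxx, sub_zero], by
      have : (1 - x) * (1 + x) = 1 - x * x := by noncomm_ring
      rw [this, hxx, sub_zero]⟩
  have hxAx : ∀ A ∈ L₀, x * A * x ∈ L₀ := by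
    intro A hA
    have h1 := hbr _ (hbr A hA)
    have h2 : x * (x * A - A * x) - (x * A - A * x) * x = (-2 : ℚ_[ℓ]) • (x * A * x) := by
      have h3 : x * (x * A - A * x) - (x * A - A * x) * x =
          (x * x) * A - (x * A * x + x * A * x) + A * (x * x) := by noncomm_ring
      rw [h3, hxx, zero_mul, mul_zero, neg_smul, two_smul]
      abel
    rw [h2] at h1
    have h3 := L₀.smul_mem (-2 : ℚ_[ℓ])⁻¹ h1
    rwa [smul_smul, inv_mul_cancel₀ (by norm_num), one_smul] at h3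
  have huiso : (1 + x)ᵀ * J * (1 + x) = J := by
    have h1 : xᵀ * J = -(J * x) := eq_neg_of_add_eq_zero_left hxJ
    have h2 : (1 + x)ᵀ * J * (1 + x) = J + (xᵀ * J + J * x) + xᵀ * J * x := by
      rw [Matrix.transpose_add, Matrix.transpose_one]
      noncomm_ring
    rw [h2, hxJ, h1, neg_mul, mul_assoc, hxx, mul_zero, neg_zero, add_zero, add_zero]
  have huN : u ∈ NG J L₀ := by
    refine ⟨⟨1, one_ne_zero, by rw [one_smul]; exact huiso⟩, fun A hA => ?_, fun A hA => ?_⟩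
    · change (1 + x) * A * (1 - x) ∈ L₀
      have h1 : (1 + x) * A * (1 - x) = A + (x * A - A * x) - x * A * x := by noncomm_ring
      rw [h1]
      exact L₀.sub_mem (L₀.add_mem hA (hbr A hA)) (hxAx A hA)
    · change (1 - x) * A * (1 + x) ∈ L₀
      have h1 : (1 - x) * A * (1 + x) = A - (x * A - A * x) - x * A * x := by noncomm_ring
      rw [h1]
      exact L₀.sub_mem (L₀.sub_mem hA (hbr A hA)) (hxAx A hA)
  -- the map from the Galois group
  have hVu : ∀ g, V g * V g⁻¹ = 1 := fun g => by rw [← map_mul, mul_inv_cancel, map_one]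
  have hVu' : ∀ g, V g⁻¹ * V g = 1 := fun g => by rw [← map_mul, inv_mul_cancel, map_one]
  let j₀ : GK K →* (Matrix (Fin n) (Fin n) ℚ_[ℓ])ˣ :=
    { toFun := fun g => ⟨V g, V g⁻¹, hVu g, hVu' g⟩
      map_one' := by
        apply Units.ext
        exact map_one V
      map_mul' := fun g h => by
        apply Units.ext
        exact map_mul V g h }
  have hj₀ : ∀ g, j₀ g ∈ NG J L₀ := by
    intro g
    obtain ⟨c, hc0, hc, -, -⟩ := hG.sim' g
    refine ⟨⟨c, hc0 hn, hc⟩, fun A hA => hst g A hA, fun A hA => ?_⟩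
    have h1 := hst g⁻¹ A hA
    rw [inv_inv] at h1
    exact h1
  let j : GK K →* NG J L₀ := j₀.codRestrict (NG J L₀) hj₀
  have hj₀c : Continuous j₀ := by
    rw [Units.continuous_iff]
    exact ⟨hG.cont, hG.cont.comp continuous_inv⟩
  have hjc : Continuous j := hj₀c.subtype_mk hj₀
  -- the representation
  let ρ : NG J L₀ →* Module.End ℚ_[ℓ] (Fin n → ℚ_[ℓ]) :=
    (Matrix.toLinAlgEquiv' (R := ℚ_[ℓ]) (n := Fin n)).toAlgHom.toRingHom.toMonoidHom.comp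
      ((Units.coeHom _).comp (NG J L₀).subtype)
  have hρ : ∀ g : NG J L₀, ρ g = toLin' ((g : (Matrix (Fin n) (Fin n) ℚ_[ℓ])ˣ) :
      Matrix (Fin n) (Fin n) ℚ_[ℓ]) := fun g => rfl
  have hS : Setup ρ (BJ J) (-1 : ℚ_[ℓ]) :=
    { he := by ring
      symm := BJ_eq (by rw [hJs, neg_smul, one_smul])
      nondeg := BJ_nondeg hG.det
      sim := by
        intro g
        obtain ⟨⟨c, hc0, hc⟩, -, -⟩ := g.2
        refine ⟨c, hc0, fun y z => ?_⟩
        rw [hρ, BJ_move, BJ_move', ← BJ_smul, ← hc]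
      cont := by
        intro y z
        have h1 : Continuous fun g : NG J L₀ => BJ J (ρ g y) z := by
          simp only [BJ_apply, hρ, toLin'_apply]
          exact ((Units.continuous_val.comp continuous_subtype_val).matrix_mulVec
            continuous_const).dotProduct continuous_const
        exact isOpen_compl_singleton.preimage h1
      irr := by
        intro H' W hH' hW
        refine hirr (H'.comap j) W (hH'.preimage hjc) fun h hh y hy => ?_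
        exact hW (j h) hh y hy }
  -- the node
  obtain ⟨γ, hγ⟩ : ∃ γ, Node ρ (BJ J) γ := by
    rw [Matrix.rank, finrank_eq_one_iff'] at hxr
    obtain ⟨⟨v, ⟨y₀, hy₀⟩⟩, hv0, hv⟩ := hxr
    have hv0' : v ≠ 0 := fun h => hv0 (Subtype.ext h)
    have hex : ∀ y, ∃ c : ℚ_[ℓ], x *ᵥ y = c • v := by
      intro y
      obtain ⟨c, hc⟩ := hv ⟨x.mulVecLin y, ⟨y, rfl⟩⟩
      exact ⟨c, (congrArg Subtype.val hc).symm⟩
    choose φ hφ using hex
    have hφ0 : φ y₀ = 1 := by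
      have h1 := hφ y₀
      have h2 : v = x *ᵥ y₀ := hy₀.symm
      have h3 : (φ y₀ - 1) • v = 0 := by rw [sub_smul, ← h1, ← h2, one_smul, sub_self]
      exact sub_eq_zero.1 ((smul_eq_zero.1 h3).resolve_right hv0')
    have hrel : ∀ y z, φ y * BJ J v z = φ z * BJ J v y := by
      intro y z
      have h1 := lie_iff.1 hxJ y z
      rw [toLin'_apply, toLin'_apply, hφ, hφ, map_smul, LinearMap.smul_apply, map_smul,
        smul_eq_mul, smul_eq_mul, BJ_eq (e := -1) (by rw [hJs, neg_smul, one_smul]) y v] at h1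
      linear_combination h1
    have hb : BJ J v y₀ ≠ 0 := by
      intro h
      apply hv0'
      refine BJ_nondeg hG.det v fun z => ?_
      have h1 := hrel y₀ z
      rw [hφ0, one_mul, h, mul_zero] at h1
      exact h1
    refine ⟨v, hv0', ⟨u, huN⟩, (BJ J v y₀)⁻¹, inv_ne_zero hb, fun y => ?_, fun y z => ?_⟩
    · rw [hρ]
      change toLin' (1 + x) y = _
      rw [toLin'_apply, Matrix.add_mulVec, Matrix.one_mulVec, hφ]
      congr 2
      have h1 := hrel y y₀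
      rw [hφ0, one_mul] at h1
      rw [← h1, inv_mul_eq_div, mul_div_assoc, div_self hb, mul_one]
    · rw [hρ]
      change BJ J (toLin' (1 + x) y) (toLin' (1 + x) z) = _
      rw [BJ_move, BJ_move', huiso]
  set L : Submodule ℚ_[ℓ] (Module.End ℚ_[ℓ] (Fin n → ℚ_[ℓ])) :=
    L₀.map (toLin' : Matrix (Fin n) (Fin n) ℚ_[ℓ] ≃ₗ[ℚ_[ℓ]] _).toLinearMap with hLdef
  have hL0 : L ≠ ⊥ := by
    intro h
    obtain ⟨N, hN, hN0⟩ := Submodule.exists_mem_ne_zero_of_ne_bot hL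
    have h3 : toLin' N ∈ L := ⟨N, hN, rfl⟩
    rw [h, Submodule.mem_bot] at h3
    exact hN0 ((LinearEquiv.map_eq_zero_iff
      (toLin' : Matrix (Fin n) (Fin n) ℚ_[ℓ] ≃ₗ[ℚ_[ℓ]] _)).1 h3)
  have hLG : ∀ g, ∀ A ∈ L, ρ g * A * ρ g⁻¹ ∈ L := by
    rintro g _ ⟨A, hA, rfl⟩
    refine ⟨_, g.2.2.1 A hA, ?_⟩
    change toLin' _ = toLin' _ * toLin' A * toLin' _
    rw [Matrix.toLin'_mul, Matrix.toLin'_mul]
    rfl
  have hLB : ∀ A ∈ L, LieCond (BJ J) A := by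
    rintro _ ⟨A, hA, rfl⟩
    exact lie_iff.1 (hle hA)
  intro A hA
  obtain ⟨A', hA', hAA⟩ := adjoint_irreducible (Or.inr rfl) hS hγ hL0 hLG hLB (toLin' A)
    (lie_iff.1 hA)
  have h3 : A' = A := (toLin' : Matrix (Fin n) (Fin n) ℚ_[ℓ] ≃ₗ[ℚ_[ℓ]] _).injective hAA
  rw [← h3]
  exact hA'

end

end Pool.Agent.LM
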