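import Pool.Agent.Lib_helper98.LM.R4
import Pool.Agent.Lib_helper51.LM.BlockR

set_option autoImplicit false

/-!
# One Jordan block and one more element: the adjoint representation is irreducible
-/

namespace Pool.Agent.LM

open Matrix Module Polynomial

section

variable {K : Type} [Field K] [NumberField K] [Algebra K (AlgebraicClosure ℚ)]
  {ℓ : ℕ} [Fact ℓ.Prime] {n : ℕ} {ι : ℚ_[ℓ] →+* ℂ} {w : ℤ}
  {J : Matrix (Fin n) (Fin n) ℚ_[ℓ]}
  {V : GK K →* Matrix (Fin n) (Fin n) ℚ_[ℓ]}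

omit [NumberField K] in
theorem rank_pow_eq_one {N : Matrix (Fin n) (Fin n) ℚ_[ℓ]} (hN : IsNilpotent N)
    (hN' : N ^ (n - 1) ≠ 0) (hn : 0 < n) : (N ^ (n - 1)).rank = 1 := by
  obtain ⟨m, rfl⟩ : ∃ m, n = m + 1 := ⟨n - 1, by omega⟩
  have hNn : N ^ (m + 1) = 0 := nilp_pow hN
  rw [Nat.add_sub_cancel] at hN' ⊢
  have h1 : (toLin' N) ^ (m + 1) = 0 := by rw [← Matrix.toLin'_pow, hNn, map_zero]
  have h2 : (toLin' N) ^ m ≠ 0 := by
    rw [← Matrix.toLin'_pow]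
    intro h
    exact hN' ((LinearEquiv.map_eq_zero_iff
      (toLin' : Matrix (Fin (m + 1)) (Fin (m + 1)) ℚ_[ℓ] ≃ₗ[ℚ_[ℓ]] _)).1 h)
  obtain ⟨x, hx⟩ : ∃ x, ((toLin' N) ^ m) x ≠ 0 := by
    by_contra hcon
    push Not at hcon
    exact h2 (LinearMap.ext hcon)
  rw [Matrix.rank, finrank_eq_one_iff']
  have hpow : ∀ y, (N ^ m).mulVecLin y = ((toLin' N) ^ m) y := by
    intro y
    rw [← Matrix.toLin'_pow, toLin'_apply, Matrix.mulVecLin_apply]
  refine ⟨⟨((toLin' N) ^ m) x, ⟨x, hpow x⟩⟩, fun h => hx (congrArg Subtype.val h), ?_⟩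
  rintro ⟨_, ⟨y, rfl⟩⟩
  have hz : toLin' N (((toLin' N) ^ m) y) = 0 := by
    rw [← Module.End.mul_apply, ← pow_succ', h1, LinearMap.zero_apply]
  obtain ⟨c, hc⟩ := ker_of_block h1 hx (by rw [finrank_fin_fun]) _ hz
  exact ⟨c, Subtype.ext (hc.symm.trans (hpow y).symm)⟩

/-- the span of the logarithms of the unipotent elements -/
noncomputable def L1 (V : GK K →* Matrix (Fin n) (Fin n) ℚ_[ℓ]) :
    Submodule ℚ_[ℓ] (Matrix (Fin n) (Fin n) ℚ_[ℓ]) :=
  Submodule.span ℚ_[ℓ] {N | IsNilpotent N ∧ ∃ s : GK K, V s = IsNilpotent.exp N}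

omit [NumberField K] in
theorem L1_conj (g : GK K) : ∀ A ∈ L1 V, V g * A * V g⁻¹ ∈ L1 V := by
  intro A hA
  induction hA using Submodule.span_induction with
  | mem N hN =>
    obtain ⟨hN, s, hs⟩ := hN
    refine Submodule.subset_span ⟨(conj_exp g hN).1, g * s * g⁻¹, ?_⟩
    rw [map_mul, map_mul, hs, (conj_exp g hN).2]
  | zero => rw [mul_zero, zero_mul]; exact Submodule.zero_mem _
  | add A B _ _ hA hB => rw [mul_add, add_mul]; exact Submodule.add_mem _ hA hB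
  | smul c A _ hA => rw [mul_smul_comm, smul_mul_assoc]; exact Submodule.smul_mem _ c hA

omit [NumberField K] in
theorem L1_bracket {L₀ : Submodule ℚ_[ℓ] (Matrix (Fin n) (Fin n) ℚ_[ℓ])}
    (hst : ∀ (g : GK K), ∀ A ∈ L₀, V g * A * V g⁻¹ ∈ L₀) :
    ∀ B ∈ L1 V, ∀ A ∈ L₀, B * A - A * B ∈ L₀ := by
  intro B hB
  induction hB using Submodule.span_induction with
  | mem N hN =>
    obtain ⟨hN, s, hs⟩ := hN
    exact bracket_mem hst hN hs
  | zero => intro A _; rw [mul_zero, zero_mul, sub_zero]; exact L₀.zero_mem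
  | add B C _ _ hB hC =>
    intro A hA
    rw [add_mul, mul_add, add_sub_add_comm]
    exact L₀.add_mem (hB A hA) (hC A hA)
  | smul c B _ hB =>
    intro A hA
    rw [smul_mul_assoc, mul_smul_comm, ← smul_sub]
    exact L₀.smul_mem c (hB A hA)

omit [NumberField K] in
theorem L1_lie (hG : Geo ι w J V) : ∀ A ∈ L1 V, Aᵀ * J + J * A = 0 := by
  have h1 : L1 V ≤ LieJ J := by
    refine Submodule.span_le.2 ?_
    rintro N ⟨hN, s, hs⟩
    obtain ⟨c, hc⟩ := hG.sim s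
    rw [hs] at hc
    exact (unip_lie hN hG.det hc).1
  exact fun A hA => mem_LieJ.1 (h1 hA)

omit [NumberField K] in
/-- irreducible under the Lie algebra -/
theorem L1_irr (hirr : Irr V) {N : Matrix (Fin n) (Fin n) ℚ_[ℓ]} (hN : IsNilpotent N)
    (hNL : N ∈ L1 V) (hN' : N ^ (n - 1) ≠ 0) (W : Submodule ℚ_[ℓ] (Fin n → ℚ_[ℓ]))
    (hW : ∀ A ∈ L1 V, ∀ x ∈ W, A *ᵥ x ∈ W) : W = ⊥ ∨ W = ⊤ := by
  have hn : 0 < n := by
    rcases Nat.eq_zero_or_pos n with h | h
    · subst h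
      exact absurd (Subsingleton.elim _ _) hN'
    · exact h
  have hVu' : ∀ g, V g⁻¹ * V g = 1 := fun g => by rw [← map_mul, inv_mul_cancel, map_one]
  refine hirr ⊤ W (by rw [Subgroup.coe_top]; exact isOpen_univ) fun σ _ x hx => ?_
  obtain ⟨m, rfl⟩ : ∃ m, n = m + 1 := ⟨n - 1, by omega⟩
  have hNn : N ^ (m + 1) = 0 := nilp_pow hN
  rw [Nat.add_sub_cancel] at hN'
  have h1 : (toLin' N) ^ (m + 1) = 0 := by rw [← Matrix.toLin'_pow, hNn, map_zero]
  have h2 : (toLin' N) ^ m ≠ 0 := by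
    rw [← Matrix.toLin'_pow]
    intro h
    exact hN' ((LinearEquiv.map_eq_zero_iff
      (toLin' : Matrix (Fin (m + 1)) (Fin (m + 1)) ℚ_[ℓ] ≃ₗ[ℚ_[ℓ]] _)).1 h)
  have hinj : Function.Injective (toLin' (V σ)) := by
    intro x y hxy
    have h3 := congrArg (toLin' (V σ⁻¹)) hxy
    rwa [← Matrix.toLin'_mul_apply, ← Matrix.toLin'_mul_apply, hVu', Matrix.toLin'_one] at h3
  have h3 : W.map (toLin' (V σ)) = W := by
    refine chain_unique (m := m) (by rw [finrank_fin_fun]) h1 h2 ?_ ?_ ?_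
    · rintro _ ⟨y, hy, rfl⟩
      have h4 := L1_conj (V := V) σ⁻¹ N hNL
      rw [inv_inv] at h4
      refine ⟨_, hW _ h4 y hy, ?_⟩
      rw [← toLin'_apply, ← Matrix.toLin'_mul_apply, ← Matrix.toLin'_mul_apply, ← mul_assoc,
        ← mul_assoc]
      have h5 : V σ * V σ⁻¹ = 1 := by rw [← map_mul, mul_inv_cancel, map_one]
      rw [h5, one_mul]
    · intro y hy
      rw [toLin'_apply]
      exact hW N hNL y hy
    · exact (LinearEquiv.finrank_eq (Submodule.equivMapOfInjective _ hinj W)).symm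
  have h4 : toLin' (V σ) x ∈ W.map (toLin' (V σ)) := ⟨x, hx, rfl⟩
  rwa [h3] at h4

omit [NumberField K] in
/-- the logarithms of the unipotent elements are not all in the principal `sl 2` -/
theorem not_principal (hn : 2 ≤ n)
    {N : Matrix (Fin n) (Fin n) ℚ_[ℓ]} (hNL : N ∈ L1 V)
    (hex : (∃ g : GK K, ¬ GP ι (V g)) ∨ ∃ (s : GK K) (N' : Matrix (Fin n) (Fin n) ℚ_[ℓ]),
      IsNilpotent N' ∧ V s = IsNilpotent.exp N' ∧ N' ≠ 0 ∧ N' ^ (n - 1) = 0)
    {P Q h f : Matrix (Fin n) (Fin n) ℚ_[ℓ]} (hPQ : P * Q = 1)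
    (hPe : P * N * Q = Matrix.of (fun i j => if i.val = j.val + 1 then 1 else 0))
    (hPh : P * h * Q = Matrix.diagonal (fun i => (i.val : ℚ_[ℓ]) - ((n : ℚ_[ℓ]) - 1) / 2))
    (hPf : P * f * Q = Matrix.of (fun i j => if i.val + 1 = j.val then
      (j.val : ℚ_[ℓ]) * ((n : ℚ_[ℓ]) - j.val) / 2 else 0))
    (hh : h ∈ L1 V) (hf : f ∈ L1 V) (hspan : L1 V ≤ Submodule.span ℚ_[ℓ] {N, h, f}) : False := by
  have hQP : Q * P = 1 := mul_eq_one_comm.1 hPQ
  have hPe' : P * N * Q = pE ℚ_[ℓ] n := hPe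
  have hPh' : P * h * Q = pH ℚ_[ℓ] n := hPh
  have hPf' : P * f * Q = pF ℚ_[ℓ] n := hPf
  have hin : ∀ A ∈ L1 V, P * A * Q ∈ pS ℚ_[ℓ] n := by
    intro A hA
    obtain ⟨a, b, c, rfl⟩ := Submodule.mem_span_triple.1 (hspan hA)
    refine mem_pS.2 ⟨a, b, c, ?_⟩
    rw [← hPe', ← hPh', ← hPf']
    simp only [mul_add, add_mul, mul_smul_comm, smul_mul_assoc]
  rcases hex with ⟨g, hg⟩ | ⟨s', N₂, hN₂, hs', hN₂0, hN₂'⟩
  · apply hg
    have hmul : ∀ A B : Matrix (Fin n) (Fin n) ℚ_[ℓ], (A * B).map ι = A.map ι * B.map ι :=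
      fun A B => Matrix.map_mul
    have hVg : V g * V g⁻¹ = 1 := by rw [← map_mul, mul_inv_cancel, map_one]
    have hVg' : V g⁻¹ * V g = 1 := by rw [← map_mul, inv_mul_cancel, map_one]
    have hι2 : ι 2 = 2 := map_ofNat ι 2
    have hE : (pE ℚ_[ℓ] n).map ι = pE ℂ n := by
      ext i j
      rw [Matrix.map_apply, pE, pE, Matrix.of_apply, Matrix.of_apply]
      split_ifs <;> simp
    have hH : (pH ℚ_[ℓ] n).map ι = pH ℂ n := by
      rw [pH, pH, Matrix.diagonal_map (map_zero ι)]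
      congr 1
      funext i
      simp [hι2]
    have hFF : (pF ℚ_[ℓ] n).map ι = pF ℂ n := by
      ext i j
      rw [Matrix.map_apply, pF, pF, Matrix.of_apply, Matrix.of_apply]
      split_ifs <;> simp [hι2]
    have hmapS : ∀ A ∈ pS ℚ_[ℓ] n, A.map ι ∈ pS ℂ n := by
      intro A hA
      obtain ⟨a, b, c, rfl⟩ := mem_pS.1 hA
      refine mem_pS.2 ⟨ι a, ι b, ι c, ?_⟩
      rw [← hE, ← hH, ← hFF]
      ext i j
      simp
    have hconj : ∀ A ∈ L1 V, (P * V g * Q).map ι * (P * A * Q).map ι * (P * V g⁻¹ * Q).map ι ∈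
        pS ℂ n := by
      intro A hA
      rw [← hmul, ← hmul]
      have h1 : P * V g * Q * (P * A * Q) * (P * V g⁻¹ * Q) = P * (V g * A * V g⁻¹) * Q := by
        calc P * V g * Q * (P * A * Q) * (P * V g⁻¹ * Q)
            = P * V g * (Q * P) * A * (Q * P) * V g⁻¹ * Q := by noncomm_ring
          _ = P * (V g * A * V g⁻¹) * Q := by rw [hQP]; noncomm_ring
      rw [h1]
      exact hmapS _ (hin _ (L1_conj g A hA))
    obtain ⟨c, t, hct⟩ := normalizer_gp (k := ℂ) hn ((P * V g * Q).map ι) ((P * V g⁻¹ * Q).map ι)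
      (by
        rw [← hmul]
        have h1 : P * V g⁻¹ * Q * (P * V g * Q) = 1 := by
          calc P * V g⁻¹ * Q * (P * V g * Q) = P * V g⁻¹ * (Q * P) * V g * Q := by noncomm_ring
            _ = P * (V g⁻¹ * V g) * Q := by rw [hQP]; noncomm_ring
            _ = 1 := by rw [hVg', mul_one, hPQ]
        rw [h1]
        exact Matrix.map_one _ (map_zero _) (map_one _)) (by
        intro x hx
        obtain ⟨a, b, c, rfl⟩ := mem_pS.1 hx
        rw [← hE, ← hH, ← hFF, ← hPe', ← hPh', ← hPf']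
        simp only [mul_add, add_mul, mul_smul_comm, smul_mul_assoc]
        exact Submodule.add_mem _ (Submodule.add_mem _ (Submodule.smul_mem _ _ (hconj N hNL))
          (Submodule.smul_mem _ _ (hconj h hh))) (Submodule.smul_mem _ _ (hconj f hf)))
    refine ⟨c, t, ?_⟩
    rw [← hct]
    have h1 : (P * V g * Q).charpoly = (V g).charpoly := by
      have h2 := Matrix.charpoly_units_conj
        (⟨P, Q, hPQ, hQP⟩ : (Matrix (Fin n) (Fin n) ℚ_[ℓ])ˣ) (V g)
      have h3 : P⁻¹ = Q := Matrix.inv_eq_right_inv hPQ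
      rw [← h3]
      exact h2
    rw [← h1]
    exact (Matrix.charpoly_map (P * V g * Q) ι).symm
  · have hN₂L : N₂ ∈ L1 V := Submodule.subset_span ⟨hN₂, s', hs'⟩
    have hpow : ∀ m : ℕ, (P * N₂ * Q) ^ m = P * N₂ ^ m * Q := by
      intro m
      induction m with
      | zero => rw [pow_zero, pow_zero, mul_one, hPQ]
      | succ m ih =>
        rw [pow_succ, ih, pow_succ]
        calc P * N₂ ^ m * Q * (P * N₂ * Q) = P * N₂ ^ m * (Q * P) * N₂ * Q := by noncomm_ring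
          _ = P * (N₂ ^ m * N₂) * Q := by rw [hQP]; noncomm_ring
    obtain ⟨m, hm⟩ := hN₂
    refine pS_nilp hn (hin _ hN₂L) ⟨m, by rw [hpow, hm, mul_zero, zero_mul]⟩ ?_ ?_
    · intro h0
      apply hN₂0
      calc N₂ = (Q * P) * N₂ * (Q * P) := by rw [hQP, one_mul, mul_one]
        _ = Q * (P * N₂ * Q) * P := by noncomm_ring
        _ = 0 := by rw [h0, mul_zero, zero_mul]
    · rw [hpow, hN₂', mul_zero, zero_mul]

omit [NumberField K] in
/-- one Jordan block, and an element whose eigenvalues are not in geometric progression or a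
unipotent element with several Jordan blocks -/
theorem adj_irr_block (hG : Geo ι w J V) (hirr : Irr V) (hJs : Jᵀ = -J)
    {N : Matrix (Fin n) (Fin n) ℚ_[ℓ]} (hlog : IsLog ι w V N) (hN' : N ^ (n - 1) ≠ 0)
    (hex : (∃ g : GK K, ¬ GP ι (V g)) ∨ ∃ (s : GK K) (N' : Matrix (Fin n) (Fin n) ℚ_[ℓ]),
      IsNilpotent N' ∧ V s = IsNilpotent.exp N' ∧ N' ≠ 0 ∧ N' ^ (n - 1) = 0)
    (L₀ : Submodule ℚ_[ℓ] (Matrix (Fin n) (Fin n) ℚ_[ℓ]))
    (hL : L₀ ≠ ⊥) (hst : ∀ (g : GK K), ∀ A ∈ L₀, V g * A * V g⁻¹ ∈ L₀) (hle : L₀ ≤ LieJ J) :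
    LieJ J ≤ L₀ := by
  obtain ⟨hN, u, j, F, s, -, hF, hs, hrel, -⟩ := hlog
  have hNL : N ∈ L1 V := Submodule.subset_span ⟨hN, s, hs⟩
  have hn : 2 ≤ n := by
    by_contra hcon
    have h1 : n = 0 ∨ n = 1 := by omega
    rcases h1 with rfl | rfl
    · exact hN' (Subsingleton.elim _ _)
    · have h2 : J = 0 := by
        ext i j
        have h3 := congrFun (congrFun hJs i) j
        rw [Matrix.transpose_apply, Matrix.neg_apply, Subsingleton.elim j i] at h3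
        rw [Subsingleton.elim j i, Matrix.zero_apply]
        exact self_eq_neg.1 h3
      exact hG.det (by rw [h2, Matrix.det_zero])
  have hq : 1 < u ^ j := Nat.one_lt_pow (by have := hF.2.1; omega) hF.1.one_lt
  obtain h1 | ⟨P, Q, h, f, hPQ, hPe, hPh, hPf, hh, hf, hspan⟩ := blockR hn J hG.det hJs (L1 V)
    (L1_lie hG) (fun A hA B hB => L1_bracket (fun g => L1_conj g) A hA B hB) N (V F) (V F⁻¹) hNL hN hN'
    (by rw [← map_mul, mul_inv_cancel, map_one]) ((u ^ j : ℕ) : ℚ_[ℓ]) (by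
      intro m hm h
      have h1 : (u ^ j) ^ m = 1 := by exact_mod_cast h
      have h2 : 1 < (u ^ j) ^ m := Nat.one_lt_pow hm.ne' hq
      omega) hrel (L1_conj F) (L1_irr hirr hN hNL hN')
  · -- a nilpotent matrix of rank one
    refine full_of_rank_one hG hirr hJs (L1_lie hG _ h1) hN' ?_ (rank_pow_eq_one hN hN' (by omega))
      L₀ hL hst (L1_bracket hst _ h1) hle
    rw [← pow_add]
    exact pow_eq_zero_of_le (by omega) (nilp_pow hN)
  -- the principal `sl 2`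
  exact (not_principal hn hNL hex hPQ hPe hPh hPf hh hf hspan).elim

end

end Pool.Agent.LM
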