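import Pool.Agent.Lib_helper98.LM.E1

set_option autoImplicit false

/-!
# Tensor powers of matrices
-/

namespace Pool.Agent.LM

open Matrix

section

variable {R : Type*} [CommRing R] {X : Type*} [Fintype X] [DecidableEq X] {k : ℕ}

/-- the tensor product of the matrices `g i` -/
def TP (g : Fin k → Matrix X X R) : Matrix (Fin k → X) (Fin k → X) R :=
  Matrix.of fun x y => ∏ i, g i (x i) (y i)

omit [Fintype X] [DecidableEq X] in
theorem TP_apply (g : Fin k → Matrix X X R) (x y : Fin k → X) :
    TP g x y = ∏ i, g i (x i) (y i) := rfl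

theorem TP_mul (g h : Fin k → Matrix X X R) : TP g * TP h = TP (g * h) := by
  ext x y
  rw [Matrix.mul_apply, TP_apply]
  simp only [TP_apply, Pi.mul_apply, ← Finset.prod_mul_distrib, Matrix.mul_apply,
    Finset.prod_univ_sum, Fintype.piFinset_univ]

theorem TP_one : TP (1 : Fin k → Matrix X X R) = 1 := by
  ext x y
  rw [TP_apply]
  by_cases h : x = y
  · subst h
    simp
  · obtain ⟨i, hi⟩ := Function.ne_iff.1 h
    rw [Matrix.one_apply_ne h]
    exact Finset.prod_eq_zero (Finset.mem_univ i) (by rw [Pi.one_apply, Matrix.one_apply_ne hi])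

theorem TP_transpose (g : Fin k → Matrix X X R) : (TP g)ᵀ = TP (fun i => (g i)ᵀ) := by
  ext x y
  rw [Matrix.transpose_apply, TP_apply, TP_apply]
  rfl

theorem TP_map {S : Type*} [CommRing S] (φ : R →+* S) (g : Fin k → Matrix X X R) :
    (TP g).map φ = TP (fun i => (g i).map φ) := by
  ext x y
  rw [Matrix.map_apply, TP_apply, TP_apply, map_prod]
  rfl

/-- the action of `A` in the argument `i` -/
def Sl (i : Fin k) (A : Matrix X X R) : Matrix (Fin k → X) (Fin k → X) R :=
  TP (Function.update 1 i A)

theorem Sl_apply (i : Fin k) (A : Matrix X X R) (x y : Fin k → X) :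
    Sl i A x y = A (x i) (y i) * ∏ j ∈ Finset.univ.erase i, (1 : Matrix X X R) (x j) (y j) := by
  rw [Sl, TP_apply, ← Finset.mul_prod_erase _ _ (Finset.mem_univ i)]
  congr 1
  · rw [Function.update_self]
  · refine Finset.prod_congr rfl fun j hj => ?_
    rw [Function.update_of_ne (Finset.ne_of_mem_erase hj), Pi.one_apply]

/-- `Sl i` as an algebra homomorphism -/
def SlH (i : Fin k) : Matrix X X R →ₐ[R] Matrix (Fin k → X) (Fin k → X) R :=
  AlgHom.ofLinearMap
    { toFun := Sl i
      map_add' := by
        intro A B
        ext x y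
        rw [Matrix.add_apply, Sl_apply, Sl_apply, Sl_apply, Matrix.add_apply, add_mul]
      map_smul' := by
        intro c A
        ext x y
        rw [Matrix.smul_apply, Sl_apply, Sl_apply, Matrix.smul_apply, smul_mul_assoc,
          RingHom.id_apply] }
    (by
      change TP _ = 1
      rw [← TP_one]
      congr 1
      exact Function.update_eq_self i 1) (by
      intro A B
      change TP _ = TP _ * TP _
      rw [TP_mul]
      congr 1
      rw [← Function.update_mul, mul_one])

theorem SlH_apply (i : Fin k) (A : Matrix X X R) : SlH i A = Sl i A := rfl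

theorem Sl_commute {i j : Fin k} (hij : i ≠ j) (A B : Matrix X X R) :
    Commute (Sl i A) (Sl j B) := by
  have h : ∀ i j : Fin k, i ≠ j → ∀ A B : Matrix X X R,
      Function.update (1 : Fin k → Matrix X X R) i A *
      Function.update (1 : Fin k → Matrix X X R) j B =
        Function.update (Function.update (1 : Fin k → Matrix X X R) i A) j B := by
    intro i j hij A B
    funext l
    rw [Pi.mul_apply]
    by_cases hj : l = j
    · subst hj
      rw [Function.update_self, Function.update_self, Function.update_of_ne (Ne.symm hij),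
        Pi.one_apply, one_mul]
    · rw [Function.update_of_ne hj, Function.update_of_ne hj, Pi.one_apply, mul_one]
  change TP _ * TP _ = TP _ * TP _
  rw [TP_mul, TP_mul, h i j hij, h j i (Ne.symm hij), Function.update_comm hij]

/-- the action of `A` by derivations -/
def DD (A : Matrix X X R) : Matrix (Fin k → X) (Fin k → X) R := ∑ i, Sl i A

theorem DD_add (A B : Matrix X X R) : DD (k := k) (A + B) = DD A + DD B := by
  rw [DD, DD, DD, ← Finset.sum_add_distrib]
  exact Finset.sum_congr rfl fun i _ => map_add (SlH i) A B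

theorem DD_smul (c : R) (A : Matrix X X R) : DD (k := k) (c • A) = c • DD A := by
  rw [DD, DD, Finset.smul_sum]
  exact Finset.sum_congr rfl fun i _ => map_smul (SlH i) c A

/-- `DD` as a linear map -/
def DDl : Matrix X X R →ₗ[R] Matrix (Fin k → X) (Fin k → X) R where
  toFun := DD
  map_add' := DD_add
  map_smul' := DD_smul

theorem DD_map {S : Type*} [CommRing S] (φ : R →+* S) (A : Matrix X X R) :
    (DD (k := k) A).map φ = DD (A.map φ) := by
  ext x y
  rw [Matrix.map_apply, DD, DD, Matrix.sum_apply, Matrix.sum_apply, map_sum]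
  refine Finset.sum_congr rfl fun i _ => ?_
  rw [Sl_apply, Sl_apply, map_mul, map_prod, Matrix.map_apply]
  congr 1
  refine Finset.prod_congr rfl fun j _ => ?_
  by_cases h : x j = y j
  · rw [h]; simp
  · rw [Matrix.one_apply_ne h, Matrix.one_apply_ne h, map_zero]

theorem DD_conjTranspose [StarRing R] (A : Matrix X X R) :
    (DD (k := k) A)ᴴ = DD Aᴴ := by
  ext x y
  rw [Matrix.conjTranspose_apply, DD, DD, Matrix.sum_apply, Matrix.sum_apply, star_sum]
  refine Finset.sum_congr rfl fun i _ => ?_
  rw [Sl_apply, Sl_apply, star_mul', star_prod, Matrix.conjTranspose_apply]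
  congr 1
  refine Finset.prod_congr rfl fun j _ => ?_
  by_cases h : x j = y j
  · rw [h]; simp
  · rw [Matrix.one_apply_ne h, Matrix.one_apply_ne (Ne.symm h), star_zero]

theorem TP_DD (P A : Matrix X X R) :
    TP (k := k) (fun _ => P) * DD A = ∑ i, TP (Function.update (fun _ => P) i (P * A)) := by
  rw [DD, Finset.mul_sum]
  refine Finset.sum_congr rfl fun i _ => ?_
  rw [Sl, TP_mul]
  congr 1
  funext j
  rw [Pi.mul_apply]
  by_cases h : j = i
  · subst h; rw [Function.update_self, Function.update_self]
  · rw [Function.update_of_ne h, Function.update_of_ne h, Pi.one_apply, mul_one]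

theorem DD_TP (P A : Matrix X X R) :
    DD A * TP (k := k) (fun _ => P) = ∑ i, TP (Function.update (fun _ => P) i (A * P)) := by
  rw [DD, Finset.sum_mul]
  refine Finset.sum_congr rfl fun i _ => ?_
  rw [Sl, TP_mul]
  congr 1
  funext j
  rw [Pi.mul_apply]
  by_cases h : j = i
  · subst h; rw [Function.update_self, Function.update_self]
  · rw [Function.update_of_ne h, Function.update_of_ne h, Pi.one_apply, one_mul]

theorem TP_DD_comm {P A B : Matrix X X R} (h : P * A = B * P) :
    TP (k := k) (fun _ => P) * DD A = DD B * TP (fun _ => P) := by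
  rw [TP_DD, DD_TP, h]

end

section

variable {R : Type*} [Field R] [CharZero R] {X : Type*} [Fintype X] [DecidableEq X] {k : ℕ}

theorem exp_DD [Module ℚ (Matrix X X R)] [Module ℚ (Matrix (Fin k → X) (Fin k → X) R)]
    {N : Matrix X X R} (hN : IsNilpotent N) :
    IsNilpotent (DD (k := k) N) ∧
      IsNilpotent.exp (DD (k := k) N) = TP (k := k) (fun _ => IsNilpotent.exp N) := by
  classical
  have key : ∀ s : Finset (Fin k), IsNilpotent (∑ i ∈ s, Sl i N) ∧
      IsNilpotent.exp (∑ i ∈ s, Sl i N) =
        TP (fun j => if j ∈ s then IsNilpotent.exp N else 1) := by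
    intro s
    induction s using Finset.induction_on with
    | empty =>
      refine ⟨by rw [Finset.sum_empty]; exact IsNilpotent.zero, ?_⟩
      rw [Finset.sum_empty, IsNilpotent.exp_zero, ← TP_one]
      rfl
    | insert i s hi ih =>
      have h1 : IsNilpotent (Sl i N) := hN.map (SlH i)
      have h2 : Commute (Sl i N) (∑ j ∈ s, Sl j N) :=
        Commute.sum_right _ _ _ fun j hj => Sl_commute (by rintro rfl; exact hi hj) N N
      rw [Finset.sum_insert hi]
      refine ⟨h2.isNilpotent_add h1 ih.1, ?_⟩
      rw [IsNilpotent.exp_add_of_commute h2 h1 ih.1, ih.2]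
      have h3 : IsNilpotent.exp (Sl i N) = Sl i (IsNilpotent.exp N) := by
        rw [← SlH_apply, ← SlH_apply, IsNilpotent.map_exp hN (SlH i)]
      rw [h3, Sl, TP_mul]
      congr 1
      funext j
      rw [Pi.mul_apply]
      by_cases h : j = i
      · subst h
        rw [Function.update_self, if_neg hi, mul_one, if_pos (Finset.mem_insert_self _ _)]
      · rw [Function.update_of_ne h, Pi.one_apply, one_mul]
        by_cases hj : j ∈ s
        · rw [if_pos hj, if_pos (Finset.mem_insert_of_mem hj)]
        · rw [if_neg hj, if_neg (fun h' => (Finset.mem_insert.1 h').elim h hj)]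
  obtain ⟨h1, h2⟩ := key Finset.univ
  refine ⟨h1, ?_⟩
  rw [DD, h2]
  congr 1
  funext j
  rw [if_pos (Finset.mem_univ j)]

end

end Pool.Agent.LM
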