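import Mathlib

set_option autoImplicit false

/-!
# Compact real forms
-/

namespace Pool.Agent.LM

open Matrix
open scoped ComplexOrder MatrixOrder

section

variable {n : Type*} [Fintype n] [DecidableEq n]

omit [Fintype n] [DecidableEq n] in
theorem ct_comm (A : Matrix n n ℂ) : Aᵀᴴ = Aᴴᵀ := rfl

theorem sylvester_zero {A B Z : Matrix n n ℂ} (hA : A.PosSemidef) (hB : B.PosSemidef)
    (hAu : IsUnit A.det) (h : A * Z + Z * B = 0) : Z = 0 := by
  have h1 : (Zᴴ * A * Z).PosSemidef := hA.conjTranspose_mul_mul_same Z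
  have h2 : (Z * B * Zᴴ).PosSemidef := hB.mul_mul_conjTranspose_same Z
  have h3 : (Zᴴ * A * Z).trace + (Z * B * Zᴴ).trace = 0 := by
    rw [Matrix.trace_mul_comm (Z * B) Zᴴ, ← Matrix.trace_add, mul_assoc, ← mul_add, h, mul_zero,
      Matrix.trace_zero]
  have h4 : (Zᴴ * A * Z).trace = 0 :=
    le_antisymm (by rw [eq_neg_of_add_eq_zero_left h3]; exact neg_nonpos.2 h2.trace_nonneg)
      h1.trace_nonneg
  rw [h1.trace_eq_zero_iff] at h4
  obtain ⟨B', hB'⟩ := CStarAlgebra.nonneg_iff_eq_star_mul_self.mp hA.nonneg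
  rw [Matrix.star_eq_conjTranspose] at hB'
  have h5 : (B' * Z)ᴴ * (B' * Z) = 0 := by
    rw [Matrix.conjTranspose_mul, mul_assoc, ← mul_assoc B'ᴴ, ← hB', ← mul_assoc, h4]
  rw [Matrix.conjTranspose_mul_self_eq_zero] at h5
  have h6 : A * Z = 0 := by rw [hB', mul_assoc, h5, mul_zero]
  have h7 := congrArg (A⁻¹ * ·) h6
  simp only [mul_zero] at h7
  rwa [← mul_assoc, Matrix.nonsing_inv_mul A hAu, one_mul] at h7

/-- the Lie algebra of a symmetric or alternating form over `ℂ` is closed under adjoints, in a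
suitable basis -/
theorem herm_exists (J : Matrix n n ℂ) (hJ : J.det ≠ 0) (hJs : Jᵀ = J ∨ Jᵀ = -J) :
    ∃ P Q : Matrix n n ℂ, P * Q = 1 ∧ ∀ A, Aᵀ * J + J * A = 0 →
      ∃ A', A'ᵀ * J + J * A' = 0 ∧ (P * A * Q)ᴴ = P * A' * Q := by
  have hJu : IsUnit J.det := isUnit_iff_ne_zero.2 hJ
  have hS : (Jᴴ * J).PosSemidef := Matrix.posSemidef_conjTranspose_mul_self J
  set H := CFC.sqrt (Jᴴ * J) with hH
  have hHH : H * H = Jᴴ * J := CFC.sqrt_mul_sqrt_self _ hS.nonneg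
  have hHp : H.PosSemidef := (CFC.sqrt_nonneg _).posSemidef
  have hHh : Hᴴ = H := hHp.isHermitian
  set P := CFC.sqrt H with hP
  have hPP : P * P = H := CFC.sqrt_mul_sqrt_self _ hHp.nonneg
  have hPp : P.PosSemidef := (CFC.sqrt_nonneg _).posSemidef
  have hPh : Pᴴ = P := hPp.isHermitian
  have hHu : IsUnit H.det := by
    rw [isUnit_iff_ne_zero]
    intro h
    have h1 := congrArg Matrix.det hHH
    rw [Matrix.det_mul, h, mul_zero, Matrix.det_mul, Matrix.det_conjTranspose] at h1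
    exact mul_ne_zero (star_ne_zero.2 hJ) hJ h1.symm
  have hPu : IsUnit P.det := by
    rw [isUnit_iff_ne_zero]
    intro h
    have h1 := congrArg Matrix.det hPP
    rw [Matrix.det_mul, h, mul_zero] at h1
    exact hHu.ne_zero h1.symm
  have hTp : (Hᵀ).PosSemidef := hHp.transpose
  have hTu : IsUnit (Hᵀ).det := by rwa [Matrix.det_transpose]
  have hTT : Hᵀ * Hᵀ = J * Jᴴ := by
    rw [← Matrix.transpose_mul, hHH, Matrix.transpose_mul]
    rcases hJs with h | h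
    · have h1 : Jᴴᵀ = Jᴴ := by
        have := congrArg Matrix.conjTranspose h
        rwa [ct_comm] at this
      rw [h, h1]
    · have h1 : Jᴴᵀ = -Jᴴ := by
        have := congrArg Matrix.conjTranspose h
        rwa [Matrix.conjTranspose_neg, ct_comm] at this
      rw [h, h1, neg_mul_neg]
  have hcomm : Hᵀ * J = J * H := by
    have h1 : Hᵀ * (Hᵀ * J - J * H) + (Hᵀ * J - J * H) * H = 0 := by
      rw [mul_sub, sub_mul, ← mul_assoc Hᵀ Hᵀ J, hTT, mul_assoc J H H, hHH, ← mul_assoc Hᵀ J H,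
        mul_assoc J Jᴴ J]
      abel
    exact sub_eq_zero.1 (sylvester_zero hTp hHp hTu h1)
  refine ⟨P, P⁻¹, Matrix.mul_nonsing_inv P hPu, fun A hA => ⟨H⁻¹ * Aᴴ * H, ?_, ?_⟩⟩
  · have h1 : (H⁻¹ * Aᴴ * H)ᵀ = Hᵀ * Aᴴᵀ * Hᵀ⁻¹ := by
      rw [Matrix.transpose_mul, Matrix.transpose_mul, Matrix.transpose_nonsing_inv, mul_assoc]
    have h2 : Hᵀ⁻¹ * J = J * H⁻¹ := by
      have h3 : Hᵀ⁻¹ * (Hᵀ * J) * H⁻¹ = Hᵀ⁻¹ * (J * H) * H⁻¹ := by rw [hcomm]
      rw [← mul_assoc, Matrix.nonsing_inv_mul _ hTu, one_mul, mul_assoc, mul_assoc J,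
        Matrix.mul_nonsing_inv H hHu, mul_one] at h3
      exact h3.symm
    -- `Jᴴ * conj A = - Aᴴ * Jᴴ`
    have h4 : Jᴴ * Aᴴᵀ = -(Aᴴ * Jᴴ) := by
      have h5 := congrArg Matrix.conjTranspose (eq_neg_of_add_eq_zero_left hA)
      rw [Matrix.conjTranspose_mul, Matrix.conjTranspose_neg, Matrix.conjTranspose_mul,
        ct_comm] at h5
      exact h5
    have hJHu : IsUnit (Jᴴ).det := by
      rw [Matrix.det_conjTranspose]
      exact isUnit_iff_ne_zero.2 (star_ne_zero.2 hJ)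
    have h6 : Aᴴᵀ * J * H⁻¹ = -(Jᴴ⁻¹ * Aᴴ * H) := by
      have h7 : Aᴴᵀ = -(Jᴴ⁻¹ * Aᴴ * Jᴴ) := by
        have h8 := congrArg (Jᴴ⁻¹ * ·) h4
        simp only [mul_neg] at h8
        rw [← mul_assoc, Matrix.nonsing_inv_mul _ hJHu, one_mul, ← mul_assoc] at h8
        exact h8
      rw [h7, neg_mul, neg_mul, mul_assoc _ Jᴴ J, ← hHH, mul_assoc, mul_assoc H H,
        Matrix.mul_nonsing_inv H hHu, mul_one]
    have h9 : Hᵀ * Jᴴ⁻¹ = J * H⁻¹ := by
      have h10 : Hᵀ * (Hᵀ * Jᴴ⁻¹) = Hᵀ * (J * H⁻¹) := by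
        rw [← mul_assoc, hTT, mul_assoc, Matrix.mul_nonsing_inv _ hJHu, mul_one, ← mul_assoc, hcomm,
          mul_assoc, Matrix.mul_nonsing_inv H hHu, mul_one]
      have h11 := congrArg (Hᵀ⁻¹ * ·) h10
      rwa [← mul_assoc, ← mul_assoc, ← mul_assoc, Matrix.nonsing_inv_mul _ hTu, one_mul, one_mul,
        ] at h11
    rw [h1, mul_assoc (Hᵀ * Aᴴᵀ), h2, mul_assoc Hᵀ, ← mul_assoc Aᴴᵀ, h6, mul_neg, ← mul_assoc Hᵀ,
      ← mul_assoc Hᵀ, h9, ← mul_assoc J, ← mul_assoc J]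
    exact neg_add_cancel _
  · have h1 : P⁻¹ᴴ = P⁻¹ := by rw [Matrix.conjTranspose_nonsing_inv, hPh]
    have h2 : P * H⁻¹ = P⁻¹ := by
      rw [← hPP, Matrix.mul_inv_rev, ← mul_assoc, Matrix.mul_nonsing_inv P hPu, one_mul]
    have h3 : H * P⁻¹ = P := by
      rw [← hPP, mul_assoc, Matrix.mul_nonsing_inv P hPu, mul_one]
    rw [Matrix.conjTranspose_mul, Matrix.conjTranspose_mul, h1, hPh, mul_assoc, mul_assoc,
      mul_assoc, h3, ← mul_assoc P, h2]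

end

end Pool.Agent.LM
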