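import Pool.Agent.Lib_helper98.LM.S2

set_option autoImplicit false

/-!
# Equivariant projections: descent from `ℂ`
-/

namespace Pool.Agent.LM

open Matrix Module

section

open scoped ComplexOrder

variable {Y : Type*} [Fintype Y] [DecidableEq Y] {r : ℕ}

/-- the orthogonal projection -/
theorem proj_complex (B : Matrix Y (Fin r) ℂ) (L : Matrix (Fin r) Y ℂ) (hL : L * B = 1) :
    ∃ R : Matrix (Fin r) Y ℂ, R * B = 1 ∧ ∀ (A : Matrix Y Y ℂ) (C C' : Matrix (Fin r) (Fin r) ℂ),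
      A * B = B * C → Aᴴ * B = B * C' → B * R * A = A * (B * R) := by
  have hinj : Function.Injective B.mulVec := by
    intro x y hxy
    have h1 := congrArg (L *ᵥ ·) hxy
    simpa [Matrix.mulVec_mulVec, hL] using h1
  have hpd : (Bᴴ * B).PosDef := Matrix.PosDef.conjTranspose_mul_self B hinj
  have hu : IsUnit (Bᴴ * B).det := (Matrix.isUnit_iff_isUnit_det _).1 hpd.isUnit
  refine ⟨(Bᴴ * B)⁻¹ * Bᴴ, ?_, ?_⟩
  · rw [Matrix.mul_assoc, Matrix.nonsing_inv_mul _ hu]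
  intro A C C' hC hC'
  have h1 : C'ᴴ * (Bᴴ * B) = Bᴴ * B * C := by
    have h2 : C'ᴴ * Bᴴ = Bᴴ * A := by
      have h3 := congrArg Matrix.conjTranspose hC'
      rw [Matrix.conjTranspose_mul, Matrix.conjTranspose_mul, Matrix.conjTranspose_conjTranspose]
        at h3
      exact h3.symm
    rw [← Matrix.mul_assoc, h2, Matrix.mul_assoc, hC, ← Matrix.mul_assoc]
  have h2 : (Bᴴ * B)⁻¹ * C'ᴴ = C * (Bᴴ * B)⁻¹ := by
    have h3 : (Bᴴ * B)⁻¹ * (C'ᴴ * (Bᴴ * B)) * (Bᴴ * B)⁻¹ =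
        (Bᴴ * B)⁻¹ * (Bᴴ * B * C) * (Bᴴ * B)⁻¹ := by rw [h1]
    rw [Matrix.mul_assoc, Matrix.mul_assoc C'ᴴ, Matrix.mul_nonsing_inv _ hu, Matrix.mul_one, ← Matrix.mul_assoc,
      Matrix.nonsing_inv_mul _ hu, Matrix.one_mul] at h3
    exact h3
  have h4 : C'ᴴ * Bᴴ = Bᴴ * A := by
    have h3 := congrArg Matrix.conjTranspose hC'
    rw [Matrix.conjTranspose_mul, Matrix.conjTranspose_mul, Matrix.conjTranspose_conjTranspose]
      at h3
    exact h3.symm
  calc B * ((Bᴴ * B)⁻¹ * Bᴴ) * A = B * ((Bᴴ * B)⁻¹ * (Bᴴ * A)) := by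
        rw [Matrix.mul_assoc, Matrix.mul_assoc]
    _ = B * ((Bᴴ * B)⁻¹ * C'ᴴ * Bᴴ) := by rw [← h4, Matrix.mul_assoc]
    _ = B * C * ((Bᴴ * B)⁻¹ * Bᴴ) := by rw [h2, Matrix.mul_assoc, Matrix.mul_assoc]
    _ = A * (B * ((Bᴴ * B)⁻¹ * Bᴴ)) := by rw [← hC, Matrix.mul_assoc]

end

section

variable {k : Type*} [Field k] (ι : k →+* ℂ)

/-- a retraction of `ι` -/
theorem exists_retract : ∃ ρ : ℂ →+ k, ρ 1 = 1 ∧ ∀ (a : k) (z : ℂ), ρ (ι a * z) = a * ρ z := by
  let _ : Algebra k ℂ := ι.toAlgebra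
  obtain ⟨ρ, hρ⟩ := LinearMap.exists_leftInverse_of_injective (Algebra.linearMap k ℂ)
    (LinearMap.ker_eq_bot.2 ι.injective)
  refine ⟨ρ.toAddMonoidHom, ?_, fun a z => ?_⟩
  · have h1 := LinearMap.congr_fun hρ 1
    simpa using h1
  · have h1 := ρ.map_smul a z
    rw [Algebra.smul_def] at h1
    exact h1

theorem retract_mulL {ρ : ℂ →+ k} (hρ : ∀ (a : k) (z : ℂ), ρ (ι a * z) = a * ρ z)
    {m m' m'' : Type*} [Fintype m'] (A : Matrix m m' k) (Z : Matrix m' m'' ℂ) :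
    (A.map ι * Z).map ρ = A * Z.map ρ := by
  ext i j
  rw [Matrix.map_apply, Matrix.mul_apply, Matrix.mul_apply, map_sum]
  exact Finset.sum_congr rfl fun l _ => hρ _ _

theorem retract_mulR {ρ : ℂ →+ k} (hρ : ∀ (a : k) (z : ℂ), ρ (ι a * z) = a * ρ z)
    {m m' m'' : Type*} [Fintype m'] (Z : Matrix m m' ℂ) (A : Matrix m' m'' k) :
    (Z * A.map ι).map ρ = Z.map ρ * A := by
  ext i j
  rw [Matrix.map_apply, Matrix.mul_apply, Matrix.mul_apply, map_sum]
  refine Finset.sum_congr rfl fun l _ => ?_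
  rw [Matrix.map_apply, Matrix.map_apply, mul_comm, hρ, mul_comm]

variable {Y : Type*} [Fintype Y] [DecidableEq Y] {r : ℕ}

/-- the matrices over `ℂ` that stabilize the column space of `B` -/
def StabAlg (B : Matrix Y (Fin r) ℂ) : Subalgebra ℂ (Matrix Y Y ℂ) where
  carrier := {M | ∃ C : Matrix (Fin r) (Fin r) ℂ, M * B = B * C}
  mul_mem' := by
    rintro M M' ⟨C, hC⟩ ⟨C', hC'⟩
    exact ⟨C * C', by rw [Matrix.mul_assoc, hC', ← Matrix.mul_assoc, hC, Matrix.mul_assoc]⟩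
  add_mem' := by
    rintro M M' ⟨C, hC⟩ ⟨C', hC'⟩
    exact ⟨C + C', by rw [Matrix.add_mul, hC, hC', Matrix.mul_add]⟩
  algebraMap_mem' := by
    intro z
    exact ⟨algebraMap ℂ _ z, by
      rw [Algebra.algebraMap_eq_smul_one, Algebra.algebraMap_eq_smul_one, Matrix.smul_mul,
        Matrix.one_mul, Matrix.mul_smul, Matrix.mul_one]⟩

/-- the projection over `k` -/
theorem descend (W : Submodule k (Y → k)) (P Q : Matrix Y Y ℂ) (hPQ : P * Q = 1)
    (𝒜 : Set (Matrix Y Y k))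
    (h𝒜 : ∀ B₀ : Matrix Y (Fin (finrank k W)) k, (∀ A : Matrix Y Y k, (∀ x ∈ W, A *ᵥ x ∈ W) →
      A.map ι ∈ StabAlg (B₀.map ι)) → ∀ A ∈ 𝒜, A.map ι ∈ StabAlg (B₀.map ι) ∧
        ∃ A'' ∈ StabAlg (B₀.map ι), (P * A.map ι * Q)ᴴ = P * A'' * Q) :
    ∃ p : Matrix Y Y k, (∀ x ∈ W, p *ᵥ x = x) ∧ (∀ x, p *ᵥ x ∈ W) ∧ ∀ A ∈ 𝒜, p * A = A * p := by
  have hQP : Q * P = 1 := mul_eq_one_comm.1 hPQ
  set b := finBasis k W with hb
  set B₀ : Matrix Y (Fin (finrank k W)) k := Matrix.of fun y j => (b j : Y → k) y with hB₀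
  have hcol : ∀ c, B₀ *ᵥ c = ((∑ j, c j • b j : W) : Y → k) := by
    intro c
    funext y
    rw [Submodule.coe_sum, Finset.sum_apply, Matrix.mulVec, dotProduct]
    refine Finset.sum_congr rfl fun j _ => ?_
    rw [Submodule.coe_smul, Pi.smul_apply, smul_eq_mul, mul_comm, hB₀, Matrix.of_apply]
  have hW : ∀ x ∈ W, ∃ c, B₀ *ᵥ c = x := fun x hx =>
    ⟨b.repr ⟨x, hx⟩, by rw [hcol, b.sum_repr]⟩
  have hmem : ∀ c, B₀ *ᵥ c ∈ W := fun c => by rw [hcol]; exact Subtype.mem _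
  -- a left inverse
  obtain ⟨L₀, hL₀⟩ : ∃ L₀ : Matrix (Fin (finrank k W)) Y k, L₀ * B₀ = 1 := by
    obtain ⟨g, hg⟩ := LinearMap.exists_leftInverse_of_injective (Matrix.toLin' B₀)
      (LinearMap.ker_eq_bot.2 (by
        intro x y hxy
        rw [Matrix.toLin'_apply, Matrix.toLin'_apply, hcol, hcol] at hxy
        have h1 := Subtype.ext hxy
        funext j
        have h2 := congrArg (fun z => b.repr z j) h1
        simpa [Finsupp.single_apply] using h2))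
    refine ⟨LinearMap.toMatrix' g, ?_⟩
    have h1 := congrArg LinearMap.toMatrix' hg
    rwa [LinearMap.toMatrix'_comp, LinearMap.toMatrix'_toLin', LinearMap.toMatrix'_id] at h1
  have hstab : ∀ A : Matrix Y Y k, (∀ x ∈ W, A *ᵥ x ∈ W) → A.map ι ∈ StabAlg (B₀.map ι) := by
    intro A hA
    have h1 : ∀ j, ∃ c, B₀ *ᵥ c = A *ᵥ (B₀ *ᵥ Pi.single j 1) := fun j =>
      hW _ (hA _ (hmem _))
    choose c hc using h1
    refine ⟨(Matrix.of fun i j => c j i).map ι, ?_⟩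
    have h2 : A * B₀ = B₀ * Matrix.of fun i j => c j i := by
      ext y j
      have h3 := congrFun (hc j) y
      rw [Matrix.mulVec_mulVec, Matrix.mulVec_single_one] at h3
      exact h3.symm
    rw [← Matrix.map_mul, ← Matrix.map_mul, h2]
  have h𝒜' := h𝒜 B₀ hstab
  obtain ⟨R, hR1, hR2⟩ := proj_complex (P * B₀.map ι) (L₀.map ι * Q) (by
    rw [Matrix.mul_assoc, ← Matrix.mul_assoc Q, hQP, Matrix.one_mul, ← Matrix.map_mul, hL₀]
    exact Matrix.map_one _ (map_zero _) (map_one _))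
  obtain ⟨ρ, hρ1, hρ⟩ := exists_retract ι
  set R₀ := (R * P).map ρ with hR₀
  have hRB : R₀ * B₀ = 1 := by
    rw [hR₀, ← retract_mulR ι hρ, Matrix.mul_assoc, hR1]
    exact Matrix.map_one _ (map_zero _) hρ1
  refine ⟨B₀ * R₀, fun x hx => ?_, fun x => ?_, fun A hA => ?_⟩
  · obtain ⟨c, rfl⟩ := hW x hx
    rw [Matrix.mulVec_mulVec, Matrix.mul_assoc, hRB, Matrix.mul_one]
  · rw [← Matrix.mulVec_mulVec]
    exact hmem _
  · obtain ⟨⟨C, hC⟩, A'', ⟨C', hC'⟩, h2⟩ := h𝒜' A hA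
    have h3 := hR2 (P * A.map ι * Q) C C' (by
      rw [Matrix.mul_assoc (P * A.map ι), ← Matrix.mul_assoc Q, hQP, Matrix.one_mul, Matrix.mul_assoc, hC, ← Matrix.mul_assoc])
      (by
      rw [h2, Matrix.mul_assoc (P * A''), ← Matrix.mul_assoc Q, hQP, Matrix.one_mul, Matrix.mul_assoc, hC', ← Matrix.mul_assoc])
    -- `B₀ι * (R * P) * Aι = Aι * (B₀ι * (R * P))`
    have h4 : B₀.map ι * (R * P) * A.map ι = A.map ι * (B₀.map ι * (R * P)) := by
      have h5 := congrArg (fun Z => Q * Z * P) h3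
      have h6 : Q * (P * B₀.map ι * R * (P * A.map ι * Q)) * P =
          B₀.map ι * (R * P) * A.map ι := by
        calc Q * (P * B₀.map ι * R * (P * A.map ι * Q)) * P
            = (Q * P) * B₀.map ι * R * P * A.map ι * (Q * P) := by
              simp only [Matrix.mul_assoc]
          _ = _ := by rw [hQP, Matrix.one_mul, Matrix.mul_one]; simp only [Matrix.mul_assoc]
      have h7 : Q * (P * A.map ι * Q * (P * B₀.map ι * R)) * P =
          A.map ι * (B₀.map ι * (R * P)) := by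
        calc Q * (P * A.map ι * Q * (P * B₀.map ι * R)) * P
            = (Q * P) * A.map ι * (Q * P) * B₀.map ι * R * P := by
              simp only [Matrix.mul_assoc]
          _ = _ := by rw [hQP, Matrix.one_mul, Matrix.mul_one]; simp only [Matrix.mul_assoc]
      exact h6.symm.trans (h5.trans h7)
    have h8 := congrArg (fun Z : Matrix Y Y ℂ => Z.map ρ) h4
    rw [retract_mulR ι hρ, retract_mulL ι hρ, retract_mulL ι hρ, retract_mulL ι hρ] at h8
    exact h8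

end

end Pool.Agent.LM
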