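import Pool.Agent.Lib_helper98.LM.S1
import Pool.Agent.Lib_helper98.LM.S3
import Pool.Agent.Lib_helper98.LM.D3

set_option autoImplicit false

/-!
# Equivariant projections for tensor powers
-/

namespace Pool.Agent.LM

open Matrix Module

section

/-- a subalgebra that contains a diagonal matrix contains its adjoint -/
theorem star_diagonal_mem {Y : Type*} [Fintype Y] [DecidableEq Y] (S : Subalgebra ℂ (Matrix Y Y ℂ))
    (d : Y → ℂ) (h : diagonal d ∈ S) : (diagonal d)ᴴ ∈ S := by
  classical
  set f := Lagrange.interpolate (Finset.univ.image d) id (fun z : ℂ => star z) with hf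
  have h1 : ∀ y, f.eval (d y) = star (d y) := fun y =>
    Lagrange.eval_interpolate_at_node (s := Finset.univ.image d) (v := id) (fun z : ℂ => star z)
      Function.injective_id.injOn (Finset.mem_image_of_mem d (Finset.mem_univ y))
  have h2 : (diagonal d)ᴴ = Polynomial.aeval (diagonal d) f := by
    have h3 := Polynomial.aeval_algHom_apply (Matrix.diagonalAlgHom (n := Y) (α := ℂ) ℂ) d f
    have h4 : (Matrix.diagonalAlgHom (n := Y) (α := ℂ) ℂ) d = diagonal d := rfl
    rw [h4] at h3
    rw [h3, Matrix.diagonal_conjTranspose]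
    change _ = diagonal _
    congr 1
    funext y
    rw [Polynomial.aeval_pi_apply₂, Polynomial.coe_aeval_eq_eval, h1]
    rfl
  rw [h2]
  exact (Algebra.adjoin_le (Set.singleton_subset_iff.2 h))
    (Polynomial.aeval_mem_adjoin_singleton ℂ (diagonal d))

variable {k : Type*} [Field k] {m : Type*} [Fintype m] [DecidableEq m]

/-- the projection onto the Lie algebra of the form `J` -/
noncomputable def pj (J A : Matrix m m k) : Matrix m m k := (2 : k)⁻¹ • (A - J⁻¹ * Aᵀ * J)

theorem pj_mem {J : Matrix m m k} (hJ : J.det ≠ 0) (hJs : Jᵀ = J ∨ Jᵀ = -J) (A : Matrix m m k) :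
    (pj J A)ᵀ * J + J * pj J A = 0 := by
  have hu : IsUnit J.det := isUnit_iff_ne_zero.2 hJ
  have h1 : (J⁻¹)ᵀ * J = 1 ∧ Jᵀ = J ∨ (J⁻¹)ᵀ * J = -1 ∧ Jᵀ = -J := by
    rcases hJs with h | h
    · left
      rw [Matrix.transpose_nonsing_inv, h]
      exact ⟨Matrix.nonsing_inv_mul J hu, rfl⟩
    · right
      refine ⟨?_, h⟩
      rw [Matrix.transpose_nonsing_inv]
      have h2 : J = -Jᵀ := by rw [h, neg_neg]
      nth_rewrite 2 [h2]
      rw [mul_neg, Matrix.nonsing_inv_mul _ (by rwa [Matrix.det_transpose])]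
  have h2 : J * (J⁻¹ * Aᵀ * J) = Aᵀ * J := by
    rw [mul_assoc, ← mul_assoc J, Matrix.mul_nonsing_inv J hu, one_mul]
  rw [pj, Matrix.transpose_smul, Matrix.smul_mul, Matrix.mul_smul, ← smul_add,
    Matrix.transpose_sub, Matrix.transpose_mul, Matrix.transpose_mul, Matrix.transpose_transpose,
    sub_mul, mul_sub, h2]
  rcases h1 with ⟨h3, h4⟩ | ⟨h3, h4⟩
  · rw [h4, mul_assoc J, mul_assoc A, h3, mul_one]
    rw [sub_add_sub_cancel, sub_self, smul_zero]
  · rw [h4, mul_assoc (-J), mul_assoc A, h3, mul_neg, mul_one, neg_mul_neg]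
    rw [sub_add_sub_cancel, sub_self, smul_zero]

theorem pj_fix [CharZero k] {J A : Matrix m m k} (hJ : J.det ≠ 0) (h : Aᵀ * J + J * A = 0) :
    pj J A = A := by
  have hu : IsUnit J.det := isUnit_iff_ne_zero.2 hJ
  rw [pj, mul_assoc, eq_neg_of_add_eq_zero_left h, mul_neg, ← mul_assoc,
    Matrix.nonsing_inv_mul J hu, one_mul, sub_neg_eq_add, ← two_smul k, smul_smul,
    inv_mul_cancel₀ two_ne_zero, one_smul]

theorem map_inv' {k' : Type*} [Field k'] (φ : k →+* k') {J : Matrix m m k} (hJ : J.det ≠ 0) :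
    (J⁻¹).map φ = (J.map φ)⁻¹ := by
  have hu : IsUnit J.det := isUnit_iff_ne_zero.2 hJ
  refine (Matrix.inv_eq_left_inv ?_).symm
  rw [← Matrix.map_mul, Matrix.nonsing_inv_mul J hu]
  exact Matrix.map_one _ (map_zero _) (map_one _)

theorem pj_map {k' : Type*} [Field k'] (φ : k →+* k') {J : Matrix m m k} (hJ : J.det ≠ 0)
    (A : Matrix m m k) : (pj J A).map φ = pj (J.map φ) (A.map φ) := by
  have h1 : (J⁻¹ * Aᵀ * J).map φ = (J.map φ)⁻¹ * (A.map φ)ᵀ * J.map φ := by
    rw [Matrix.map_mul, Matrix.map_mul, map_inv' φ hJ, Matrix.transpose_map]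
  rw [pj, pj, ← h1]
  ext i j
  rw [Matrix.map_apply, Matrix.smul_apply, Matrix.smul_apply, Matrix.sub_apply, Matrix.sub_apply,
    Matrix.map_apply, Matrix.map_apply, smul_eq_mul, smul_eq_mul, map_mul, map_sub, map_inv₀,
    map_ofNat]

theorem pj_sum {J : Matrix m m k} (A : Matrix m m k) :
    pj J A = ∑ i, ∑ j, A i j • pj J (Matrix.single i j 1) := by
  have h1 : pj J A = (2 : k)⁻¹ • (A - J⁻¹ * Aᵀ * J) := rfl
  let L : Matrix m m k →ₗ[k] Matrix m m k :=
    { toFun := pj J
      map_add' := by
        intro A B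
        simp only [pj]
        rw [← smul_add, Matrix.transpose_add, mul_add, add_mul, add_sub_add_comm]
      map_smul' := by
        intro c A
        simp only [pj, RingHom.id_apply]
        rw [Matrix.transpose_smul, Matrix.mul_smul, Matrix.smul_mul, ← smul_sub, smul_comm] }
  change L A = ∑ i, ∑ j, A i j • L (Matrix.single i j 1)
  conv_lhs => rw [Matrix.matrix_eq_sum_single A]
  rw [map_sum]
  refine Finset.sum_congr rfl fun i _ => ?_
  rw [map_sum]
  refine Finset.sum_congr rfl fun j _ => ?_
  rw [← map_smul, Matrix.smul_single, smul_eq_mul, mul_one]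

end

section

variable {ℓ : ℕ} [Fact ℓ.Prime] {I : Type} [Fintype I] [DecidableEq I] {n : I → ℕ}

/-- the block diagonal matrix -/
abbrev bd {R : Type*} [Zero R] {n : I → ℕ} (A : (a : I) → Matrix (Fin (n a)) (Fin (n a)) R) :
    Matrix ((a : I) × Fin (n a)) ((a : I) × Fin (n a)) R := blockDiagonal' A

theorem proj_exists (ι : ℚ_[ℓ] →+* ℂ) (J : Tot ℓ n) (hJ : ∀ a, (J a).det ≠ 0) (hJs : ∀ a, (J a)ᵀ = J a ∨ (J a)ᵀ = -J a)
    (k : ℕ) (W : Submodule ℚ_[ℓ] ((Fin k → (a : I) × Fin (n a)) → ℚ_[ℓ]))
    (hW : ∀ A ∈ LieT J, ∀ x ∈ W, DD (k := k) (bd A) *ᵥ x ∈ W) :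
    ∃ p : Matrix (Fin k → (a : I) × Fin (n a)) (Fin k → (a : I) × Fin (n a)) ℚ_[ℓ],
      (∀ x ∈ W, p *ᵥ x = x) ∧ (∀ x, p *ᵥ x ∈ W) ∧
      (∀ A ∈ LieT J, p * DD (k := k) (bd A) = DD (k := k) (bd A) * p) ∧
      ∀ c : I → ℚ_[ℓ], (∀ x ∈ W, TP (k := k) (fun _ => bd fun a =>
          c a • (1 : Matrix (Fin (n a)) (Fin (n a)) ℚ_[ℓ])) *ᵥ x ∈ W) →
        p * TP (k := k) (fun _ => bd fun a => c a • (1 : Matrix (Fin (n a)) (Fin (n a)) ℚ_[ℓ])) =
          TP (k := k) (fun _ => bd fun a => c a • (1 : Matrix (Fin (n a)) (Fin (n a)) ℚ_[ℓ])) *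
            p := by
  classical
  -- the complex forms
  have hJι : ∀ a, ((J a).map ι).det ≠ 0 := by
    intro a h
    have h1 : ((J a).map ι).det = ι (J a).det := by
      rw [← RingHom.mapMatrix_apply, ← RingHom.map_det]
    rw [h1] at h
    exact hJ a ((map_eq_zero ι).1 h)
  have hJιs : ∀ a, ((J a).map ι)ᵀ = (J a).map ι ∨ ((J a).map ι)ᵀ = -(J a).map ι := by
    intro a
    rw [← Matrix.transpose_map]
    rcases hJs a with h | h
    · left; rw [h]
    · right
      rw [h]
      ext i j
      simp
  choose P Q hPQ hmain using fun a => herm_exists ((J a).map ι) (hJι a) (hJιs a)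
  have hQP : ∀ a, Q a * P a = 1 := fun a => mul_eq_one_comm.1 (hPQ a)
  have hone : bd (fun a => (1 : Matrix (Fin (n a)) (Fin (n a)) ℂ)) = 1 := blockDiagonal'_one
  set PP := TP (k := k) (fun _ => bd P) with hPP
  set QQ := TP (k := k) (fun _ => bd Q) with hQQ
  have h11 : PP * QQ = 1 := by
    rw [hPP, hQQ, TP_mul, ← TP_one]
    congr 1
    funext i
    rw [Pi.mul_apply, Pi.one_apply, ← blockDiagonal'_mul, ← hone]
    congr 1
    funext a
    exact hPQ a
  have h12 : bd Q * bd P = 1 := by
    rw [← blockDiagonal'_mul, ← hone]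
    congr 1
    funext a
    exact hQP a
  have hconj : ∀ B : Matrix ((a : I) × Fin (n a)) ((a : I) × Fin (n a)) ℂ,
      PP * DD (k := k) B * QQ = DD (bd P * B * bd Q) := by
    intro B
    rw [hPP, TP_DD_comm (B := bd P * B * bd Q) (by rw [mul_assoc _ (bd Q), h12, mul_one]),
      mul_assoc, ← hPP, h11, mul_one]
  have hmap : ∀ A : Tot ℓ n, (bd A).map ι = bd fun a => (A a).map ι := fun A =>
    blockDiagonal'_map A ι (map_zero ι)
  obtain ⟨p, hp1, hp2, hp3⟩ := descend ι W PP QQ h11
    ({A | ∃ A₀ ∈ LieT J, A = DD (k := k) (bd A₀)} ∪ {E | (∀ x ∈ W, E *ᵥ x ∈ W) ∧ ∃ c : I → ℚ_[ℓ],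
      E = TP (k := k) (fun _ => bd fun a => c a • (1 : Matrix (Fin (n a)) (Fin (n a)) ℚ_[ℓ]))})
    (by
    intro B₀ hB₀
    rintro A (⟨A₀, hA₀, rfl⟩ | ⟨hE, c, rfl⟩)
    · refine ⟨hB₀ _ (hW A₀ hA₀), ?_⟩
      rw [DD_map, hmap, hconj]
      choose A' hA' hA'' using fun a => hmain a ((A₀ a).map ι) (by
        have h1 := congrArg (fun Z => Z.map ι) (mem_LieJ.1 (hA₀ a))
        rw [Matrix.map_add _ (map_add ι), Matrix.map_mul, Matrix.map_mul, Matrix.transpose_map,
          Matrix.map_zero _ (map_zero ι)] at h1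
        exact h1)
      refine ⟨DD (bd A'), ?_, ?_⟩
      · -- `DD (bd A')` is a combination of `DD (bd A)`, `A ∈ LieT J`
        have h1 : bd A' = ∑ a, ∑ i, ∑ j, A' a i j • (bd (Pi.single a
            (pj (J a) (Matrix.single i j 1)) : Tot ℓ n)).map ι := by
          have h2 : A' = ∑ a, ∑ i, ∑ j, A' a i j • (fun b => ((Pi.single a
            (pj (J a) (Matrix.single i j 1)) : Tot ℓ n) b).map ι) := by
            funext b
            rw [Finset.sum_apply, Finset.sum_eq_single b]
            · have h3 := pj_sum (J := (J b).map ι) (A' b)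
              rw [pj_fix (hJι b) (hA' b)] at h3
              rw [Finset.sum_apply]
              conv_lhs => rw [h3]
              refine Finset.sum_congr rfl fun i _ => ?_
              rw [Finset.sum_apply]
              refine Finset.sum_congr rfl fun j _ => ?_
              rw [Pi.smul_apply, Pi.single_eq_same, pj_map ι (hJ b)]
              congr 2
              ext i' j'
              simp [Matrix.single_apply]
            · intro a _ hab
              rw [Finset.sum_apply]
              refine Finset.sum_eq_zero fun i _ => ?_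
              rw [Finset.sum_apply]
              refine Finset.sum_eq_zero fun j _ => ?_
              rw [Pi.smul_apply, Pi.single_eq_of_ne (Ne.symm hab), Matrix.map_zero _ (map_zero ι),
                smul_zero]
            · intro h
              exact absurd (Finset.mem_univ b) h
          conv_lhs => rw [h2]
          change blockDiagonal'AddMonoidHom _ _ _ _ = _
          rw [map_sum]
          refine Finset.sum_congr rfl fun a _ => ?_
          rw [map_sum]
          refine Finset.sum_congr rfl fun i _ => ?_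
          rw [map_sum]
          refine Finset.sum_congr rfl fun j _ => ?_
          rw [hmap]
          exact blockDiagonal'_smul _ _
        rw [h1]
        change DDl (k := k) _ ∈ _
        rw [map_sum]
        refine Subalgebra.sum_mem _ fun a _ => ?_
        rw [map_sum]
        refine Subalgebra.sum_mem _ fun i _ => ?_
        rw [map_sum]
        refine Subalgebra.sum_mem _ fun j _ => ?_
        rw [map_smul]
        refine Subalgebra.smul_mem _ ?_ _
        change DD (k := k) _ ∈ _
        rw [← DD_map]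
        refine hB₀ _ (hW _ fun b => ?_)
        by_cases hb : b = a
        · subst hb
          rw [Pi.single_eq_same]
          exact pj_mem (hJ b) (hJs b) _
        · rw [Pi.single_eq_of_ne hb]
          exact (LieJ (J b)).zero_mem
      · rw [hconj, DD_conjTranspose]
        congr 1
        rw [← blockDiagonal'_mul, ← blockDiagonal'_mul, blockDiagonal'_conjTranspose,
          ← blockDiagonal'_mul, ← blockDiagonal'_mul]
        congr 1
        funext a
        exact hA'' a
    · refine ⟨hB₀ _ hE, ?_⟩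
      have hcomm : ∀ z : I → ℂ, PP * TP (k := k) (fun _ => bd fun a =>
          z a • (1 : Matrix (Fin (n a)) (Fin (n a)) ℂ)) = TP (k := k) (fun _ => bd fun a =>
          z a • (1 : Matrix (Fin (n a)) (Fin (n a)) ℂ)) * PP := by
        intro z
        rw [hPP, TP_mul, TP_mul]
        congr 1
        funext i
        rw [Pi.mul_apply, Pi.mul_apply, ← blockDiagonal'_mul, ← blockDiagonal'_mul]
        congr 1
        funext a
        rw [mul_smul_comm, smul_mul_assoc, mul_one, one_mul]
      have hdiag : ∀ z : I → ℂ, TP (k := k) (fun _ => bd fun a =>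
          z a • (1 : Matrix (Fin (n a)) (Fin (n a)) ℂ)) = diagonal fun y => ∏ i, z (y i).1 := by
        intro z
        have h1 : (bd fun a => z a • (1 : Matrix (Fin (n a)) (Fin (n a)) ℂ)) =
            diagonal fun y : (a : I) × Fin (n a) => z y.1 := by
          have h2 : (fun a => z a • (1 : Matrix (Fin (n a)) (Fin (n a)) ℂ)) =
              fun a => diagonal fun _ => z a := by
            funext a
            rw [Matrix.smul_one_eq_diagonal]
          rw [h2]
          exact blockDiagonal'_diagonal fun a _ => z a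
        rw [h1]
        ext x y
        rw [TP_apply]
        by_cases h : x = y
        · subst h
          rw [Matrix.diagonal_apply_eq]
          exact Finset.prod_congr rfl fun i _ => Matrix.diagonal_apply_eq _ _
        · obtain ⟨i, hi⟩ := Function.ne_iff.1 h
          rw [Matrix.diagonal_apply_ne _ h]
          exact Finset.prod_eq_zero (Finset.mem_univ i) (Matrix.diagonal_apply_ne _ hi)
      have hEι : (TP (k := k) (fun _ => bd fun a =>
          c a • (1 : Matrix (Fin (n a)) (Fin (n a)) ℚ_[ℓ]))).map ι = TP (k := k) (fun _ => bd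
          fun a => ι (c a) • (1 : Matrix (Fin (n a)) (Fin (n a)) ℂ)) := by
        rw [TP_map]
        congr 1
        funext i
        rw [hmap]
        congr 1
        funext a
        ext i j
        rw [Matrix.map_apply, Matrix.smul_apply, Matrix.smul_apply, smul_eq_mul, smul_eq_mul,
          map_mul, Matrix.one_apply, Matrix.one_apply]
        split_ifs <;> simp
      have h1 := hB₀ _ hE
      rw [hEι] at h1 ⊢
      refine ⟨(TP (k := k) (fun _ => bd fun a =>
          ι (c a) • (1 : Matrix (Fin (n a)) (Fin (n a)) ℂ)))ᴴ, ?_, ?_⟩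
      · rw [hdiag] at h1 ⊢
        exact star_diagonal_mem _ _ h1
      · rw [hcomm, mul_assoc, h11, mul_one]
        have h2 : (TP (k := k) (fun _ => bd fun a =>
          ι (c a) • (1 : Matrix (Fin (n a)) (Fin (n a)) ℂ)))ᴴ = TP (k := k) (fun _ => bd fun a =>
          star (ι (c a)) • (1 : Matrix (Fin (n a)) (Fin (n a)) ℂ)) := by
          rw [hdiag, hdiag, Matrix.diagonal_conjTranspose]
          congr 1
          funext y
          rw [Pi.star_apply, star_prod]
        rw [h2, hcomm, mul_assoc, h11, mul_one])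
  exact ⟨p, hp1, hp2, fun A hA => hp3 _ (Or.inl ⟨A, hA, rfl⟩), fun c hc =>
    hp3 _ (Or.inr ⟨hc, c, rfl⟩)⟩

end

end Pool.Agent.LM
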