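import Pool.Agent.Lib_helper98.LM.S4

set_option autoImplicit false

/-!
# Averaging; square roots
-/

namespace Pool.Agent.LM

open Matrix Module

section

/-- a matrix that commutes with `u * u`, `u` near `1`, commutes with `u` -/
theorem comm_of_sq {R : Type*} [NormedRing R] {k : Type*} [NormedField k] [CharZero k]
    [NormedAlgebra k R] {u p : R} (hu : ‖u - 1‖ < ‖(2 : k)‖ / 2) (h : p * (u * u) = u * u * p) :
    p * u = u * p := by
  set Z := p * u - u * p with hZ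
  have h1 : Z * u + u * Z = 0 := by
    have h2 : Z * u + u * Z = p * (u * u) - u * u * p := by
      rw [hZ]; noncomm_ring
    rw [h2, h, sub_self]
  have h3 : (2 : k) • Z = -(Z * (u - 1) + (u - 1) * Z) := by
    have h4 : Z * (u - 1) + (u - 1) * Z = (Z * u + u * Z) - (Z + Z) := by noncomm_ring
    rw [h4, h1, zero_sub, neg_neg, two_smul]
  have h5 : ‖(2 : k)‖ * ‖Z‖ ≤ 2 * ‖u - 1‖ * ‖Z‖ := by
    rw [← norm_smul, h3, norm_neg]
    calc ‖Z * (u - 1) + (u - 1) * Z‖ ≤ ‖Z * (u - 1)‖ + ‖(u - 1) * Z‖ := norm_add_le _ _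
      _ ≤ ‖Z‖ * ‖u - 1‖ + ‖u - 1‖ * ‖Z‖ := add_le_add (norm_mul_le _ _) (norm_mul_le _ _)
      _ = 2 * ‖u - 1‖ * ‖Z‖ := by ring
  have h6 : ‖Z‖ = 0 := by
    by_contra hne
    have h7 : 0 < ‖Z‖ := lt_of_le_of_ne (norm_nonneg _) (Ne.symm hne)
    have h8 := le_of_mul_le_mul_right h5 h7
    linarith
  exact sub_eq_zero.1 (norm_eq_zero.1 h6)

variable {G : Type*} [Group G] (N : Subgroup G) [N.FiniteIndex] {k : Type*} [Field k] [CharZero k]
  {E : Type*} [AddCommGroup E] [Module k E]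

/-- averaging of an equivariant projection -/
theorem average (ρ : G → E →ₗ[k] E) (h1 : ∀ x, ρ 1 x = x)
    (hmul : ∀ g h x, ρ (g * h) x = ρ h (ρ g x)) (W : Submodule k E)
    (hW : ∀ g, ∀ x ∈ W, ρ g x ∈ W) (p : E →ₗ[k] E) (hp1 : ∀ x ∈ W, p x = x)
    (hp2 : ∀ x, p x ∈ W) (hp : ∀ g ∈ N, ∀ x, p (ρ g x) = ρ g (p x)) :
    ∃ W' : Submodule k E, (∀ g, ∀ x ∈ W', ρ g x ∈ W') ∧ IsCompl W W' := by
  classical
  let _ : Fintype (G ⧸ N) := Fintype.ofFinite _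
  have hinv : ∀ g x, ρ g⁻¹ (ρ g x) = x := by
    intro g x
    rw [← hmul, mul_inv_cancel, h1]
  have hinv' : ∀ g x, ρ g (ρ g⁻¹ x) = x := by
    intro g x
    rw [← hmul, inv_mul_cancel, h1]
  let R : G → E →ₗ[k] E := fun h => (ρ h⁻¹) ∘ₗ p ∘ₗ (ρ h)
  have hR : ∀ h, ∀ u ∈ N, R (h * u) = R h := by
    intro h u hu
    ext x
    change ρ (h * u)⁻¹ (p (ρ (h * u) x)) = ρ h⁻¹ (p (ρ h x))
    rw [_root_.mul_inv_rev, hmul, hmul, hp u hu, hinv]
  set m : k := (Fintype.card (G ⧸ N) : k) with hm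
  have hm0 : m ≠ 0 := by
    rw [hm]
    exact_mod_cast Fintype.card_ne_zero
  let S : E →ₗ[k] E := m⁻¹ • ∑ q : G ⧸ N, R q.out
  have hS1 : ∀ x ∈ W, S x = x := by
    intro x hx
    change m⁻¹ • (∑ q : G ⧸ N, R q.out) x = x
    rw [LinearMap.sum_apply]
    have h2 : ∀ q : G ⧸ N, R q.out x = x := by
      intro q
      change ρ _ (p (ρ _ x)) = x
      rw [hp1 _ (hW _ x hx), hinv]
    rw [Finset.sum_congr rfl fun q _ => h2 q, Finset.sum_const, Finset.card_univ,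
      ← Nat.cast_smul_eq_nsmul k, smul_smul, inv_mul_cancel₀ hm0, one_smul]
  have hS2 : ∀ x, S x ∈ W := by
    intro x
    change m⁻¹ • (∑ q : G ⧸ N, R q.out) x ∈ W
    rw [LinearMap.sum_apply]
    exact W.smul_mem _ (W.sum_mem fun q _ => hW _ _ (hp2 _))
  have hS3 : ∀ g x, ρ g⁻¹ (S (ρ g x)) = S x := by
    intro g x
    change ρ g⁻¹ (m⁻¹ • (∑ q : G ⧸ N, R q.out) (ρ g x)) = m⁻¹ • (∑ q : G ⧸ N, R q.out) x
    rw [map_smul, LinearMap.sum_apply, LinearMap.sum_apply, map_sum]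
    congr 1
    refine Fintype.sum_equiv (MulAction.toPerm g) _ _ fun q => ?_
    have h2 : ρ g⁻¹ (R q.out (ρ g x)) = R (g * q.out) x := by
      change ρ g⁻¹ (ρ _ (p (ρ _ (ρ g x)))) = ρ _ (p (ρ _ x))
      rw [_root_.mul_inv_rev, hmul, hmul]
    rw [h2]
    have h3 : ((g * q.out : G) : G ⧸ N) = g • q := by
      conv_rhs => rw [← Quotient.out_eq' q]
      rfl
    have h4 : ∃ u ∈ N, g * q.out = (g • q).out * u := by
      refine ⟨(g • q).out⁻¹ * (g * q.out), ?_, by group⟩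
      rw [← QuotientGroup.eq, h3]
      exact Quotient.out_eq' _
    obtain ⟨u, hu, h5⟩ := h4
    rw [h5, hR _ u hu]
    rfl
  refine ⟨LinearMap.ker S, fun g x hx => ?_, ?_⟩
  · rw [LinearMap.mem_ker] at hx ⊢
    have h2 := hS3 g x
    rw [hx] at h2
    have h3 := congrArg (ρ g) h2
    rwa [hinv', map_zero] at h3
  · rw [isCompl_iff, Submodule.disjoint_def, codisjoint_iff_le_sup]
    refine ⟨fun x hx hx' => ?_, fun x _ => ?_⟩
    · rw [← hS1 x hx]
      exact hx'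
    · rw [Submodule.mem_sup]
      refine ⟨S x, hS2 x, x - S x, ?_, by abel⟩
      rw [LinearMap.mem_ker, map_sub, hS1 _ (hS2 x), sub_self]

end

end Pool.Agent.LM
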