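import Pool.Agent.Lib_helper98.LM.S5
import Pool.Agent.Lib_helper98.LM.G5

set_option autoImplicit false

/-!
# Coordinates of multilinear forms
-/

namespace Pool.Agent.LM

open Matrix Module

section

variable {ℓ : ℕ} [Fact ℓ.Prime] {I : Type} [Fintype I] [DecidableEq I] {n : I → ℕ} {k : ℕ}

/-- the standard basis of the direct sum -/
noncomputable def eb (ℓ : ℕ) [Fact ℓ.Prime] (n : I → ℕ) :
    Basis ((a : I) × Fin (n a)) ℚ_[ℓ] ((a : I) → Fin (n a) → ℚ_[ℓ]) :=
  Pi.basis fun a => Pi.basisFun ℚ_[ℓ] (Fin (n a))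

/-- the coordinates of a form -/
noncomputable def crd : Forms ℓ n k →ₗ[ℚ_[ℓ]] ((Fin k → (a : I) × Fin (n a)) → ℚ_[ℓ]) where
  toFun f := fun x => f fun i => eb ℓ n (x i)
  map_add' _ _ := rfl
  map_smul' _ _ := rfl

theorem crd_inj : Function.Injective (crd (ℓ := ℓ) (n := n) (k := k)) := by
  intro f g h
  exact Basis.ext_multilinear (fun _ => eb ℓ n) fun v => congrFun h v

theorem eb_apply (x : (a : I) × Fin (n a)) : eb ℓ n x = Pi.single x.1 (Pi.single x.2 1) := by
  rw [eb, Pi.basis_apply, Pi.basisFun_apply]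

/-- the block diagonal action on the direct sum -/
noncomputable def blk (A : Tot ℓ n) :
    ((a : I) → Fin (n a) → ℚ_[ℓ]) →ₗ[ℚ_[ℓ]] ((a : I) → Fin (n a) → ℚ_[ℓ]) :=
  LinearMap.pi fun a => toLin' (A a) ∘ₗ LinearMap.proj a

theorem blk_eb (A : Tot ℓ n) (x : (a : I) × Fin (n a)) :
    blk A (eb ℓ n x) = ∑ y, bd A y x • eb ℓ n y := by
  obtain ⟨a, j⟩ := x
  rw [Fintype.sum_sigma, Finset.sum_eq_single a]
  · funext b
    rw [eb_apply]
    change toLin' (A b) ((Pi.single a (Pi.single j 1) : (a : I) → Fin (n a) → ℚ_[ℓ]) b) = _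
    rw [Finset.sum_apply]
    simp only [Pi.smul_apply]
    by_cases h : b = a
    · subst h
      rw [Pi.single_eq_same, toLin'_apply, Matrix.mulVec_single_one]
      funext i
      rw [Finset.sum_apply, Finset.sum_eq_single i]
      · rw [eb_apply, Pi.smul_apply, Pi.single_eq_same, Pi.single_eq_same, smul_eq_mul, mul_one]
        exact (blockDiagonal'_apply_eq A b i j).symm
      · intro i' _ hi'
        rw [eb_apply, Pi.smul_apply, Pi.single_eq_same, Pi.single_eq_of_ne (Ne.symm hi'),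
          smul_zero]
      · intro h
        exact absurd (Finset.mem_univ i) h
    · rw [Pi.single_eq_of_ne h, map_zero]
      symm
      refine Finset.sum_eq_zero fun i _ => ?_
      rw [eb_apply, Pi.single_eq_of_ne h, smul_zero]
  · intro b _ hb
    refine Finset.sum_eq_zero fun i _ => ?_
    have h1 : bd A ⟨b, i⟩ ⟨a, j⟩ = 0 := blockDiagonal'_apply_ne A i j hb
    rw [h1, zero_smul]
  · intro h
    exact absurd (Finset.mem_univ a) h

theorem crd_blk (A : Tot ℓ n) (f : Forms ℓ n k) :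
    crd (f.compLinearMap fun _ => blk A) = TP (k := k) (fun _ => (bd A)ᵀ) *ᵥ crd f := by
  funext x
  change f (fun i => blk A (eb ℓ n (x i))) = _
  simp only [blk_eb]
  rw [MultilinearMap.map_sum]
  rw [Matrix.mulVec, dotProduct]
  refine Finset.sum_congr rfl fun y _ => ?_
  rw [MultilinearMap.map_smul_univ, TP_apply, smul_eq_mul]
  rfl

end

end Pool.Agent.LM
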