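import Pool.Agent.Lib_helper98.LM.S6

set_option autoImplicit false

/-!
# Unipotent elements on forms
-/

namespace Pool.Agent.LM

open Matrix Module

section

variable {Y : Type*} [Fintype Y] [DecidableEq Y] {k : Type*} [Field k] [CharZero k]
  [Module ℚ (Matrix Y Y k)]

theorem exp_stable' {N : Matrix Y Y k} (hN : IsNilpotent N) (W : Submodule k (Y → k))
    (h : ∀ m : ℕ, ∀ x ∈ W, (IsNilpotent.exp N ^ m) *ᵥ x ∈ W) : ∀ x ∈ W, N *ᵥ x ∈ W := by
  intro x hx
  obtain ⟨K, hK⟩ := hN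
  have hK' : N ^ (K + 2) = 0 := by rw [pow_add, hK, zero_mul]
  have h1 := poly_trick W (fun i => (i.factorial : k)⁻¹ • (N ^ i *ᵥ x)) (K + 2) 1 one_pos (by
    intro m
    have h2 := h (1 * m) x hx
    rw [exp_pow_sum (k := k) hK', Matrix.sum_mulVec] at h2
    have h3 : ∑ i ∈ Finset.range (K + 2), (((1 * m : ℕ) : k) ^ i •
        ((i.factorial : k)⁻¹ • N ^ i)) *ᵥ x = ∑ i ∈ Finset.range (K + 2),
        ((1 * m : ℕ) : k) ^ i • ((i.factorial : k)⁻¹ • (N ^ i *ᵥ x)) :=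
      Finset.sum_congr rfl fun i _ => by rw [Matrix.smul_mulVec, Matrix.smul_mulVec]
    rw [h3] at h2
    exact h2) 1 (by omega)
  simpa using h1

theorem exp_transpose {N : Matrix Y Y k} (hN : IsNilpotent N) :
    IsNilpotent Nᵀ ∧ (IsNilpotent.exp N)ᵀ = IsNilpotent.exp Nᵀ := by
  obtain ⟨K, hK⟩ := id hN
  have hK' : (Nᵀ) ^ K = 0 := by rw [← Matrix.transpose_pow, hK, Matrix.transpose_zero]
  refine ⟨⟨K, hK'⟩, ?_⟩
  have h1 := exp_pow_sum (k := k) hK 1
  have h2 := exp_pow_sum (k := k) hK' 1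
  rw [pow_one] at h1 h2
  rw [h1, h2, Matrix.transpose_sum]
  refine Finset.sum_congr rfl fun i _ => ?_
  rw [Matrix.transpose_smul, Matrix.transpose_smul, Matrix.transpose_pow]

end

section

variable {ℓ : ℕ} [Fact ℓ.Prime] {I : Type} [Fintype I] [DecidableEq I] {n : I → ℕ}

theorem exp_bd {N : Tot ℓ n} (hN : ∀ a, IsNilpotent (N a)) :
    IsNilpotent (bd N) ∧ bd (fun a => IsNilpotent.exp (N a)) = IsNilpotent.exp (bd N) := by
  choose K hK using hN
  have hK' : ∀ a, N a ^ (∑ b, K b) = 0 := fun a =>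
    pow_eq_zero_of_le (Finset.single_le_sum (f := K) (fun _ _ => Nat.zero_le _)
      (Finset.mem_univ a)) (hK a)
  have h1 : (bd N) ^ (∑ b, K b) = 0 := by
    rw [← blockDiagonal'_pow]
    have h2 : N ^ (∑ b, K b) = 0 := funext hK'
    rw [h2]
    exact blockDiagonal'_zero
  refine ⟨⟨_, h1⟩, ?_⟩
  rw [IsNilpotent.exp_eq_sum h1]
  have h2 : (fun a => IsNilpotent.exp (N a)) = ∑ i ∈ Finset.range (∑ b, K b),
      ((i.factorial : ℚ)⁻¹ • N ^ i : Tot ℓ n) := by
    funext a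
    rw [IsNilpotent.exp_eq_sum (hK' a), Finset.sum_apply]
    rfl
  rw [h2]
  change blockDiagonal'AddMonoidHom _ _ _ _ = _
  rw [map_sum]
  refine Finset.sum_congr rfl fun i _ => ?_
  rw [← blockDiagonal'_pow]
  exact blockDiagonal'_smul _ _

end

end Pool.Agent.LM
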