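import Pool.Agent.Lib_helper98.LM.S7

set_option autoImplicit false

/-!
# The Lie algebra; the action on forms
-/

namespace Pool.Agent.LM

open Matrix Module

section

variable {K : Type} [Field K] [NumberField K] [Algebra K (AlgebraicClosure ℚ)]
    {ℓ : ℕ} [Fact ℓ.Prime] {ι : ℚ_[ℓ] →+* ℂ} {I : Type} [Fintype I] {n : I → ℕ} {w : I → ℤ}
    {J : (a : I) → Matrix (Fin (n a)) (Fin (n a)) ℚ_[ℓ]}
    {V : (a : I) → GK K →* Matrix (Fin (n a)) (Fin (n a)) ℚ_[ℓ]}

omit [NumberField K] [Fintype I] in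
theorem logs_lie (hG : ∀ a, Geo ι (w a) (J a) (V a)) {H : Subgroup (GK K)} :
    ∀ N ∈ Logs V H, N ∈ LieT J := by
  rintro N ⟨hN, s, hs, hsN⟩ a
  obtain ⟨c, hc⟩ := (hG a).sim s
  rw [hsN] at hc
  exact (unip_lie (hN a) (hG a).det hc).1

/-- the Lie algebra is spanned by the logarithms of the unipotent elements of `H` -/
theorem lie_le_logs (hG : ∀ a, Geo ι (w a) (J a) (V a))
    (hadj : ∀ a (L₀ : Submodule ℚ_[ℓ] (Matrix (Fin (n a)) (Fin (n a)) ℚ_[ℓ])), L₀ ≠ ⊥ →
      (∀ (g : GK K), ∀ A ∈ L₀, V a g * A * V a g⁻¹ ∈ L₀) → L₀ ≤ LieJ (J a) → LieJ (J a) ≤ L₀)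
    (hunip : ∀ a, ∃ s : GK K, V a s ≠ 1 ∧ ∀ b, ∃ N, IsNilpotent N ∧ V b s = IsNilpotent.exp N)
    (hdiff : ∀ a b, a ≠ b → ¬ AdIso (J b) (J a) (V b) (V a))
    (H : Subgroup (GK K)) (hH : IsOpen (H : Set (GK K))) :
    LieT J ≤ Submodule.span ℚ_[ℓ] (Logs V H) := by
  have hcomp := gk_compact (K := K)
  have hHfi : H.FiniteIndex := ⟨finite_index hH⟩
  have hMn : H.normalCore.Normal := inferInstance
  refine le_trans ?_ (Submodule.span_mono (s := Logs V H.normalCore) ?_)
  swap
  · rintro N ⟨hN, s, hs, hsN⟩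
    exact ⟨hN, s, Subgroup.normalCore_le H hs, hsN⟩
  refine goursat hadj hdiff _ ?_ (Submodule.span_le.2 (logs_lie hG)) ?_
  · intro g x hx
    induction hx using Submodule.span_induction with
    | mem N hN =>
      obtain ⟨hN, s, hs, hsN⟩ := hN
      refine Submodule.subset_span ⟨fun a => (conj_exp g (hN a)).1, g * s * g⁻¹,
        hMn.conj_mem s hs g, fun a => ?_⟩
      rw [map_mul, map_mul, hsN, (conj_exp g (hN a)).2]
      rfl
    | zero =>
      have h2 : ad V g (0 : Tot ℓ n) = 0 := by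
        funext a
        rw [ad, Pi.zero_apply, mul_zero, zero_mul]
      rw [h2]
      exact Submodule.zero_mem _
    | add x y _ _ hx hy =>
      have h2 : ad V g (x + y) = ad V g x + ad V g y := by
        funext a
        rw [ad, Pi.add_apply, Pi.add_apply, mul_add, add_mul]
        rfl
      rw [h2]
      exact Submodule.add_mem _ hx hy
    | smul t x _ hx =>
      have h2 : ad V g (t • x) = t • ad V g x := by
        funext a
        rw [ad, Pi.smul_apply, Pi.smul_apply, mul_smul_comm, smul_mul_assoc]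
        rfl
      rw [h2]
      exact Submodule.smul_mem _ t hx
  · intro a
    obtain ⟨s, hsa, hsb⟩ := hunip a
    choose N hN hsN using hsb
    obtain ⟨i, hi, -, hiH⟩ := Subgroup.exists_pow_mem_of_index_ne_zero
      (H := H.normalCore) Subgroup.FiniteIndex.index_ne_zero s
    refine ⟨fun b => i • N b, Submodule.subset_span ⟨fun b => ?_, s ^ i, hiH, fun b => ?_⟩, ?_⟩
    · change IsNilpotent (i • N b)
      rw [← Nat.cast_smul_eq_nsmul ℤ]
      exact (hN b).smul _
    · rw [map_pow, hsN, exp_pow (hN b)]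
    · intro h
      change i • N a = 0 at h
      have hik : (i : ℚ_[ℓ]) ≠ 0 := by exact_mod_cast hi.ne'
      rw [← Nat.cast_smul_eq_nsmul ℚ_[ℓ]] at h
      have h2 : N a = 0 := (smul_eq_zero.1 h).resolve_left hik
      apply hsa
      rw [hsN, h2, IsNilpotent.exp_zero]

/-- closed subgroups that contain the unipotent elements of `H` have open image -/
theorem image_closed (hG : ∀ a, Geo ι (w a) (J a) (V a)) {H : Subgroup (GK K)}
    (hL : LieT J ≤ Submodule.span ℚ_[ℓ] (Logs V H)) (M : Subgroup (GK K))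
    (hM : IsClosed (M : Set (GK K)))
    (h : ∀ N ∈ Logs V H, ∀ s ∈ H, (∀ b, V b s = IsNilpotent.exp (N b)) → s ∈ M) :
    ∃ ε : ℝ, 0 < ε ∧ ∀ g : (a : I) → Matrix (Fin (n a)) (Fin (n a)) ℚ_[ℓ],
      (∀ a, (g a)ᵀ * J a * g a = J a) → (∀ a i j, ‖(g a - 1) i j‖ < ε) →
      ∃ σ ∈ M, ∀ a, V a σ = g a := by
  have hcomp := gk_compact (K := K)
  refine blockD_fam V (fun a => (hG a).cont) M hM J (fun a => (hG a).det)
    (fun a => (hG a).symm) (fun a => (hG a).sim) (hL.trans (Submodule.span_mono ?_))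
  rintro N ⟨hN, s, hs, hsN⟩
  exact ⟨hN, s, h N ⟨hN, s, hs, hsN⟩ s hs hsN, hsN⟩

variable [DecidableEq I] {k : ℕ}

/-- the action of `σ` on the coordinates of forms -/
noncomputable def act (V : (a : I) → GK K →* Matrix (Fin (n a)) (Fin (n a)) ℚ_[ℓ]) (k : ℕ)
    (σ : GK K) : Matrix (Fin k → (a : I) × Fin (n a)) (Fin k → (a : I) × Fin (n a)) ℚ_[ℓ] :=
  TP (k := k) fun _ => (bd fun a => V a σ)ᵀ

omit [NumberField K] in
theorem crd_sumMap (σ : GK K) (f : Forms ℓ n k) :
    crd (f.compLinearMap fun _ => sumMap V σ) = act V k σ *ᵥ crd f :=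
  crd_blk (fun a => V a σ) f

omit [NumberField K] in
theorem act_mul (σ τ : GK K) : act V k (σ * τ) = act V k τ * act V k σ := by
  rw [act, act, act, TP_mul]
  congr 1
  funext i
  rw [Pi.mul_apply, ← Matrix.transpose_mul, ← blockDiagonal'_mul]
  congr 2
  funext a
  exact map_mul (V a) σ τ

omit [NumberField K] in
theorem act_one : act V k 1 = 1 := by
  rw [act, ← TP_one]
  congr 1
  funext i
  have h1 : (bd fun a => V a 1) = 1 := by
    have h2 : (fun a => V a 1) = (1 : Tot ℓ n) := funext fun a => map_one (V a)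
    rw [h2]
    exact blockDiagonal'_one
  rw [h1, Matrix.transpose_one]
  rfl

omit [NumberField K] in
theorem act_pow (σ : GK K) (m : ℕ) : act V k (σ ^ m) = act V k σ ^ m := by
  induction m with
  | zero => rw [pow_zero, pow_zero, act_one]
  | succ m ih => rw [pow_succ, act_mul, ih, pow_succ']

omit [NumberField K] in
theorem act_cont (hV : ∀ a, Continuous (V a)) : Continuous (act V k) := by
  refine continuous_matrix fun x y => ?_
  unfold act
  simp only [TP_apply, Matrix.transpose_apply, blockDiagonal'_apply]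
  refine continuous_finsetProd _ fun i _ => ?_
  by_cases h : (y i).1 = (x i).1
  · simp only [h, dif_pos]
    exact (hV _).matrix_elem _ _
  · simp only [h, dif_neg, not_false_eq_true]
    exact continuous_const

omit [NumberField K] in
theorem act_unip {N : Tot ℓ n} (hN : ∀ a, IsNilpotent (N a)) {s : GK K}
    (hs : ∀ a, V a s = IsNilpotent.exp (N a)) :
    IsNilpotent (DD (k := k) (bd fun a => (N a)ᵀ)) ∧
      act V k s = IsNilpotent.exp (DD (k := k) (bd fun a => (N a)ᵀ)) := by
  have h1 := exp_bd fun a => (exp_transpose (hN a)).1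
  have h2 := exp_DD (k := k) h1.1
  refine ⟨h2.1, ?_⟩
  rw [h2.2, act]
  congr 1
  funext i
  rw [← h1.2, blockDiagonal'_transpose]
  congr 1
  funext a
  rw [hs, (exp_transpose (hN a)).2]

end

end Pool.Agent.LM
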