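import Pool.Agent.Lib_helper98.LM.S8

set_option autoImplicit false

/-!
# Lines of forms; semisimplicity of tensor powers
-/

namespace Pool.Agent.LM

open Matrix Module

attribute [local instance] Matrix.linftyOpNormedRing Matrix.linftyOpNormedAlgebra

section

theorem exp_commute {Y : Type*} [Fintype Y] [DecidableEq Y] {k : Type*} [Field k] [CharZero k]
    [Module ℚ (Matrix Y Y k)] {N p : Matrix Y Y k} (hN : IsNilpotent N) (h : Commute p N) :
    p * IsNilpotent.exp N = IsNilpotent.exp N * p := by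
  obtain ⟨K, hK⟩ := hN
  have h1 := exp_pow_sum (k := k) hK 1
  rw [pow_one] at h1
  rw [h1]
  exact Commute.sum_right _ _ _ fun i _ => ((h.pow_right i).smul_right _).smul_right _

end

section

variable {K : Type} [Field K] [NumberField K] [Algebra K (AlgebraicClosure ℚ)]
    {ℓ : ℕ} [Fact ℓ.Prime] {ι : ℚ_[ℓ] →+* ℂ} {I : Type} [Fintype I] {n : I → ℕ} {w : I → ℤ}
    {J : (a : I) → Matrix (Fin (n a)) (Fin (n a)) ℚ_[ℓ]}
    {V : (a : I) → GK K →* Matrix (Fin (n a)) (Fin (n a)) ℚ_[ℓ]} {k : ℕ}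

/-- forms that `H` multiplies by scalars are invariant under the isometries near `1` -/
theorem lines_inv (hG : ∀ a, Geo ι (w a) (J a) (V a)) {H : Subgroup (GK K)}
    (hH : IsOpen (H : Set (GK K))) (hL : LieT J ≤ Submodule.span ℚ_[ℓ] (Logs V H))
    (f : Forms ℓ n k)
    (hf : ∀ σ ∈ H, ∃ c : ℚ_[ℓ], f.compLinearMap (fun _ => sumMap V σ) = c • f) :
    ∃ ε : ℝ, 0 < ε ∧ ∀ g : (a : I) → Matrix (Fin (n a)) (Fin (n a)) ℚ_[ℓ],
      (∀ a, (g a)ᵀ * J a * g a = J a) → (∀ a i j, ‖(g a - 1) i j‖ < ε) →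
      ∀ v, f (fun i a => g a *ᵥ v i a) = f v := by
  classical
  have hHc : IsClosed (H : Set (GK K)) := H.isClosed_of_isOpen hH
  let M : Subgroup (GK K) :=
    { carrier := {σ | σ ∈ H ∧ act V k σ *ᵥ crd f = crd f}
      one_mem' := ⟨H.one_mem, by rw [act_one, Matrix.one_mulVec]⟩
      mul_mem' := by
        rintro σ τ ⟨hσ, hσ'⟩ ⟨hτ, hτ'⟩
        exact ⟨H.mul_mem hσ hτ, by rw [act_mul, ← Matrix.mulVec_mulVec, hσ', hτ']⟩
      inv_mem' := by
        rintro σ ⟨hσ, hσ'⟩
        refine ⟨H.inv_mem hσ, ?_⟩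
        nth_rewrite 1 [← hσ']
        rw [Matrix.mulVec_mulVec, ← act_mul, mul_inv_cancel, act_one, Matrix.one_mulVec] }
  have hMc : IsClosed (M : Set (GK K)) := by
    have h1 : (M : Set (GK K)) = (H : Set (GK K)) ∩ {σ | act V k σ *ᵥ crd f = crd f} := rfl
    rw [h1]
    refine hHc.inter (isClosed_eq ?_ continuous_const)
    exact (act_cont fun a => (hG a).cont).matrix_mulVec continuous_const
  obtain ⟨ε, hε, h⟩ := image_closed hG hL M hMc (by
    intro N hN s hs hsN
    refine ⟨hs, ?_⟩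
    obtain ⟨c, hc⟩ := hf s hs
    have h1 : act V k s *ᵥ crd f = c • crd f := by
      rw [← crd_sumMap, hc, map_smul]
    obtain ⟨h2, h3⟩ := act_unip (k := k) hN.1 hsN
    have h4 : IsNilpotent (act V k s - 1) := by
      rw [h3]
      exact IsNilpotent.isNilpotent_exp_sub_one h2
    obtain ⟨m, hm⟩ := h4
    have h5 : ∀ j : ℕ, (act V k s - 1) ^ j *ᵥ crd f = (c - 1) ^ j • crd f := by
      intro j
      induction j with
      | zero => rw [pow_zero, pow_zero, Matrix.one_mulVec, one_smul]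
      | succ j ih =>
        have h6 : c • crd f - crd f = (c - 1) • crd f := by rw [sub_smul, one_smul]
        rw [pow_succ', ← Matrix.mulVec_mulVec, ih, Matrix.mulVec_smul, Matrix.sub_mulVec, h1,
          Matrix.one_mulVec, h6, smul_smul, ← pow_succ]
    have h6 := h5 m
    rw [hm, Matrix.zero_mulVec] at h6
    rcases smul_eq_zero.1 h6.symm with h7 | h7
    · have h8 : c = 1 := sub_eq_zero.1 (eq_zero_of_pow_eq_zero h7)
      rw [h1, h8, one_smul]
    · rw [h7, Matrix.mulVec_zero])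
  refine ⟨ε, hε, fun g hg hgε v => ?_⟩
  obtain ⟨σ, ⟨hσ, hσf⟩, hσg⟩ := h g hg hgε
  rw [← crd_sumMap] at hσf
  have h1 := crd_inj hσf
  have h2 := congrArg (fun F : Forms ℓ n k => F v) h1
  have h3 : (f.compLinearMap fun _ => sumMap V σ) v = f (fun i a => g a *ᵥ v i a) := by
    rw [MultilinearMap.compLinearMap_apply]
    congr 1
    funext i a
    rw [← hσg a]
    rfl
  rw [← h3]
  exact h2

/-- the forms in `k` arguments are a semisimple representation of `H` -/
theorem forms_semisimple (hG : ∀ a, Geo ι (w a) (J a) (V a)) {H : Subgroup (GK K)}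
    (hH : IsOpen (H : Set (GK K))) (hL : LieT J ≤ Submodule.span ℚ_[ℓ] (Logs V H))
    (W : Submodule ℚ_[ℓ] (Forms ℓ n k))
    (hW : ∀ σ ∈ H, ∀ f ∈ W, f.compLinearMap (fun _ => sumMap V σ) ∈ W) :
    ∃ W' : Submodule ℚ_[ℓ] (Forms ℓ n k),
      (∀ σ ∈ H, ∀ f ∈ W', f.compLinearMap (fun _ => sumMap V σ) ∈ W') ∧ IsCompl W W' := by
  classical
  have hHc : IsClosed (H : Set (GK K)) := H.isClosed_of_isOpen hH
  have hcomp := gk_compact (K := K)
  set W₁ := W.map (crd (ℓ := ℓ) (n := n) (k := k)) with hW₁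
  have hW₁s : ∀ σ ∈ H, ∀ x ∈ W₁, act V k σ *ᵥ x ∈ W₁ := by
    rintro σ hσ _ ⟨f, hf, rfl⟩
    exact ⟨_, hW σ hσ f hf, crd_sumMap σ f⟩
  -- the Lie algebra
  have hDD : ∀ A ∈ LieT (fun a => (J a)⁻¹), ∀ x ∈ W₁, DD (k := k) (bd A) *ᵥ x ∈ W₁ := by
    have h0 : ∀ B ∈ Submodule.span ℚ_[ℓ] (Logs V H), ∀ x ∈ W₁,
        DD (k := k) (bd fun a => (B a)ᵀ) *ᵥ x ∈ W₁ := by
      intro B hB
      induction hB using Submodule.span_induction with
      | mem N hN =>
        obtain ⟨hN, s, hs, hsN⟩ := hN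
        obtain ⟨h2, h3⟩ := act_unip (k := k) hN hsN
        refine exp_stable' h2 W₁ fun m x hx => ?_
        rw [← h3, ← act_pow]
        exact hW₁s _ (H.pow_mem hs m) x hx
      | zero =>
        intro x _
        have h1 : (bd fun a => ((0 : Tot ℓ n) a)ᵀ) = 0 := by
          have h2 : (fun a => ((0 : Tot ℓ n) a)ᵀ) = (0 : Tot ℓ n) := by
            funext a
            exact Matrix.transpose_zero
          rw [h2]
          exact blockDiagonal'_zero
        rw [h1]
        change DDl (k := k) 0 *ᵥ x ∈ W₁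
        rw [map_zero, Matrix.zero_mulVec]
        exact W₁.zero_mem
      | add B C _ _ hB hC =>
        intro x hx
        have h1 : (bd fun a => ((B + C) a)ᵀ) = (bd fun a => (B a)ᵀ) + bd fun a => (C a)ᵀ := by
          have h2 : (fun a => ((B + C) a)ᵀ) = (fun a => (B a)ᵀ) + fun a => (C a)ᵀ := by
            funext a
            exact Matrix.transpose_add _ _
          rw [h2]
          exact blockDiagonal'_add _ _
        rw [h1, DD_add, Matrix.add_mulVec]
        exact W₁.add_mem (hB x hx) (hC x hx)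
      | smul t B _ hB =>
        intro x hx
        let B' : Tot ℓ n := fun a => (B a)ᵀ
        have h1 : (bd fun a => ((t • B) a)ᵀ) = t • bd B' := by
          have h2 : (fun a => ((t • B) a)ᵀ) = t • B' := by
            funext a
            exact Matrix.transpose_smul t (B a)
          rw [h2]
          exact blockDiagonal'_smul t B'
        rw [h1, DD_smul, Matrix.smul_mulVec]
        exact W₁.smul_mem _ (hB x hx)
    intro A hA
    have h1 : (fun a => (A a)ᵀ) ∈ LieT J := by
      intro a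
      have hu : IsUnit (J a).det := isUnit_iff_ne_zero.2 (hG a).det
      have h2 : (A a)ᵀ * (J a)⁻¹ + (J a)⁻¹ * A a = 0 := hA a
      have h3 := congrArg (fun Z => J a * Z * J a) h2
      simp only [mul_add, add_mul, mul_zero, zero_mul] at h3
      rw [mul_assoc, mul_assoc ((A a)ᵀ), Matrix.nonsing_inv_mul _ hu, mul_one, ← mul_assoc (J a),
        Matrix.mul_nonsing_inv _ hu, one_mul] at h3
      change (A a)ᵀᵀ * J a + J a * (A a)ᵀ = 0
      rw [Matrix.transpose_transpose, add_comm]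
      exact h3
    have h2 := h0 _ (hL h1)
    simpa only [Matrix.transpose_transpose] using h2
  obtain ⟨p, hp1, hp2, hp3, hp4⟩ := proj_exists ι (fun a => (J a)⁻¹) (fun a => by
      have hu : IsUnit (J a).det := isUnit_iff_ne_zero.2 (hG a).det
      exact (Matrix.isUnit_nonsing_inv_det _ hu).ne_zero) (fun a => by
      rw [Matrix.transpose_nonsing_inv]
      rcases (hG a).symm with h | h
      · left; rw [h]
      · right
        rw [h]
        have hu : IsUnit (J a).det := isUnit_iff_ne_zero.2 (hG a).det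
        refine Matrix.inv_eq_left_inv ?_
        rw [neg_mul_neg, Matrix.nonsing_inv_mul _ hu]) k W₁ hDD
  -- elements of `H` that commute with `p`
  let M : Subgroup (GK K) :=
    { carrier := {σ | σ ∈ H ∧ p * act V k σ = act V k σ * p}
      one_mem' := ⟨H.one_mem, by rw [act_one, one_mul, mul_one]⟩
      mul_mem' := by
        rintro σ τ ⟨hσ, hσ'⟩ ⟨hτ, hτ'⟩
        exact ⟨H.mul_mem hσ hτ, by rw [act_mul, ← mul_assoc, hτ', mul_assoc, hσ', mul_assoc]⟩
      inv_mem' := by
        rintro σ ⟨hσ, hσ'⟩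
        refine ⟨H.inv_mem hσ, ?_⟩
        have h1 : act V k σ * act V k σ⁻¹ = 1 := by rw [← act_mul, inv_mul_cancel, act_one]
        have h2 : act V k σ⁻¹ * act V k σ = 1 := by rw [← act_mul, mul_inv_cancel, act_one]
        calc p * act V k σ⁻¹ = act V k σ⁻¹ * act V k σ * p * act V k σ⁻¹ := by
              rw [h2, one_mul]
          _ = act V k σ⁻¹ * (p * act V k σ) * act V k σ⁻¹ := by rw [hσ', mul_assoc (act V k σ⁻¹)]
          _ = act V k σ⁻¹ * p := by rw [mul_assoc, mul_assoc, h1, mul_one] }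
  have hMc : IsClosed (M : Set (GK K)) := by
    have h1 : (M : Set (GK K)) = (H : Set (GK K)) ∩ {σ | p * act V k σ = act V k σ * p} := rfl
    rw [h1]
    have h2 := act_cont (k := k) fun a => (hG a).cont
    exact hHc.inter (isClosed_eq (continuous_const.mul h2) (h2.mul continuous_const))
  obtain ⟨ε, hε, h⟩ := image_closed hG hL M hMc (by
    intro N hN s hs hsN
    refine ⟨hs, ?_⟩
    obtain ⟨h2, h3⟩ := act_unip (k := k) hN.1 hsN
    have h4 : Commute p (DD (k := k) (bd fun a => (N a)ᵀ)) := by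
      refine hp3 _ fun a => ?_
      have hu : IsUnit (J a).det := isUnit_iff_ne_zero.2 (hG a).det
      have h5 : (N a)ᵀ * J a + J a * N a = 0 := logs_lie hG N hN a
      have h6 := congrArg (fun Z => (J a)⁻¹ * Z * (J a)⁻¹) h5
      simp only [mul_add, add_mul, mul_zero, zero_mul] at h6
      rw [mul_assoc, mul_assoc ((N a)ᵀ), Matrix.mul_nonsing_inv _ hu, mul_one,
        ← mul_assoc ((J a)⁻¹), Matrix.nonsing_inv_mul _ hu, one_mul] at h6
      change (N a)ᵀᵀ * (J a)⁻¹ + (J a)⁻¹ * (N a)ᵀ = 0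
      rw [Matrix.transpose_transpose, add_comm]
      exact h6
    rw [h3]
    exact exp_commute h2 h4)
  -- elements near `1`
  let gg : GK K → Tot ℓ n := fun σ a => (J a)⁻¹ * (V a σ⁻¹)ᵀ * J a * V a σ
  have hJu : ∀ a, IsUnit (J a).det := fun a => isUnit_iff_ne_zero.2 (hG a).det
  have hgg1 : gg 1 = 1 := by
    funext a
    change (J a)⁻¹ * (V a 1⁻¹)ᵀ * J a * V a 1 = 1
    rw [inv_one, map_one, Matrix.transpose_one, mul_one, mul_one, Matrix.nonsing_inv_mul _ (hJu a)]
  have hggc : Continuous gg := by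
    refine continuous_pi fun a => ?_
    have h1 : Continuous fun σ : GK K => (V a σ⁻¹)ᵀ :=
      (((hG a).cont).comp continuous_inv).matrix_transpose
    exact ((continuous_const.mul h1).mul continuous_const).mul (hG a).cont
  have hact1 : act V k (1 : GK K) = 1 := act_one
  have hactc : Continuous (act V k) := act_cont fun a => (hG a).cont
  have h2pos : 0 < ‖(2 : ℚ_[ℓ])‖ / 2 := half_pos (norm_pos_iff.2 two_ne_zero)
  have hO : {σ : GK K | σ ∈ H ∧ (∀ a i j, ‖(gg σ a - 1) i j‖ < ε) ∧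
      ‖act V k σ - 1‖ < ‖(2 : ℚ_[ℓ])‖ / 2} ∈ nhds (1 : GK K) := by
    refine Filter.inter_mem (hH.mem_nhds H.one_mem) (Filter.inter_mem ?_ ?_)
    · have h1 : ∀ a i j, ∀ᶠ σ in nhds (1 : GK K), ‖(gg σ a - 1) i j‖ < ε := by
        intro a i j
        have h2 : Continuous fun σ : GK K => ‖(gg σ a - 1) i j‖ := by
          have h3 : Continuous fun σ : GK K => gg σ a := (continuous_apply a).comp hggc
          exact ((h3.sub continuous_const).matrix_elem i j).norm
        refine h2.continuousAt.eventually_lt continuousAt_const ?_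
        rw [hgg1, Pi.one_apply, sub_self, Matrix.zero_apply, norm_zero]
        exact hε
      have h4 := Filter.eventually_all.2 fun a => Filter.eventually_all.2 fun i =>
        Filter.eventually_all.2 fun j => h1 a i j
      exact h4
    · have h2 : Continuous fun σ : GK K => ‖act V k σ - 1‖ := (hactc.sub continuous_const).norm
      refine h2.continuousAt.eventually_lt continuousAt_const ?_
      rw [hact1, sub_self, norm_zero]
      exact h2pos
  obtain ⟨E, hE, hEO⟩ := (krullTopology_mem_nhds_one_iff K (AlgebraicClosure ℚ) _).1 hO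
  have hEo : IsOpen (E.fixingSubgroup : Set (GK K)) := E.fixingSubgroup_isOpen
  have hcommN : ∀ σ ∈ E.fixingSubgroup, p * act V k σ = act V k σ * p := by
    intro σ hσ
    obtain ⟨hσH, hσ1, hσ2⟩ := hEO hσ
    -- the multipliers
    have hc : ∀ a, ∃ c : ℚ_[ℓ], c ≠ 0 ∧ (V a σ)ᵀ * J a * V a σ = c • J a := by
      intro a
      obtain ⟨c, hc⟩ := (hG a).sim σ
      by_cases h0 : c = 0
      · refine ⟨1, one_ne_zero, ?_⟩
        rw [h0, zero_smul] at hc
        have h1 : V a σ * V a σ⁻¹ = 1 := by rw [← map_mul, mul_inv_cancel, map_one]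
        have h2 : (V a σ⁻¹)ᵀ * ((V a σ)ᵀ * J a * V a σ) * V a σ⁻¹ = J a := by
          calc (V a σ⁻¹)ᵀ * ((V a σ)ᵀ * J a * V a σ) * V a σ⁻¹
              = ((V a σ⁻¹)ᵀ * (V a σ)ᵀ) * J a * (V a σ * V a σ⁻¹) := by noncomm_ring
            _ = J a := by rw [← Matrix.transpose_mul, h1, Matrix.transpose_one, one_mul, mul_one]
        rw [hc, mul_zero, zero_mul] at h2
        rw [hc, ← h2, smul_zero]
      · exact ⟨c, h0, hc⟩
    choose c hc0 hc using hc
    have hV2 : ∀ a, V a σ * V a σ = c a • gg σ a := by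
      intro a
      have h1 : V a σ * V a σ⁻¹ = 1 := by rw [← map_mul, mul_inv_cancel, map_one]
      have h2 : J a * V a σ = c a • ((V a σ⁻¹)ᵀ * J a) := by
        have h3 := congrArg (fun Z => (V a σ⁻¹)ᵀ * Z) (hc a)
        simp only [mul_smul_comm] at h3
        rw [mul_assoc, ← mul_assoc (V a σ⁻¹)ᵀ, ← Matrix.transpose_mul, h1, Matrix.transpose_one,
          one_mul] at h3
        exact h3
      change _ = c a • ((J a)⁻¹ * (V a σ⁻¹)ᵀ * J a * V a σ)
      rw [← smul_mul_assoc, mul_assoc ((J a)⁻¹), ← mul_smul_comm, ← h2, ← mul_assoc,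
        Matrix.nonsing_inv_mul _ (hJu a), one_mul]
    have hgiso : ∀ a, (gg σ a)ᵀ * J a * gg σ a = J a := by
      intro a
      have h1 : gg σ a = (c a)⁻¹ • (V a σ * V a σ) := by
        rw [hV2, smul_smul, inv_mul_cancel₀ (hc0 a), one_smul]
      rw [h1, Matrix.transpose_smul, Matrix.smul_mul, Matrix.smul_mul, Matrix.mul_smul, smul_smul,
        Matrix.transpose_mul]
      have h2 : (V a σ)ᵀ * (V a σ)ᵀ * J a * (V a σ * V a σ) = (c a * c a) • J a := by
        calc (V a σ)ᵀ * (V a σ)ᵀ * J a * (V a σ * V a σ)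
            = (V a σ)ᵀ * ((V a σ)ᵀ * J a * V a σ) * V a σ := by noncomm_ring
          _ = (c a * c a) • J a := by
            rw [hc, mul_smul_comm, smul_mul_assoc, hc, smul_smul]
      rw [h2, smul_smul]
      have h3 : (c a)⁻¹ * (c a)⁻¹ * (c a * c a) = 1 := by
        have := hc0 a
        field_simp
      rw [h3, one_smul]
    obtain ⟨τ, ⟨hτH, hτp⟩, hτg⟩ := h (gg σ) hgiso hσ1
    set Ec := TP (k := k) (fun _ => bd fun a => c a • (1 : Matrix (Fin (n a)) (Fin (n a)) ℚ_[ℓ]))
      with hEc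
    have hsq : act V k (σ * σ) = Ec * act V k τ := by
      rw [hEc, act, act, TP_mul]
      congr 1
      funext i
      rw [Pi.mul_apply, blockDiagonal'_transpose, blockDiagonal'_transpose, ← blockDiagonal'_mul]
      congr 1
      funext a
      rw [map_mul, hV2, hτg, Matrix.transpose_smul, smul_mul_assoc, one_mul]
    have hEst : ∀ x ∈ W₁, Ec *ᵥ x ∈ W₁ := by
      intro x hx
      have h1 : Ec = act V k (σ * σ) * act V k τ⁻¹ := by
        rw [hsq, mul_assoc, ← act_mul, inv_mul_cancel, act_one, mul_one]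
      rw [h1, ← Matrix.mulVec_mulVec]
      exact hW₁s _ (H.mul_mem hσH hσH) _ (hW₁s _ (H.inv_mem hτH) x hx)
    have hEp := hp4 c hEst
    have hsq' : p * act V k (σ * σ) = act V k (σ * σ) * p := by
      rw [hsq, ← mul_assoc, hEp, mul_assoc, hτp, mul_assoc]
    rw [act_mul] at hsq'
    exact comm_of_sq (k := ℚ_[ℓ]) hσ2 hsq'
  -- transfer to forms
  let e := Submodule.equivMapOfInjective (crd (ℓ := ℓ) (n := n) (k := k)) crd_inj W
  let p₁ : Forms ℓ n k →ₗ[ℚ_[ℓ]] W₁ :=
    { toFun := fun f => ⟨p *ᵥ crd f, hp2 _⟩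
      map_add' := by
        intro f g
        apply Subtype.ext
        change p *ᵥ crd (f + g) = p *ᵥ crd f + p *ᵥ crd g
        rw [map_add, Matrix.mulVec_add]
      map_smul' := by
        intro t f
        apply Subtype.ext
        change p *ᵥ crd (t • f) = t • (p *ᵥ crd f)
        rw [map_smul, Matrix.mulVec_smul] }
  let p' : Forms ℓ n k →ₗ[ℚ_[ℓ]] Forms ℓ n k := W.subtype ∘ₗ e.symm.toLinearMap ∘ₗ p₁
  have hp' : ∀ f, crd (p' f) = p *ᵥ crd f := by
    intro f
    have h1 : ((e (e.symm (p₁ f)) : W₁) : _ → ℚ_[ℓ]) = crd ((e.symm (p₁ f) : W) : Forms ℓ n k) :=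
      Submodule.coe_equivMapOfInjective_apply _ _ _ _
    rw [LinearEquiv.apply_symm_apply] at h1
    exact h1.symm
  let ρ : H → Forms ℓ n k →ₗ[ℚ_[ℓ]] Forms ℓ n k := fun σ =>
    { toFun := fun f => f.compLinearMap fun _ => sumMap V σ
      map_add' := fun f g => rfl
      map_smul' := fun t f => rfl }
  have hρ : ∀ (σ : H) f, crd (ρ σ f) = act V k (σ : GK K) *ᵥ crd f := fun σ f =>
    crd_sumMap (σ : GK K) f
  have hNfi : (E.fixingSubgroup.subgroupOf H).FiniteIndex := by
    have h1 : (E.fixingSubgroup).FiniteIndex := ⟨finite_index hEo⟩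
    infer_instance
  obtain ⟨W', h1, h2⟩ := average (E.fixingSubgroup.subgroupOf H) ρ (fun f => by
      apply crd_inj
      rw [hρ, Subgroup.coe_one, act_one, Matrix.one_mulVec]) (fun σ τ f => by
      apply crd_inj
      rw [hρ, hρ, hρ, Subgroup.coe_mul, act_mul, Matrix.mulVec_mulVec]) W
    (fun σ f hf => hW σ σ.2 f hf) p' (fun f hf => by
      apply crd_inj
      rw [hp', hp1 _ ⟨f, hf, rfl⟩]) (fun f => (e.symm (p₁ f)).2) (fun σ hσ f => by
      apply crd_inj
      rw [hp', hρ, hρ, hp', Matrix.mulVec_mulVec, Matrix.mulVec_mulVec, hcommN (σ : GK K) hσ])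
  exact ⟨W', fun σ hσ f hf => h1 ⟨σ, hσ⟩ f hf, h2⟩

end

end Pool.Agent.LM
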